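import Pool.Agent.Lib.MP_39df77_nt.M12.Twelve
import Pool.Agent.Lib.MP_069854_nt.MX.Final

/-! The twelfth moment with a power saving, from the improved large value estimate and the
pointwise bound for the dual sum. -/

set_option autoImplicit false

open Complex MeasureTheory Set

namespace T12
open U6 M12

/-- the improved sixth moment -/
def Sixth : Prop := ∀ δ : ℝ, δ < 1 / 4400 → ∃ C : ℝ, ∀ T : ℝ, 1 ≤ T →
  ∫ t in (0 : ℝ)..T, ‖riemannZeta (1 / 2 + t * I)‖ ^ 6 ≤ C * T ^ (5 / 4 - δ)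

/-- sixth moment of `D` -/
theorem D_six (h6 : Sixth) {δ : ℝ} (hδ : δ < 1 / 4400) :
    ∃ C : ℝ, 0 < C ∧ ∀ T : ℝ, 2 ≤ T → ∫ t in T..(2 * T), ‖D (NN T) t‖ ^ 6 ≤ C * T ^ (5 / 4 - δ) := by
  obtain ⟨C1, h1⟩ := h6 δ hδ
  obtain ⟨C2, _, h2⟩ := zeta_le_D
  refine ⟨32 * (|C1| * 2 ^ (5 / 4 - δ)) + 32 * |C2| ^ 6 + 1, by positivity, fun T hT => ?_⟩
  have hT0 : 0 < T := by linarith
  have hT1 : 1 ≤ T := by linarith
  have hN0 : 0 < NN T := by unfold NN; positivity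
  have hDc : Continuous (fun t => ‖D (NN T) t‖ ^ 6) := (A03_D_cont hN0).norm.pow 6
  have hZc : Continuous (fun t : ℝ => ‖riemannZeta (1 / 2 + t * I)‖ ^ 6) := U6.FM.fm_zeta_cont.norm.pow 6
  have hb : ∫ t in T..(2 * T), ‖D (NN T) t‖ ^ 6 ≤
      ∫ t in T..(2 * T), (32 * ‖riemannZeta (1 / 2 + t * I)‖ ^ 6 + 32 * |C2| ^ 6) := by
    apply intervalIntegral.integral_mono_on (by linarith) (hDc.intervalIntegrable _ _)
      (((continuous_const.mul hZc).add continuous_const).intervalIntegrable _ _)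
    intro t ht
    have h3 := h2 T t hT ht.1 ht.2
    have h4 : ‖D (NN T) t‖ ≤ ‖riemannZeta (1 / 2 + t * I)‖ + |C2| := by
      have := norm_sub_norm_le (D (NN T) t) (riemannZeta (1 / 2 + t * I))
      rw [norm_sub_rev] at this
      have := le_abs_self C2
      linarith
    refine (pow_le_pow_left₀ (norm_nonneg _) h4 6).trans ?_
    have h5 := add_pow_le (norm_nonneg (riemannZeta (1 / 2 + t * I))) (abs_nonneg C2) 6
    norm_num at h5
    change (‖riemannZeta (1 / 2 + t * I)‖ + |C2|) ^ 6 ≤ 32 * ‖riemannZeta (1 / 2 + t * I)‖ ^ 6 + 32 * |C2| ^ 6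
    norm_num at *
    linarith
  refine hb.trans ?_
  have k1 : IntervalIntegrable (fun t : ℝ => 32 * ‖riemannZeta (1 / 2 + t * I)‖ ^ 6) volume T (2 * T) :=
    (continuous_const.mul hZc).intervalIntegrable _ _
  have k2 : IntervalIntegrable (fun _ : ℝ => 32 * |C2| ^ 6) volume T (2 * T) :=
    continuous_const.intervalIntegrable _ _
  rw [intervalIntegral.integral_add k1 k2, intervalIntegral.integral_const_mul,
    intervalIntegral.integral_const, smul_eq_mul]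
  have h6 := h1 (2 * T) (by linarith)
  have h6' : ∫ t in T..(2 * T), ‖riemannZeta (1 / 2 + t * I)‖ ^ 6 ≤
      ∫ t in (0 : ℝ)..(2 * T), ‖riemannZeta (1 / 2 + t * I)‖ ^ 6 :=
    intervalIntegral.integral_mono_interval hT0.le (by linarith) le_rfl
      (Filter.Eventually.of_forall fun t => by positivity) (hZc.intervalIntegrable _ _)
  have h7 : C1 * (2 * T) ^ (5 / 4 - δ) ≤ |C1| * 2 ^ (5 / 4 - δ) * T ^ (5 / 4 - δ) := by
    rw [Real.mul_rpow (by norm_num) hT0.le, mul_assoc]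
    exact mul_le_mul_of_nonneg_right (le_abs_self _) (by positivity)
  have h8 : T ≤ T ^ (5 / 4 - δ) := by
    calc T = T ^ (1 : ℝ) := (Real.rpow_one T).symm
      _ ≤ _ := Real.rpow_le_rpow_of_exponent_le hT1 (by linarith)
  have h9 : (2 * T - T) * (32 * |C2| ^ 6) ≤ 32 * |C2| ^ 6 * T ^ (5 / 4 - δ) := by
    calc (2 * T - T) * (32 * |C2| ^ 6) = 32 * |C2| ^ 6 * T := by ring
      _ ≤ _ := mul_le_mul_of_nonneg_left h8 (by positivity)
  have h10 : 0 ≤ T ^ (5 / 4 - δ) := by positivity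
  calc 32 * (∫ t in T..(2 * T), ‖riemannZeta (1 / 2 + t * I)‖ ^ 6) + (2 * T - T) * (32 * |C2| ^ 6)
      ≤ 32 * (|C1| * 2 ^ (5 / 4 - δ) * T ^ (5 / 4 - δ)) + 32 * |C2| ^ 6 * T ^ (5 / 4 - δ) := by linarith
    _ ≤ _ := by nlinarith

/-- exponent arithmetic for one scale -/
theorem scale_x {T ε x c Cm CL : ℝ} {K : ℕ} (hT : 1 ≤ T) (hε : 0 < ε)
    (hK : (K : ℝ) ≤ 2 * T ^ (1 / 2 + 4 * ε - 2 * x)) {c3 : ℝ} (hx : x ≤ 1 / 12 - c3)
    (hCm : 0 ≤ Cm) (hCL : 0 ≤ CL) {d : ℝ} (hd1 : d + 32 * ε ≤ 3 * c3) (hd2 : d + 32 * ε ≤ c) :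
    (T ^ (1 / 4 + x + 3 * ε)) ^ 5 * (Cm * T ^ (2 * ε) *
      (CL * T ^ (5 * ε) * (K + (K : ℝ) ^ 2 * √(K : ℝ) / √T * T ^ (-c)))) ≤ 10 * (Cm * CL) * T ^ (2 - d) := by
  have hT0 : 0 < T := by linarith
  set κ : ℝ := T ^ (1 / 2 + 4 * ε - 2 * x) with hκ
  have hκ0 : 0 < κ := by positivity
  have hK0 : (0 : ℝ) ≤ K := Nat.cast_nonneg K
  have e1 : (K : ℝ) ^ 2 * √(K : ℝ) ≤ 8 * (κ ^ 2 * √κ) := by
    have h1 : (K : ℝ) ^ 2 ≤ (2 * κ) ^ 2 := pow_le_pow_left₀ hK0 hK 2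
    have h2 : √(K : ℝ) ≤ √(2 * κ) := Real.sqrt_le_sqrt hK
    have h3 : √(2 * κ) ≤ 2 * √κ := by
      rw [Real.sqrt_le_left (by positivity), mul_pow, Real.sq_sqrt hκ0.le]
      linarith
    calc (K : ℝ) ^ 2 * √(K : ℝ) ≤ (2 * κ) ^ 2 * (2 * √κ) :=
          mul_le_mul h1 (h2.trans h3) (Real.sqrt_nonneg _) (by positivity)
      _ = 8 * (κ ^ 2 * √κ) := by ring
  have e2 : κ ^ 2 * √κ / √T * T ^ (-c) = T ^ (5 / 4 + 10 * ε - 5 * x - 1 / 2 - c) := by
    rw [Real.sqrt_eq_rpow, Real.sqrt_eq_rpow, hκ, ← Real.rpow_natCast, ← Real.rpow_mul hT0.le,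
      ← Real.rpow_mul hT0.le, ← Real.rpow_add hT0, ← Real.rpow_sub hT0, ← Real.rpow_add hT0]
    congr 1
    push_cast
    ring
  have e3 : (K : ℝ) + (K : ℝ) ^ 2 * √(K : ℝ) / √T * T ^ (-c) ≤
      2 * κ + 8 * T ^ (5 / 4 + 10 * ε - 5 * x - 1 / 2 - c) := by
    have h1 : (K : ℝ) ^ 2 * √(K : ℝ) / √T * T ^ (-c) ≤ 8 * (κ ^ 2 * √κ) / √T * T ^ (-c) :=
      mul_le_mul_of_nonneg_right (div_le_div_of_nonneg_right e1 (Real.sqrt_nonneg _)) (by positivity)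
    rw [show 8 * (κ ^ 2 * √κ) / √T * T ^ (-c) = 8 * (κ ^ 2 * √κ / √T * T ^ (-c)) by ring, e2] at h1
    linarith
  have e4 : (T ^ (1 / 4 + x + 3 * ε)) ^ 5 = T ^ (5 / 4 + 5 * x + 15 * ε) := by
    rw [← Real.rpow_natCast, ← Real.rpow_mul hT0.le]
    congr 1
    push_cast
    ring
  rw [e4]
  calc T ^ (5 / 4 + 5 * x + 15 * ε) * (Cm * T ^ (2 * ε) *
        (CL * T ^ (5 * ε) * (K + (K : ℝ) ^ 2 * √(K : ℝ) / √T * T ^ (-c))))
      ≤ T ^ (5 / 4 + 5 * x + 15 * ε) * (Cm * T ^ (2 * ε) *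
        (CL * T ^ (5 * ε) * (2 * κ + 8 * T ^ (5 / 4 + 10 * ε - 5 * x - 1 / 2 - c)))) := by
        gcongr
    _ = Cm * CL * (2 * (T ^ (5 / 4 + 5 * x + 15 * ε) * T ^ (2 * ε) * T ^ (5 * ε) * κ) +
          8 * (T ^ (5 / 4 + 5 * x + 15 * ε) * T ^ (2 * ε) * T ^ (5 * ε) *
            T ^ (5 / 4 + 10 * ε - 5 * x - 1 / 2 - c))) := by ring
    _ = Cm * CL * (2 * T ^ (5 / 4 + 5 * x + 15 * ε + 2 * ε + 5 * ε + (1 / 2 + 4 * ε - 2 * x)) +
          8 * T ^ (5 / 4 + 5 * x + 15 * ε + 2 * ε + 5 * ε + (5 / 4 + 10 * ε - 5 * x - 1 / 2 - c))) := by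
        rw [hκ, ← Real.rpow_add hT0, ← Real.rpow_add hT0, ← Real.rpow_add hT0, ← Real.rpow_add hT0]
    _ ≤ Cm * CL * (2 * T ^ (2 - d) + 8 * T ^ (2 - d)) := by
        apply mul_le_mul_of_nonneg_left _ (by positivity)
        have h1 : T ^ (5 / 4 + 5 * x + 15 * ε + 2 * ε + 5 * ε + (1 / 2 + 4 * ε - 2 * x)) ≤
            T ^ (2 - d) := Real.rpow_le_rpow_of_exponent_le hT (by linarith)
        have h2 : T ^ (5 / 4 + 5 * x + 15 * ε + 2 * ε + 5 * ε + (5 / 4 + 10 * ε - 5 * x - 1 / 2 - c)) ≤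
            T ^ (2 - d) := Real.rpow_le_rpow_of_exponent_le hT (by linarith)
        linarith
    _ = 10 * (Cm * CL) * T ^ (2 - d) := by ring


/-- improved large value estimate for the dual sum -/
def LargeX : Prop := ∀ κ : ℝ, 0 < κ → κ ≤ 1 / 10 → ∃ c : ℝ, 0 < c ∧ c ≤ 1 / 100 ∧
  ∀ δ : ℝ, 0 < δ → δ ≤ c / 10 → ∃ C T₀ : ℝ, 0 < C ∧ 1 ≤ T₀ ∧ ∀ (T G : ℝ) (K : ℕ),
  T₀ ≤ T → 0 ≤ G → 1 ≤ K → 5 * (K : ℝ) ≤ T → T ^ (1 / 3 : ℝ) ≤ K → (K : ℝ) ≤ T ^ (1 / 2 - κ) →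
  volume.real ({t | 1 ≤ ‖U6.Y G t K‖} ∩ Icc T (3 * T)) ≤
    C * T ^ (5 * δ) * (K + (K : ℝ) ^ 2 * √(K : ℝ) / √T * T ^ (-c))

/-- pointwise bound for the short dual sum -/
def YSub : Prop := ∃ c T₀ : ℝ, 0 < c ∧ c ≤ 1 / 100 ∧ 1 ≤ T₀ ∧ ∀ (T t G : ℝ) (K : ℕ), T₀ ≤ T →
  T ≤ t → t ≤ 4 * T → 0 ≤ G → 1 ≤ K → (K : ℝ) ≤ T ^ (1 / 3 + c) → ‖U6.Y G t K‖ ≤ 1

/-- twelfth moment of `D` with a power saving -/
theorem D_twelve_of (hsix : Sixth) (hLarge : LargeX) (hYsub : YSub) :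
    ∃ δ C T₀ : ℝ, 0 < δ ∧ 0 < C ∧ 1 ≤ T₀ ∧ ∀ T : ℝ, T₀ ≤ T →
      ∫ t in T..(2 * T), ‖U6.D (U6.NN T) t‖ ^ 12 ≤ C * T ^ (2 - δ) := by
  obtain ⟨c1, hc10, hc11, hL⟩ := hLarge (1 / 20000) (by norm_num) (by norm_num)
  obtain ⟨c2, TY, hc20, hc21, hTY1, hY⟩ := hYsub
  set c3 : ℝ := c2 / 4 with hc3
  set v0 : ℝ := 1 / 20000 with hv0
  set d : ℝ := min (3 * c3) (min c1 (1 / 20000)) / 2 with hd
  have hd0 : 0 < d := by
    have : 0 < min (3 * c3) (min c1 (1 / 20000)) := by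
      apply lt_min (by positivity) (lt_min hc10 (by norm_num))
    rw [hd]; linarith
  have hd1 : 2 * d ≤ 3 * c3 := by
    rw [hd]; linarith [min_le_left (3 * c3) (min c1 (1 / 20000))]
  have hd2 : 2 * d ≤ c1 := by
    rw [hd]; linarith [min_le_right (3 * c3) (min c1 (1 / 20000)), min_le_left c1 (1 / 20000)]
  have hd3 : 2 * d ≤ 1 / 20000 := by
    rw [hd]; linarith [min_le_right (3 * c3) (min c1 (1 / 20000)), min_le_right c1 (1 / 20000)]
  have hlen : 0 < 1 / 12 - c3 - v0 := by rw [hc3, hv0]; linarith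
  obtain ⟨n, hn⟩ := exists_nat_ge (100 * (1 / 12 - c3 - v0) / d)
  have hn0 : 0 < n := by
    rcases Nat.eq_zero_or_pos n with h0 | h0
    · exfalso
      subst h0
      rw [Nat.cast_zero] at hn
      have : 0 < 100 * (1 / 12 - c3 - v0) / d := by positivity
      linarith
    · exact h0
  have hnr : (0 : ℝ) < n := by exact_mod_cast hn0
  set ε : ℝ := (1 / 12 - c3 - v0) / n with hεd
  have hε : 0 < ε := by positivity
  have hnε : (n : ℝ) * ε = 1 / 12 - c3 - v0 := by rw [hεd]; field_simp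
  have hεd' : 100 * ε ≤ d := by
    rw [div_le_iff₀ hd0] at hn
    rw [hεd, mul_div_assoc', div_le_iff₀ hnr]
    linarith
  have hε1 : ε ≤ 1 / 4000000 := by linarith
  have hεc1 : ε ≤ c1 / 200 := by linarith
  have hεc2 : 200 * ε ≤ 3 * c2 / 4 := by
    rw [hc3] at hd1
    linarith
  obtain ⟨Cm, Tm, hCm, hTm1, hS⟩ := mean_S hε (by linarith)
  obtain ⟨TB, hTB1, hBY⟩ := B_Y hε (by linarith)
  obtain ⟨TD, hTD1, hD⟩ := D_sup hε
  obtain ⟨C6, hC6, h6⟩ := D_six hsix (δ := 1 / 5000) (by norm_num)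
  obtain ⟨CL, TL, hCL, hTL1, hL⟩ := hL ε hε (by linarith)
  have ev1 : ∀ᶠ T : ℝ in Filter.atTop, 2 ≤ T ^ (c2 / 4) :=
    (tendsto_rpow_atTop (by positivity)).eventually_ge_atTop _
  have ev2 : ∀ᶠ T : ℝ in Filter.atTop, 10 ≤ T ^ (1 / 2 - 4 * ε) :=
    (tendsto_rpow_atTop (by linarith)).eventually_ge_atTop _
  have ev3 : ∀ᶠ T : ℝ in Filter.atTop, 2 ≤ T ^ (v0 / 2) :=
    (tendsto_rpow_atTop (by rw [hv0]; norm_num)).eventually_ge_atTop _
  obtain ⟨T₀, hT₀⟩ := Filter.eventually_atTop.1 (((ev1.and ev2).and (ev3.and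
    (Filter.eventually_ge_atTop TY))).and
    (((Filter.eventually_ge_atTop (2:ℝ)).and (Filter.eventually_ge_atTop Tm)).and
      (((Filter.eventually_ge_atTop TB).and (Filter.eventually_ge_atTop TD)).and
        (Filter.eventually_ge_atTop TL))))
  refine ⟨d, C6 + n * (10 * (Cm * CL)), max T₀ 1, hd0, by positivity, le_max_right _ _, fun T hT => ?_⟩
  obtain ⟨⟨⟨c1', c2'⟩, c3', hTTY⟩, ⟨hT2, hTTm⟩, ⟨hTTB, hTTD⟩, hTTL⟩ := hT₀ T ((le_max_left _ _).trans hT)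
  have hT0 : 0 < T := by linarith
  have hT1 : 1 ≤ T := by linarith
  have hN0 : 0 < NN T := by unfold NN; positivity
  set G : ℕ → ℝ := fun i => T ^ (1 / 4 + (v0 + i * ε)) with hG
  have hG0 : ∀ i, 0 < G i := fun i => by simp only [hG]; positivity
  have hv00 : 0 < v0 := by rw [hv0]; norm_num
  have hGl : ∀ i, T ^ (1 / 4 : ℝ) ≤ G i := fun i => by
    simp only [hG]
    apply Real.rpow_le_rpow_of_exponent_le hT1
    have : 0 ≤ (i : ℝ) * ε := by positivity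
    linarith
  have hiε : ∀ i : ℕ, i ≤ n → v0 + (i : ℝ) * ε ≤ 1 / 12 - c3 := fun i hi => by
    have h1 : (i : ℝ) ≤ n := by exact_mod_cast hi
    have := mul_le_mul_of_nonneg_right h1 hε.le
    linarith
  have hc30 : 0 < c3 := by positivity
  have hGu : ∀ i, i ≤ n → G i ≤ T ^ (2 / 5 : ℝ) := fun i hi => by
    simp only [hG]
    apply Real.rpow_le_rpow_of_exponent_le hT1
    have := hiε i hi
    linarith
  have hGs : ∀ i, G (i + 1) = T ^ ε * G i := fun i => by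
    simp only [hG]
    rw [← Real.rpow_add hT0]
    congr 1
    push_cast
    ring
  have hTe1 : 1 ≤ T ^ ε := Real.one_le_rpow hT1 hε.le
  have hGm : ∀ i, G i ≤ G (i + 1) := fun i => by
    rw [hGs]
    have := hG0 i
    nlinarith
  have hG1 : ∀ i, 1 ≤ G i := fun i => (Real.one_le_rpow hT1 (by norm_num)).trans (hGl i)
  -- the exponent of `T^(1+4ε) / G_i^2`
  have hGe : ∀ i : ℕ, T ^ (1 + 4 * ε) / G i ^ 2 = T ^ (1 / 2 + 4 * ε - 2 * (v0 + i * ε)) := fun i => by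
    simp only [hG]
    rw [← Real.rpow_natCast, ← Real.rpow_mul hT0.le, ← Real.rpow_sub hT0]
    congr 1
    push_cast
    ring
  have hKl : ∀ i : ℕ, T ^ (1 / 2 + 4 * ε - 2 * (v0 + i * ε)) ≤ KG (G i) ε T := fun i => by
    rw [← hGe]
    exact Nat.le_ceil _
  have hKu : ∀ i : ℕ, i ≤ n → (KG (G i) ε T : ℝ) ≤ 2 * T ^ (1 / 2 + 4 * ε - 2 * (v0 + i * ε)) := fun i hi => by
    have h1 : (KG (G i) ε T : ℝ) < T ^ (1 + 4 * ε) / G i ^ 2 + 1 :=
      Nat.ceil_lt_add_one (by have := hG0 i; positivity)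
    rw [hGe] at h1
    have h2 : 1 ≤ T ^ (1 / 2 + 4 * ε - 2 * (v0 + i * ε)) := by
      apply Real.one_le_rpow hT1
      have := hiε i hi
      linarith
    linarith
  have hK1 : ∀ i : ℕ, 1 ≤ KG (G i) ε T := fun i => by
    apply Nat.ceil_pos.2
    have := hG0 i
    positivity
  -- no large values at the last scale
  have hlast : ∀ t, T ≤ t → t ≤ 2 * T → B (NN T) (G n) t < T ^ ε := by
    intro t ht1 ht2
    refine (hBY T t (G n) hTTB ht1 (by linarith) (hGl n) (hGu n le_rfl)).2 ?_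
    refine hY T t (G n) (KG (G n) ε T) hTTY ht1 (by linarith) (hG0 n).le (hK1 n) ?_
    refine (hKu n le_rfl).trans ?_
    rw [hnε]
    calc 2 * T ^ (1 / 2 + 4 * ε - 2 * (v0 + (1 / 12 - c3 - v0)))
        ≤ T ^ (c2 / 4) * T ^ (1 / 2 + 4 * ε - 2 * (v0 + (1 / 12 - c3 - v0))) :=
          mul_le_mul_of_nonneg_right c1' (by positivity)
      _ = T ^ (c2 / 4 + (1 / 2 + 4 * ε - 2 * (v0 + (1 / 12 - c3 - v0)))) := by
          rw [← Real.rpow_add hT0]
      _ ≤ T ^ (1 / 3 + c2) := by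
          apply Real.rpow_le_rpow_of_exponent_le hT1
          rw [hc3]
          linarith
  -- pointwise inequality
  set dd : ℝ → ℝ := fun t => ‖D (NN T) t‖ with hdd
  have hdd0 : ∀ t, 0 ≤ dd t := fun t => norm_nonneg _
  have hdc : Continuous dd := (A03_D_cont hN0).norm
  set S : ℕ → Set ℝ := fun i => {t | T ^ ε ≤ B (NN T) (G i) t} ∩ {t | B (NN T) (G (i + 1)) t < T ^ ε} with hSd
  have hSm : ∀ i, MeasurableSet (S i) := fun i =>
    (measurableSet_le measurable_const (B_meas _ hN0)).inter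
      (measurableSet_lt (B_meas _ hN0) measurable_const)
  set F : ℕ → ℝ → ℝ := fun i => (S i).indicator (fun t => dd t ^ 2) with hF
  have hF0 : ∀ i t, 0 ≤ F i t := fun i t => indicator_nonneg (fun _ _ => sq_nonneg _) _
  have hFi : ∀ i, ∀ a b : ℝ, IntervalIntegrable (F i) volume a b := fun i =>
    ii_of_bdd_meas (hdc.pow 2) ((hdc.pow 2).measurable.indicator (hSm i)) fun t => by
      rw [abs_of_nonneg (hF0 i t)]
      exact indicator_le_self' (fun _ _ => sq_nonneg _) t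
  have hpt : ∀ t ∈ Icc T (2 * T), dd t ^ 12 ≤ (T ^ (2 * ε) * G 0) ^ 3 * dd t ^ 6 +
      ∑ i ∈ Finset.range n, (T ^ (1 / 4 + (v0 + (i : ℝ) * ε) + 3 * ε)) ^ 5 * F i t := by
    intro t ht
    have hsum0 : 0 ≤ ∑ i ∈ Finset.range n, (T ^ (1 / 4 + (v0 + (i : ℝ) * ε) + 3 * ε)) ^ 5 * F i t :=
      Finset.sum_nonneg fun i _ => mul_nonneg (by positivity) (hF0 i t)
    have hfirst0 : 0 ≤ (T ^ (2 * ε) * G 0) ^ 3 * dd t ^ 6 := by
      have := hG0 0
      positivity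
    by_cases hB : B (NN T) (G 0) t < T ^ ε
    · have h1 : dd t ^ 2 ≤ T ^ (2 * ε) * G 0 := hD T t (G 0) hTTD (hG1 0) hB
      have h2 : dd t ^ 12 ≤ (T ^ (2 * ε) * G 0) ^ 3 * dd t ^ 6 := by
        calc dd t ^ 12 = (dd t ^ 2) ^ 3 * dd t ^ 6 := by ring
          _ ≤ _ := mul_le_mul_of_nonneg_right (pow_le_pow_left₀ (sq_nonneg _) h1 3) (by positivity)
      linarith
    · push Not at hB
      obtain ⟨i, hiM, hi1, hi2⟩ := crossing (p := fun i => T ^ ε ≤ B (NN T) (G i) t) (M := n) hB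
        (not_le.2 (hlast t ht.1 ht.2))
      have hi2' : B (NN T) (G (i + 1)) t < T ^ ε := not_le.1 hi2
      have h1 : dd t ^ 2 ≤ T ^ (2 * ε) * G (i + 1) := hD T t (G (i + 1)) hTTD (hG1 _) hi2'
      have h1' : T ^ (2 * ε) * G (i + 1) = T ^ (1 / 4 + (v0 + (i : ℝ) * ε) + 3 * ε) := by
        simp only [hG]
        rw [← Real.rpow_add hT0]
        congr 1
        push_cast
        ring
      rw [h1'] at h1
      have h2 : F i t = dd t ^ 2 := indicator_of_mem (show t ∈ S i from ⟨hi1, hi2'⟩) _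
      have h3 : dd t ^ 12 ≤ (T ^ (1 / 4 + (v0 + (i : ℝ) * ε) + 3 * ε)) ^ 5 * F i t := by
        rw [h2]
        calc dd t ^ 12 = (dd t ^ 2) ^ 5 * dd t ^ 2 := by ring
          _ ≤ _ := mul_le_mul_of_nonneg_right (pow_le_pow_left₀ (sq_nonneg _) h1 5) (by positivity)
      have h4 : (T ^ (1 / 4 + (v0 + (i : ℝ) * ε) + 3 * ε)) ^ 5 * F i t ≤
          ∑ i ∈ Finset.range n, (T ^ (1 / 4 + (v0 + (i : ℝ) * ε) + 3 * ε)) ^ 5 * F i t :=
        Finset.single_le_sum (f := fun i : ℕ => (T ^ (1 / 4 + (v0 + (i : ℝ) * ε) + 3 * ε)) ^ 5 * F i t)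
          (fun i _ => mul_nonneg (by positivity) (hF0 i t)) (Finset.mem_range.2 hiM)
      linarith
  -- integrate
  have hi1 : IntervalIntegrable (fun t => (T ^ (2 * ε) * G 0) ^ 3 * dd t ^ 6) volume T (2 * T) :=
    (continuous_const.mul (hdc.pow 6)).intervalIntegrable _ _
  have hi2 : IntervalIntegrable (fun t => ∑ i ∈ Finset.range n,
      (T ^ (1 / 4 + (v0 + (i : ℝ) * ε) + 3 * ε)) ^ 5 * F i t) volume T (2 * T) := by
    have := IntervalIntegrable.sum (μ := volume) (a := T) (b := 2 * T) (Finset.range n)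
      (f := fun (i : ℕ) t => (T ^ (1 / 4 + (v0 + (i : ℝ) * ε) + 3 * ε)) ^ 5 * F i t)
      (fun i _ => (hFi i T (2 * T)).const_mul _)
    refine this.congr ?_
    intro t _
    simp
  have hint : ∫ t in T..(2 * T), dd t ^ 12 ≤ (T ^ (2 * ε) * G 0) ^ 3 * (∫ t in T..(2 * T), dd t ^ 6) +
      ∑ i ∈ Finset.range n, (T ^ (1 / 4 + (v0 + (i : ℝ) * ε) + 3 * ε)) ^ 5 * ∫ t in T..(2 * T), F i t := by
    refine (intervalIntegral.integral_mono_on (by linarith) ((hdc.pow 12).intervalIntegrable _ _)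
      (hi1.add hi2) hpt).trans (le_of_eq ?_)
    rw [intervalIntegral.integral_add hi1 hi2, intervalIntegral.integral_const_mul,
      intervalIntegral.integral_finsetSum (fun i _ => (hFi i T (2 * T)).const_mul _)]
    congr 1
    refine Finset.sum_congr rfl fun i _ => ?_
    rw [intervalIntegral.integral_const_mul]
  refine hint.trans ?_
  have hfirst : (T ^ (2 * ε) * G 0) ^ 3 * (∫ t in T..(2 * T), dd t ^ 6) ≤ C6 * T ^ (2 - d) := by
    have h1 := h6 T hT2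
    have h2 : (T ^ (2 * ε) * G 0) ^ 3 = T ^ (3 / 4 + 3 * v0 + 6 * ε) := by
      simp only [hG]
      rw [← Real.rpow_add hT0, ← Real.rpow_natCast, ← Real.rpow_mul hT0.le]
      congr 1
      push_cast
      ring
    rw [h2]
    calc T ^ (3 / 4 + 3 * v0 + 6 * ε) * (∫ t in T..(2 * T), dd t ^ 6)
        ≤ T ^ (3 / 4 + 3 * v0 + 6 * ε) * (C6 * T ^ (5 / 4 - 1 / 5000 : ℝ)) :=
          mul_le_mul_of_nonneg_left h1 (by positivity)
      _ = C6 * T ^ (3 / 4 + 3 * v0 + 6 * ε + (5 / 4 - 1 / 5000)) := by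
          rw [mul_left_comm, ← Real.rpow_add hT0]
      _ ≤ C6 * T ^ (2 - d) := by
          apply mul_le_mul_of_nonneg_left _ hC6.le
          apply Real.rpow_le_rpow_of_exponent_le hT1
          rw [hv0]
          linarith
  have hrest : ∀ i ∈ Finset.range n, (T ^ (1 / 4 + (v0 + (i : ℝ) * ε) + 3 * ε)) ^ 5 *
      (∫ t in T..(2 * T), F i t) ≤ 10 * (Cm * CL) * T ^ (2 - d) := by
    intro i hi
    rw [Finset.mem_range] at hi
    have h1 := hS T (G i) (G (i + 1)) hTTm (hGl i) (hGm i) (hGu (i + 1) (by omega)) (hGs i).le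
    have hKi := hKu i hi.le
    have hxi := hiε i hi.le
    have hie : 0 ≤ (i : ℝ) * ε := by positivity
    have h2 := hL T (G i) (KG (G i) ε T) hTTL (hG0 i).le (hK1 i) (by
      have h3 : T ^ (1 / 2 + 4 * ε - 2 * (v0 + i * ε)) ≤ T ^ (1 / 2 + 4 * ε) := by
        apply Real.rpow_le_rpow_of_exponent_le hT1
        linarith
      calc 5 * (KG (G i) ε T : ℝ) ≤ 5 * (2 * T ^ (1 / 2 + 4 * ε)) := by linarith
        _ = 10 * T ^ (1 / 2 + 4 * ε) := by ring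
        _ ≤ T ^ (1 / 2 - 4 * ε) * T ^ (1 / 2 + 4 * ε) := mul_le_mul_of_nonneg_right c2' (by positivity)
        _ = T := by
            rw [← Real.rpow_add hT0]
            have : (1 / 2 - 4 * ε + (1 / 2 + 4 * ε)) = 1 := by ring
            rw [this, Real.rpow_one]) (by
      refine le_trans ?_ (hKl i)
      apply Real.rpow_le_rpow_of_exponent_le hT1
      linarith) (by
      refine hKi.trans ?_
      calc 2 * T ^ (1 / 2 + 4 * ε - 2 * (v0 + i * ε)) ≤ T ^ (v0 / 2) * T ^ (1 / 2 + 4 * ε - 2 * (v0 + i * ε)) :=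
            mul_le_mul_of_nonneg_right c3' (by positivity)
        _ = T ^ (v0 / 2 + (1 / 2 + 4 * ε - 2 * (v0 + i * ε))) := by rw [← Real.rpow_add hT0]
        _ ≤ T ^ (1 / 2 - v0) := by
            apply Real.rpow_le_rpow_of_exponent_le hT1
            rw [hv0]
            linarith)
    have h3 := scale_x (T := T) (ε := ε) (x := v0 + i * ε) (c := c1) (Cm := Cm) (CL := CL)
      (K := KG (G i) ε T) hT1 hε hKi (c3 := c3) hxi hCm.le hCL.le (d := d) (by linarith)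
      (by linarith)
    refine le_trans ?_ h3
    apply mul_le_mul_of_nonneg_left _ (by positivity)
    exact h1.trans (mul_le_mul_of_nonneg_left h2 (by positivity))
  have hsum := Finset.sum_le_sum hrest
  rw [Finset.sum_const, Finset.card_range, nsmul_eq_mul] at hsum
  calc _ ≤ C6 * T ^ (2 - d) + n * (10 * (Cm * CL) * T ^ (2 - d)) := add_le_add hfirst hsum
    _ = _ := by ring

/-- pointwise bound for `D`, beyond the classical exponent -/
theorem D_sup_of (hYsub : YSub) : ∃ T₀ : ℝ, 1 ≤ T₀ ∧ ∀ T t : ℝ, T₀ ≤ T → T ≤ t → t ≤ 2 * T →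
    ‖D (NN T) t‖ ≤ T ^ (1 / 6 : ℝ) := by
  obtain ⟨c2, TY, hc20, hc21, hTY1, hY⟩ := hYsub
  set ε : ℝ := c2 / 100 with hεd
  have hε : 0 < ε := by positivity
  obtain ⟨TB, hTB1, hBY⟩ := B_Y hε (by linarith)
  obtain ⟨TD, hTD1, hD⟩ := D_sup hε
  have ev1 : ∀ᶠ T : ℝ in Filter.atTop, 2 ≤ T ^ (c2 / 4) :=
    (tendsto_rpow_atTop (by positivity)).eventually_ge_atTop _
  obtain ⟨T₀, hT₀⟩ := Filter.eventually_atTop.1 ((ev1.and
    (Filter.eventually_ge_atTop TY)).and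
    ((Filter.eventually_ge_atTop TB).and (Filter.eventually_ge_atTop TD)))
  refine ⟨max T₀ 1, le_max_right _ _, fun T t hT ht1 ht2 => ?_⟩
  obtain ⟨⟨c1', hTTY⟩, hTTB, hTTD⟩ := hT₀ T ((le_max_left _ _).trans hT)
  have hT1 : 1 ≤ T := (le_max_right _ _).trans hT
  have hT0 : 0 < T := by linarith
  set G : ℝ := T ^ (1 / 3 - c2 / 4) with hG
  have hG0 : 0 < G := by positivity
  have hGl : T ^ (1 / 4 : ℝ) ≤ G := Real.rpow_le_rpow_of_exponent_le hT1 (by linarith)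
  have hGu : G ≤ T ^ (2 / 5 : ℝ) := Real.rpow_le_rpow_of_exponent_le hT1 (by linarith)
  have hGe : T ^ (1 + 4 * ε) / G ^ 2 = T ^ (1 / 3 + 4 * ε + c2 / 2) := by
    rw [hG, ← Real.rpow_natCast, ← Real.rpow_mul hT0.le, ← Real.rpow_sub hT0]
    congr 1
    push_cast
    ring
  have hKu : (KG G ε T : ℝ) ≤ 2 * T ^ (1 / 3 + 4 * ε + c2 / 2) := by
    have h1 : (KG G ε T : ℝ) < T ^ (1 + 4 * ε) / G ^ 2 + 1 :=
      Nat.ceil_lt_add_one (by positivity)
    rw [hGe] at h1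
    have h2 : 1 ≤ T ^ (1 / 3 + 4 * ε + c2 / 2) := Real.one_le_rpow hT1 (by linarith)
    linarith
  have hK1 : 1 ≤ KG G ε T := by
    apply Nat.ceil_pos.2
    positivity
  have hB : B (NN T) G t < T ^ ε := by
    refine (hBY T t G hTTB ht1 (by linarith) hGl hGu).2 ?_
    refine hY T t G (KG G ε T) hTTY ht1 (by linarith) hG0.le hK1 (hKu.trans ?_)
    calc 2 * T ^ (1 / 3 + 4 * ε + c2 / 2) ≤ T ^ (c2 / 4) * T ^ (1 / 3 + 4 * ε + c2 / 2) :=
          mul_le_mul_of_nonneg_right c1' (by positivity)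
      _ = T ^ (c2 / 4 + (1 / 3 + 4 * ε + c2 / 2)) := by rw [← Real.rpow_add hT0]
      _ ≤ T ^ (1 / 3 + c2) := by
          apply Real.rpow_le_rpow_of_exponent_le hT1
          rw [hεd]
          linarith
  have h1 := hD T t G hTTD ((Real.one_le_rpow hT1 (by norm_num)).trans hGl) hB
  have h2 : T ^ (2 * ε) * G ≤ (T ^ (1 / 6 : ℝ)) ^ 2 := by
    rw [hG, ← Real.rpow_add hT0, ← Real.rpow_natCast, ← Real.rpow_mul hT0.le]
    apply Real.rpow_le_rpow_of_exponent_le hT1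
    push_cast
    rw [hεd]
    linarith
  exact abs_le_of_sq_le_sq' (h1.trans h2) (by positivity) |>.2

/-- pointwise bound for zeta -/
theorem weyl_of (hYsub : YSub) : ∃ C : ℝ, 0 < C ∧ ∀ T t : ℝ, 1 ≤ T → T ≤ t → t ≤ 2 * T →
    ‖riemannZeta (1 / 2 + t * I)‖ ≤ C * T ^ (1 / 6 : ℝ) := by
  obtain ⟨T₀, hT₀, h⟩ := D_sup_of hYsub
  obtain ⟨C2, hC2, h2⟩ := zeta_le_D
  set T₁ : ℝ := max T₀ 2 with hT₁
  have hZc : Continuous (fun t : ℝ => ‖riemannZeta (1 / 2 + t * I)‖) := U6.FM.fm_zeta_cont.norm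
  obtain ⟨C3, hC3⟩ := (isCompact_Icc (a := (1 : ℝ)) (b := 2 * T₁)).exists_bound_of_continuousOn
    hZc.continuousOn
  refine ⟨1 + C2 + |C3|, by positivity, fun T t hT ht1 ht2 => ?_⟩
  have hp : 1 ≤ T ^ (1 / 6 : ℝ) := Real.one_le_rpow hT (by norm_num)
  have hC30 := abs_nonneg C3
  rcases le_or_gt T₁ T with hTT | hTT
  · have h3 := h T t ((le_max_left _ _).trans hTT) ht1 ht2
    have h4 := h2 T t ((le_max_right _ _).trans hTT) ht1 ht2
    have h5 : ‖riemannZeta (1 / 2 + t * I)‖ ≤ ‖D (NN T) t‖ + C2 := by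
      have := norm_sub_norm_le (riemannZeta (1 / 2 + t * I)) (D (NN T) t)
      linarith
    nlinarith
  · have h3 := hC3 t ⟨by linarith, by linarith⟩
    rw [norm_norm] at h3
    have h4 := le_abs_self C3
    nlinarith

/-- the twelfth moment with a power saving, dyadic form -/
theorem twelfth_of (hsix : Sixth) (hLarge : LargeX) (hYsub : YSub) : ∃ δ C : ℝ, 0 < δ ∧ 0 < C ∧ ∀ T : ℝ, 1 ≤ T →
    ∫ t in T..(2 * T), ‖riemannZeta (1 / 2 + t * I)‖ ^ 12 ≤ C * T ^ (2 - δ) := by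
  obtain ⟨δ0, C, T₀, hδ0, hC, hT₀, h⟩ := D_twelve_of hsix hLarge hYsub
  obtain ⟨δ, hδ, hδ1, hδ2⟩ : ∃ δ : ℝ, 0 < δ ∧ δ ≤ δ0 ∧ δ ≤ 1 :=
    ⟨min δ0 1, lt_min hδ0 one_pos, min_le_left _ _, min_le_right _ _⟩
  obtain ⟨C2, _, h2⟩ := zeta_le_D
  have hZc : Continuous (fun t : ℝ => ‖riemannZeta (1 / 2 + t * I)‖ ^ 12) := U6.FM.fm_zeta_cont.norm.pow 12
  have hZ0 : ∀ t : ℝ, 0 ≤ ‖riemannZeta (1 / 2 + t * I)‖ ^ 12 := fun t => by positivity
  set T₁ : ℝ := max T₀ 2 with hT₁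
  have hT₁2 : 2 ≤ T₁ := le_max_right _ _
  set J : ℝ := ∫ t in (1 : ℝ)..(2 * T₁), ‖riemannZeta (1 / 2 + t * I)‖ ^ 12 with hJ
  have hJ0 : 0 ≤ J := intervalIntegral.integral_nonneg (by linarith) fun t _ => hZ0 t
  refine ⟨δ, 2048 * C + 2048 * |C2| ^ 12 + J, hδ, by positivity, fun T hT => ?_⟩
  have hT0 : 0 < T := by linarith
  have hp1 : 1 ≤ T ^ (2 - δ) := Real.one_le_rpow hT (by linarith)
  rcases le_or_gt T₁ T with hTT | hTT
  · have hT2 : 2 ≤ T := hT₁2.trans hTT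
    have hN0 : 0 < NN T := by unfold NN; positivity
    have hDc : Continuous (fun t => ‖D (NN T) t‖ ^ 12) := (A03_D_cont hN0).norm.pow 12
    have hb : ∫ t in T..(2 * T), ‖riemannZeta (1 / 2 + t * I)‖ ^ 12 ≤
        ∫ t in T..(2 * T), (2048 * ‖D (NN T) t‖ ^ 12 + 2048 * |C2| ^ 12) := by
      apply intervalIntegral.integral_mono_on (by linarith) (hZc.intervalIntegrable _ _)
        (((continuous_const.mul hDc).add continuous_const).intervalIntegrable _ _)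
      intro t ht
      have h3 := h2 T t hT2 ht.1 ht.2
      have h4 : ‖riemannZeta (1 / 2 + t * I)‖ ≤ ‖D (NN T) t‖ + |C2| := by
        have := norm_sub_norm_le (riemannZeta (1 / 2 + t * I)) (D (NN T) t)
        have := le_abs_self C2
        linarith
      refine (pow_le_pow_left₀ (norm_nonneg _) h4 12).trans ?_
      have h5 := add_pow_le (norm_nonneg (D (NN T) t)) (abs_nonneg C2) 12
      norm_num at h5
      change (‖D (NN T) t‖ + |C2|) ^ 12 ≤ 2048 * ‖D (NN T) t‖ ^ 12 + 2048 * |C2| ^ 12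
      linarith
    refine hb.trans ?_
    have k1 : IntervalIntegrable (fun t : ℝ => 2048 * ‖D (NN T) t‖ ^ 12) volume T (2 * T) :=
      (continuous_const.mul hDc).intervalIntegrable _ _
    have k2 : IntervalIntegrable (fun _ : ℝ => 2048 * |C2| ^ 12) volume T (2 * T) :=
      continuous_const.intervalIntegrable _ _
    rw [intervalIntegral.integral_add k1 k2, intervalIntegral.integral_const_mul,
      intervalIntegral.integral_const, smul_eq_mul]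
    have h6 := h T ((le_max_left _ _).trans hTT)
    have h7 : T ^ (2 - δ0) ≤ T ^ (2 - δ) :=
      Real.rpow_le_rpow_of_exponent_le hT (by linarith)
    have h8 : T ≤ T ^ (2 - δ) := by
      calc T = T ^ (1 : ℝ) := (Real.rpow_one T).symm
        _ ≤ _ := Real.rpow_le_rpow_of_exponent_le hT (by linarith)
    have h9 : (2 * T - T) * (2048 * |C2| ^ 12) ≤ 2048 * |C2| ^ 12 * T ^ (2 - δ) := by
      calc (2 * T - T) * (2048 * |C2| ^ 12) = 2048 * |C2| ^ 12 * T := by ring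
        _ ≤ _ := mul_le_mul_of_nonneg_left h8 (by positivity)
    have h10 : C * T ^ (2 - δ0) ≤ C * T ^ (2 - δ) :=
      mul_le_mul_of_nonneg_left h7 hC.le
    have h11 : 0 ≤ J * T ^ (2 - δ) := by positivity
    calc 2048 * (∫ t in T..(2 * T), ‖D (NN T) t‖ ^ 12) + (2 * T - T) * (2048 * |C2| ^ 12)
        ≤ 2048 * (C * T ^ (2 - δ)) + 2048 * |C2| ^ 12 * T ^ (2 - δ) := by linarith
      _ ≤ _ := by linarith
  · have h3 : ∫ t in T..(2 * T), ‖riemannZeta (1 / 2 + t * I)‖ ^ 12 ≤ J :=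
      intervalIntegral.integral_mono_interval hT (by linarith) (by linarith)
        (Filter.Eventually.of_forall hZ0) (hZc.intervalIntegrable _ _)
    calc ∫ t in T..(2 * T), ‖riemannZeta (1 / 2 + t * I)‖ ^ 12 ≤ J := h3
      _ ≤ J * T ^ (2 - δ) := le_mul_of_one_le_right hJ0 hp1
      _ ≤ _ := by
          apply mul_le_mul_of_nonneg_right _ (by positivity)
          have : 0 ≤ 2048 * C + 2048 * |C2| ^ 12 := by positivity
          linarith

/-- orders from 12 on -/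
theorem beyond_of {δ C : ℝ} (hδ1 : δ ≤ 1) (h12 : ∀ T : ℝ, 1 ≤ T →
    ∫ t in T..(2 * T), ‖riemannZeta (1 / 2 + t * I)‖ ^ 12 ≤ C * T ^ (2 - δ)) (hYsub : YSub)
    {A : ℝ} (hA : 12 ≤ A) : ∃ C' : ℝ, ∀ T : ℝ, 1 ≤ T →
    ∫ t in (0 : ℝ)..T, Zmx.Z t ^ A ≤ C' * T ^ (2 - δ + (A - 12) / 6) := by
  obtain ⟨W, hW, hw⟩ := weyl_of hYsub
  refine Zmx.dyadic (fun t => Zmx.Zp_nonneg _ t) (Zmx.Zp_continuous (by linarith))
    (by linarith) (C := W ^ (A - 12) * |C|) fun T hT => ?_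
  have hT0 : 0 < T := by linarith
  have hZ : ∀ t, Zmx.Z t = ‖riemannZeta (1 / 2 + t * I)‖ := fun t => by simp [Zmx.Z]
  have hZc : Continuous (fun t : ℝ => ‖riemannZeta (1 / 2 + t * I)‖ ^ 12) := U6.FM.fm_zeta_cont.norm.pow 12
  have h1 : ∫ t in T..(2 * T), Zmx.Z t ^ A ≤
      ∫ t in T..(2 * T), (W * T ^ (1 / 6 : ℝ)) ^ (A - 12) * ‖riemannZeta (1 / 2 + t * I)‖ ^ 12 := by
    apply intervalIntegral.integral_mono_on (by linarith)
      ((Zmx.Zp_continuous (by linarith)).intervalIntegrable _ _)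
      ((continuous_const.mul hZc).intervalIntegrable _ _)
    intro t ht
    rw [hZ]
    have h2 := hw T t hT ht.1 ht.2
    rcases (norm_nonneg (riemannZeta (1 / 2 + t * I))).eq_or_lt with h0 | h0
    · rw [← h0, Real.zero_rpow (by linarith)]
      exact mul_nonneg (Real.rpow_nonneg (by positivity) _) (by norm_num)
    · calc ‖riemannZeta (1 / 2 + t * I)‖ ^ A = ‖riemannZeta (1 / 2 + t * I)‖ ^ (A - 12) *
            ‖riemannZeta (1 / 2 + t * I)‖ ^ (12 : ℝ) := by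
            rw [← Real.rpow_add h0]; congr 1; ring
        _ = ‖riemannZeta (1 / 2 + t * I)‖ ^ (A - 12) * ‖riemannZeta (1 / 2 + t * I)‖ ^ 12 := by
            congr 1
            norm_cast
        _ ≤ _ := mul_le_mul_of_nonneg_right (Real.rpow_le_rpow h0.le h2 (by linarith)) (by positivity)
  refine h1.trans ?_
  rw [intervalIntegral.integral_const_mul]
  have h3 := h12 T hT
  have h4 : C * T ^ (2 - δ) ≤ |C| * T ^ (2 - δ) :=
    mul_le_mul_of_nonneg_right (le_abs_self C) (by positivity)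
  calc (W * T ^ (1 / 6 : ℝ)) ^ (A - 12) * (∫ t in T..(2 * T), ‖riemannZeta (1 / 2 + t * I)‖ ^ 12)
      ≤ (W * T ^ (1 / 6 : ℝ)) ^ (A - 12) * (|C| * T ^ (2 - δ)) :=
        mul_le_mul_of_nonneg_left (h3.trans h4) (by positivity)
    _ = W ^ (A - 12) * |C| * (T ^ (2 - δ) * T ^ ((A - 12) / 6)) := by
        rw [Real.mul_rpow hW.le (by positivity), ← Real.rpow_mul hT0.le]
        rw [show 1 / 6 * (A - 12) = (A - 12) / 6 by ring]
        ring
    _ = W ^ (A - 12) * |C| * T ^ (2 - δ + (A - 12) / 6) := by rw [← Real.rpow_add hT0]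

/-- All real orders `4 < A ≤ 12 + a`. -/
theorem orders_of {θ : ℝ} (hθ : 1 / 4400 ≤ θ) (hsix : ∀ δ : ℝ, δ < θ → ∃ C : ℝ, ∀ T : ℝ, 1 ≤ T →
      ∫ t in (0 : ℝ)..T, ‖riemannZeta (1 / 2 + t * I)‖ ^ 6 ≤ C * T ^ (5 / 4 - δ))
    (hLarge : LargeX) (hYsub : YSub) : ∃ a : ℝ, 0 < a ∧ ∀ A : ℝ, 4 < A → A ≤ 12 + a →
    ∀ δ : ℝ, δ < min (θ * (A - 4) / 2) (θ * (12 - A) / 6 + a * (A - 6) / 6) →
    ∃ C : ℝ, ∀ T : ℝ, 1 ≤ T →
      ∫ t in (0 : ℝ)..T, ‖riemannZeta (1 / 2 + t * I)‖ ^ A ≤ C * T ^ (1 + (A - 4) / 8 - δ) := by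
  have hθ0 : 0 < θ := by linarith
  obtain ⟨δ0, C0, hδ0, hC0, h0⟩ := twelfth_of (fun δ hδ => hsix δ (by linarith)) hLarge hYsub
  set δ₁ : ℝ := min δ0 1 with hδ₁
  have hδ₁0 : 0 < δ₁ := lt_min hδ0 one_pos
  have hδ₁1 : δ₁ ≤ 1 := min_le_right _ _
  have h12 : ∀ T : ℝ, 1 ≤ T →
      ∫ t in T..(2 * T), ‖riemannZeta (1 / 2 + t * I)‖ ^ 12 ≤ C0 * T ^ (2 - δ₁) := by
    intro T hT
    refine (h0 T hT).trans (mul_le_mul_of_nonneg_left ?_ hC0.le)
    apply Real.rpow_le_rpow_of_exponent_le hT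
    linarith [min_le_left δ0 1]
  obtain ⟨C12, hC12⟩ := beyond_of hδ₁1 h12 hYsub (A := 12) le_rfl
  refine ⟨δ₁ / 2, by positivity, fun A hA4 hA12 δ hδ => ?_⟩
  have hm1 : δ < θ * (A - 4) / 2 := lt_of_lt_of_le hδ (min_le_left _ _)
  have hm2 : δ < θ * (12 - A) / 6 + δ₁ / 2 * (A - 6) / 6 := lt_of_lt_of_le hδ (min_le_right _ _)
  have hZ : ∀ t, Zmx.Z t = ‖riemannZeta (1 / 2 + t * I)‖ := fun t => by simp [Zmx.Z]
  rcases le_or_gt A 6 with h6 | h6
  · -- between 4 and 6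
    obtain ⟨δ2, h1, h2⟩ : ∃ δ2 : ℝ, max (δ / ((A - 4) / 2)) 0 < δ2 ∧ δ2 < θ := by
      apply exists_between
      apply max_lt
      · rw [div_lt_iff₀ (by linarith)]
        linarith
      · exact hθ0
    have h3 : 0 < δ2 := lt_of_le_of_lt (le_max_right _ _) h1
    have h4 : δ < δ2 * ((A - 4) / 2) := by
      rw [← div_lt_iff₀ (by linarith)]
      exact lt_of_le_of_lt (le_max_left _ _) h1
    exact Zmx.every_order6 h3 fourth_moment (hsix δ2 h2) hA4 h6 h4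
  rcases lt_or_ge A 12 with h7 | h7
  · -- between 6 and 12
    set s : ℝ := (A - 6) / 6 with hs
    have hs0 : 0 < s := by rw [hs]; linarith
    have hs1 : s < 1 := by rw [hs]; linarith
    have h5 : δ < θ * (1 - s) + δ₁ / 2 * s := by
      rw [hs]
      have : θ * (1 - (A - 6) / 6) + δ₁ / 2 * ((A - 6) / 6) =
        θ * (12 - A) / 6 + δ₁ / 2 * (A - 6) / 6 := by ring
      rw [this]
      exact hm2
    obtain ⟨δ2, h1, h2⟩ : ∃ δ2 : ℝ, (δ - δ₁ / 2 * s) / (1 - s) < δ2 ∧ δ2 < θ := by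
      apply exists_between
      rw [div_lt_iff₀ (by linarith)]
      linarith
    obtain ⟨C6, hC6⟩ := Zmx.sixth_conv (hsix δ2 h2)
    have hC12' : ∀ T : ℝ, 1 ≤ T → ∫ t in (0 : ℝ)..T, Zmx.Z t ^ (12 : ℝ) ≤ C12 * T ^ (2 - δ₁) := by
      intro T hT
      have := hC12 T hT
      norm_num at this
      norm_num
      exact this
    obtain ⟨C, hC⟩ := Zmx.interp (a := 6) (b := 12) (by norm_num) (by norm_num) hs0 hs1 hC6 hC12'
    have e1 : (6 : ℝ) * (1 - s) + 12 * s = A := by rw [hs]; ring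
    rw [e1] at hC
    refine Zmx.weaken ?_ hC
    rw [div_lt_iff₀ (by linarith)] at h1
    have e2 : (5 / 4 - δ2) * (1 - s) + (2 - δ₁) * s = 1 + (A - 4) / 8 - (δ2 * (1 - s) + δ₁ * s) := by
      rw [hs]; ring
    rw [e2]
    nlinarith
  · -- from 12 on
    have h8 := beyond_of hδ₁1 h12 hYsub h7
    refine Exists.imp (fun C hC T hT => ?_) (Zmx.weaken (?_ : 2 - δ₁ + (A - 12) / 6 ≤ 1 + (A - 4) / 8 - δ) h8.choose_spec)
    · exact hC T hT
    · have : (A - 12) ≤ δ₁ / 2 := by linarith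
      have : 0 ≤ θ * (A - 12) := mul_nonneg hθ0.le (by linarith)
      nlinarith

end T12
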