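import Pool.Agent.Lib.MP_39df77_nt.T12.Block
import Pool.Agent.Lib.MP_39df77_nt.M12.Large

/-!
Large values of `Y` for `K ≤ T^(1/2-κ)`, with a power saving (row T12-I).
-/

set_option autoImplicit false

namespace T12

open Finset Complex MeasureTheory Set M12

/-- pointwise bound for the kernel sum -/
theorem I_kernel (κ : ℝ) (hκ : 0 < κ) (hκ1 : κ ≤ 1 / 10) : ∃ c C : ℝ, 0 < c ∧ c ≤ 1 / 100 ∧ 1 ≤ C ∧
    ∀ (T t s G a L : ℝ) (K : ℕ), 1 ≤ T → T ≤ a → a + L ≤ 4 * T →
    t ∈ Icc a (a + L) → s ∈ Icc a (a + L) → 0 ≤ G → 1 ≤ K → 5 * (K : ℝ) ≤ T →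
    T ^ (1 / 3 : ℝ) ≤ K → (K : ℝ) ≤ T ^ (1 / 2 - κ) → L ≤ T ^ (3 / 2 + c) / (K * √(K : ℝ)) →
    ‖∑ k ∈ Finset.Ico 1 K, (√(k : ℝ) : ℂ) * (U6.J0 G t k * (starRingEnd ℂ) (U6.J0 G s k))‖ ≤
      2 / √T * (hh K (C * √T * √(K : ℝ)) (t - s) + C * (T ^ (1 / 2 - c) / √(K : ℝ))) := by
  obtain ⟨c, C0, hc, hc1', hC0, h⟩ := S_bd_x κ hκ hκ1
  refine ⟨c, C0 + 1, hc, hc1', by linarith, ?_⟩
  intro T t s G a L K hT ha hL4 ht hs hG hK hKT hK13 hK12 hLK
  have hpi := Real.pi_pos
  set C : ℝ := C0 + 1 with hC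
  have hC1 : 1 ≤ C := by linarith
  have hT0 : 0 < T := by linarith
  have htT : T ≤ t := by linarith [ht.1]
  have hsT : T ≤ s := by linarith [hs.1]
  have ht0 : 0 < t := by linarith
  have hs0 : 0 < s := by linarith
  have hK1 : (1 : ℝ) ≤ K := by exact_mod_cast hK
  have hK0 : (0 : ℝ) < K := by linarith
  have hsqT : 0 < √T := Real.sqrt_pos.2 hT0
  have hsqK : 0 < √(K : ℝ) := Real.sqrt_pos.2 hK0
  have hL0 : 0 ≤ L := by linarith [ht.1, ht.2]
  set lam : ℝ := G * √(2 * Real.pi) * (1 / √t + 1 / √s) with hlam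
  have hlam0 : 0 ≤ lam := by positivity
  set S : ℂ := ∑ k ∈ Finset.Ico 1 K, ((Real.exp (-(lam * √(k : ℝ))) : ℝ) : ℂ) *
      cexp (I * ((U6.ph k t - U6.ph k s : ℝ) : ℂ)) with hS
  have e1 : ∑ k ∈ Finset.Ico 1 K, (√(k : ℝ) : ℂ) * (U6.J0 G t k * (starRingEnd ℂ) (U6.J0 G s k)) =
      (((Real.pi / 2) ^ (1 / 2 : ℝ) * (t * s) ^ (-(1 / 4) : ℝ) : ℝ) : ℂ) * S := by
    rw [hS, mul_sum]
    apply sum_congr rfl
    intro k hk
    rw [Finset.mem_Ico] at hk
    exact J0_mul G t s k ht0 hs0 hk.1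
  rw [e1, norm_mul, Complex.norm_real, Real.norm_eq_abs, abs_of_nonneg (by positivity)]
  have h1 : (Real.pi / 2) ^ (1 / 2 : ℝ) ≤ 2 := by
    calc (Real.pi / 2) ^ (1 / 2 : ℝ) ≤ (2 : ℝ) ^ (1 / 2 : ℝ) :=
          Real.rpow_le_rpow (by positivity) (by linarith [Real.pi_lt_four]) (by norm_num)
      _ ≤ (2 : ℝ) ^ (1 : ℝ) := Real.rpow_le_rpow_of_exponent_le (by norm_num) (by norm_num)
      _ = 2 := Real.rpow_one 2
  have h2 : (t * s) ^ (-(1 / 4) : ℝ) ≤ 1 / √T := by
    calc (t * s) ^ (-(1 / 4) : ℝ) ≤ (T * T) ^ (-(1 / 4) : ℝ) := by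
          apply Real.rpow_le_rpow_of_nonpos (by positivity) _ (by norm_num)
          exact mul_le_mul htT hsT hT0.le ht0.le
      _ = 1 / √T := by
          rw [Real.sqrt_eq_rpow, Real.mul_rpow hT0.le hT0.le, ← Real.rpow_add hT0, one_div (T ^ (1 / 2 : ℝ)),
            ← Real.rpow_neg hT0.le]
          norm_num
  have h3 : (Real.pi / 2) ^ (1 / 2 : ℝ) * (t * s) ^ (-(1 / 4) : ℝ) ≤ 2 / √T := by
    calc _ ≤ 2 * (1 / √T) := mul_le_mul h1 h2 (by positivity) (by norm_num)
      _ = _ := by ring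
  -- trivial bound
  have hSK : ‖S‖ ≤ K := by
    rw [hS]
    refine (norm_sum_le _ _).trans ?_
    calc ∑ k ∈ Finset.Ico 1 K, ‖((Real.exp (-(lam * √(k : ℝ))) : ℝ) : ℂ) *
          cexp (I * ((U6.ph k t - U6.ph k s : ℝ) : ℂ))‖ ≤ ∑ k ∈ Finset.Ico 1 K, (1 : ℝ) := by
          apply sum_le_sum
          intro k _
          rw [norm_mul, mul_comm I, Complex.norm_exp_ofReal_mul_I, mul_one, Complex.norm_real,
            Real.norm_eq_abs, abs_of_nonneg (Real.exp_pos _).le, Real.exp_le_one_iff]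
          have : 0 ≤ lam * √(k : ℝ) := by positivity
          linarith
      _ = ((K - 1 : ℕ) : ℝ) := by simp
      _ ≤ K := by exact_mod_cast Nat.sub_le K 1
  set c1 : ℝ := C * √T * √(K : ℝ) with hc1
  have hc10 : 0 < c1 := by positivity
  set c2 : ℝ := C * (T ^ (1 / 2 - c) / √(K : ℝ)) with hc2
  have hc20 : 0 ≤ c2 := by positivity
  have hSb : ‖S‖ ≤ hh K c1 (t - s) + c2 := by
    by_cases hne : t = s
    · subst hne
      unfold hh
      simp
      linarith
    · have hx : 0 < |t - s| := abs_pos.mpr (sub_ne_zero.mpr hne)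
      have hxL : |t - s| ≤ L := by
        rw [abs_le]
        constructor
        · linarith [ht.1, hs.2]
        · linarith [ht.2, hs.1]
      have h4 := h T t s lam K hT hsT (by linarith [hs.2]) htT (by linarith [ht.2]) hne hlam0
        hK13 hK12 hKT (hxL.trans hLK)
      rw [← hS] at h4
      have h5 : C0 * (√T / |t - s| * √(K : ℝ)) ≤ c1 / |t - s| := by
        rw [hc1]
        have : 0 ≤ √T / |t - s| * √(K : ℝ) := by positivity
        calc C0 * (√T / |t - s| * √(K : ℝ)) ≤ C * (√T / |t - s| * √(K : ℝ)) :=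
              mul_le_mul_of_nonneg_right (by linarith) this
          _ = _ := by ring
      have h6 : C0 * (T ^ (1 / 2 - c) / √(K : ℝ)) ≤ c2 := by
        rw [hc2]
        have : 0 ≤ T ^ (1 / 2 - c) / √(K : ℝ) := by positivity
        exact mul_le_mul_of_nonneg_right (by linarith) this
      have h8 : ‖S‖ ≤ c1 / |t - s| + c2 := by
        rw [mul_add] at h4
        linarith
      unfold hh
      set x := |t - s| with hxx
      have hden : 0 < 1 + K * x / c1 := by positivity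
      rcases le_or_gt (K * x) c1 with h9 | h9
      · have h10 : (K : ℝ) ≤ 2 * K / (1 + K * x / c1) := by
          rw [le_div_iff₀ hden]
          have : K * x / c1 ≤ 1 := by rw [div_le_one hc10]; exact h9
          nlinarith
        linarith
      · have h10 : c1 / x ≤ 2 * K / (1 + K * x / c1) := by
          rw [div_le_div_iff₀ hx hden]
          have h11 : c1 * (1 + K * x / c1) = c1 + K * x := by
            field_simp
          rw [h11]
          nlinarith
        linarith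
  have hrhs : 0 ≤ hh K c1 (t - s) + c2 := le_trans (norm_nonneg _) hSb
  exact mul_le_mul h3 hSb (norm_nonneg _) (by positivity)

theorem I_dual (C : ℝ) (hC : 1 ≤ C) (T G a L B : ℝ) (K : ℕ) (E : Set ℝ) (hT : 1 ≤ T) (ha : T ≤ a)
    (hL : 0 ≤ L) (hG : 0 ≤ G) (hK : 1 ≤ K) (hB : 0 ≤ B) (hEm : MeasurableSet E)
    (hEs : E ⊆ Icc a (a + L)) (hY : ∀ t ∈ E, 1 ≤ ‖U6.Y G t K‖)
    (h : ∀ t ∈ Icc a (a + L), ∀ s ∈ Icc a (a + L),
      ‖∑ k ∈ Finset.Ico 1 K, (√(k : ℝ) : ℂ) * (U6.J0 G t k * (starRingEnd ℂ) (U6.J0 G s k))‖ ≤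
      2 / √T * (hh K (C * √T * √(K : ℝ)) (t - s) + B)) :
    volume.real E ^ 2 ≤ D2 K * (volume.real E * (2 / √T * (4 * (C * √T * √(K : ℝ)) *
      Real.log (1 + K * L) + B * volume.real E))) := by
  have hT0 : 0 < T := by linarith
  have hK1 : (1 : ℝ) ≤ K := by exact_mod_cast hK
  have hK0 : (0 : ℝ) < K := by linarith
  have hsqT : 0 < √T := Real.sqrt_pos.2 hT0
  have hsqK : 0 < √(K : ℝ) := Real.sqrt_pos.2 hK0
  set μ : Measure ℝ := volume.restrict E with hμ
  have hEfin : volume E < ⊤ := lt_of_le_of_lt (measure_mono hEs) (by simp)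
  have : IsFiniteMeasure μ := ⟨by rw [hμ, Measure.restrict_apply_univ]; exact hEfin⟩
  have hμr : μ.real univ = volume.real E := by
    rw [hμ, measureReal_restrict_apply_univ]
  set v : ℝ := volume.real E with hv
  have hv0 : 0 ≤ v := measureReal_nonneg
  have hae : ∀ᵐ t ∂μ, t ∈ E := ae_restrict_mem hEm
  have htE : ∀ t ∈ E, 1 ≤ t := fun t ht => by linarith [(hEs ht).1]
  -- the unimodular factor
  set cc : ℝ → ℂ := fun t => (starRingEnd ℂ) (U6.Y G t K) / (‖U6.Y G t K‖ : ℂ) with hcc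
  have hccm : Measurable cc := by
    have hY := Y_meas G K
    rw [hcc]
    exact (Complex.continuous_conj.measurable.comp hY).div
      (Complex.continuous_ofReal.measurable.comp hY.norm)
  have hcc1 : ∀ t, ‖cc t‖ ≤ 1 := by
    intro t
    rw [hcc]
    simp only [norm_div, Complex.norm_conj, Complex.norm_real, norm_norm]
    exact div_self_le_one _
  have hccY : ∀ t ∈ E, cc t * U6.Y G t K = (‖U6.Y G t K‖ : ℂ) := by
    intro t ht
    have h1 : (‖U6.Y G t K‖ : ℂ) ≠ 0 := by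
      have := hY t ht
      exact_mod_cast (by linarith : ‖U6.Y G t K‖ ≠ 0)
    rw [hcc]
    simp only
    rw [div_mul_eq_mul_div, div_eq_iff h1, mul_comm, Complex.mul_conj']
    ring
  -- the coefficients
  set u : ℕ → ℝ → ℂ := fun k t => cc t * U6.J0 G t k with hu
  have hum : ∀ k, Measurable (u k) := fun k => hccm.mul (J0_meas G k)
  have hub : ∀ k, ∀ t ∈ E, ‖u k t‖ ≤ 2 := by
    intro k t ht
    rw [hu]
    simp only [norm_mul]
    calc ‖cc t‖ * ‖U6.J0 G t k‖ ≤ 1 * 2 :=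
          mul_le_mul (hcc1 t) (J0_norm_le G t k hG (htE t ht)) (norm_nonneg _) zero_le_one
      _ = 2 := by norm_num
  have hui : ∀ k, Integrable (u k) μ := by
    intro k
    apply Integrable.of_bound (hum k).aestronglyMeasurable 2
    filter_upwards [hae] with t ht
    exact hub k t ht
  set F : ℕ → ℂ := fun k => ∫ t, u k t ∂μ with hF
  -- first inequality
  have h1 : v ≤ ∑ k ∈ Finset.Ico 1 K, (U6.dv k : ℝ) * ‖F k‖ := by
    have e1 : ((∫ t, ‖U6.Y G t K‖ ∂μ : ℝ) : ℂ) = ∑ k ∈ Finset.Ico 1 K, ((-1) ^ k * (U6.dv k : ℂ)) * F k := by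
      rw [← integral_complex_ofReal]
      have e2 : ∫ t, ((‖U6.Y G t K‖ : ℝ) : ℂ) ∂μ =
          ∫ t, ∑ k ∈ Finset.Ico 1 K, ((-1) ^ k * (U6.dv k : ℂ)) * u k t ∂μ := by
        apply integral_congr_ae
        filter_upwards [hae] with t ht
        rw [← hccY t ht]
        unfold U6.Y
        rw [mul_sum]
        apply sum_congr rfl
        intro k _
        rw [hu]
        ring
      rw [e2, integral_finsetSum _ (fun k _ => (hui k).const_mul _)]
      apply sum_congr rfl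
      intro k _
      rw [integral_const_mul]
    have e3 : v ≤ ∫ t, ‖U6.Y G t K‖ ∂μ := by
      have e4 : v = ∫ t, (1 : ℝ) ∂μ := by
        rw [integral_const, smul_eq_mul, mul_one, hμr]
      rw [e4]
      apply integral_mono_ae (integrable_const _)
      · apply Integrable.norm
        have e5 : (fun t => U6.Y G t K) = fun t => ∑ k ∈ Finset.Ico 1 K,
            ((-1) ^ k * (U6.dv k : ℂ)) * U6.J0 G t k := by
          funext t
          rfl
        rw [e5]
        apply integrable_finsetSum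
        intro k _
        apply Integrable.const_mul
        apply Integrable.of_bound (J0_meas G k).aestronglyMeasurable 2
        filter_upwards [hae] with t ht
        exact J0_norm_le G t k hG (htE t ht)
      · filter_upwards [hae] with t ht
        exact hY t ht
    have e6 : ∫ t, ‖U6.Y G t K‖ ∂μ ≤ ‖∑ k ∈ Finset.Ico 1 K, ((-1) ^ k * (U6.dv k : ℂ)) * F k‖ := by
      rw [← e1, Complex.norm_real]
      exact le_abs_self _
    refine e3.trans (e6.trans ((norm_sum_le _ _).trans (le_of_eq ?_)))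
    apply sum_congr rfl
    intro k _
    rw [norm_mul, norm_mul, norm_pow, norm_neg, norm_one, one_pow, one_mul, Complex.norm_natCast]
  -- Cauchy-Schwarz
  have h2 : (∑ k ∈ Finset.Ico 1 K, (U6.dv k : ℝ) * ‖F k‖) ^ 2 ≤
      D2 K * ∑ k ∈ Finset.Ico 1 K, √(k : ℝ) * ‖F k‖ ^ 2 := by
    unfold D2
    apply Finset.sum_sq_le_sum_mul_sum_of_sq_le_mul
    · intro k _; positivity
    · intro k _; positivity
    · intro k hk
      rw [Finset.mem_Ico] at hk
      have : 0 < √(k : ℝ) := Real.sqrt_pos.2 (by exact_mod_cast hk.1)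
      apply le_of_eq
      field_simp
  -- the double integral
  have h3 : ∑ k ∈ Finset.Ico 1 K, √(k : ℝ) * ‖F k‖ ^ 2 ≤
      v * (2 / √T * (4 * (C * √T * √(K : ℝ)) * Real.log (1 + K * L) +
        B * v)) := by
    have e1 : ((∑ k ∈ Finset.Ico 1 K, √(k : ℝ) * ‖F k‖ ^ 2 : ℝ) : ℂ) =
        ∫ t, ∫ s, cc t * (starRingEnd ℂ) (cc s) * ∑ k ∈ Finset.Ico 1 K,
          (√(k : ℝ) : ℂ) * (U6.J0 G t k * (starRingEnd ℂ) (U6.J0 G s k)) ∂μ ∂μ := by
      have e2 : ∀ t s, cc t * (starRingEnd ℂ) (cc s) * ∑ k ∈ Finset.Ico 1 K,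
          (√(k : ℝ) : ℂ) * (U6.J0 G t k * (starRingEnd ℂ) (U6.J0 G s k)) =
          ∑ k ∈ Finset.Ico 1 K, ((√(k : ℝ) : ℂ) * u k t) * (starRingEnd ℂ) (u k s) := by
        intro t s
        rw [mul_sum]
        apply sum_congr rfl
        intro k _
        rw [hu]
        simp only [map_mul]
        ring
      have huc : ∀ k, Integrable (fun s => (starRingEnd ℂ) (u k s)) μ := by
        intro k
        apply Integrable.of_bound (Complex.continuous_conj.measurable.comp (hum k)).aestronglyMeasurable 2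
        filter_upwards [hae] with t ht
        show ‖(starRingEnd ℂ) (u k t)‖ ≤ 2
        rw [Complex.norm_conj]
        exact hub k t ht
      have e3 : ∀ t, ∫ s, cc t * (starRingEnd ℂ) (cc s) * ∑ k ∈ Finset.Ico 1 K,
          (√(k : ℝ) : ℂ) * (U6.J0 G t k * (starRingEnd ℂ) (U6.J0 G s k)) ∂μ =
          ∑ k ∈ Finset.Ico 1 K, ((√(k : ℝ) : ℂ) * u k t) * (starRingEnd ℂ) (F k) := by
        intro t
        simp only [e2]
        rw [integral_finsetSum _ (fun k _ => (huc k).const_mul _)]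
        apply sum_congr rfl
        intro k _
        rw [integral_const_mul, integral_conj]
      simp only [e3]
      rw [integral_finsetSum _ (fun k _ => ((hui k).const_mul _).mul_const _)]
      push_cast
      apply sum_congr rfl
      intro k _
      rw [integral_mul_const, integral_const_mul, mul_assoc, Complex.mul_conj']
    have hhc : ∀ t, Continuous (fun s => hh K (C * √T * √(K : ℝ)) (t - s)) := by
      intro t
      unfold hh
      apply Continuous.div
      · fun_prop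
      · fun_prop
      · intro s
        have : 0 ≤ K * |t - s| / (C * √T * √(K : ℝ)) := by positivity
        linarith
    have hh0 : ∀ x, 0 ≤ hh K (C * √T * √(K : ℝ)) x := by
      intro x
      unfold hh
      positivity
    have e4 : ∑ k ∈ Finset.Ico 1 K, √(k : ℝ) * ‖F k‖ ^ 2 =
        ‖((∑ k ∈ Finset.Ico 1 K, √(k : ℝ) * ‖F k‖ ^ 2 : ℝ) : ℂ)‖ := by
      rw [Complex.norm_real, Real.norm_eq_abs, abs_of_nonneg]
      exact Finset.sum_nonneg fun _ _ => by positivity
    rw [e4, e1]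
    set M : ℝ := 2 / √T * (4 * (C * √T * √(K : ℝ)) * Real.log (1 + K * L) +
        B * v) with hM
    have hin : ∀ t ∈ E, ‖∫ s, cc t * (starRingEnd ℂ) (cc s) * ∑ k ∈ Finset.Ico 1 K,
          (√(k : ℝ) : ℂ) * (U6.J0 G t k * (starRingEnd ℂ) (U6.J0 G s k)) ∂μ‖ ≤ M := by
      intro t ht
      have hint : Integrable (fun s => 2 / √T * (hh K (C * √T * √(K : ℝ)) (t - s) +
          B)) μ := by
        apply Integrable.const_mul
        apply Integrable.add _ (integrable_const _)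
        exact ((hhc t).integrableOn_Icc (a := a) (b := a + L)).mono_set hEs
      have h5 : ‖∫ s, cc t * (starRingEnd ℂ) (cc s) * ∑ k ∈ Finset.Ico 1 K,
          (√(k : ℝ) : ℂ) * (U6.J0 G t k * (starRingEnd ℂ) (U6.J0 G s k)) ∂μ‖ ≤
          ∫ s, 2 / √T * (hh K (C * √T * √(K : ℝ)) (t - s) + B) ∂μ := by
        apply norm_integral_le_of_norm_le hint
        filter_upwards [hae] with s hs
        rw [norm_mul, norm_mul, Complex.norm_conj]
        have h6 := h t (hEs ht) s (hEs hs)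
        calc _ ≤ (1 * 1) * _ := mul_le_mul_of_nonneg_right
              (mul_le_mul (hcc1 t) (hcc1 s) (norm_nonneg _) zero_le_one) (norm_nonneg _)
          _ ≤ _ := by rw [one_mul, one_mul]; exact h6
      refine h5.trans ?_
      rw [integral_const_mul, hM]
      apply mul_le_mul_of_nonneg_left _ (by positivity)
      have hi1 : Integrable (fun s => hh K (C * √T * √(K : ℝ)) (t - s)) μ :=
        ((hhc t).integrableOn_Icc (a := a) (b := a + L)).mono_set hEs
      rw [integral_add hi1 (integrable_const _), integral_const, smul_eq_mul, hμr]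
      have h7 : ∫ s, hh K (C * √T * √(K : ℝ)) (t - s) ∂μ ≤
          4 * (C * √T * √(K : ℝ)) * Real.log (1 + K * L) := by
        calc ∫ s, hh K (C * √T * √(K : ℝ)) (t - s) ∂μ ≤
              ∫ s in Icc a (a + L), hh K (C * √T * √(K : ℝ)) (t - s) := by
              apply setIntegral_mono_set ((hhc t).integrableOn_Icc)
              · exact Filter.Eventually.of_forall fun s => hh0 _
              · exact Filter.Eventually.of_forall fun x hx => hEs hx
          _ = ∫ s in a..(a + L), hh K (C * √T * √(K : ℝ)) (t - s) := by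
              rw [intervalIntegral.integral_of_le (by linarith), integral_Icc_eq_integral_Ioc]
          _ ≤ 4 * (C * √T * √(K : ℝ)) * Real.log (1 + K * L / (C * √T * √(K : ℝ))) :=
              hh_int K _ a L t hK0 (by positivity) hL (hEs ht).1 (hEs ht).2
          _ ≤ 4 * (C * √T * √(K : ℝ)) * Real.log (1 + K * L) := by
              apply mul_le_mul_of_nonneg_left _ (by positivity)
              apply Real.log_le_log (by positivity)
              have h8 : 1 ≤ C * √T * √(K : ℝ) := by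
                have h9 : 1 ≤ √T := by rw [Real.one_le_sqrt]; exact hT
                have h10 : 1 ≤ √(K : ℝ) := by rw [Real.one_le_sqrt]; exact hK1
                calc (1 : ℝ) = 1 * 1 * 1 := by norm_num
                  _ ≤ C * √T * √(K : ℝ) := mul_le_mul (mul_le_mul hC h9 zero_le_one (by linarith))
                      h10 zero_le_one (by positivity)
              have h11 : K * L / (C * √T * √(K : ℝ)) ≤ K * L := div_le_self (by positivity) h8
              linarith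
      have h12 : v * (B) = B * v := by ring
      rw [h12]
      linarith
    have hfin : ‖∫ t, ∫ s, cc t * (starRingEnd ℂ) (cc s) * ∑ k ∈ Finset.Ico 1 K,
          (√(k : ℝ) : ℂ) * (U6.J0 G t k * (starRingEnd ℂ) (U6.J0 G s k)) ∂μ ∂μ‖ ≤ ∫ t, M ∂μ := by
      apply norm_integral_le_of_norm_le (integrable_const _)
      filter_upwards [hae] with t ht
      exact hin t ht
    rw [integral_const, smul_eq_mul, hμr] at hfin
    exact hfin
  have hD2 : 0 ≤ D2 K := by
    unfold D2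
    exact Finset.sum_nonneg fun _ _ => by positivity
  calc v ^ 2 ≤ (∑ k ∈ Finset.Ico 1 K, (U6.dv k : ℝ) * ‖F k‖) ^ 2 := pow_le_pow_left₀ hv0 h1 2
    _ ≤ D2 K * ∑ k ∈ Finset.Ico 1 K, √(k : ℝ) * ‖F k‖ ^ 2 := h2
    _ ≤ D2 K * (v * (2 / √T * (4 * (C * √T * √(K : ℝ)) * Real.log (1 + K * L) +
        B * v))) := mul_le_mul_of_nonneg_left h3 hD2

/-- one interval of length `L` -/
theorem I_one (κ : ℝ) (hκ : 0 < κ) (hκ1 : κ ≤ 1 / 10) : ∃ c : ℝ, 0 < c ∧ c ≤ 1 / 100 ∧
    ∀ δ : ℝ, 0 < δ → δ ≤ c / 10 → ∃ C T₀ : ℝ, 0 < C ∧ 1 ≤ T₀ ∧ ∀ (T G a L : ℝ) (K : ℕ),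
    T₀ ≤ T → T ≤ a → 0 ≤ L → a + L ≤ 4 * T → 0 ≤ G → 1 ≤ K → 5 * (K : ℝ) ≤ T →
    T ^ (1 / 3 : ℝ) ≤ K → (K : ℝ) ≤ T ^ (1 / 2 - κ) → L ≤ T ^ (3 / 2 + c) / (K * √(K : ℝ)) →
    volume.real ({t | 1 ≤ ‖U6.Y G t K‖} ∩ Icc a (a + L)) ≤ C * T ^ (2 * δ) * K := by
  obtain ⟨c, C1, hc, hc1, hC1, hker⟩ := I_kernel κ hκ hκ1
  refine ⟨c, hc, hc1, ?_⟩
  intro δ hδ hδc
  obtain ⟨C2, hC2, hD2⟩ := D2_le δ hδ
  refine ⟨16 * (C1 * C2 * (1 + 2 / δ)), max 1 ((4 * (C1 * C2)) ^ (2 / c)), by positivity,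
    le_max_left _ _, ?_⟩
  intro T G a L K hT ha hL hL4 hG hK hKT hK13 hK12 hLK
  have hT1 : 1 ≤ T := (le_max_left _ _).trans hT
  have hT2 : (4 * (C1 * C2)) ^ (2 / c) ≤ T := (le_max_right _ _).trans hT
  have hT0 : 0 < T := by linarith
  have hK1 : (1 : ℝ) ≤ K := by exact_mod_cast hK
  have hK0 : (0 : ℝ) < K := by linarith
  have hsqT : 0 < √T := Real.sqrt_pos.2 hT0
  have hsqK : 0 < √(K : ℝ) := Real.sqrt_pos.2 hK0
  have hsqsqK : 0 < √√(K : ℝ) := Real.sqrt_pos.2 hsqK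
  have hKK : √(K : ℝ) * √(K : ℝ) = K := Real.mul_self_sqrt hK0.le
  set E : Set ℝ := {t | 1 ≤ ‖U6.Y G t K‖} ∩ Icc a (a + L) with hE
  have hEm : MeasurableSet E :=
    (measurableSet_le measurable_const (Y_meas G K).norm).inter measurableSet_Icc
  have h1 := I_dual C1 hC1 T G a L (C1 * (T ^ (1 / 2 - c) / √(K : ℝ))) K E hT1 ha hL hG hK
    (by positivity) hEm inter_subset_right (fun t ht => ht.1)
    (fun t ht s hs => hker T t s G a L K hT1 ha hL4 ht hs hG hK hKT hK13 hK12 hLK)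
  set v : ℝ := volume.real E with hv
  have hv0 : 0 ≤ v := measureReal_nonneg
  rcases hv0.eq_or_lt with h0 | h0
  · rw [← h0]
    positivity
  have h2 : v ≤ D2 K * (2 / √T * (4 * (C1 * √T * √(K : ℝ)) *
      Real.log (1 + K * L) + C1 * (T ^ (1 / 2 - c) / √(K : ℝ)) * v)) := by
    have h3 : v * v ≤ (D2 K * (2 / √T * (4 * (C1 * √T * √(K : ℝ)) *
      Real.log (1 + K * L) + C1 * (T ^ (1 / 2 - c) / √(K : ℝ)) * v))) * v := by
      calc v * v = v ^ 2 := by ring
        _ ≤ _ := h1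
        _ = _ := by ring
    exact le_of_mul_le_mul_right h3 h0
  have hD : D2 K ≤ C2 * T ^ δ * √(K : ℝ) := hD2 K T hK (by linarith)
  have hlog : Real.log (1 + K * L) ≤ (1 + 2 / δ) * T ^ δ := by
    have e1 : Real.log (1 + K * L) ≤ Real.log (2 * T ^ 2) := by
      apply Real.log_le_log (by positivity)
      have : L ≤ 3 * T := by linarith
      have h4 : (K : ℝ) * L ≤ (T / 5) * (3 * T) :=
        mul_le_mul (by linarith) this hL (by positivity)
      nlinarith
    have e2 : Real.log (2 * T ^ 2) = Real.log 2 + 2 * Real.log T := by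
      rw [Real.log_mul (by norm_num) (by positivity), Real.log_pow]
      norm_num
    have e3 : Real.log T ≤ T ^ δ / δ := Real.log_le_rpow_div hT0.le hδ
    have e4 : (1 : ℝ) ≤ T ^ δ := Real.one_le_rpow hT1 hδ.le
    have e5 := Real.log_two_lt_d9
    calc Real.log (1 + K * L) ≤ Real.log 2 + 2 * Real.log T := by rw [← e2]; exact e1
      _ ≤ 1 * T ^ δ + 2 * (T ^ δ / δ) := by linarith
      _ = (1 + 2 / δ) * T ^ δ := by ring
  have hA : D2 K * (2 / √T * (4 * (C1 * √T * √(K : ℝ)) * Real.log (1 + K * L))) ≤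
      8 * (C1 * C2 * (1 + 2 / δ) * T ^ (2 * δ) * K) := by
    have e1 : D2 K * (2 / √T * (4 * (C1 * √T * √(K : ℝ)) * Real.log (1 + K * L))) =
        8 * (C1 * (D2 K * √(K : ℝ)) * Real.log (1 + K * L)) := by
      field_simp
      ring
    rw [e1]
    have e2 : D2 K * √(K : ℝ) ≤ C2 * T ^ δ * K := by
      calc D2 K * √(K : ℝ) ≤ C2 * T ^ δ * √(K : ℝ) * √(K : ℝ) :=
            mul_le_mul_of_nonneg_right hD hsqK.le
        _ = C2 * T ^ δ * (√(K : ℝ) * √(K : ℝ)) := by ring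
        _ = _ := by rw [hKK]
    have e3 : 0 ≤ Real.log (1 + K * L) := Real.log_nonneg (by
      have : 0 ≤ (K : ℝ) * L := by positivity
      linarith)
    have e4 : T ^ (2 * δ) = T ^ δ * T ^ δ := by
      rw [← Real.rpow_add hT0]; congr 1; ring
    apply mul_le_mul_of_nonneg_left _ (by norm_num)
    calc C1 * (D2 K * √(K : ℝ)) * Real.log (1 + K * L) ≤
          C1 * (C2 * T ^ δ * K) * ((1 + 2 / δ) * T ^ δ) := by
          apply mul_le_mul _ hlog e3 (by positivity)
          exact mul_le_mul_of_nonneg_left e2 (by linarith)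
      _ = _ := by rw [e4]; ring
  have hB : D2 K * (2 / √T * (C1 * (T ^ (1 / 2 - c) / √(K : ℝ)) * v)) ≤ v / 2 := by
    have e1 : D2 K * (2 / √T * (C1 * (T ^ (1 / 2 - c) / √(K : ℝ)) * v)) ≤
        C2 * T ^ δ * √(K : ℝ) * (2 / √T * (C1 * (T ^ (1 / 2 - c) / √(K : ℝ)) * v)) :=
      mul_le_mul_of_nonneg_right hD (by positivity)
    refine e1.trans ?_
    have e2 : C2 * T ^ δ * √(K : ℝ) * (2 / √T * (C1 * (T ^ (1 / 2 - c) / √(K : ℝ)) * v)) =
        2 * (C1 * C2) * (T ^ δ * T ^ (1 / 2 - c) / √T) * v := by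
      field_simp
    rw [e2]
    have e3 : 2 * (C1 * C2) * (T ^ δ * T ^ (1 / 2 - c) / √T) ≤ 1 / 2 := by
      have e4 : T ^ δ * T ^ (1 / 2 - c) / √T ≤ T ^ (-(c / 2)) := by
        rw [Real.sqrt_eq_rpow, ← Real.rpow_add hT0, ← Real.rpow_sub hT0]
        exact Real.rpow_le_rpow_of_exponent_le hT1 (by linarith)
      have e5 : 4 * (C1 * C2) ≤ T ^ (c / 2) := by
        have e6 : ((4 * (C1 * C2)) ^ (2 / c)) ^ (c / 2) = 4 * (C1 * C2) := by
          rw [← Real.rpow_mul (by positivity)]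
          have : 2 / c * (c / 2) = 1 := by field_simp
          rw [this, Real.rpow_one]
        rw [← e6]
        exact Real.rpow_le_rpow (by positivity) hT2 (by linarith)
      calc 2 * (C1 * C2) * (T ^ δ * T ^ (1 / 2 - c) / √T) ≤ 2 * (C1 * C2) * T ^ (-(c / 2)) :=
            mul_le_mul_of_nonneg_left e4 (by positivity)
        _ ≤ 1 / 2 := by
            rw [Real.rpow_neg hT0.le, ← div_eq_mul_inv, div_le_iff₀ (by positivity)]
            linarith
    calc _ ≤ 1 / 2 * v := mul_le_mul_of_nonneg_right e3 hv0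
      _ = v / 2 := by ring
  rw [mul_add, mul_add] at h2
  have h5 : v ≤ 8 * (C1 * C2 * (1 + 2 / δ) * T ^ (2 * δ) * K) + v / 2 := by linarith
  linarith

theorem large_x (κ : ℝ) (hκ : 0 < κ) (hκ1 : κ ≤ 1 / 10) : ∃ c : ℝ, 0 < c ∧ c ≤ 1 / 100 ∧
    ∀ δ : ℝ, 0 < δ → δ ≤ c / 10 → ∃ C T₀ : ℝ, 0 < C ∧ 1 ≤ T₀ ∧ ∀ (T G : ℝ) (K : ℕ),
    T₀ ≤ T → 0 ≤ G → 1 ≤ K → 5 * (K : ℝ) ≤ T → T ^ (1 / 3 : ℝ) ≤ K → (K : ℝ) ≤ T ^ (1 / 2 - κ) →
    volume.real ({t | 1 ≤ ‖U6.Y G t K‖} ∩ Icc T (3 * T)) ≤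
      C * T ^ (5 * δ) * (K + (K : ℝ) ^ 2 * √(K : ℝ) / √T * T ^ (-c)) := by
  obtain ⟨c, hc, hc1, hone⟩ := I_one κ hκ hκ1
  refine ⟨c, hc, hc1, ?_⟩
  intro δ hδ hδ1
  obtain ⟨C, T₀, hC, hT₀, h⟩ := hone δ hδ hδ1
  refine ⟨3 * C, T₀, by positivity, hT₀, ?_⟩
  intro T G K hT hG hK hKT hK13 hK12
  have hT1 : 1 ≤ T := hT₀.trans hT
  have hT0 : 0 < T := by linarith
  have hK1 : (1 : ℝ) ≤ K := by exact_mod_cast hK
  have hK0 : (0 : ℝ) < K := by linarith
  have hsqT : 0 < √T := Real.sqrt_pos.2 hT0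
  have hsqK : 0 < √(K : ℝ) := Real.sqrt_pos.2 hK0
  set L : ℝ := min T (T ^ (3 / 2 + c) / (K * √(K : ℝ))) with hL
  have hL0 : 0 < L := lt_min hT0 (by positivity)
  have hLT : L ≤ T := min_le_left _ _
  set b : ℝ := C * T ^ (2 * δ) * K with hb
  have hb0 : 0 ≤ b := by positivity
  set V : Set ℝ := {t | 1 ≤ ‖U6.Y G t K‖} with hV
  have key : ∀ n : ℕ, (n : ℝ) * L ≤ 2 * T + L → volume.real (V ∩ Icc T (T + n * L)) ≤ n * b := by
    intro n
    induction n with
    | zero =>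
      intro _
      simp only [Nat.cast_zero, zero_mul, add_zero, Set.Icc_self]
      have : volume (V ∩ {T}) = 0 := measure_mono_null inter_subset_right (by simp)
      simp [measureReal_def, this]
    | succ n ih =>
      intro hn
      push_cast at hn ⊢
      have h1 := ih (by linarith)
      have h2 := h T G (T + n * L) L K hT (by
        have : 0 ≤ (n : ℝ) * L := by positivity
        linarith) hL0.le (by linarith) hG hK hKT hK13 hK12 (min_le_right _ _)
      have h3 : V ∩ Icc T (T + (n + 1) * L) ⊆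
          (V ∩ Icc T (T + n * L)) ∪ (V ∩ Icc (T + n * L) (T + n * L + L)) := by
        intro x hx
        rcases le_or_gt x (T + n * L) with h4 | h4
        · exact Or.inl ⟨hx.1, hx.2.1, h4⟩
        · exact Or.inr ⟨hx.1, h4.le, by linarith [hx.2.2]⟩
      have hfin : volume ((V ∩ Icc T (T + n * L)) ∪ (V ∩ Icc (T + n * L) (T + n * L + L))) ≠ ⊤ := by
        apply ne_of_lt
        apply lt_of_le_of_lt (measure_union_le _ _)
        apply ENNReal.add_lt_top.mpr
        constructor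
        · exact lt_of_le_of_lt (measure_mono inter_subset_right) measure_Icc_lt_top
        · exact lt_of_le_of_lt (measure_mono inter_subset_right) measure_Icc_lt_top
      calc volume.real (V ∩ Icc T (T + (n + 1) * L)) ≤
            volume.real ((V ∩ Icc T (T + n * L)) ∪ (V ∩ Icc (T + n * L) (T + n * L + L))) :=
            measureReal_mono h3 hfin
        _ ≤ volume.real (V ∩ Icc T (T + n * L)) + volume.real (V ∩ Icc (T + n * L) (T + n * L + L)) :=
            measureReal_union_le _ _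
        _ ≤ n * b + b := add_le_add h1 h2
        _ = (n + 1) * b := by ring
  set n : ℕ := ⌈2 * T / L⌉₊ with hn
  have hn1 : 2 * T / L ≤ n := Nat.le_ceil _
  have hn2 : (n : ℝ) < 2 * T / L + 1 := Nat.ceil_lt_add_one (by positivity)
  have hn3 : 2 * T ≤ n * L := by
    rw [div_le_iff₀ hL0] at hn1
    exact hn1
  have hn4 : (n : ℝ) * L ≤ 2 * T + L := by
    have : (n : ℝ) * L ≤ (2 * T / L + 1) * L := mul_le_mul_of_nonneg_right hn2.le hL0.le
    have e1 : (2 * T / L + 1) * L = 2 * T + L := by field_simp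
    linarith
  have h5 : volume.real (V ∩ Icc T (3 * T)) ≤ n * b := by
    refine le_trans ?_ (key n hn4)
    apply measureReal_mono
    · intro x hx
      exact ⟨hx.1, hx.2.1, by linarith [hx.2.2]⟩
    · apply ne_of_lt
      exact lt_of_le_of_lt (measure_mono inter_subset_right) measure_Icc_lt_top
  refine h5.trans ?_
  have h6 : 1 / L ≤ 1 / T + K * √(K : ℝ) / T ^ (3 / 2 + c) := by
    rcases min_choice T (T ^ (3 / 2 + c) / (K * √(K : ℝ))) with h7 | h7
    · rw [hL, h7]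
      have : 0 ≤ K * √(K : ℝ) / T ^ (3 / 2 + c) := by positivity
      linarith
    · rw [hL, h7, one_div_div]
      have : 0 ≤ 1 / T := by positivity
      linarith
  have h8 : T / T ^ (3 / 2 + c) = T ^ (-c) / √T := by
    rw [Real.sqrt_eq_rpow, ← Real.rpow_sub hT0]
    nth_rewrite 1 [← Real.rpow_one T]
    rw [← Real.rpow_sub hT0]
    congr 1
    ring
  have h9 : (n : ℝ) ≤ 3 + 2 * (K * √(K : ℝ)) * (T ^ (-c) / √T) := by
    have e1 : 2 * T / L ≤ 2 + 2 * (K * √(K : ℝ)) * (T ^ (-c) / √T) := by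
      calc 2 * T / L = 2 * T * (1 / L) := by ring
        _ ≤ 2 * T * (1 / T + K * √(K : ℝ) / T ^ (3 / 2 + c)) :=
            mul_le_mul_of_nonneg_left h6 (by positivity)
        _ = 2 + 2 * (K * √(K : ℝ)) * (T / T ^ (3 / 2 + c)) := by
            field_simp
        _ = _ := by rw [h8]
    linarith
  have h10 : (1 : ℝ) ≤ T ^ (3 * δ) := Real.one_le_rpow hT1 (by linarith)
  calc (n : ℝ) * b ≤ (3 + 2 * (K * √(K : ℝ)) * (T ^ (-c) / √T)) * b :=
        mul_le_mul_of_nonneg_right h9 hb0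
    _ ≤ (3 * T ^ (3 * δ) * (1 + K * √(K : ℝ) / √T * T ^ (-c))) * b := by
        apply mul_le_mul_of_nonneg_right _ hb0
        have e1 : 0 ≤ K * √(K : ℝ) / √T * T ^ (-c) := by positivity
        have e2 : 2 * (K * √(K : ℝ)) * (T ^ (-c) / √T) = 2 * (K * √(K : ℝ) / √T * T ^ (-c)) := by ring
        rw [e2]
        nlinarith
    _ = 3 * C * T ^ (5 * δ) * (K + (K : ℝ) ^ 2 * √(K : ℝ) / √T * T ^ (-c)) := by
        have e1 : T ^ (5 * δ) = T ^ (3 * δ) * T ^ (2 * δ) := by
          rw [← Real.rpow_add hT0]; congr 1; ring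
        rw [hb, e1]
        ring

end T12
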