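import Pool.Agent.Lib.MP_39df77_nt.T12.Inner
set_option autoImplicit false

namespace T12

open Finset Complex MeasureTheory Set Pool.Agent.Lib.MP_4ae430_nt

private lemma dvb_pow_sum (σ : ℝ) (hσ : 0 < σ) (hσ1 : σ ≤ 1) (M : ℕ) :
    ∑ m ∈ Finset.Icc 1 M, (m : ℝ) ^ (σ - 1) ≤ (M : ℝ) ^ σ / σ := by
  induction M with
  | zero => simp [Real.zero_rpow hσ.ne']
  | succ M ih =>
    rw [Finset.sum_Icc_succ_top (by omega)]
    have hM : (0 : ℝ) < (M : ℝ) + 1 := by positivity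
    have hle : 1 / ((M : ℝ) + 1) ≤ 1 := by
      rw [div_le_one hM]
      have : (0 : ℝ) ≤ M := by positivity
      linarith
    have h1 : (1 + (-(1 / ((M : ℝ) + 1)))) ^ σ ≤ 1 + σ * (-(1 / ((M : ℝ) + 1))) :=
      _root_.rpow_one_add_le_one_add_mul_self (by linarith) hσ.le hσ1
    have h2 : 1 + (-(1 / ((M : ℝ) + 1))) = (M : ℝ) / ((M : ℝ) + 1) := by field_simp; ring
    rw [h2, Real.div_rpow (by positivity) hM.le, div_le_iff₀ (Real.rpow_pos_of_pos hM σ)] at h1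
    have h3 : ((M : ℝ) + 1) ^ (σ - 1) = ((M : ℝ) + 1) ^ σ / ((M : ℝ) + 1) := by
      rw [Real.rpow_sub_one hM.ne']
    have h4 : ((M + 1 : ℕ) : ℝ) = (M : ℝ) + 1 := by push_cast; ring
    rw [h4, h3]
    have h5 : (1 + σ * (-(1 / ((M : ℝ) + 1)))) * ((M : ℝ) + 1) ^ σ =
        ((M : ℝ) + 1) ^ σ - σ * (((M : ℝ) + 1) ^ σ / ((M : ℝ) + 1)) := by ring
    rw [h5] at h1
    rw [le_div_iff₀ hσ] at ih ⊢
    nlinarith [ih, h1]

private lemma dvb_card (k : ℕ) (hk : 1 ≤ k) :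
    U6.dv k = 2 * ((Nat.divisors k).filter (fun m => m * m < k)).card +
      ((Nat.divisors k).filter (fun m => m * m = k)).card := by
  have h0 : U6.dv k = ((Nat.divisors k).filter (fun m => m * m < k)).card +
      ((Nat.divisors k).filter (fun m => ¬ (m * m < k))).card := by
    unfold U6.dv
    rw [Finset.card_filter_add_card_filter_not]
  have h1 : ((Nat.divisors k).filter (fun m => ¬ (m * m < k))).card =
      ((Nat.divisors k).filter (fun m => m * m = k)).card +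
      ((Nat.divisors k).filter (fun m => k < m * m)).card := by
    rw [← Finset.card_union_of_disjoint]
    · congr 1
      ext m
      simp only [Finset.mem_filter, Finset.mem_union]
      constructor
      · rintro ⟨h, h'⟩
        rcases Nat.lt_or_ge k (m * m) with h'' | h''
        · exact Or.inr ⟨h, h''⟩
        · exact Or.inl ⟨h, by omega⟩
      · rintro (⟨h, h'⟩ | ⟨h, h'⟩)
        · exact ⟨h, by omega⟩
        · exact ⟨h, by omega⟩
    · rw [Finset.disjoint_left]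
      intro m hm hm'
      simp only [Finset.mem_filter] at hm hm'
      omega
  have h2 : ((Nat.divisors k).filter (fun m => k < m * m)).card =
      ((Nat.divisors k).filter (fun m => m * m < k)).card := by
    apply Finset.card_nbij' (fun m => k / m) (fun m => k / m)
    · intro m hm
      simp only [Finset.coe_filter, Set.mem_ofPred_eq, Nat.mem_divisors] at hm ⊢
      obtain ⟨⟨⟨c, hc⟩, hk0⟩, hlt⟩ := hm
      have hm0 : 0 < m := by
        rcases Nat.eq_zero_or_pos m with h | h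
        · subst h; omega
        · exact h
      rw [hc, Nat.mul_div_cancel_left _ hm0]
      refine ⟨⟨Dvd.intro_left m rfl, by rw [← hc]; exact hk0⟩, ?_⟩
      rw [hc] at hlt
      have hcm : c < m := Nat.lt_of_mul_lt_mul_left hlt
      have hc0 : 0 < c := by
        rcases Nat.eq_zero_or_pos c with h | h
        · subst h; simp at hc; omega
        · exact h
      exact Nat.mul_lt_mul_of_pos_right hcm hc0
    · intro m hm
      simp only [Finset.coe_filter, Set.mem_ofPred_eq, Nat.mem_divisors] at hm ⊢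
      obtain ⟨⟨⟨c, hc⟩, hk0⟩, hlt⟩ := hm
      have hm0 : 0 < m := by
        rcases Nat.eq_zero_or_pos m with h | h
        · subst h; simp at hc; omega
        · exact h
      rw [hc, Nat.mul_div_cancel_left _ hm0]
      refine ⟨⟨Dvd.intro_left m rfl, by rw [← hc]; exact hk0⟩, ?_⟩
      rw [hc] at hlt
      have hcm : m < c := Nat.lt_of_mul_lt_mul_left hlt
      have hc0 : 0 < c := by omega
      exact Nat.mul_lt_mul_of_pos_right hcm hc0
    · intro m hm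
      simp only [Finset.coe_filter, Set.mem_ofPred_eq, Nat.mem_divisors] at hm ⊢
      obtain ⟨⟨hd, hk0⟩, hlt⟩ := hm
      exact Nat.div_div_self hd hk0
    · intro m hm
      simp only [Finset.coe_filter, Set.mem_ofPred_eq, Nat.mem_divisors] at hm ⊢
      obtain ⟨⟨hd, hk0⟩, hlt⟩ := hm
      exact Nat.div_div_self hd hk0
  omega

private lemma dvb_row (g : ℕ → ℂ) (A N m : ℕ) (hm : 1 ≤ m) :
    ∑ k ∈ (Finset.Ico A (A + N)).filter (fun k => m ∣ k ∧ m * m < k), g k =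
      ∑ n ∈ range ((A + N + m - 1) / m - max (m + 1) ((A + m - 1) / m)),
        g (m * (max (m + 1) ((A + m - 1) / m) + n)) := by
  rw [← Finset.sum_Ico_eq_sum_range (fun n => g (m * n))]
  symm
  apply Finset.sum_nbij' (fun n => m * n) (fun k => k / m)
  · intro n hn
    rw [Finset.mem_Ico] at hn
    obtain ⟨h1, h2⟩ := hn
    have h3 : m + 1 ≤ n := le_trans (le_max_left _ _) h1
    have h4 : (A + m - 1) / m ≤ n := le_trans (le_max_right _ _) h1
    rw [Finset.mem_filter, Finset.mem_Ico]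
    have h5 : A ≤ m * n := by
      have := Nat.lt_mul_div_succ (A + m - 1) hm
      have h6 : m * ((A + m - 1) / m + 1) ≤ m * (n + 1) := Nat.mul_le_mul_left m (by omega)
      have h7 : m * (n + 1) = m * n + m := by ring
      omega
    have h6 : m * n < A + N := by
      have h7 : n + 1 ≤ (A + N + m - 1) / m := h2
      have h8 := (Nat.le_div_iff_mul_le hm).1 h7
      have h9 : (n + 1) * m = m * n + m := by ring
      omega
    refine ⟨⟨h5, h6⟩, Dvd.intro n rfl, ?_⟩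
    exact Nat.mul_lt_mul_of_pos_left (by omega) hm
  · intro k hk
    rw [Finset.mem_filter, Finset.mem_Ico] at hk
    obtain ⟨⟨h1, h2⟩, ⟨n, rfl⟩, h3⟩ := hk
    rw [Nat.mul_div_cancel_left _ hm, Finset.mem_Ico]
    have h4 : m < n := Nat.lt_of_mul_lt_mul_left h3
    constructor
    · apply max_le
      · omega
      · rw [← Nat.lt_succ_iff, Nat.div_lt_iff_lt_mul hm]
        have h9 : (n + 1) * m = m * n + m := by ring
        rw [Nat.succ_eq_add_one, h9]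
        omega
    · have h7 : n + 1 ≤ (A + N + m - 1) / m := by
        rw [Nat.le_div_iff_mul_le hm]
        have h9 : (n + 1) * m = m * n + m := by ring
        omega
      omega
  · intro n hn
    exact Nat.mul_div_cancel_left _ hm
  · intro k hk
    rw [Finset.mem_filter] at hk
    exact Nat.mul_div_cancel' hk.2.1
  · intro n hn
    rfl

private lemma dvb_swap (g : ℕ → ℂ) (A N : ℕ) (hA : 1 ≤ A) (hN : N ≤ A) :
    ∑ n ∈ range N, (U6.dv (A + n) : ℂ) * g (A + n) =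
      2 * ∑ m ∈ Finset.Icc 1 (Nat.sqrt (2 * A)),
        ∑ k ∈ (Finset.Ico A (A + N)).filter (fun k => m ∣ k ∧ m * m < k), g k +
      ∑ m ∈ Finset.Icc 1 (Nat.sqrt (2 * A)),
        ∑ k ∈ (Finset.Ico A (A + N)).filter (fun k => m ∣ k ∧ m * m = k), g k := by
  have h1 : ∑ n ∈ range N, (U6.dv (A + n) : ℂ) * g (A + n) =
      ∑ k ∈ Finset.Ico A (A + N), (U6.dv k : ℂ) * g k := by
    rw [Finset.sum_Ico_eq_sum_range]
    simp
  have h2 : ∑ m ∈ Finset.Icc 1 (Nat.sqrt (2 * A)),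
        ∑ k ∈ (Finset.Ico A (A + N)).filter (fun k => m ∣ k ∧ m * m < k), g k =
      ∑ k ∈ Finset.Ico A (A + N), ∑ m ∈ (Nat.divisors k).filter (fun m => m * m < k), g k := by
    apply Finset.sum_comm'
    intro m k
    simp only [Finset.mem_Icc, Finset.mem_filter, Finset.mem_Ico, Nat.mem_divisors]
    constructor
    · rintro ⟨⟨h1, h2⟩, ⟨h3, h4⟩, h5, h6⟩
      exact ⟨⟨⟨h5, by omega⟩, h6⟩, h3, h4⟩
    · rintro ⟨⟨⟨h1, h2⟩, h3⟩, h4, h5⟩
      refine ⟨⟨?_, ?_⟩, ⟨h4, h5⟩, h1, h3⟩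
      · exact Nat.pos_of_dvd_of_pos h1 (by omega)
      · rw [Nat.le_sqrt]
        omega
  have h3 : ∑ m ∈ Finset.Icc 1 (Nat.sqrt (2 * A)),
        ∑ k ∈ (Finset.Ico A (A + N)).filter (fun k => m ∣ k ∧ m * m = k), g k =
      ∑ k ∈ Finset.Ico A (A + N), ∑ m ∈ (Nat.divisors k).filter (fun m => m * m = k), g k := by
    apply Finset.sum_comm'
    intro m k
    simp only [Finset.mem_Icc, Finset.mem_filter, Finset.mem_Ico, Nat.mem_divisors]
    constructor
    · rintro ⟨⟨h1, h2⟩, ⟨h3, h4⟩, h5, h6⟩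
      exact ⟨⟨⟨h5, by omega⟩, h6⟩, h3, h4⟩
    · rintro ⟨⟨⟨h1, h2⟩, h3⟩, h4, h5⟩
      refine ⟨⟨?_, ?_⟩, ⟨h4, h5⟩, h1, h3⟩
      · exact Nat.pos_of_dvd_of_pos h1 (by omega)
      · rw [Nat.le_sqrt]
        omega
  rw [h1, h2, h3, Finset.mul_sum, ← Finset.sum_add_distrib]
  apply Finset.sum_congr rfl
  intro k hk
  rw [Finset.mem_Ico] at hk
  rw [Finset.sum_const, Finset.sum_const, nsmul_eq_mul, nsmul_eq_mul, dvb_card k (by omega)]
  push_cast
  ring

private lemma dvb_sq (g : ℕ → ℂ) (hg : ∀ k, ‖g k‖ ≤ 1) (A N : ℕ) (hA : 1 ≤ A) :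
    ‖∑ m ∈ Finset.Icc 1 (Nat.sqrt (2 * A)),
        ∑ k ∈ (Finset.Ico A (A + N)).filter (fun k => m ∣ k ∧ m * m = k), g k‖ ≤
      √(2 * (A : ℝ)) := by
  have h1 : ∀ m ∈ Finset.Icc 1 (Nat.sqrt (2 * A)),
      ‖∑ k ∈ (Finset.Ico A (A + N)).filter (fun k => m ∣ k ∧ m * m = k), g k‖ ≤ 1 := by
    intro m hm
    refine (norm_sum_le _ _).trans ?_
    refine (Finset.sum_le_sum (fun k _ => hg k)).trans ?_
    rw [Finset.sum_const, nsmul_eq_mul, mul_one]
    have : ((Finset.Ico A (A + N)).filter (fun k => m ∣ k ∧ m * m = k)).card ≤ 1 := by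
      rw [Finset.card_le_one]
      intro a ha b hb
      rw [Finset.mem_filter] at ha hb
      rw [← ha.2.2, ← hb.2.2]
    exact_mod_cast this
  refine (norm_sum_le _ _).trans ?_
  refine (Finset.sum_le_sum h1).trans ?_
  rw [Finset.sum_const, nsmul_eq_mul, mul_one, Nat.card_Icc, Nat.add_sub_cancel]
  apply Real.le_sqrt_of_sq_le
  have h2 := Nat.sqrt_le' (2 * A)
  exact_mod_cast h2

private lemma dvb_of_inner (h : ∃ σ C : ℝ, 0 < σ ∧ σ ≤ 1 / 10 ∧ 0 < C ∧ ∀ (A m N₁ N : ℕ) (t : ℝ),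
    1 ≤ m → 1 ≤ A → m ^ 2 ≤ 2 * A → A ≤ m * N₁ → m * N₁ ≤ 2 * A → N ≤ 2 * N₁ →
    (A : ℝ) ^ (5 / 2 : ℝ) ≤ t → t ≤ 4 * (A : ℝ) ^ 4 →
    ‖∑ n ∈ range N, (-1 : ℂ) ^ (m * (N₁ + n)) * cexp (I * (U6.ph ((m * (N₁ + n) : ℕ) : ℝ) t : ℝ))‖ ≤
      C * (N₁ : ℝ) ^ (1 - σ)) :
    ∃ σ C : ℝ, 0 < σ ∧ σ ≤ 1 / 10 ∧ 0 < C ∧ ∀ (A N : ℕ) (t : ℝ), 1 ≤ A → N ≤ A →
    (A : ℝ) ^ (5 / 2 : ℝ) ≤ t → t ≤ 4 * (A : ℝ) ^ 4 →
    ‖∑ n ∈ range N, ((-1) ^ (A + n) * (U6.dv (A + n) : ℂ)) *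
      cexp (I * (U6.ph ((A + n : ℕ) : ℝ) t : ℝ))‖ ≤ C * (A : ℝ) ^ (1 - σ) := by
  obtain ⟨σ, C, hσ, hσ1, hC, H⟩ := h
  refine ⟨σ / 2, 4 * C / σ + 2, by positivity, by linarith, by positivity, ?_⟩
  intro A N t hA hN ht1 ht2
  set g : ℕ → ℂ := fun k => (-1 : ℂ) ^ k * cexp (I * (U6.ph (k : ℝ) t : ℝ)) with hg
  have hAr : (1 : ℝ) ≤ (A : ℝ) := by exact_mod_cast hA
  have hA0 : (0 : ℝ) < (A : ℝ) := by linarith
  have hg1 : ∀ k, ‖g k‖ ≤ 1 := by
    intro k
    rw [hg]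
    simp only [norm_mul, norm_pow, norm_neg, norm_one, one_pow, one_mul]
    rw [mul_comm, Complex.norm_exp_ofReal_mul_I]
  have e1 : ∑ n ∈ range N, ((-1) ^ (A + n) * (U6.dv (A + n) : ℂ)) *
      cexp (I * (U6.ph ((A + n : ℕ) : ℝ) t : ℝ)) =
      ∑ n ∈ range N, (U6.dv (A + n) : ℂ) * g (A + n) := by
    apply Finset.sum_congr rfl
    intro n _
    rw [hg]
    ring
  rw [e1, dvb_swap g A N hA hN]
  have hmain : ∀ m ∈ Finset.Icc 1 (Nat.sqrt (2 * A)),
      ‖∑ k ∈ (Finset.Ico A (A + N)).filter (fun k => m ∣ k ∧ m * m < k), g k‖ ≤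
        C * (2 * (A : ℝ)) ^ (1 - σ) * (m : ℝ) ^ (σ - 1) := by
    intro m hm
    rw [Finset.mem_Icc] at hm
    obtain ⟨hm1, hm2⟩ := hm
    rw [dvb_row g A N m hm1]
    have hm0 : (0 : ℝ) < (m : ℝ) := by exact_mod_cast hm1
    set N₁ := max (m + 1) ((A + m - 1) / m) with hN₁
    set N₂ := (A + N + m - 1) / m with hN₂
    rcases Nat.lt_or_ge N₁ N₂ with hlt | hge
    · have hA1 : A ≤ m * N₁ := by
        have h4 : (A + m - 1) / m ≤ N₁ := le_max_right _ _
        have := Nat.lt_mul_div_succ (A + m - 1) hm1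
        have h6 : m * ((A + m - 1) / m + 1) ≤ m * (N₁ + 1) := Nat.mul_le_mul_left m (by omega)
        have h7 : m * (N₁ + 1) = m * N₁ + m := by ring
        omega
      have hA2 : m * N₁ < A + N := by
        have h7 : N₁ + 1 ≤ N₂ := hlt
        have h8 := (Nat.le_div_iff_mul_le hm1).1 h7
        have h9 : (N₁ + 1) * m = m * N₁ + m := by ring
        omega
      have hcount : N₂ - N₁ ≤ 2 * N₁ := by
        have h10 : N₂ ≤ 3 * N₁ := by
          rw [hN₂]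
          have : (A + N + m - 1) / m < 3 * N₁ + 1 := by
            rw [Nat.div_lt_iff_lt_mul hm1]
            have h9 : (3 * N₁ + 1) * m = 3 * (m * N₁) + m := by ring
            omega
          omega
        omega
      have hmsq : m ^ 2 ≤ 2 * A := by
        rw [Nat.le_sqrt] at hm2
        rw [pow_two]
        exact hm2
      have h11 := H A m N₁ (N₂ - N₁) t hm1 hA hmsq hA1 (by omega) hcount ht1 ht2
      refine h11.trans ?_
      have hN1r : (N₁ : ℝ) ≤ 2 * (A : ℝ) / m := by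
        rw [le_div_iff₀ hm0]
        have : N₁ * m ≤ 2 * A := by
          rw [mul_comm]
          omega
        exact_mod_cast this
      have h12 : (N₁ : ℝ) ^ (1 - σ) ≤ (2 * (A : ℝ) / m) ^ (1 - σ) :=
        Real.rpow_le_rpow (by positivity) hN1r (by linarith)
      have h13 : (2 * (A : ℝ) / m) ^ (1 - σ) = (2 * (A : ℝ)) ^ (1 - σ) * (m : ℝ) ^ (σ - 1) := by
        rw [Real.div_rpow (by positivity) hm0.le, div_eq_mul_inv, ← Real.rpow_neg hm0.le]
        congr 2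
        ring
      rw [h13] at h12
      calc C * (N₁ : ℝ) ^ (1 - σ) ≤ C * ((2 * (A : ℝ)) ^ (1 - σ) * (m : ℝ) ^ (σ - 1)) :=
            mul_le_mul_of_nonneg_left h12 hC.le
        _ = _ := by ring
    · have : N₂ - N₁ = 0 := by omega
      rw [this]
      simp only [Finset.range_zero, Finset.sum_empty, norm_zero]
      positivity
  have hsum : ‖∑ m ∈ Finset.Icc 1 (Nat.sqrt (2 * A)),
      ∑ k ∈ (Finset.Ico A (A + N)).filter (fun k => m ∣ k ∧ m * m < k), g k‖ ≤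
      C * (2 * (A : ℝ)) ^ (1 - σ) * ((√(2 * (A : ℝ))) ^ σ / σ) := by
    refine (norm_sum_le _ _).trans ?_
    refine (Finset.sum_le_sum hmain).trans ?_
    rw [← Finset.mul_sum]
    apply mul_le_mul_of_nonneg_left _ (by positivity)
    refine (dvb_pow_sum σ hσ (by linarith) _).trans ?_
    apply div_le_div_of_nonneg_right _ hσ.le
    apply Real.rpow_le_rpow (by positivity) _ hσ.le
    apply Real.le_sqrt_of_sq_le
    have h2 := Nat.sqrt_le' (2 * A)
    exact_mod_cast h2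
  have hsq := dvb_sq g hg1 A N hA
  have hpow : (2 * (A : ℝ)) ^ (1 - σ) * (√(2 * (A : ℝ))) ^ σ ≤ 2 * (A : ℝ) ^ (1 - σ / 2) := by
    rw [Real.sqrt_eq_rpow, ← Real.rpow_mul (by positivity), ← Real.rpow_add (by positivity)]
    have e : 1 - σ + 1 / 2 * σ = 1 - σ / 2 := by ring
    rw [e, Real.mul_rpow (by norm_num) hA0.le]
    apply mul_le_mul_of_nonneg_right _ (by positivity)
    calc (2 : ℝ) ^ (1 - σ / 2) ≤ (2 : ℝ) ^ (1 : ℝ) :=
          Real.rpow_le_rpow_of_exponent_le (by norm_num) (by linarith)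
      _ = 2 := Real.rpow_one 2
  have hsqrt : √(2 * (A : ℝ)) ≤ 2 * (A : ℝ) ^ (1 - σ / 2) := by
    have h1 : √(2 * (A : ℝ)) = √2 * √(A : ℝ) := Real.sqrt_mul (by norm_num) _
    have h2 : √(2 : ℝ) ≤ 2 := by
      rw [Real.sqrt_le_left (by norm_num)]
      norm_num
    have h3 : √(A : ℝ) ≤ (A : ℝ) ^ (1 - σ / 2) := by
      rw [Real.sqrt_eq_rpow]
      exact Real.rpow_le_rpow_of_exponent_le hAr (by linarith)
    rw [h1]
    exact mul_le_mul h2 h3 (Real.sqrt_nonneg _) (by norm_num)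
  refine (norm_add_le _ _).trans ?_
  rw [norm_mul, Complex.norm_ofNat]
  have hfin : C * (2 * (A : ℝ)) ^ (1 - σ) * ((√(2 * (A : ℝ))) ^ σ / σ) ≤
      C * (2 * (A : ℝ) ^ (1 - σ / 2)) / σ := by
    have : C * (2 * (A : ℝ)) ^ (1 - σ) * ((√(2 * (A : ℝ))) ^ σ / σ) =
        C * ((2 * (A : ℝ)) ^ (1 - σ) * (√(2 * (A : ℝ))) ^ σ) / σ := by ring
    rw [this]
    apply div_le_div_of_nonneg_right _ hσ.le
    exact mul_le_mul_of_nonneg_left hpow hC.le
  calc 2 * ‖∑ m ∈ Finset.Icc 1 (Nat.sqrt (2 * A)),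
      ∑ k ∈ (Finset.Ico A (A + N)).filter (fun k => m ∣ k ∧ m * m < k), g k‖ +
      ‖∑ m ∈ Finset.Icc 1 (Nat.sqrt (2 * A)),
        ∑ k ∈ (Finset.Ico A (A + N)).filter (fun k => m ∣ k ∧ m * m = k), g k‖
      ≤ 2 * (C * (2 * (A : ℝ) ^ (1 - σ / 2)) / σ) + 2 * (A : ℝ) ^ (1 - σ / 2) := by
        linarith [hsum.trans hfin, hsq.trans hsqrt]
    _ = (4 * C / σ + 2) * (A : ℝ) ^ (1 - σ / 2) := by ring

theorem div_block : ∃ σ C : ℝ, 0 < σ ∧ σ ≤ 1 / 10 ∧ 0 < C ∧ ∀ (A N : ℕ) (t : ℝ), 1 ≤ A → N ≤ A →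
    (A : ℝ) ^ (5 / 2 : ℝ) ≤ t → t ≤ 4 * (A : ℝ) ^ 4 →
    ‖∑ n ∈ range N, ((-1) ^ (A + n) * (U6.dv (A + n) : ℂ)) *
      cexp (I * (U6.ph ((A + n : ℕ) : ℝ) t : ℝ))‖ ≤ C * (A : ℝ) ^ (1 - σ) := by
  exact dvb_of_inner inner

end T12
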