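import Pool.Agent.Lib.MP_39df77_nt.T12.Defs
import Pool.Agent.Lib.MP_39df77_nt.T12.DivBlock
import Pool.Agent.Lib.MP_39df77_nt.M12.Win

set_option autoImplicit false

namespace T12

open Finset Complex MeasureTheory Set Pool.Agent.Lib.MP_4ae430_nt

/-- dyadic decomposition from `L` on -/
theorem J3_dy (z : ℕ → ℂ) (a : ℝ) (ha : 0 ≤ a) (L K : ℕ) (hL : 1 ≤ L)
    (h : ∀ A N : ℕ, L ≤ A → N ≤ A → A + N ≤ K → ‖∑ n ∈ range N, z (A + n)‖ ≤ a * √(A : ℝ)) :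
    ‖∑ k ∈ Finset.Ico L K, z k‖ ≤ 10 * a * √(K : ℝ) := by
  have key : ∀ M ≤ K, ‖∑ k ∈ Finset.Ico L M, z k‖ ≤ 10 * a * √(M : ℝ) := by
    intro M
    induction M using Nat.strong_induction_on with
    | _ M ih =>
      intro hM
      rcases Nat.lt_or_ge L M with h0 | h0
      · have hM0 : (0 : ℝ) ≤ M := Nat.cast_nonneg _
        rcases Nat.lt_or_ge L ((M + 1) / 2) with h1 | h1
        · set A : ℕ := (M + 1) / 2 with hA
          have hAM : A < M := by omega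
          have h3 := ih A hAM (by omega)
          have h4 := h A (M - A) h1.le (by omega) (by omega)
          have h5 : ∑ k ∈ Finset.Ico L M, z k =
              ∑ k ∈ Finset.Ico L A, z k + ∑ n ∈ range (M - A), z (A + n) := by
            rw [← sum_Ico_consecutive z h1.le hAM.le, sum_Ico_eq_sum_range z A M]
          rw [h5]
          refine (norm_add_le _ _).trans ?_
          have hM2 : (2 : ℝ) ≤ M := by
            have : 2 ≤ M := by omega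
            exact_mod_cast this
          have hAr : (A : ℝ) ≤ 3 / 4 * M := by
            have : 2 * A ≤ M + 1 := by omega
            have h6 : 2 * (A : ℝ) ≤ M + 1 := by exact_mod_cast this
            linarith
          have e1 : √(A : ℝ) ≤ 10 / 11 * √(M : ℝ) := by
            rw [Real.sqrt_le_left (by positivity), mul_pow, Real.sq_sqrt hM0]
            nlinarith
          have e2 := mul_le_mul_of_nonneg_left e1 ha
          linarith
        · have h4 := h L (M - L) le_rfl (by omega) (by omega)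
          rw [sum_Ico_eq_sum_range z L M]
          have e1 : √(L : ℝ) ≤ √(M : ℝ) := Real.sqrt_le_sqrt (by exact_mod_cast h0.le)
          have e2 := mul_le_mul_of_nonneg_left e1 ha
          have e3 : 0 ≤ a * √(M : ℝ) := by positivity
          linarith
      · rw [Finset.Ico_eq_empty_of_le h0, Finset.sum_empty, norm_zero]
        positivity
  exact key K le_rfl

/-- the weights -/
noncomputable def J3_w (G t : ℝ) (k : ℕ) : ℝ :=
  (Real.pi / 2) ^ (1 / 4 : ℝ) * ((k : ℝ) * t) ^ (-(1 / 4) : ℝ) *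
    Real.exp (-(G * Real.sqrt (2 * Real.pi * k / t)))

/-- the terms without the weights -/
noncomputable def J3_z (t : ℝ) (k : ℕ) : ℂ :=
  ((-1) ^ k * (U6.dv k : ℂ)) * cexp (I * (U6.ph (k : ℝ) t : ℝ))

theorem J3_term (G t : ℝ) (k : ℕ) : ((-1) ^ k * (U6.dv k : ℂ)) * U6.J0 G t k =
    cexp (I * (Real.pi / 4 : ℝ)) * ((J3_w G t k : ℂ) * J3_z t k) := by
  unfold U6.J0 J3_w J3_z
  have e : cexp (I * ((U6.ph (k : ℝ) t + Real.pi / 4 : ℝ) : ℂ)) =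
      cexp (I * (U6.ph (k : ℝ) t : ℝ)) * cexp (I * (Real.pi / 4 : ℝ)) := by
    rw [← Complex.exp_add]
    congr 1
    push_cast
    ring
  rw [e]
  ring

theorem J3_w_nonneg (G t : ℝ) (ht : 0 < t) (k : ℕ) : 0 ≤ J3_w G t k := by
  unfold J3_w
  positivity

theorem J3_w_anti (G t : ℝ) (hG : 0 ≤ G) (ht : 0 < t) (k : ℕ) (hk : 1 ≤ k) :
    J3_w G t (k + 1) ≤ J3_w G t k := by
  have hpi := Real.pi_pos
  have hk0 : (0 : ℝ) < k := by exact_mod_cast hk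
  have hk1 : (k : ℝ) ≤ ((k + 1 : ℕ) : ℝ) := by
    push_cast
    linarith
  unfold J3_w
  have e1 : (((k + 1 : ℕ) : ℝ) * t) ^ (-(1 / 4) : ℝ) ≤ ((k : ℝ) * t) ^ (-(1 / 4) : ℝ) :=
    Real.rpow_le_rpow_of_nonpos (by positivity) (mul_le_mul_of_nonneg_right hk1 ht.le) (by norm_num)
  have e2 : Real.exp (-(G * Real.sqrt (2 * Real.pi * ((k + 1 : ℕ) : ℝ) / t))) ≤
      Real.exp (-(G * Real.sqrt (2 * Real.pi * k / t))) := by
    apply Real.exp_le_exp.2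
    apply neg_le_neg
    apply mul_le_mul_of_nonneg_left _ hG
    apply Real.sqrt_le_sqrt
    apply div_le_div_of_nonneg_right _ ht.le
    exact mul_le_mul_of_nonneg_left hk1 (by positivity)
  exact mul_le_mul (mul_le_mul_of_nonneg_left e1 (by positivity)) e2 (Real.exp_pos _).le
    (by positivity)

theorem J3_w_le (G t : ℝ) (hG : 0 ≤ G) (ht : 0 < t) (k : ℕ) :
    J3_w G t k ≤ 2 * ((k : ℝ) * t) ^ (-(1 / 4) : ℝ) := by
  have hpi := Real.pi_pos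
  unfold J3_w
  have h1 : (Real.pi / 2) ^ (1 / 4 : ℝ) ≤ 2 := by
    calc (Real.pi / 2) ^ (1 / 4 : ℝ) ≤ (2 : ℝ) ^ (1 / 4 : ℝ) :=
          Real.rpow_le_rpow (by positivity) (by linarith [Real.pi_lt_four]) (by norm_num)
      _ ≤ (2 : ℝ) ^ (1 : ℝ) := Real.rpow_le_rpow_of_exponent_le (by norm_num) (by norm_num)
      _ = 2 := Real.rpow_one 2
  have h2 : Real.exp (-(G * Real.sqrt (2 * Real.pi * k / t))) ≤ 1 := by
    apply Real.exp_le_one_iff.2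
    have : 0 ≤ G * Real.sqrt (2 * Real.pi * k / t) := by positivity
    linarith
  calc (Real.pi / 2) ^ (1 / 4 : ℝ) * ((k : ℝ) * t) ^ (-(1 / 4) : ℝ) *
        Real.exp (-(G * Real.sqrt (2 * Real.pi * k / t)))
      ≤ 2 * ((k : ℝ) * t) ^ (-(1 / 4) : ℝ) * 1 :=
        mul_le_mul (mul_le_mul_of_nonneg_right h1 (by positivity)) h2 (Real.exp_pos _).le
          (by positivity)
    _ = _ := by ring

/-- one block -/
theorem J3_block {σ C : ℝ} (hC : 0 < C) (G t T : ℝ) (hG : 0 ≤ G) (hT : 0 < T) (hTt : T ≤ t)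
    (A N : ℕ) (hA : 1 ≤ A)
    (h : ∀ n ≤ N, ‖∑ i ∈ range n, J3_z t (A + i)‖ ≤ C * (A : ℝ) ^ (1 - σ)) :
    ‖∑ n ∈ range N, (J3_w G t (A + n) : ℂ) * J3_z t (A + n)‖ ≤
      2 * C * T ^ (-(1 / 4) : ℝ) * (A : ℝ) ^ (3 / 4 - σ) := by
  have ht : 0 < t := hT.trans_le hTt
  have hA0 : (0 : ℝ) < A := by exact_mod_cast hA
  have h1 := M12.abel_le (fun n => J3_z t (A + n)) (fun n => J3_w G t (A + n))
    (fun n => J3_w_nonneg G t ht _) (fun n => J3_w_anti G t hG ht (A + n) (by omega))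
    (C * (A : ℝ) ^ (1 - σ)) N h
  refine h1.trans ?_
  have h2 : J3_w G t (A + 0) ≤ 2 * ((A : ℝ) ^ (-(1 / 4) : ℝ) * T ^ (-(1 / 4) : ℝ)) := by
    rw [add_zero]
    refine (J3_w_le G t hG ht A).trans ?_
    rw [Real.mul_rpow hA0.le ht.le]
    have e3 : t ^ (-(1 / 4) : ℝ) ≤ T ^ (-(1 / 4) : ℝ) :=
      Real.rpow_le_rpow_of_nonpos hT hTt (by norm_num)
    exact mul_le_mul_of_nonneg_left (mul_le_mul_of_nonneg_left e3 (by positivity)) (by norm_num)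
  calc J3_w G t (A + 0) * (C * (A : ℝ) ^ (1 - σ)) ≤
        (2 * ((A : ℝ) ^ (-(1 / 4) : ℝ) * T ^ (-(1 / 4) : ℝ))) * (C * (A : ℝ) ^ (1 - σ)) :=
        mul_le_mul_of_nonneg_right h2 (by positivity)
    _ = 2 * C * T ^ (-(1 / 4) : ℝ) * ((A : ℝ) ^ (-(1 / 4) : ℝ) * (A : ℝ) ^ (1 - σ)) := by ring
    _ = _ := by
        rw [← Real.rpow_add hA0]
        congr 2
        ring

theorem J3_ev {x a : ℝ} (hx : 0 < x) :
    ∃ T₀ : ℝ, 1 ≤ T₀ ∧ ∀ T : ℝ, T₀ ≤ T → a * T ^ (-x) ≤ 1 / 2 := by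
  have h1 : Filter.Tendsto (fun T : ℝ => a * T ^ (-x)) Filter.atTop (nhds (a * 0)) :=
    (tendsto_rpow_neg_atTop hx).const_mul a
  rw [mul_zero] at h1
  have h2 := h1.eventually (eventually_le_nhds (by norm_num : (0 : ℝ) < 1 / 2))
  obtain ⟨T₀, h3⟩ := Filter.eventually_atTop.1 h2
  exact ⟨max T₀ 1, le_max_right _ _, fun T hT => h3 T ((le_max_left _ _).trans hT)⟩

/-- the statement of `div_block` -/
def J3_DB : Prop := ∃ σ C : ℝ, 0 < σ ∧ σ ≤ 1 / 10 ∧ 0 < C ∧ ∀ (A N : ℕ) (t : ℝ), 1 ≤ A → N ≤ A →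
    (A : ℝ) ^ (5 / 2 : ℝ) ≤ t → t ≤ 4 * (A : ℝ) ^ 4 →
    ‖∑ n ∈ range N, ((-1) ^ (A + n) * (U6.dv (A + n) : ℂ)) *
      cexp (I * (U6.ph ((A + n : ℕ) : ℝ) t : ℝ))‖ ≤ C * (A : ℝ) ^ (1 - σ)

theorem J3_main (hdb : J3_DB) : ∃ c T₀ : ℝ, 0 < c ∧ c ≤ 1 / 100 ∧ 1 ≤ T₀ ∧
    ∀ (T t G : ℝ) (K : ℕ), T₀ ≤ T → T ≤ t →
    t ≤ 4 * T → 0 ≤ G → 1 ≤ K → (K : ℝ) ≤ T ^ (1 / 3 + c) → ‖U6.Y G t K‖ ≤ 1 := by
  obtain ⟨σ, C, hσ, hσ1, hC, hdb⟩ := hdb
  obtain ⟨C1, hC1, htriv⟩ := M12.Y_triv (δ := 1 / 8) (by norm_num)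
  obtain ⟨Ta, hTa1, hTa⟩ := J3_ev (x := 1 / 32) (a := C1 * 2) (by norm_num)
  obtain ⟨Tb, hTb1, hTb⟩ := J3_ev (x := σ / 4) (a := 20 * C) (by positivity)
  refine ⟨σ / 10, max Ta Tb, by positivity, by linarith, hTa1.trans (le_max_left _ _), ?_⟩
  intro T t G K hT0 hTt ht4 hG hK hKT
  have hT1 : 1 ≤ T := hTa1.trans ((le_max_left _ _).trans hT0)
  have hT : 0 < T := by linarith
  have ht : 0 < t := by linarith
  have ha := hTa T ((le_max_left _ _).trans hT0)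
  have hb := hTb T ((le_max_right _ _).trans hT0)
  set L : ℕ := ⌈T ^ (1 / 4 : ℝ)⌉₊ with hL
  have hTq : 1 ≤ T ^ (1 / 4 : ℝ) := Real.one_le_rpow hT1 (by norm_num)
  have hL1 : 1 ≤ L := Nat.one_le_ceil_iff.2 (by linarith)
  have hLT : T ^ (1 / 4 : ℝ) ≤ L := Nat.le_ceil _
  have hL2 : (L : ℝ) ≤ 2 * T ^ (1 / 4 : ℝ) := by
    have := Nat.ceil_lt_add_one (a := T ^ (1 / 4 : ℝ)) (by linarith)
    linarith
  have hsmall : ∀ M : ℕ, 1 ≤ M → M ≤ L → ‖U6.Y G t M‖ ≤ 1 / 2 := by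
    intro M hM1 hML
    refine (htriv G t T M hG hT hTt hM1).trans (le_trans ?_ ha)
    have hM0 : (0 : ℝ) ≤ M := Nat.cast_nonneg _
    have e1 : (M : ℝ) ^ (3 / 4 + 1 / 8 : ℝ) ≤ 2 * T ^ (7 / 32 : ℝ) := by
      calc (M : ℝ) ^ (3 / 4 + 1 / 8 : ℝ) ≤ (2 * T ^ (1 / 4 : ℝ)) ^ (3 / 4 + 1 / 8 : ℝ) := by
            apply Real.rpow_le_rpow hM0 _ (by norm_num)
            exact le_trans (by exact_mod_cast hML) hL2
        _ = (2 : ℝ) ^ (3 / 4 + 1 / 8 : ℝ) * T ^ (7 / 32 : ℝ) := by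
            rw [Real.mul_rpow (by norm_num) (by positivity), ← Real.rpow_mul hT.le]
            norm_num
        _ ≤ 2 * T ^ (7 / 32 : ℝ) := by
            apply mul_le_mul_of_nonneg_right _ (by positivity)
            calc (2 : ℝ) ^ (3 / 4 + 1 / 8 : ℝ) ≤ (2 : ℝ) ^ (1 : ℝ) :=
                  Real.rpow_le_rpow_of_exponent_le (by norm_num) (by norm_num)
              _ = 2 := Real.rpow_one 2
    calc C1 * ((M : ℝ) ^ (3 / 4 + 1 / 8 : ℝ) * T ^ (-(1 / 4) : ℝ)) ≤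
          C1 * ((2 * T ^ (7 / 32 : ℝ)) * T ^ (-(1 / 4) : ℝ)) :=
          mul_le_mul_of_nonneg_left (mul_le_mul_of_nonneg_right e1 (by positivity)) hC1.le
      _ = C1 * 2 * (T ^ (7 / 32 : ℝ) * T ^ (-(1 / 4) : ℝ)) := by ring
      _ = C1 * 2 * T ^ (-(1 / 32) : ℝ) := by
          rw [← Real.rpow_add hT]
          norm_num
  rcases Nat.lt_or_ge K L with hKL | hKL
  · exact (hsmall K hK hKL.le).trans (by norm_num)
  · have hK0 : (0 : ℝ) < K := by exact_mod_cast hK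
    have hσK : (K : ℝ) ≤ T ^ (2 / 5 : ℝ) :=
      hKT.trans (Real.rpow_le_rpow_of_exponent_le hT1 (by linarith))
    set a : ℝ := 2 * C * T ^ (-(1 / 4) : ℝ) * (K : ℝ) ^ (1 / 4 - σ) with hadef
    have ha0 : 0 ≤ a := by positivity
    have hblock : ∀ A N : ℕ, L ≤ A → N ≤ A → A + N ≤ K →
        ‖∑ n ∈ range N, (fun k => (J3_w G t k : ℂ) * J3_z t k) (A + n)‖ ≤ a * √(A : ℝ) := by
      intro A N hLA hNA hAK
      have hA1 : 1 ≤ A := hL1.trans hLA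
      have hA0 : (0 : ℝ) < A := by exact_mod_cast hA1
      have hAK' : (A : ℝ) ≤ K := by exact_mod_cast (by omega : A ≤ K)
      have hA4 : T ≤ (A : ℝ) ^ 4 := by
        have h1 : T ^ (1 / 4 : ℝ) ≤ A := hLT.trans (by exact_mod_cast hLA)
        calc T = (T ^ (1 / 4 : ℝ)) ^ 4 := by
              rw [← Real.rpow_natCast, ← Real.rpow_mul hT.le]
              norm_num
          _ ≤ (A : ℝ) ^ 4 := pow_le_pow_left₀ (by positivity) h1 4
      have hA5 : (A : ℝ) ^ (5 / 2 : ℝ) ≤ t := by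
        calc (A : ℝ) ^ (5 / 2 : ℝ) ≤ (T ^ (2 / 5 : ℝ)) ^ (5 / 2 : ℝ) :=
              Real.rpow_le_rpow hA0.le (hAK'.trans hσK) (by norm_num)
          _ = T := by
              rw [← Real.rpow_mul hT.le]
              norm_num
          _ ≤ t := hTt
      have h1 := J3_block (σ := σ) hC G t T hG hT hTt A N hA1 (fun n hn =>
        hdb A n t hA1 (hn.trans hNA) hA5 (by linarith))
      refine h1.trans ?_
      have e1 : (A : ℝ) ^ (3 / 4 - σ) = (A : ℝ) ^ (1 / 4 - σ) * √(A : ℝ) := by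
        rw [Real.sqrt_eq_rpow, ← Real.rpow_add hA0]
        congr 1
        ring
      have e2 : (A : ℝ) ^ (1 / 4 - σ) ≤ (K : ℝ) ^ (1 / 4 - σ) :=
        Real.rpow_le_rpow hA0.le hAK' (by linarith)
      rw [e1, hadef]
      calc 2 * C * T ^ (-(1 / 4) : ℝ) * ((A : ℝ) ^ (1 / 4 - σ) * √(A : ℝ)) =
            2 * C * T ^ (-(1 / 4) : ℝ) * (A : ℝ) ^ (1 / 4 - σ) * √(A : ℝ) := by ring
        _ ≤ 2 * C * T ^ (-(1 / 4) : ℝ) * (K : ℝ) ^ (1 / 4 - σ) * √(A : ℝ) :=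
            mul_le_mul_of_nonneg_right (mul_le_mul_of_nonneg_left e2 (by positivity))
              (Real.sqrt_nonneg _)
    have hdy := J3_dy (fun k => (J3_w G t k : ℂ) * J3_z t k) a ha0 L K hL1 hblock
    have hsplit : U6.Y G t K = U6.Y G t L + cexp (I * (Real.pi / 4 : ℝ)) *
        ∑ k ∈ Finset.Ico L K, (J3_w G t k : ℂ) * J3_z t k := by
      unfold U6.Y
      rw [← Finset.sum_Ico_consecutive _ hL1 hKL, Finset.mul_sum]
      congr 1
      exact Finset.sum_congr rfl fun k _ => J3_term G t k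
    have hnorm : ‖cexp (I * (Real.pi / 4 : ℝ))‖ = 1 := by
      rw [mul_comm, Complex.norm_exp_ofReal_mul_I]
    rw [hsplit]
    refine (norm_add_le _ _).trans ?_
    rw [norm_mul, hnorm, one_mul]
    have hfin : 10 * a * √(K : ℝ) ≤ 1 / 2 := by
      refine le_trans ?_ hb
      have e1 : (K : ℝ) ^ (1 / 4 - σ) * √(K : ℝ) = (K : ℝ) ^ (3 / 4 - σ) := by
        rw [Real.sqrt_eq_rpow, ← Real.rpow_add hK0]
        congr 1
        ring
      have e2 : (K : ℝ) ^ (3 / 4 - σ) ≤ T ^ ((1 / 3 + σ / 10) * (3 / 4 - σ)) := by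
        rw [Real.rpow_mul hT.le]
        exact Real.rpow_le_rpow hK0.le hKT (by linarith)
      have e3 : T ^ (-(1 / 4) : ℝ) * T ^ ((1 / 3 + σ / 10) * (3 / 4 - σ)) ≤ T ^ (-(σ / 4)) := by
        rw [← Real.rpow_add hT]
        apply Real.rpow_le_rpow_of_exponent_le hT1
        nlinarith
      calc 10 * a * √(K : ℝ) = 20 * C * (T ^ (-(1 / 4) : ℝ) *
            ((K : ℝ) ^ (1 / 4 - σ) * √(K : ℝ))) := by rw [hadef]; ring
        _ = 20 * C * (T ^ (-(1 / 4) : ℝ) * (K : ℝ) ^ (3 / 4 - σ)) := by rw [e1]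
        _ ≤ 20 * C * (T ^ (-(1 / 4) : ℝ) * T ^ ((1 / 3 + σ / 10) * (3 / 4 - σ))) := by
            apply mul_le_mul_of_nonneg_left _ (by positivity)
            exact mul_le_mul_of_nonneg_left e2 (by positivity)
        _ ≤ 20 * C * T ^ (-(σ / 4)) := mul_le_mul_of_nonneg_left e3 (by positivity)
    have h1 := hsmall L hL1 le_rfl
    linarith

theorem Y_sub : ∃ c T₀ : ℝ, 0 < c ∧ c ≤ 1 / 100 ∧ 1 ≤ T₀ ∧ ∀ (T t G : ℝ) (K : ℕ), T₀ ≤ T → T ≤ t →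
    t ≤ 4 * T → 0 ≤ G → 1 ≤ K → (K : ℝ) ≤ T ^ (1 / 3 + c) → ‖U6.Y G t K‖ ≤ 1 :=
  J3_main div_block

end T12
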