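import Pool.Agent.Lib.MP_39df77_nt.U6.Orders
import Pool.Agent.Lib.MP_39df77_nt.T12.Asm
import Pool.Agent.Lib.MP_39df77_nt.T12.Large
import Pool.Agent.Lib.MP_39df77_nt.T12.YSub

/-! The twelfth moment with a power saving, and all real orders `4 < A ≤ 12 + a`. -/

set_option autoImplicit false

open Complex MeasureTheory Set

namespace T12

theorem sixth : Sixth := fun δ hδ => U6.sixth_moment_x (show δ < 1 / 84 by linarith)

/-- **The twelfth moment with a power saving**, dyadic form -/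
theorem twelfth_x : ∃ δ C : ℝ, 0 < δ ∧ 0 < C ∧ ∀ T : ℝ, 1 ≤ T →
    ∫ t in T..(2 * T), ‖riemannZeta (1 / 2 + t * I)‖ ^ 12 ≤ C * T ^ (2 - δ) :=
  twelfth_of sixth large_x Y_sub

/-- All real orders `4 < A ≤ 12 + a`, with the constants `1/8800`, `1/26400`. -/
theorem all_orders_x : ∃ a : ℝ, 0 < a ∧ ∀ A : ℝ, 4 < A → A ≤ 12 + a →
    ∀ δ : ℝ, δ < min ((A - 4) / 8800) ((12 - A) / 26400 + a * (A - 6) / 6) →
    ∃ C : ℝ, ∀ T : ℝ, 1 ≤ T →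
      ∫ t in (0 : ℝ)..T, ‖riemannZeta (1 / 2 + t * I)‖ ^ A ≤ C * T ^ (1 + (A - 4) / 8 - δ) := by
  obtain ⟨a, ha, h⟩ := orders_of le_rfl sixth large_x Y_sub
  refine ⟨a, ha, fun A h4 h12 δ hδ => h A h4 h12 δ (lt_of_lt_of_le hδ (le_of_eq ?_))⟩
  congr 1 <;> ring

/-- All real orders `4 < A ≤ 12 + a`. -/
theorem all_orders_y : ∃ a : ℝ, 0 < a ∧ ∀ A : ℝ, 4 < A → A ≤ 12 + a →
    ∀ δ : ℝ, δ < min ((A - 4) / 168) ((12 - A) / 504 + a * (A - 6) / 6) →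
    ∃ C : ℝ, ∀ T : ℝ, 1 ≤ T →
      ∫ t in (0 : ℝ)..T, ‖riemannZeta (1 / 2 + t * I)‖ ^ A ≤ C * T ^ (1 + (A - 4) / 8 - δ) := by
  obtain ⟨a, ha, h⟩ := orders_of (θ := 1 / 84) (by norm_num) (fun δ hδ => U6.sixth_moment_x hδ) large_x Y_sub
  refine ⟨a, ha, fun A h4 h12 δ hδ => h A h4 h12 δ (lt_of_lt_of_le hδ (le_of_eq ?_))⟩
  congr 1 <;> ring

end T12
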