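import Pool.Agent.Lib.MP_39df77_nt.T12.Amp1

/-!
# T12, row D2: bounds for the amplitudes `AA` (sup and total variation)
-/

set_option autoImplicit false

namespace T12

open Finset Complex MeasureTheory Set

/-- the majorant -/
noncomputable def D2E (z : ℝ) : ℝ := Real.exp (-(1 / 2) * z ^ 2)

theorem D2E_int : Integrable D2E := by
  have := integrable_exp_neg_mul_sq (b := 1 / 2) (by norm_num)
  exact this

theorem D2E_nonneg (z : ℝ) : 0 ≤ D2E z := (Real.exp_pos _).le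

theorem D2E_cont : Continuous D2E := by unfold D2E; fun_prop

theorem D2_set (s : Set ℝ) : ∫ z in s, D2E z ≤ ∫ z, D2E z :=
  setIntegral_le_integral D2E_int (Filter.Eventually.of_forall D2E_nonneg)

/-- pointwise: sup bound -/
theorem D2_p1 (z : ℝ) : (4 + |z|) * Real.exp (-(2 * z ^ 2)) ≤ 5 * D2E z := by
  have h1 : |z| ≤ 1 + z ^ 2 := by
    have := sq_abs z
    nlinarith [abs_nonneg z, sq_nonneg (|z| - 1)]
  have h2 : z ^ 2 + 1 ≤ Real.exp (z ^ 2) := Real.add_one_le_exp _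
  have h3 : (1 : ℝ) ≤ Real.exp (z ^ 2) := by nlinarith [sq_nonneg z]
  have h4 : 4 + |z| ≤ 5 * Real.exp (z ^ 2) := by linarith
  calc (4 + |z|) * Real.exp (-(2 * z ^ 2)) ≤ 5 * Real.exp (z ^ 2) * Real.exp (-(2 * z ^ 2)) :=
        mul_le_mul_of_nonneg_right h4 (Real.exp_pos _).le
    _ = 5 * Real.exp (-(z ^ 2)) := by
        rw [mul_assoc, ← Real.exp_add]; congr 2; ring
    _ ≤ 5 * D2E z := by
        unfold D2E
        apply mul_le_mul_of_nonneg_left _ (by norm_num)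
        apply Real.exp_le_exp.mpr
        nlinarith [sq_nonneg z]

theorem D2_p2 (z : ℝ) : (8 + |z|) * (1 + z ^ 2) * Real.exp (-(2 * z ^ 2)) ≤ 9 * D2E z := by
  have h0 := sq_abs z
  have h1 : 8 + |z| ≤ 9 * (1 + z ^ 2 / 2) := by
    nlinarith [abs_nonneg z, sq_nonneg (|z| - 1)]
  have h2 : z ^ 2 + 1 ≤ Real.exp (z ^ 2) := Real.add_one_le_exp _
  have h3 : z ^ 2 / 2 + 1 ≤ Real.exp (z ^ 2 / 2) := Real.add_one_le_exp _
  have h4 : (8 + |z|) * (1 + z ^ 2) ≤ 9 * Real.exp (z ^ 2 / 2) * Real.exp (z ^ 2) := by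
    apply mul_le_mul (by linarith) (by linarith) (by positivity) (by positivity)
  calc (8 + |z|) * (1 + z ^ 2) * Real.exp (-(2 * z ^ 2))
      ≤ 9 * Real.exp (z ^ 2 / 2) * Real.exp (z ^ 2) * Real.exp (-(2 * z ^ 2)) :=
        mul_le_mul_of_nonneg_right h4 (Real.exp_pos _).le
    _ = 9 * D2E z := by
        unfold D2E
        rw [mul_assoc, mul_assoc, ← Real.exp_add, ← Real.exp_add]; congr 2; ring

theorem D2_sup {α y1 y2 : ℝ} {M m : ℕ} (hα : 0 < α) (h1 : 1 ≤ y1) (h3 : y2 ≤ 2 * y1)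
    (hM : 1 ≤ M) (h4 : α ≤ 4 * y2 * M) (hm : M ≤ m) (z : ℝ) :
    ‖hz α z m‖ ≤ 10 * (y1 / √(M : ℝ)) * D2E z := by
  have hM' : (1 : ℝ) ≤ M := by exact_mod_cast hM
  have hm' : (M : ℝ) ≤ m := by exact_mod_cast hm
  have hm1 : (1 : ℝ) ≤ m := hM'.trans hm'
  have hy : α / (2 * m) ≤ 4 * y1 := by
    rw [div_le_iff₀ (by positivity)]
    nlinarith
  have hz1 : |z| / (2 * m) ≤ y1 * |z| := by
    rw [div_le_iff₀ (by positivity)]
    have : 1 ≤ y1 * (2 * m) := by nlinarith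
    nlinarith [abs_nonneg z]
  have hp : ((2 * m : ℝ)) ^ (-(1 / 2) : ℝ) ≤ 1 / √(M : ℝ) := by
    rw [Real.rpow_neg (by positivity), ← Real.sqrt_eq_rpow, ← one_div]
    apply one_div_le_one_div_of_le (by positivity)
    apply Real.sqrt_le_sqrt
    linarith
  have hsM : 0 < 1 / √(M : ℝ) := by positivity
  calc ‖hz α z m‖ ≤ 2 * (α / (2 * m) + |z| / (2 * m)) * (2 * m : ℝ) ^ (-(1 / 2) : ℝ) *
        Real.exp (-(2 * z ^ 2)) := hz_norm_le hα.le hm1 z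
    _ ≤ 2 * (y1 * (4 + |z|)) * (1 / √(M : ℝ)) * Real.exp (-(2 * z ^ 2)) := by
        apply mul_le_mul_of_nonneg_right _ (Real.exp_pos _).le
        apply mul_le_mul _ hp (by positivity) (by positivity)
        linarith
    _ = 2 * (y1 * (1 / √(M : ℝ))) * ((4 + |z|) * Real.exp (-(2 * z ^ 2))) := by ring
    _ ≤ 2 * (y1 * (1 / √(M : ℝ))) * (5 * D2E z) :=
        mul_le_mul_of_nonneg_left (D2_p1 z) (by positivity)
    _ = 10 * (y1 / √(M : ℝ)) * D2E z := by ring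

theorem D2_dif {Cd : ℝ} (hCd : 0 < Cd) (hd : ∀ (α z m : ℝ), 0 ≤ α → 1 ≤ m →
    ‖hz α z (m + 1) - hz α z m‖ ≤
      Cd * ((α / m + |z|) * (1 + z ^ 2) * Real.exp (-(2 * z ^ 2)) * m ^ (-(3 / 2) : ℝ)))
    {α y1 y2 : ℝ} {M m : ℕ} (hα : 0 < α) (h1 : 1 ≤ y1) (h3 : y2 ≤ 2 * y1)
    (hM : 1 ≤ M) (h4 : α ≤ 4 * y2 * M) (hm : M ≤ m) (z : ℝ) :
    ‖hz α z ((m + 1 : ℕ) : ℝ) - hz α z m‖ ≤ 9 * Cd * (y1 / (M * √(M : ℝ))) * D2E z := by
  have hM' : (1 : ℝ) ≤ M := by exact_mod_cast hM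
  have hm' : (M : ℝ) ≤ m := by exact_mod_cast hm
  have hm1 : (1 : ℝ) ≤ m := hM'.trans hm'
  have hy : α / m ≤ 8 * y1 := by
    rw [div_le_iff₀ (by positivity)]
    nlinarith
  have hz1 : |z| ≤ y1 * |z| := by nlinarith [abs_nonneg z]
  have hp : (m : ℝ) ^ (-(3 / 2) : ℝ) ≤ 1 / (M * √(M : ℝ)) := by
    have e : (m : ℝ) ^ (-(3 / 2) : ℝ) = 1 / (m * √(m : ℝ)) := by
      rw [Real.rpow_neg (by positivity), one_div]
      congr 1
      rw [Real.sqrt_eq_rpow, show (3 / 2 : ℝ) = 1 + 1 / 2 by norm_num, Real.rpow_add (by positivity),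
        Real.rpow_one]
    rw [e]
    apply one_div_le_one_div_of_le (by positivity)
    apply mul_le_mul hm' (Real.sqrt_le_sqrt hm') (by positivity) (by positivity)
  have hc : ((m + 1 : ℕ) : ℝ) = (m : ℝ) + 1 := by push_cast; ring
  rw [hc]
  have hpos : 0 < M * √(M : ℝ) := by positivity
  calc ‖hz α z ((m : ℝ) + 1) - hz α z m‖ ≤
      Cd * ((α / m + |z|) * (1 + z ^ 2) * Real.exp (-(2 * z ^ 2)) * (m : ℝ) ^ (-(3 / 2) : ℝ)) :=
        hd α z m hα.le hm1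
    _ ≤ Cd * ((y1 * (8 + |z|)) * (1 + z ^ 2) * Real.exp (-(2 * z ^ 2)) * (1 / (M * √(M : ℝ)))) := by
        apply mul_le_mul_of_nonneg_left _ hCd.le
        apply mul_le_mul _ hp (by positivity) (by positivity)
        apply mul_le_mul_of_nonneg_right _ (Real.exp_pos _).le
        apply mul_le_mul_of_nonneg_right _ (by positivity)
        linarith
    _ = Cd * (y1 * (1 / (M * √(M : ℝ)))) * ((8 + |z|) * (1 + z ^ 2) * Real.exp (-(2 * z ^ 2))) := by ring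
    _ ≤ Cd * (y1 * (1 / (M * √(M : ℝ)))) * (9 * D2E z) :=
        mul_le_mul_of_nonneg_left (D2_p2 z) (by positivity)
    _ = 9 * Cd * (y1 / (M * √(M : ℝ))) * D2E z := by ring

theorem D2_uIoc {f : ℝ → ℂ} {K : ℝ} (a b : ℝ) (hf : ∀ z, ‖f z‖ ≤ K * D2E z) :
    ‖∫ z in a..b, f z‖ ≤ K * ∫ z in Set.uIoc a b, D2E z := by
  rw [← integral_const_mul]
  calc ‖∫ z in a..b, f z‖ ≤ |∫ z in a..b, K * D2E z| := by
        apply intervalIntegral.norm_integral_le_abs_of_norm_le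
        · exact Filter.Eventually.of_forall (fun z => hf z)
        · exact (D2E_cont.const_mul K).intervalIntegrable _ _
    _ ≤ ∫ z in Set.uIoc a b, ‖K * D2E z‖ := by
        rw [← Real.norm_eq_abs]
        exact intervalIntegral.norm_integral_le_integral_norm_uIoc
    _ = ∫ z in Set.uIoc a b, K * D2E z := by
        apply integral_congr_ae
        filter_upwards with z
        rw [Real.norm_of_nonneg]
        exact (norm_nonneg _).trans (hf z)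

theorem D2_mono {α : ℝ} (hα : 0 < α) {m : ℕ} (hm : 1 ≤ m) :
    α / (2 * ((m + 1 : ℕ) : ℝ)) ≤ α / (2 * (m : ℝ)) := by
  have hm1 : (1 : ℝ) ≤ m := by exact_mod_cast hm
  apply div_le_div_of_nonneg_left hα.le (by positivity)
  push_cast
  linarith

theorem D2_tele (y α : ℝ) {M N : ℕ} (hα : 0 < α) (hM : 1 ≤ M) (hMN : M ≤ N) :
    ∑ m ∈ Finset.Ico M N, ∫ z in Set.uIoc (y - α / (2 * (m : ℝ))) (y - α / (2 * ((m + 1 : ℕ) : ℝ))), D2E z ≤
      ∫ z, D2E z := by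
  have e : ∀ m ∈ Finset.Ico M N,
      ∫ z in Set.uIoc (y - α / (2 * (m : ℝ))) (y - α / (2 * ((m + 1 : ℕ) : ℝ))), D2E z =
      ∫ z in (y - α / (2 * (m : ℝ)))..(y - α / (2 * ((m + 1 : ℕ) : ℝ))), D2E z := by
    intro m hm
    have hm1 : 1 ≤ m := hM.trans (Finset.mem_Ico.mp hm).1
    have hle : y - α / (2 * (m : ℝ)) ≤ y - α / (2 * ((m + 1 : ℕ) : ℝ)) := by
      have := D2_mono hα hm1
      linarith
    rw [intervalIntegral.integral_of_le hle, Set.uIoc_of_le hle]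
  rw [Finset.sum_congr rfl e]
  have h := intervalIntegral.sum_integral_adjacent_intervals_Ico (f := D2E) (μ := volume)
    (a := fun m : ℕ => y - α / (2 * (m : ℝ))) hMN
    (fun k _ => D2E_cont.intervalIntegrable _ _)
  rw [h]
  have hle : y - α / (2 * (M : ℝ)) ≤ y - α / (2 * (N : ℝ)) := by
    have hM1 : (1 : ℝ) ≤ M := by exact_mod_cast hM
    have hN1 : (M : ℝ) ≤ N := by exact_mod_cast hMN
    have : α / (2 * (N : ℝ)) ≤ α / (2 * (M : ℝ)) := by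
      apply div_le_div_of_nonneg_left hα.le (by positivity)
      linarith
    linarith
  rw [intervalIntegral.integral_of_le hle]
  exact D2_set _

theorem D2_split (α y1 y2 : ℝ) {m : ℕ} {S D : ℝ}
    (hS : ∀ z, ‖hz α z ((m + 1 : ℕ) : ℝ)‖ ≤ S * D2E z)
    (hD : ∀ z, ‖hz α z ((m + 1 : ℕ) : ℝ) - hz α z m‖ ≤ D * D2E z) :
    ‖AA α y1 y2 ((m + 1 : ℕ) : ℝ) - AA α y1 y2 m‖ ≤
      S * (∫ z in Set.uIoc (y2 - α / (2 * (m : ℝ))) (y2 - α / (2 * ((m + 1 : ℕ) : ℝ))), D2E z) +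
      S * (∫ z in Set.uIoc (y1 - α / (2 * (m : ℝ))) (y1 - α / (2 * ((m + 1 : ℕ) : ℝ))), D2E z) +
      D * ∫ z, D2E z := by
  have c1 : Continuous (fun z : ℝ => hz α z ((m + 1 : ℕ) : ℝ)) := hz_cont α _
  have c0 : Continuous (fun z : ℝ => hz α z (m : ℝ)) := hz_cont α _
  set a := y1 - α / (2 * (m : ℝ)) with ha
  set b := y2 - α / (2 * (m : ℝ)) with hb
  set a' := y1 - α / (2 * ((m + 1 : ℕ) : ℝ)) with ha'
  set b' := y2 - α / (2 * ((m + 1 : ℕ) : ℝ)) with hb'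
  have e : AA α y1 y2 ((m + 1 : ℕ) : ℝ) - AA α y1 y2 m =
      (∫ z in b..b', hz α z ((m + 1 : ℕ) : ℝ)) - (∫ z in a..a', hz α z ((m + 1 : ℕ) : ℝ)) +
      ∫ z in a..b, (hz α z ((m + 1 : ℕ) : ℝ) - hz α z m) := by
    unfold AA
    rw [← ha, ← hb, ← ha', ← hb']
    rw [intervalIntegral.integral_sub (c1.intervalIntegrable _ _) (c0.intervalIntegrable _ _)]
    have k1 := intervalIntegral.integral_add_adjacent_intervals (μ := volume)
      (c1.intervalIntegrable a b) (c1.intervalIntegrable b b')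
    have k2 := intervalIntegral.integral_add_adjacent_intervals (μ := volume)
      (c1.intervalIntegrable a a') (c1.intervalIntegrable a' b')
    have k3 : (∫ z in a'..b', hz α z ((m + 1 : ℕ) : ℝ)) =
        (∫ z in a..b, hz α z ((m + 1 : ℕ) : ℝ)) + (∫ z in b..b', hz α z ((m + 1 : ℕ) : ℝ)) -
        ∫ z in a..a', hz α z ((m + 1 : ℕ) : ℝ) := by
      rw [k1, ← k2]; ring
    rw [k3]; ring
  rw [e]
  have n1 := D2_uIoc (f := fun z : ℝ => hz α z ((m + 1 : ℕ) : ℝ)) b b' hS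
  have n2 := D2_uIoc (f := fun z : ℝ => hz α z ((m + 1 : ℕ) : ℝ)) a a' hS
  have n3 := D2_uIoc (f := fun z : ℝ => hz α z ((m + 1 : ℕ) : ℝ) - hz α z m) a b hD
  have hD0 : 0 ≤ D := by
    have := hD 0
    have h0 : D2E 0 = 1 := by unfold D2E; simp
    rw [h0] at this
    have := norm_nonneg (hz α 0 ((m + 1 : ℕ) : ℝ) - hz α 0 m)
    linarith
  have n4 : D * ∫ z in Set.uIoc a b, D2E z ≤ D * ∫ z, D2E z :=
    mul_le_mul_of_nonneg_left (D2_set _) hD0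
  calc ‖_‖ ≤ ‖(∫ z in b..b', hz α z ((m + 1 : ℕ) : ℝ)) - (∫ z in a..a', hz α z ((m + 1 : ℕ) : ℝ))‖ +
        ‖∫ z in a..b, (hz α z ((m + 1 : ℕ) : ℝ) - hz α z m)‖ := norm_add_le _ _
    _ ≤ (‖∫ z in b..b', hz α z ((m + 1 : ℕ) : ℝ)‖ + ‖∫ z in a..a', hz α z ((m + 1 : ℕ) : ℝ)‖) +
        ‖∫ z in a..b, (hz α z ((m + 1 : ℕ) : ℝ) - hz α z m)‖ := by
          gcongr
          exact norm_sub_le _ _
    _ ≤ _ := by linarith

theorem AA_bd : ∃ C : ℝ, 0 < C ∧ ∀ (α y1 y2 : ℝ) (M : ℕ), 0 < α → 1 ≤ y1 → y1 ≤ y2 → y2 ≤ 2 * y1 →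
    1 ≤ M → α ≤ 4 * y2 * M →
    (∀ m : ℕ, M ≤ m → ‖AA α y1 y2 m‖ ≤ C * (y1 / √(M : ℝ))) ∧
    ∑ m ∈ Finset.Ico M (9 * M), ‖AA α y1 y2 ((m + 1 : ℕ) : ℝ) - AA α y1 y2 m‖ ≤ C * (y1 / √(M : ℝ)) := by
  obtain ⟨Cd, hCd, hd⟩ : ∃ C : ℝ, 0 < C ∧ ∀ (α z m : ℝ), 0 ≤ α → 1 ≤ m →
      ‖hz α z (m + 1) - hz α z m‖ ≤
        C * ((α / m + |z|) * (1 + z ^ 2) * Real.exp (-(2 * z ^ 2)) * m ^ (-(3 / 2) : ℝ)) :=
    ⟨2, by norm_num, fun α z m h0 h1 => (hz_diff_le h0 h1 z).trans_eq (by ring)⟩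
  set I0 : ℝ := ∫ z, D2E z with hI0
  have hI : 0 ≤ I0 := integral_nonneg D2E_nonneg
  refine ⟨(20 + 72 * Cd) * (I0 + 1), by positivity, ?_⟩
  intro α y1 y2 M hα h1 h2 h3 hM h4
  have hM' : (1 : ℝ) ≤ M := by exact_mod_cast hM
  have hq : 0 < y1 / √(M : ℝ) := by positivity
  refine ⟨?_, ?_⟩
  · intro m hm
    have := D2_uIoc (f := fun z : ℝ => hz α z (m : ℝ)) (y1 - α / (2 * (m : ℝ))) (y2 - α / (2 * (m : ℝ)))
      (fun z => D2_sup hα h1 h3 hM h4 hm z)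
    calc ‖AA α y1 y2 m‖ ≤ 10 * (y1 / √(M : ℝ)) *
          ∫ z in Set.uIoc (y1 - α / (2 * (m : ℝ))) (y2 - α / (2 * (m : ℝ))), D2E z := this
      _ ≤ 10 * (y1 / √(M : ℝ)) * I0 := mul_le_mul_of_nonneg_left (D2_set _) (by positivity)
      _ = (10 * I0) * (y1 / √(M : ℝ)) := by ring
      _ ≤ (20 + 72 * Cd) * (I0 + 1) * (y1 / √(M : ℝ)) := by
          apply mul_le_mul_of_nonneg_right _ hq.le
          nlinarith [mul_nonneg hCd.le hI]
  · have hstep : ∀ m ∈ Finset.Ico M (9 * M), ‖AA α y1 y2 ((m + 1 : ℕ) : ℝ) - AA α y1 y2 m‖ ≤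
        10 * (y1 / √(M : ℝ)) * (∫ z in Set.uIoc (y2 - α / (2 * (m : ℝ))) (y2 - α / (2 * ((m + 1 : ℕ) : ℝ))), D2E z) +
        10 * (y1 / √(M : ℝ)) * (∫ z in Set.uIoc (y1 - α / (2 * (m : ℝ))) (y1 - α / (2 * ((m + 1 : ℕ) : ℝ))), D2E z) +
        9 * Cd * (y1 / (M * √(M : ℝ))) * I0 := by
      intro m hm
      have hmM : M ≤ m := (Finset.mem_Ico.mp hm).1
      exact D2_split α y1 y2
        (fun z => D2_sup hα h1 h3 hM h4 (hmM.trans (Nat.le_succ m)) z)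
        (fun z => D2_dif hCd hd hα h1 h3 hM h4 hmM z)
    refine (Finset.sum_le_sum hstep).trans ?_
    rw [Finset.sum_add_distrib, Finset.sum_add_distrib, ← Finset.mul_sum, ← Finset.mul_sum]
    have t1 := D2_tele y2 α (M := M) (N := 9 * M) hα hM (by omega)
    have t2 := D2_tele y1 α (M := M) (N := 9 * M) hα hM (by omega)
    have t3 : ∑ _m ∈ Finset.Ico M (9 * M), 9 * Cd * (y1 / (M * √(M : ℝ))) * I0 =
        72 * Cd * I0 * (y1 / √(M : ℝ)) := by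
      rw [Finset.sum_const, Nat.card_Ico, nsmul_eq_mul]
      have : ((9 * M - M : ℕ) : ℝ) = 8 * M := by
        rw [Nat.cast_sub (by omega)]; push_cast; ring
      rw [this]
      field_simp
      ring
    rw [t3]
    calc _ ≤ 10 * (y1 / √(M : ℝ)) * I0 + 10 * (y1 / √(M : ℝ)) * I0 + 72 * Cd * I0 * (y1 / √(M : ℝ)) := by
          gcongr
      _ = (20 * I0 + 72 * Cd * I0) * (y1 / √(M : ℝ)) := by ring
      _ ≤ (20 + 72 * Cd) * (I0 + 1) * (y1 / √(M : ℝ)) := by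
          apply mul_le_mul_of_nonneg_right _ hq.le
          nlinarith [mul_nonneg hCd.le hI]

end T12
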