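import Pool.Agent.Lib.MP_39df77_nt.T12.Defs

/-!
Row T12-D1: pointwise bounds of `hz` and of its increments in the dual variable.
-/

set_option autoImplicit false

namespace T12

open Complex

theorem a1_re (ξ : ℝ) : (cc ξ).re = 1 := by
  simp [cc]

theorem a1_im (ξ : ℝ) : (cc ξ).im = 2 * ξ := by
  simp [cc]

theorem a1_ne (ξ : ℝ) : cc ξ ≠ 0 := by
  intro h
  have := congrArg Complex.re h
  rw [a1_re] at this
  simp at this

theorem a1_slit (ξ : ℝ) : cc ξ ∈ Complex.slitPlane := by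
  left
  rw [a1_re]
  exact one_pos

theorem a1_norm_ge (ξ : ℝ) : 2 * ξ ≤ ‖cc ξ‖ := by
  have h := Complex.abs_im_le_norm (cc ξ)
  rw [a1_im] at h
  exact (le_abs_self _).trans h

theorem a1_normSq (ξ : ℝ) : Complex.normSq (cc ξ) = 1 + 4 * ξ ^ 2 := by
  rw [Complex.normSq_apply, a1_re, a1_im]; ring

/-- the modulus of the exponential factor -/
theorem a1_exp {ξ : ℝ} (hξ : 1 ≤ ξ) (z : ℝ) :
    ‖Complex.exp (-(2 * Real.pi * (ξ : ℂ) * Complex.I * (z : ℂ) ^ 2 / cc ξ))‖ ≤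
      Real.exp (-(2 * z ^ 2)) := by
  rw [Complex.norm_exp]
  apply Real.exp_le_exp.mpr
  have h1 : (-(2 * Real.pi * (ξ : ℂ) * Complex.I * (z : ℂ) ^ 2 / cc ξ)).re =
      -(4 * Real.pi * ξ ^ 2 * z ^ 2 / (1 + 4 * ξ ^ 2)) := by
    have e : (2 * Real.pi * (ξ : ℂ) * Complex.I * (z : ℂ) ^ 2) =
        (((2 * Real.pi * ξ * z ^ 2 : ℝ)) : ℂ) * Complex.I := by
      push_cast; ring
    rw [e, Complex.neg_re, Complex.div_re, a1_normSq, a1_re, a1_im]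
    have e1 : ((((2 * Real.pi * ξ * z ^ 2 : ℝ)) : ℂ) * Complex.I).re = 0 := by
      simp only [Complex.mul_re, Complex.ofReal_re, Complex.ofReal_im, Complex.I_re, Complex.I_im,
        mul_zero, zero_mul, sub_zero]
    have e2 : ((((2 * Real.pi * ξ * z ^ 2 : ℝ)) : ℂ) * Complex.I).im = 2 * Real.pi * ξ * z ^ 2 := by
      simp only [Complex.mul_im, Complex.ofReal_re, Complex.ofReal_im, Complex.I_re, Complex.I_im,
        mul_one, mul_zero, add_zero]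
    rw [e1, e2]
    ring
  rw [h1]
  have hpi := Real.pi_gt_three
  have h2 : 2 * z ^ 2 ≤ 4 * Real.pi * ξ ^ 2 * z ^ 2 / (1 + 4 * ξ ^ 2) := by
    rw [le_div_iff₀ (by positivity)]
    have h3 : 1 ≤ ξ ^ 2 := by nlinarith
    have h4 : 0 ≤ z ^ 2 := sq_nonneg z
    nlinarith [mul_nonneg h4 (sub_nonneg.mpr h3), mul_nonneg (mul_nonneg h4 (sq_nonneg ξ))
      (sub_nonneg.mpr hpi.le)]
  linarith

theorem a1_pow (s : ℝ) (hs : 0 ≤ s) {ξ : ℝ} (hξ : 1 ≤ ξ) :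
    ‖cc ξ ^ ((-s : ℝ) : ℂ)‖ ≤ (2 * ξ) ^ (-s) := by
  rw [Complex.norm_cpow_real]
  exact Real.rpow_le_rpow_of_nonpos (by linarith) (a1_norm_ge ξ) (by linarith)

theorem a1_lin {α ξ : ℝ} (hα : 0 ≤ α) (hξ : 1 ≤ ξ) (z : ℝ) :
    ‖((α / (2 * ξ) : ℝ) : ℂ) + (z : ℂ) / cc ξ‖ ≤ α / (2 * ξ) + |z| / (2 * ξ) := by
  refine (norm_add_le _ _).trans (add_le_add ?_ ?_)
  · rw [Complex.norm_real, Real.norm_eq_abs, abs_of_nonneg (by positivity)]
  · rw [norm_div, Complex.norm_real, Real.norm_eq_abs]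
    exact div_le_div_of_nonneg_left (abs_nonneg z) (by linarith) (a1_norm_ge ξ)

/-- pointwise bound of `hz` -/
theorem hz_norm_le {α ξ : ℝ} (hα : 0 ≤ α) (hξ : 1 ≤ ξ) (z : ℝ) :
    ‖hz α z ξ‖ ≤ 2 * (α / (2 * ξ) + |z| / (2 * ξ)) * (2 * ξ) ^ (-(1 / 2) : ℝ) *
      Real.exp (-(2 * z ^ 2)) := by
  have h1 := a1_lin hα hξ z
  have h2 := a1_pow (1 / 2) (by norm_num) hξ
  have h3 := a1_exp hξ z
  have e : cc ξ ^ (-(1 / 2) : ℂ) = cc ξ ^ ((-(1 / 2) : ℝ) : ℂ) := by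
    congr 1; push_cast; ring
  rw [hz, norm_mul, norm_mul, norm_mul, e, Complex.norm_ofNat]
  have p1 : 0 ≤ α / (2 * ξ) + |z| / (2 * ξ) := by positivity
  have p2 : 0 ≤ (2 * ξ) ^ (-(1 / 2) : ℝ) := by positivity
  exact mul_le_mul (mul_le_mul (mul_le_mul_of_nonneg_left h1 (by norm_num)) h2 (norm_nonneg _)
    (by positivity)) h3 (norm_nonneg _) (by positivity)

/-- continuity in `z` -/
theorem hz_cont (α ξ : ℝ) : Continuous (fun z : ℝ => hz α z ξ) := by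
  unfold hz
  have h := a1_ne ξ
  fun_prop

/-- the derivative of `hz` in the dual variable -/
noncomputable def dhz (α z ξ : ℝ) : ℂ :=
  2 * ((-(α / (2 * ξ ^ 2)) : ℝ) + -((z : ℂ) * (2 * Complex.I) / cc ξ ^ 2)) * cc ξ ^ (-(1 / 2) : ℂ) *
      Complex.exp (-(2 * Real.pi * (ξ : ℂ) * Complex.I * (z : ℂ) ^ 2 / cc ξ)) +
  2 * ((α / (2 * ξ) : ℝ) + (z : ℂ) / cc ξ) * (-Complex.I * cc ξ ^ (-(3 / 2) : ℂ)) *
      Complex.exp (-(2 * Real.pi * (ξ : ℂ) * Complex.I * (z : ℂ) ^ 2 / cc ξ)) +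
  2 * ((α / (2 * ξ) : ℝ) + (z : ℂ) / cc ξ) * cc ξ ^ (-(1 / 2) : ℂ) *
      (Complex.exp (-(2 * Real.pi * (ξ : ℂ) * Complex.I * (z : ℂ) ^ 2 / cc ξ)) *
        (-(2 * Real.pi * Complex.I * (z : ℂ) ^ 2 / cc ξ ^ 2)))

theorem hz_deriv (α z : ℝ) {ξ : ℝ} (hξ : 0 < ξ) : HasDerivAt (fun x : ℝ => hz α z x) (dhz α z ξ) ξ := by
  have hc := a1_ne ξ
  have hcd : HasDerivAt (fun x : ℝ => cc x) (2 * Complex.I) ξ := by
    have h := ((Complex.ofRealCLM.hasDerivAt (x := ξ)).const_mul (2 : ℂ)).mul_const Complex.I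
    have h2 := h.const_add (1 : ℂ)
    simpa [cc] using h2
  have hL : HasDerivAt (fun x : ℝ => (((α / (2 * x) : ℝ) : ℂ) + (z : ℂ) / cc x))
      ((-(α / (2 * ξ ^ 2)) : ℝ) + -((z : ℂ) * (2 * Complex.I) / cc ξ ^ 2)) ξ := by
    refine HasDerivAt.add ?_ ?_
    · refine HasDerivAt.ofReal_comp ?_
      have h := ((hasDerivAt_id ξ).const_mul (2 : ℝ)).fun_inv (by simp; exact hξ.ne')
      have h2 := h.const_mul α
      have e : (fun x : ℝ => α / (2 * x)) = (fun x : ℝ => α * (2 * id x)⁻¹) := by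
        funext x; simp [div_eq_mul_inv]
      rw [e]
      refine h2.congr_deriv ?_
      simp only [id_eq, mul_one]
      field_simp
    · have h := (hcd.fun_inv hc).const_mul (z : ℂ)
      have e : (fun x : ℝ => (z : ℂ) / cc x) = (fun x : ℝ => (z : ℂ) * (cc x)⁻¹) := by
        funext x; rw [div_eq_mul_inv]
      rw [e]
      refine h.congr_deriv ?_
      ring
  have hP : HasDerivAt (fun x : ℝ => cc x ^ (-(1 / 2) : ℂ)) (-Complex.I * cc ξ ^ (-(3 / 2) : ℂ)) ξ := by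
    have h := ((Complex.hasStrictDerivAt_cpow_const (c := (-(1 / 2) : ℂ)) (a1_slit ξ)).hasDerivAt).comp
      ξ hcd
    have h' : HasDerivAt (fun x : ℝ => cc x ^ (-(1 / 2) : ℂ))
        (-(1 / 2) * cc ξ ^ (-(1 / 2) - 1 : ℂ) * (2 * Complex.I)) ξ := h
    refine h'.congr_deriv ?_
    have e : (-(1 / 2) - 1 : ℂ) = -(3 / 2) := by norm_num
    rw [e]
    ring
  have hE : HasDerivAt (fun x : ℝ => Complex.exp (-(2 * Real.pi * (x : ℂ) * Complex.I * (z : ℂ) ^ 2 / cc x)))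
      (Complex.exp (-(2 * Real.pi * (ξ : ℂ) * Complex.I * (z : ℂ) ^ 2 / cc ξ)) *
        (-(2 * Real.pi * Complex.I * (z : ℂ) ^ 2 / cc ξ ^ 2))) ξ := by
    refine HasDerivAt.cexp ?_
    have h1 : HasDerivAt (fun x : ℝ => (2 * Real.pi * (x : ℂ) * Complex.I * (z : ℂ) ^ 2))
        (2 * Real.pi * Complex.I * (z : ℂ) ^ 2) ξ := by
      have h := (((Complex.ofRealCLM.hasDerivAt (x := ξ)).const_mul (2 * Real.pi : ℂ)).mul_const
        Complex.I).mul_const ((z : ℂ) ^ 2)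
      simpa using h
    have h2 := (h1.div hcd hc).neg
    refine h2.congr_deriv ?_
    have e : cc ξ = 1 + 2 * (ξ : ℂ) * Complex.I := rfl
    field_simp
    rw [e]
    ring
  have h := ((hL.const_mul (2 : ℂ)).mul hP).mul hE
  refine (h.congr_deriv ?_ : HasDerivAt (fun x : ℝ => hz α z x) (dhz α z ξ) ξ)
  unfold dhz
  simp only [Pi.mul_apply]
  ring

/-- bound of the derivative -/
theorem dhz_norm_le {α ξ : ℝ} (hα : 0 ≤ α) (hξ : 1 ≤ ξ) (z : ℝ) :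
    ‖dhz α z ξ‖ ≤ 2 * (1 + z ^ 2) * (α + |z|) * Real.exp (-(2 * z ^ 2)) * ξ ^ (-(1 / 2) : ℝ) / ξ ^ 2 := by
  have hξ0 : 0 < ξ := by linarith
  have hL := a1_lin hα hξ z
  have hE := a1_exp hξ z
  have hcn := a1_norm_ge ξ
  set E := Complex.exp (-(2 * Real.pi * (ξ : ℂ) * Complex.I * (z : ℂ) ^ 2 / cc ξ)) with hEd
  set e := Real.exp (-(2 * z ^ 2)) with hed
  have he : 0 < e := Real.exp_pos _
  set r := ξ ^ (-(1 / 2) : ℝ) with hr
  have hr0 : 0 < r := Real.rpow_pos_of_pos hξ0 _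
  have hz0 : 0 ≤ |z| := abs_nonneg z
  have hP : ‖cc ξ ^ (-(1 / 2) : ℂ)‖ ≤ r := by
    have h2 := a1_pow (1 / 2) (by norm_num) hξ
    have e : cc ξ ^ (-(1 / 2) : ℂ) = cc ξ ^ ((-(1 / 2) : ℝ) : ℂ) := by
      congr 1; push_cast; ring
    rw [e]
    exact h2.trans (Real.rpow_le_rpow_of_nonpos hξ0 (by linarith) (by norm_num))
  have hP2 : ‖cc ξ ^ (-(3 / 2) : ℂ)‖ ≤ r / ξ := by
    have h2 := a1_pow (3 / 2) (by norm_num) hξ
    have e : cc ξ ^ (-(3 / 2) : ℂ) = cc ξ ^ ((-(3 / 2) : ℝ) : ℂ) := by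
      congr 1; push_cast; ring
    rw [e]
    refine (h2.trans (Real.rpow_le_rpow_of_nonpos hξ0 (by linarith) (by norm_num))).trans (le_of_eq ?_)
    have e2 : ξ ^ (-(1 / 2) : ℝ) / ξ = ξ ^ ((-(1 / 2) : ℝ) - 1) := by
      rw [Real.rpow_sub_one hξ0.ne']
    rw [hr, e2]
    norm_num
  have hc2 : 4 * ξ ^ 2 ≤ ‖cc ξ‖ ^ 2 := by nlinarith
  have hA : ‖(((-(α / (2 * ξ ^ 2)) : ℝ) : ℂ) + -((z : ℂ) * (2 * Complex.I) / cc ξ ^ 2))‖ ≤
      (α + |z|) / (2 * ξ ^ 2) := by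
    refine (norm_add_le _ _).trans ?_
    rw [norm_neg, norm_div, norm_mul, norm_mul, Complex.norm_real, Complex.norm_real, Complex.norm_I,
      Complex.norm_ofNat, norm_pow, Real.norm_eq_abs, Real.norm_eq_abs, abs_neg,
      abs_of_nonneg (by positivity : 0 ≤ α / (2 * ξ ^ 2)), mul_one]
    have h1 : |z| * 2 / ‖cc ξ‖ ^ 2 ≤ |z| * 2 / (4 * ξ ^ 2) :=
      div_le_div_of_nonneg_left (by positivity) (by positivity) hc2
    have h2 : |z| * 2 / (4 * ξ ^ 2) = |z| / (2 * ξ ^ 2) := by field_simp; norm_num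
    rw [add_div]
    linarith
  have hB : ‖(-(2 * Real.pi * Complex.I * (z : ℂ) ^ 2 / cc ξ ^ 2))‖ ≤ 2 * z ^ 2 / ξ := by
    rw [norm_neg, norm_div, norm_mul, norm_mul, norm_mul, Complex.norm_real, Complex.norm_I,
      Complex.norm_ofNat, norm_pow, norm_pow, Complex.norm_real, Real.norm_eq_abs, Real.norm_eq_abs,
      abs_of_pos Real.pi_pos, sq_abs, mul_one]
    have h1 : 2 * Real.pi * z ^ 2 / ‖cc ξ‖ ^ 2 ≤ 2 * Real.pi * z ^ 2 / (4 * ξ ^ 2) :=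
      div_le_div_of_nonneg_left (by positivity) (by positivity) hc2
    refine h1.trans ?_
    rw [div_le_div_iff₀ (by positivity) hξ0]
    have hpi := Real.pi_le_four
    have h3 : 0 ≤ z ^ 2 * ξ := by positivity
    nlinarith [mul_nonneg h3 (sub_nonneg.mpr hpi), mul_nonneg h3 (sub_nonneg.mpr hξ)]
  have hL' : ‖((α / (2 * ξ) : ℝ) : ℂ) + (z : ℂ) / cc ξ‖ ≤ (α + |z|) / (2 * ξ) := by
    refine hL.trans (le_of_eq ?_)
    rw [add_div]
  have hS : 0 ≤ α + |z| := by positivity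
  have t1 : ‖2 * (((-(α / (2 * ξ ^ 2)) : ℝ) : ℂ) + -((z : ℂ) * (2 * Complex.I) / cc ξ ^ 2)) *
      cc ξ ^ (-(1 / 2) : ℂ) * E‖ ≤ 2 * ((α + |z|) / (2 * ξ ^ 2)) * r * e := by
    rw [norm_mul, norm_mul, norm_mul, Complex.norm_ofNat]
    exact mul_le_mul (mul_le_mul (mul_le_mul_of_nonneg_left hA (by norm_num)) hP (norm_nonneg _)
      (by positivity)) hE (norm_nonneg _) (by positivity)
  have t2 : ‖2 * (((α / (2 * ξ) : ℝ) : ℂ) + (z : ℂ) / cc ξ) * (-Complex.I * cc ξ ^ (-(3 / 2) : ℂ)) * E‖ ≤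
      2 * ((α + |z|) / (2 * ξ)) * (r / ξ) * e := by
    rw [norm_mul, norm_mul, norm_mul, norm_mul, norm_neg, Complex.norm_I, one_mul, Complex.norm_ofNat]
    exact mul_le_mul (mul_le_mul (mul_le_mul_of_nonneg_left hL' (by norm_num)) hP2 (norm_nonneg _)
      (by positivity)) hE (norm_nonneg _) (by positivity)
  have t3 : ‖2 * (((α / (2 * ξ) : ℝ) : ℂ) + (z : ℂ) / cc ξ) * cc ξ ^ (-(1 / 2) : ℂ) *
      (E * (-(2 * Real.pi * Complex.I * (z : ℂ) ^ 2 / cc ξ ^ 2)))‖ ≤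
      2 * ((α + |z|) / (2 * ξ)) * r * (e * (2 * z ^ 2 / ξ)) := by
    rw [norm_mul, norm_mul, norm_mul, norm_mul, Complex.norm_ofNat]
    exact mul_le_mul (mul_le_mul (mul_le_mul_of_nonneg_left hL' (by norm_num)) hP (norm_nonneg _)
      (by positivity)) (mul_le_mul hE hB (norm_nonneg _) he.le) (by positivity) (by positivity)
  unfold dhz
  refine (norm_add_le _ _).trans ((add_le_add ((norm_add_le _ _).trans (add_le_add t1 t2)) t3).trans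
    (le_of_eq ?_))
  field_simp
  ring

/-- increments of `hz` in the dual variable -/
theorem hz_diff_le {α m : ℝ} (hα : 0 ≤ α) (hm : 1 ≤ m) (z : ℝ) :
    ‖hz α z (m + 1) - hz α z m‖ ≤
      2 * (α / m + |z|) * (1 + z ^ 2) * Real.exp (-(2 * z ^ 2)) * m ^ (-(3 / 2) : ℝ) := by
  have hm0 : 0 < m := by linarith
  have h := norm_image_sub_le_of_norm_deriv_le_segment' (f := fun x : ℝ => hz α z x)
    (f' := fun x : ℝ => dhz α z x) (a := m) (b := m + 1)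
    (C := 2 * (1 + z ^ 2) * (α + |z|) * Real.exp (-(2 * z ^ 2)) * m ^ (-(1 / 2) : ℝ) / m ^ 2)
    (fun x hx => (hz_deriv α z (by linarith [hx.1])).hasDerivWithinAt)
    (fun x hx => by
      refine (dhz_norm_le hα (by linarith [hx.1]) z).trans ?_
      have h1 : x ^ (-(1 / 2) : ℝ) ≤ m ^ (-(1 / 2) : ℝ) :=
        Real.rpow_le_rpow_of_nonpos hm0 hx.1 (by norm_num)
      have h2 : m ^ 2 ≤ x ^ 2 := pow_le_pow_left₀ hm0.le hx.1 2
      have h3 : 0 ≤ 2 * (1 + z ^ 2) * (α + |z|) * Real.exp (-(2 * z ^ 2)) := by positivity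
      exact div_le_div₀ (by positivity) (mul_le_mul_of_nonneg_left h1 h3) (by positivity) h2)
    (m + 1) (by constructor <;> linarith)
  simp only [add_sub_cancel_left, mul_one] at h
  refine h.trans ?_
  have e1 : m ^ (-(1 / 2) : ℝ) = m * m ^ (-(3 / 2) : ℝ) := by
    rw [← Real.rpow_one_add' hm0.le (by norm_num)]
    norm_num
  rw [e1]
  have h5 : 0 ≤ m ^ (-(3 / 2) : ℝ) := by positivity
  have h6 : 2 * (1 + z ^ 2) * (α + |z|) * Real.exp (-(2 * z ^ 2)) * (m * m ^ (-(3 / 2) : ℝ)) / m ^ 2 =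
      2 * (α / m + |z| / m) * (1 + z ^ 2) * Real.exp (-(2 * z ^ 2)) * m ^ (-(3 / 2) : ℝ) := by
    field_simp
  rw [h6]
  have h7 : |z| / m ≤ |z| := div_le_self (abs_nonneg z) hm
  gcongr

/-- increments, in the form of the row -/
theorem hz_diff : ∃ C : ℝ, 0 < C ∧ ∀ α z m : ℝ, 0 ≤ α → 1 ≤ m →
    ‖hz α z (m + 1) - hz α z m‖ ≤
      C * (α / m + |z|) * (1 + z ^ 2) * Real.exp (-(2 * z ^ 2)) * m ^ (-(3 / 2) : ℝ) :=
  ⟨2, by norm_num, fun α z m hα hm => hz_diff_le hα hm z⟩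

end T12
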