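import Pool.Agent.Lib.MP_39df77_nt.T12.LemDb
import Pool.Agent.Lib.MP_39df77_nt.M12.Sum

/-!
The kernel sum for `K ≤ T^(1/2-κ)`, with a power saving (row T12-H2).
-/

set_option autoImplicit false

namespace T12

open Finset Complex MeasureTheory Set Pool.Agent.Lib.MP_4ae430_nt

/-- dyadic decomposition with a constant term -/
theorem H2_dyadic (z : ℕ → ℂ) (a1 a2 : ℝ) (h1 : 0 ≤ a1) (h2 : 0 ≤ a2) (K : ℕ)
    (h : ∀ A N : ℕ, 1 ≤ A → N ≤ A → A + N ≤ K →
      ‖∑ n ∈ range N, z (A + n)‖ ≤ a1 * √(A : ℝ) + a2) :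
    ‖∑ k ∈ Finset.Ico 1 K, z k‖ ≤ 10 * a1 * √(K : ℝ) + a2 * (1 + 4 * Real.log K) := by
  have key : ∀ M ≤ K, ‖∑ k ∈ Finset.Ico 1 M, z k‖ ≤
      10 * a1 * √(M : ℝ) + a2 * (1 + 4 * Real.log M) := by
    intro M
    induction M using Nat.strong_induction_on with
    | _ M ih =>
      intro hM
      rcases Nat.lt_or_ge M 2 with h0 | h0
      · have : Finset.Ico 1 M = ∅ := by
          rw [Finset.Ico_eq_empty_iff]
          omega
        rw [this]
        have hl : 0 ≤ Real.log M := Real.log_natCast_nonneg M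
        simp only [sum_empty, norm_zero]
        positivity
      · set A : ℕ := (M + 1) / 2 with hA
        have hA1 : 1 ≤ A := by omega
        have hAM : A < M := by omega
        have h3 := ih A hAM (by omega)
        have h4 := h A (M - A) hA1 (by omega) (by omega)
        have h5 : ∑ k ∈ Finset.Ico 1 M, z k =
            ∑ k ∈ Finset.Ico 1 A, z k + ∑ n ∈ range (M - A), z (A + n) := by
          rw [← sum_Ico_consecutive z hA1 hAM.le, sum_Ico_eq_sum_range z A M]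
        rw [h5]
        refine (norm_add_le _ _).trans ?_
        have hM2 : (2 : ℝ) ≤ M := by exact_mod_cast h0
        have hAr : (A : ℝ) ≤ 3 / 4 * M := by
          have : 2 * A ≤ M + 1 := by omega
          have h6 : 2 * (A : ℝ) ≤ M + 1 := by exact_mod_cast this
          linarith
        have hA0 : (0 : ℝ) < A := by exact_mod_cast hA1
        have hM0 : (0 : ℝ) < M := by linarith
        have e1 : √(A : ℝ) ≤ 10 / 11 * √(M : ℝ) := by
          rw [Real.sqrt_le_left (by positivity), mul_pow, Real.sq_sqrt hM0.le]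
          nlinarith
        have e2 : 1 + 4 * Real.log A ≤ 4 * Real.log M := by
          have h7 : Real.log A ≤ Real.log (3 / 4 * M) := Real.log_le_log hA0 hAr
          rw [Real.log_mul (by norm_num) hM0.ne'] at h7
          have h8 : Real.log (3 / 4 : ℝ) ≤ 3 / 4 - 1 := Real.log_le_sub_one_of_pos (by norm_num)
          linarith
        nlinarith [mul_le_mul_of_nonneg_left e1 h1, mul_le_mul_of_nonneg_left e2 h2]
  exact key K le_rfl

theorem H2_al_lower {T t s : ℝ} (hT : 0 < T) (hs : T ≤ s) (hst : s < t) (ht : t ≤ 4 * T) :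
    (t - s) / √T / 6 ≤ M12.al t s := by
  have hpi := Real.pi_pos
  have hpi4 := Real.pi_lt_d2
  obtain ⟨hD1, hD2⟩ := M12.sqrt_diff_bd hT hs hst ht
  have hts : 0 < t - s := by linarith
  have hsT : 0 < √T := Real.sqrt_pos.2 hT
  have e7 : 2 / 3 * ((t - s) / (4 * √T)) ≤ M12.al t s := by
    unfold M12.al
    have e8 : (2 / 3 : ℝ) ≤ √2 / √Real.pi := by
      rw [← Real.sqrt_div (by norm_num)]
      apply Real.le_sqrt_of_sq_le
      rw [le_div_iff₀ hpi]
      linarith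
    exact mul_le_mul e8 hD1 (by positivity) (by positivity)
  refine le_trans (le_of_eq ?_) e7
  field_simp
  norm_num

theorem H2_al_upper {T t s : ℝ} (hT : 0 < T) (hs : T ≤ s) (hst : s < t) (ht : t ≤ 4 * T) :
    M12.al t s ≤ (t - s) / √T := by
  have hpi := Real.pi_pos
  have hpi3 := Real.pi_gt_three
  obtain ⟨hD1, hD2⟩ := M12.sqrt_diff_bd hT hs hst ht
  have hts : 0 < t - s := by linarith
  have hsT : 0 < √T := Real.sqrt_pos.2 hT
  have hsp : 0 < √Real.pi := Real.sqrt_pos.2 hpi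
  have hD : 0 < √t - √s := lt_of_lt_of_le (by positivity) hD1
  unfold M12.al
  have e8 : √2 / √Real.pi ≤ (1 : ℝ) := by
    rw [div_le_one hsp]
    exact Real.sqrt_le_sqrt (by linarith)
  calc √2 / √Real.pi * (√t - √s) ≤ 1 * ((t - s) / (2 * √T)) :=
        mul_le_mul e8 hD2 hD.le (by norm_num)
    _ ≤ (t - s) / √T := by
        rw [one_mul]
        apply div_le_div_of_nonneg_left hts.le hsT (by linarith)

theorem H2_be {T t s : ℝ} (hT : 0 < T) (hs : T ≤ s) (hst : s < t) (ht : t ≤ 4 * T) :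
    0 ≤ M12.be t s ∧ M12.be t s ≤ (t - s) / √T / T := by
  have hpi := Real.pi_pos
  have hpi4 := Real.pi_lt_d2
  obtain ⟨hD1, hD2⟩ := M12.sqrt_diff_bd hT hs hst ht
  have hts : 0 < t - s := by linarith
  have hsT : 0 < √T := Real.sqrt_pos.2 hT
  have hst0 : 0 < √t := Real.sqrt_pos.2 (by linarith)
  have hss0 : 0 < √s := Real.sqrt_pos.2 (by linarith)
  have hD : 0 < √t - √s := lt_of_lt_of_le (by positivity) hD1
  have e1 : T ≤ √t * √s := by
    have h1 : √T ≤ √s := Real.sqrt_le_sqrt hs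
    have h2 : √T ≤ √t := Real.sqrt_le_sqrt (by linarith)
    calc T = √T * √T := (Real.mul_self_sqrt hT.le).symm
      _ ≤ √t * √s := mul_le_mul h2 h1 hsT.le hst0.le
  have e2 : √2 * √Real.pi / 12 ≤ 1 := by
    rw [← Real.sqrt_mul (by norm_num)]
    have : √(2 * Real.pi) ≤ 12 := by
      rw [Real.sqrt_le_left (by norm_num)]
      linarith
    linarith
  unfold M12.be
  refine ⟨by positivity, ?_⟩
  calc √2 * √Real.pi / 12 * ((√t - √s) / (√t * √s)) ≤ 1 * ((√t - √s) / (√t * √s)) :=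
        mul_le_mul_of_nonneg_right e2 (by positivity)
    _ ≤ ((t - s) / √T) / T := by
        rw [one_mul]
        apply div_le_div₀ (by positivity) _ hT e1
        refine hD2.trans ?_
        apply div_le_div_of_nonneg_left hts.le hsT (by linarith)

/-- the second case: `x √A / √T` large -/
theorem H2_case2 {κ cD c T x K A : ℝ} (hκ : 0 < κ) (hκ1 : κ ≤ 1 / 10) (hcD : 0 < cD)
    (hc : 0 < c) (hc1 : c ≤ κ / 4) (hc2 : c ≤ cD / 10) (hc3 : c ≤ 1 / 100) (hT : 1 ≤ T)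
    (hT6 : 6 ≤ T ^ κ) (hx : 0 < x) (hA : 1 ≤ A) (hAK : A ≤ K) (hK1 : T ^ (1 / 3 : ℝ) ≤ K)
    (hK2 : K ≤ T ^ (1 / 2 - κ)) (hxK : x ≤ T ^ (3 / 2 + c) / (K * √K))
    (hbig : T ^ (1 - 2 * c) / K < x / √T * √A) :
    A ^ (1 / 2 + κ) ≤ x / √T / 6 ∧ x / √T ≤ A ^ 2 ∧ x / √T / T * (A * √A) ≤ T ^ c ∧
      √(x / √T * √A) * A ^ (-cD) ≤ T ^ ((1 + c) / 2 - cD / 4) / √K := by
  have hT0 : 0 < T := by linarith
  have hA0 : 0 < A := by linarith
  have hK0 : 0 < K := by linarith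
  have hsT : 0 < √T := Real.sqrt_pos.2 hT0
  have hsK : 0 < √K := Real.sqrt_pos.2 hK0
  have hsA : 0 < √A := Real.sqrt_pos.2 hA0
  have hsAK : √A ≤ √K := Real.sqrt_le_sqrt hAK
  have eT : √T = T ^ (1 / 2 : ℝ) := Real.sqrt_eq_rpow T
  -- y = x / √T
  set y : ℝ := x / √T with hy
  have hy0 : 0 < y := by positivity
  have hyK : y ≤ T ^ (1 + c) / (K * √K) := by
    rw [hy, div_le_iff₀ hsT]
    refine hxK.trans (le_of_eq ?_)
    rw [div_mul_eq_mul_div, eT, ← Real.rpow_add hT0]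
    congr 2
    ring
  -- lower bound for √A
  have hsAl : T ^ (-(3 * c)) * √K ≤ √A := by
    have h1 : T ^ (1 - 2 * c) / K ≤ T ^ (1 + c) / (K * √K) * √A :=
      hbig.le.trans (mul_le_mul_of_nonneg_right hyK hsA.le)
    have h2 : T ^ (1 - 2 * c) / K * (K * √K) ≤ T ^ (1 + c) * √A := by
      calc T ^ (1 - 2 * c) / K * (K * √K) ≤ T ^ (1 + c) / (K * √K) * √A * (K * √K) :=
            mul_le_mul_of_nonneg_right h1 (by positivity)
        _ = T ^ (1 + c) * √A := by field_simp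
    have h3 : T ^ (1 - 2 * c) / K * (K * √K) = T ^ (1 - 2 * c) * √K := by field_simp
    rw [h3] at h2
    have h4 : T ^ (1 - 2 * c) = T ^ (1 + c) * T ^ (-(3 * c)) := by
      rw [← Real.rpow_add hT0]
      congr 1
      ring
    rw [h4, mul_assoc] at h2
    exact le_of_mul_le_mul_left h2 (by positivity)
  have hAl : T ^ (-(6 * c)) * K ≤ A := by
    have h1 := mul_self_le_mul_self (by positivity) hsAl
    rw [Real.mul_self_sqrt hA0.le] at h1
    refine le_trans (le_of_eq ?_) h1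
    have : T ^ (-(6 * c)) = T ^ (-(3 * c)) * T ^ (-(3 * c)) := by
      rw [← Real.rpow_add hT0]
      congr 1
      ring
    rw [this]
    have h2 : √K * √K = K := Real.mul_self_sqrt hK0.le
    linear_combination (-(T ^ (-(3 * c)) * T ^ (-(3 * c)))) * h2
  refine ⟨?_, ?_, ?_, ?_⟩
  · -- al lower bound
    have h1 : T ^ (1 - 2 * c) / (K * √K) ≤ y := by
      have h2 : T ^ (1 - 2 * c) / K ≤ y * √K := hbig.le.trans (mul_le_mul_of_nonneg_left hsAK hy0.le)
      rw [div_le_iff₀ (by positivity)]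
      rw [div_le_iff₀ hK0] at h2
      linarith
    have h3 : A ^ (1 / 2 + κ) ≤ K ^ (1 / 2 + κ) := Real.rpow_le_rpow hA0.le hAK (by linarith)
    have h4 : K ^ (1 / 2 + κ) * 6 ≤ T ^ (1 - 2 * c) / (K * √K) := by
      rw [le_div_iff₀ (by positivity)]
      have h5 : K ^ (1 / 2 + κ) * (K * √K) = K ^ (2 + κ) := by
        rw [Real.sqrt_eq_rpow]
        nth_rewrite 2 [← Real.rpow_one K]
        rw [← Real.rpow_add hK0, ← Real.rpow_add hK0]
        congr 1
        ring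
      have h6 : K ^ (2 + κ) ≤ T ^ ((1 / 2 - κ) * (2 + κ)) := by
        rw [Real.rpow_mul hT0.le]
        exact Real.rpow_le_rpow hK0.le hK2 (by linarith)
      have h7 : T ^ ((1 / 2 - κ) * (2 + κ)) * T ^ κ ≤ T ^ (1 - 2 * c) := by
        rw [← Real.rpow_add hT0]
        apply Real.rpow_le_rpow_of_exponent_le hT
        nlinarith
      calc K ^ (1 / 2 + κ) * 6 * (K * √K) = K ^ (2 + κ) * 6 := by rw [← h5]; ring
        _ ≤ T ^ ((1 / 2 - κ) * (2 + κ)) * T ^ κ := mul_le_mul h6 hT6 (by norm_num) (by positivity)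
        _ ≤ T ^ (1 - 2 * c) := h7
    rw [le_div_iff₀ (by norm_num)]
    calc A ^ (1 / 2 + κ) * 6 ≤ K ^ (1 / 2 + κ) * 6 := by linarith
      _ ≤ _ := h4.trans h1
  · -- al upper bound
    refine hyK.trans ?_
    rw [div_le_iff₀ (by positivity)]
    have h1 : (T ^ (-(6 * c)) * K) ^ 2 ≤ A ^ 2 := pow_le_pow_left₀ (by positivity) hAl 2
    have h2 : T ^ (1 + c) ≤ (T ^ (-(6 * c)) * K) ^ 2 * (K * √K) := by
      have h3 : (T ^ (-(6 * c)) * K) ^ 2 * (K * √K) = T ^ (-(12 * c)) * K ^ (7 / 2 : ℝ) := by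
        have e3 : (T ^ (-(6 * c))) ^ 2 = T ^ (-(12 * c)) := by
          rw [← Real.rpow_natCast, ← Real.rpow_mul hT0.le]
          congr 1
          push_cast
          ring
        have e4 : K ^ (7 / 2 : ℝ) = K ^ 2 * (K * √K) := by
          have : (7 / 2 : ℝ) = (3 : ℕ) + 1 / 2 := by norm_num
          rw [this, Real.rpow_add hK0, Real.rpow_natCast, ← Real.sqrt_eq_rpow]
          ring
        rw [mul_pow, e3, e4]
        ring
      rw [h3]
      have h4 : T ^ (7 / 6 : ℝ) ≤ K ^ (7 / 2 : ℝ) := by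
        have : T ^ (7 / 6 : ℝ) = (T ^ (1 / 3 : ℝ)) ^ (7 / 2 : ℝ) := by
          rw [← Real.rpow_mul hT0.le]
          norm_num
        rw [this]
        exact Real.rpow_le_rpow (by positivity) hK1 (by norm_num)
      calc T ^ (1 + c) ≤ T ^ (-(12 * c)) * T ^ (7 / 6 : ℝ) := by
            rw [← Real.rpow_add hT0]
            apply Real.rpow_le_rpow_of_exponent_le hT
            linarith
        _ ≤ T ^ (-(12 * c)) * K ^ (7 / 2 : ℝ) := mul_le_mul_of_nonneg_left h4 (by positivity)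
    exact h2.trans (mul_le_mul_of_nonneg_right h1 (by positivity))
  · -- be
    have h1 : A * √A ≤ K * √K := mul_le_mul hAK hsAK hsA.le hK0.le
    calc y / T * (A * √A) ≤ T ^ (1 + c) / (K * √K) / T * (K * √K) := by
          apply mul_le_mul _ h1 (by positivity) (by positivity)
          exact div_le_div_of_nonneg_right hyK hT0.le
      _ = T ^ (1 + c) / T := by field_simp
      _ = T ^ c := by
          rw [Real.rpow_add hT0, Real.rpow_one]
          field_simp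
  · -- main
    have h1 : y * √A ≤ T ^ (1 + c) / K := by
      calc y * √A ≤ T ^ (1 + c) / (K * √K) * √K := mul_le_mul hyK hsAK hsA.le (by positivity)
        _ = T ^ (1 + c) / K := by field_simp
    have h2 : √(y * √A) ≤ T ^ ((1 + c) / 2) / √K := by
      refine (Real.sqrt_le_sqrt h1).trans (le_of_eq ?_)
      rw [Real.sqrt_div (by positivity), Real.sqrt_eq_rpow (T ^ (1 + c)), ← Real.rpow_mul hT0.le]
      congr 2
      ring
    have h3 : T ^ (1 / 4 : ℝ) ≤ A := by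
      calc T ^ (1 / 4 : ℝ) ≤ T ^ (-(6 * c)) * T ^ (1 / 3 : ℝ) := by
            rw [← Real.rpow_add hT0]
            apply Real.rpow_le_rpow_of_exponent_le hT
            linarith
        _ ≤ T ^ (-(6 * c)) * K := mul_le_mul_of_nonneg_left hK1 (by positivity)
        _ ≤ A := hAl
    have h4 : A ^ (-cD) ≤ T ^ (-(cD / 4)) := by
      calc A ^ (-cD) ≤ (T ^ (1 / 4 : ℝ)) ^ (-cD) :=
            Real.rpow_le_rpow_of_nonpos (by positivity) h3 (by linarith)
        _ = T ^ (-(cD / 4)) := by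
            rw [← Real.rpow_mul hT0.le]
            congr 1
            ring
    calc √(y * √A) * A ^ (-cD) ≤ T ^ ((1 + c) / 2) / √K * T ^ (-(cD / 4)) :=
          mul_le_mul h2 h4 (by positivity) (by positivity)
      _ = T ^ ((1 + c) / 2 - cD / 4) / √K := by
          rw [div_mul_eq_mul_div, ← Real.rpow_add hT0]
          congr 2

theorem block_x_of (κ : ℝ) (hκ : 0 < κ) (hκ1 : κ ≤ 1 / 10)
    (hDb : ∃ c C : ℝ, 0 < c ∧ c ≤ 1 / 4 ∧ 0 < C ∧
      ∀ (α β : ℝ) (K N : ℕ), 1 ≤ K → N ≤ K → 0 ≤ β → (K : ℝ) ^ (1 / 2 + κ) ≤ α → α ≤ (K : ℝ) ^ 2 →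
      ‖∑ n ∈ range N, ee (α * √((K : ℝ) + n) - β * (((K : ℝ) + n) * √((K : ℝ) + n)))‖ ≤
        C * ((1 + β * (K * √(K : ℝ))) * (√(α * √(K : ℝ)) * (K : ℝ) ^ (-c)))) :
    ∃ c C : ℝ, 0 < c ∧ c ≤ 1 / 100 ∧ 0 < C ∧
    ∀ (T t s lam K : ℝ) (A N : ℕ), 1 ≤ T → T ≤ s → s < t → t ≤ 4 * T → 0 ≤ lam → 1 ≤ A → N ≤ A →
    (A : ℝ) ≤ K → T ^ (1 / 3 : ℝ) ≤ K → K ≤ T ^ (1 / 2 - κ) → 5 * K ≤ T →
    t - s ≤ T ^ (3 / 2 + c) / (K * √K) →
    ‖∑ n ∈ range N, ((Real.exp (-(lam * √((A : ℝ) + n))) : ℝ) : ℂ) *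
      cexp (I * ((U6.ph ((A : ℝ) + n) t - U6.ph ((A : ℝ) + n) s : ℝ) : ℂ))‖ ≤
      C * (√T / (t - s) * √(A : ℝ) + T ^ (1 / 2 - c) / √K) := by
  obtain ⟨cD, CD, hcD, -, hCD, hD⟩ := hDb
  obtain ⟨C1, hC1, hB⟩ := M12.block_bd
  set c : ℝ := min (κ / 4) (min (cD / 10) (1 / 100)) with hcdef
  have hc1 : c ≤ κ / 4 := min_le_left _ _
  have hc2 : c ≤ cD / 10 := (min_le_right _ _).trans (min_le_left _ _)
  have hc3 : c ≤ 1 / 100 := (min_le_right _ _).trans (min_le_right _ _)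
  have hc : 0 < c := lt_min (by linarith) (lt_min (by linarith) (by norm_num))
  set T0 : ℝ := 6 ^ (1 / κ) with hT0def
  have hT01 : 1 ≤ T0 := Real.one_le_rpow (by norm_num) (by positivity)
  refine ⟨c, C1 + 2 * CD + T0 ^ 2, hc, hc3, by positivity, ?_⟩
  intro T t s lam K A N hT hs hst ht hlam hA hN hAK hK1 hK2 hKT hxK
  have hT0 : 0 < T := by linarith
  have hx : 0 < t - s := by linarith
  have hA1 : (1 : ℝ) ≤ A := by exact_mod_cast hA
  have hA0 : (0 : ℝ) < A := by linarith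
  have hK0 : 0 < K := by linarith
  have hsT : 0 < √T := Real.sqrt_pos.2 hT0
  have hsK : 0 < √K := Real.sqrt_pos.2 hK0
  have hP1 : 0 ≤ √T / (t - s) * √(A : ℝ) := by positivity
  have hP2 : 0 < T ^ (1 / 2 - c) / √K := by positivity
  set P1 : ℝ := √T / (t - s) * √(A : ℝ) with hP1def
  set P2 : ℝ := T ^ (1 / 2 - c) / √K with hP2def
  have hT2 : 0 ≤ T0 ^ 2 := by positivity
  -- small T
  rcases lt_or_ge T T0 with hTs | hTl
  · have h1 : ‖∑ n ∈ range N, ((Real.exp (-(lam * √((A : ℝ) + n))) : ℝ) : ℂ) *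
        cexp (I * ((U6.ph ((A : ℝ) + n) t - U6.ph ((A : ℝ) + n) s : ℝ) : ℂ))‖ ≤ A := by
      refine (norm_sum_le _ _).trans ?_
      have h2 : ∀ n ∈ range N, ‖((Real.exp (-(lam * √((A : ℝ) + n))) : ℝ) : ℂ) *
          cexp (I * ((U6.ph ((A : ℝ) + n) t - U6.ph ((A : ℝ) + n) s : ℝ) : ℂ))‖ ≤ 1 := by
        intro n _
        rw [norm_mul, Complex.norm_real, mul_comm I, Complex.norm_exp_ofReal_mul_I, mul_one,
          Real.norm_eq_abs, abs_of_pos (Real.exp_pos _), Real.exp_le_one_iff]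
        have : 0 ≤ lam * √((A : ℝ) + n) := by positivity
        linarith
      refine (Finset.sum_le_sum h2).trans ?_
      rw [Finset.sum_const, Finset.card_range, nsmul_eq_mul, mul_one]
      exact_mod_cast hN
    have hKT0 : K ≤ T0 := by linarith
    have h3 : K * √K ≤ T0 ^ 2 := by
      have h4 : √K ≤ T0 := by
        rw [Real.sqrt_le_left (by linarith)]
        nlinarith
      nlinarith
    have h5 : (1 : ℝ) ≤ T ^ (1 / 2 - c) := Real.one_le_rpow hT (by linarith)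
    have h6 : K ≤ T0 ^ 2 * P2 := by
      rw [hP2def, mul_div_assoc', le_div_iff₀ hsK]
      nlinarith
    have h7 : 0 ≤ C1 + 2 * CD := by positivity
    nlinarith
  · -- large T
    have hT6 : 6 ≤ T ^ κ := by
      calc (6 : ℝ) = T0 ^ κ := by
            rw [hT0def, ← Real.rpow_mul (by norm_num), one_div, inv_mul_cancel₀ hκ.ne', Real.rpow_one]
        _ ≤ T ^ κ := Real.rpow_le_rpow (by positivity) hTl hκ.le
    rcases le_or_gt ((t - s) / √T * √(A : ℝ)) (T ^ (1 - 2 * c) / K) with hsm | hbig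
    · -- first case
      have h1 := hB T t s lam A N hT0 hs hst ht hlam hA hN (by linarith)
      refine h1.trans ?_
      have h2 : √((t - s) / √T) * √√(A : ℝ) ≤ P2 := by
        rw [← Real.sqrt_mul (by positivity)]
        refine (Real.sqrt_le_sqrt hsm).trans (le_of_eq ?_)
        rw [Real.sqrt_div (by positivity), Real.sqrt_eq_rpow (T ^ (1 - 2 * c)), ← Real.rpow_mul hT0.le,
          hP2def]
        congr 2
        ring
      have h3 : 0 ≤ 2 * CD + T0 ^ 2 := by positivity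
      calc C1 * (√T / (t - s) * √(A : ℝ) + √((t - s) / √T) * √√(A : ℝ)) ≤ C1 * (P1 + P2) :=
            mul_le_mul_of_nonneg_left (by linarith) hC1.le
        _ ≤ (C1 + 2 * CD + T0 ^ 2) * (P1 + P2) :=
            mul_le_mul_of_nonneg_right (by linarith) (by linarith)
    · -- second case
      obtain ⟨g1, g2, g3, g4⟩ := H2_case2 hκ hκ1 hcD hc hc1 hc2 hc3 hT hT6 hx hA1 hAK hK1 hK2 hxK hbig
      have ha1 := H2_al_lower hT0 hs hst ht
      have ha2 := H2_al_upper hT0 hs hst ht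
      obtain ⟨hb0, hb1⟩ := H2_be hT0 hs hst ht
      have hd : ∀ n ≤ N, ‖∑ i ∈ range n,
          cexp (I * ((U6.ph ((A : ℝ) + i) t - U6.ph ((A : ℝ) + i) s : ℝ) : ℂ))‖ ≤
          2 * CD * P2 := by
        intro n hn
        have h1 := hD (M12.al t s) (M12.be t s) A n hA (by omega) hb0 (g1.trans ha1) (ha2.trans g2)
        have h2 : ∑ i ∈ range n, cexp (I * ((U6.ph ((A : ℝ) + i) t - U6.ph ((A : ℝ) + i) s : ℝ) : ℂ)) =
            ∑ i ∈ range n, ee (M12.al t s * √((A : ℝ) + i) -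
              M12.be t s * (((A : ℝ) + i) * √((A : ℝ) + i))) := by
          apply sum_congr rfl
          intro i _
          unfold ee
          rw [M12.ph_sub t s _ (by linarith) (by linarith) (by positivity), mul_comm I]
        rw [h2]
        refine h1.trans ?_
        have h3 : M12.be t s * (A * √(A : ℝ)) ≤ T ^ c :=
          (mul_le_mul_of_nonneg_right hb1 (by positivity)).trans g3
        have h4 : (1 : ℝ) ≤ T ^ c := Real.one_le_rpow hT hc.le
        have h5 : √(M12.al t s * √(A : ℝ)) * (A : ℝ) ^ (-cD) ≤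
            T ^ ((1 + c) / 2 - cD / 4) / √K := by
          refine le_trans (mul_le_mul_of_nonneg_right (Real.sqrt_le_sqrt ?_) (by positivity)) g4
          exact mul_le_mul_of_nonneg_right ha2 (Real.sqrt_nonneg _)
        have h6 : T ^ c * (T ^ ((1 + c) / 2 - cD / 4) / √K) ≤ P2 := by
          rw [mul_div_assoc', ← Real.rpow_add hT0, hP2def]
          apply div_le_div_of_nonneg_right _ hsK.le
          apply Real.rpow_le_rpow_of_exponent_le hT
          linarith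
        have h7 : (1 + M12.be t s * (A * √(A : ℝ))) *
            (√(M12.al t s * √(A : ℝ)) * (A : ℝ) ^ (-cD)) ≤
            (2 * T ^ c) * (T ^ ((1 + c) / 2 - cD / 4) / √K) :=
          mul_le_mul (by linarith) h5 (by positivity) (by positivity)
        calc CD * ((1 + M12.be t s * (A * √(A : ℝ))) *
              (√(M12.al t s * √(A : ℝ)) * (A : ℝ) ^ (-cD))) ≤
              CD * ((2 * T ^ c) * (T ^ ((1 + c) / 2 - cD / 4) / √K)) :=
              mul_le_mul_of_nonneg_left h7 hCD.le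
          _ = 2 * CD * (T ^ c * (T ^ ((1 + c) / 2 - cD / 4) / √K)) := by ring
          _ ≤ 2 * CD * P2 := mul_le_mul_of_nonneg_left h6 (by positivity)
      have h1 := M12.abel_le
        (fun n => cexp (I * ((U6.ph ((A : ℝ) + n) t - U6.ph ((A : ℝ) + n) s : ℝ) : ℂ)))
        (fun n => Real.exp (-(lam * √((A : ℝ) + n)))) (fun n => (Real.exp_pos _).le) (fun n => by
          apply Real.exp_le_exp.mpr
          apply neg_le_neg
          apply mul_le_mul_of_nonneg_left _ hlam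
          apply Real.sqrt_le_sqrt
          push_cast
          linarith) _ N hd
      refine h1.trans ?_
      have hw : Real.exp (-(lam * √((A : ℝ) + (0 : ℕ)))) ≤ 1 := by
        rw [Real.exp_le_one_iff]
        have : 0 ≤ lam * √((A : ℝ) + (0 : ℕ)) := by positivity
        linarith
      have hX0 : 0 ≤ 2 * CD * P2 := by positivity
      refine (mul_le_of_le_one_left hX0 hw).trans ?_
      have h8 : 0 ≤ C1 + T0 ^ 2 := by positivity
      calc 2 * CD * P2 ≤ 2 * CD * (P1 + P2) := mul_le_mul_of_nonneg_left (by linarith) (by positivity)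
        _ ≤ (C1 + 2 * CD + T0 ^ 2) * (P1 + P2) :=
            mul_le_mul_of_nonneg_right (by linarith) (by linarith)

theorem block_x (κ : ℝ) (hκ : 0 < κ) (hκ1 : κ ≤ 1 / 10) : ∃ c C : ℝ, 0 < c ∧ c ≤ 1 / 100 ∧ 0 < C ∧
    ∀ (T t s lam K : ℝ) (A N : ℕ), 1 ≤ T → T ≤ s → s < t → t ≤ 4 * T → 0 ≤ lam → 1 ≤ A → N ≤ A →
    (A : ℝ) ≤ K → T ^ (1 / 3 : ℝ) ≤ K → K ≤ T ^ (1 / 2 - κ) → 5 * K ≤ T →
    t - s ≤ T ^ (3 / 2 + c) / (K * √K) →
    ‖∑ n ∈ range N, ((Real.exp (-(lam * √((A : ℝ) + n))) : ℝ) : ℂ) *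
      cexp (I * ((U6.ph ((A : ℝ) + n) t - U6.ph ((A : ℝ) + n) s : ℝ) : ℂ))‖ ≤
      C * (√T / (t - s) * √(A : ℝ) + T ^ (1 / 2 - c) / √K) :=
  block_x_of κ hκ hκ1 (lemDb κ hκ (by linarith))

theorem S_bd_x (κ : ℝ) (hκ : 0 < κ) (hκ1 : κ ≤ 1 / 10) : ∃ c C : ℝ, 0 < c ∧ c ≤ 1 / 100 ∧ 0 < C ∧
    ∀ (T t s lam : ℝ) (K : ℕ), 1 ≤ T → T ≤ s → s ≤ 4 * T → T ≤ t → t ≤ 4 * T → t ≠ s → 0 ≤ lam →
    T ^ (1 / 3 : ℝ) ≤ K → (K : ℝ) ≤ T ^ (1 / 2 - κ) → 5 * (K : ℝ) ≤ T →
    |t - s| ≤ T ^ (3 / 2 + c) / (K * √(K : ℝ)) →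
    ‖∑ k ∈ Finset.Ico 1 K, ((Real.exp (-(lam * √(k : ℝ))) : ℝ) : ℂ) *
      cexp (I * ((U6.ph k t - U6.ph k s : ℝ) : ℂ))‖ ≤
      C * (√T / |t - s| * √(K : ℝ) + T ^ (1 / 2 - c) / √(K : ℝ)) := by
  obtain ⟨c0, C, hc0, hc01, hC, h⟩ := block_x κ hκ hκ1
  set c : ℝ := c0 / 2 with hcdef
  have hc : 0 < c := by positivity
  have hcc : c0 = 2 * c := by rw [hcdef]; ring
  refine ⟨c, (10 + (1 + 4 / c)) * C, hc, by linarith, by positivity, ?_⟩
  have one : ∀ (T t s lam : ℝ) (K : ℕ), 1 ≤ T → T ≤ s → s < t → t ≤ 4 * T → 0 ≤ lam →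
      T ^ (1 / 3 : ℝ) ≤ K → (K : ℝ) ≤ T ^ (1 / 2 - κ) → 5 * (K : ℝ) ≤ T →
      t - s ≤ T ^ (3 / 2 + c) / (K * √(K : ℝ)) →
      ‖∑ k ∈ Finset.Ico 1 K, ((Real.exp (-(lam * √(k : ℝ))) : ℝ) : ℂ) *
        cexp (I * ((U6.ph k t - U6.ph k s : ℝ) : ℂ))‖ ≤
      (10 + (1 + 4 / c)) * C * (√T / (t - s) * √(K : ℝ) + T ^ (1 / 2 - c) / √(K : ℝ)) := by
    intro T t s lam K hT hs hst ht hlam hK1 hK2 hKT hxK
    have hts : 0 < t - s := by linarith
    have hT0 : 0 < T := by linarith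
    have hKr : (1 : ℝ) ≤ K := (Real.one_le_rpow hT (by norm_num)).trans hK1
    have hK0 : (0 : ℝ) < K := by linarith
    have hsK : 0 < √(K : ℝ) := Real.sqrt_pos.2 hK0
    have hxK' : t - s ≤ T ^ (3 / 2 + c0) / (K * √(K : ℝ)) := by
      refine hxK.trans ?_
      apply div_le_div_of_nonneg_right _ (by positivity)
      apply Real.rpow_le_rpow_of_exponent_le hT
      linarith
    have h1 := H2_dyadic (fun k => ((Real.exp (-(lam * √(k : ℝ))) : ℝ) : ℂ) *
        cexp (I * ((U6.ph k t - U6.ph k s : ℝ) : ℂ))) (C * (√T / (t - s)))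
      (C * (T ^ (1 / 2 - c0) / √(K : ℝ)))
      (by positivity) (by positivity) K (by
        intro A N hA hN hAK
        have h2 : (A : ℝ) ≤ K := by exact_mod_cast (by omega : A ≤ K)
        have h3 := h T t s lam K A N hT hs hst ht hlam hA hN h2 hK1 hK2 hKT hxK'
        simp only [Nat.cast_add]
        refine h3.trans (le_of_eq ?_)
        ring)
    refine h1.trans ?_
    have hlog : 1 + 4 * Real.log K ≤ (1 + 4 / c) * T ^ c := by
      have hKT' : (K : ℝ) ≤ T := by linarith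
      have h4 : Real.log K ≤ Real.log T := Real.log_le_log hK0 hKT'
      have h5 : Real.log T ≤ T ^ c / c := Real.log_le_rpow_div hT0.le hc
      have h6 : (1 : ℝ) ≤ T ^ c := Real.one_le_rpow hT hc.le
      calc 1 + 4 * Real.log K ≤ T ^ c + 4 * (T ^ c / c) := by linarith
        _ = (1 + 4 / c) * T ^ c := by ring
    have e1 : C * (T ^ (1 / 2 - c0) / √(K : ℝ)) * (1 + 4 * Real.log K) ≤
        (1 + 4 / c) * C * (T ^ (1 / 2 - c) / √(K : ℝ)) := by
      calc C * (T ^ (1 / 2 - c0) / √(K : ℝ)) * (1 + 4 * Real.log K) ≤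
            C * (T ^ (1 / 2 - c0) / √(K : ℝ)) * ((1 + 4 / c) * T ^ c) :=
            mul_le_mul_of_nonneg_left hlog (by positivity)
        _ = (1 + 4 / c) * C * (T ^ (1 / 2 - c0) * T ^ c / √(K : ℝ)) := by ring
        _ = (1 + 4 / c) * C * (T ^ (1 / 2 - c) / √(K : ℝ)) := by
            rw [← Real.rpow_add hT0]
            congr 3
            rw [hcc]
            ring
    have e2 : 0 ≤ (1 + 4 / c) * C * (√T / (t - s) * √(K : ℝ)) := by positivity
    have e3 : 0 ≤ 10 * C * (T ^ (1 / 2 - c) / √(K : ℝ)) := by positivity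
    calc 10 * (C * (√T / (t - s))) * √(K : ℝ) +
          C * (T ^ (1 / 2 - c0) / √(K : ℝ)) * (1 + 4 * Real.log K) ≤
          10 * (C * (√T / (t - s))) * √(K : ℝ) + (1 + 4 / c) * C * (T ^ (1 / 2 - c) / √(K : ℝ)) := by
          linarith
      _ ≤ 10 * (C * (√T / (t - s))) * √(K : ℝ) + (1 + 4 / c) * C * (T ^ (1 / 2 - c) / √(K : ℝ)) +
          ((1 + 4 / c) * C * (√T / (t - s) * √(K : ℝ)) + 10 * C * (T ^ (1 / 2 - c) / √(K : ℝ))) := by
          linarith
      _ = (10 + (1 + 4 / c)) * C * (√T / (t - s) * √(K : ℝ) + T ^ (1 / 2 - c) / √(K : ℝ)) := by ring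
  intro T t s lam K hT hs hs4 ht ht4 hne hlam hK1 hK2 hKT hxK
  rcases lt_or_gt_of_ne hne with hlt | hgt
  · have e1 : |t - s| = s - t := by rw [abs_of_neg (by linarith)]; ring
    rw [e1] at hxK ⊢
    have h1 := one T s t lam K hT ht hlt hs4 hlam hK1 hK2 hKT hxK
    refine le_trans (le_of_eq ?_) h1
    rw [← Complex.norm_conj, map_sum]
    congr 1
    apply sum_congr rfl
    intro k _
    rw [map_mul, Complex.conj_ofReal, ← Complex.exp_conj, map_mul, Complex.conj_ofReal, Complex.conj_I]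
    congr 2
    push_cast
    ring
  · have e1 : |t - s| = t - s := abs_of_pos (by linarith)
    rw [e1] at hxK ⊢
    exact one T t s lam K hT hs hgt ht4 hlam hK1 hK2 hKT hxK

end T12
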