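import Pool.Agent.Lib.MP_4ae430_nt.VDC

/-!
# Twelfth moment of zeta with a power saving: definitions

Poisson summation for `∑ W(√k) e(α √k)`, where `W` is a Gaussian-smoothed indicator of `[y1, y2]`.
-/

set_option autoImplicit false

namespace T12

open Pool.Agent.Lib.MP_4ae430_nt

/-- `c = 1 + 2 i ξ` -/
noncomputable def cc (ξ : ℝ) : ℂ := 1 + 2 * (ξ : ℂ) * Complex.I

/-- the value of `∫ 2 y exp(-π (y-v)²) e(α y - ξ y²) dy` -/
noncomputable def gh (α v ξ : ℝ) : ℂ :=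
  2 * (((v : ℂ) + α * Complex.I) / cc ξ) * cc ξ ^ (-(1 / 2) : ℂ) *
    Complex.exp (Real.pi * (((v : ℂ) + α * Complex.I) ^ 2 / cc ξ - (v : ℂ) ^ 2))

/-- smoothed indicator of `[y1, y2]` -/
noncomputable def W (y1 y2 y : ℝ) : ℝ := ∫ v in y1..y2, Real.exp (-(Real.pi * (y - v) ^ 2))

/-- `gh` around the stationary point: `gh α v ξ = e(α²/(4ξ)) hz α (v - α/(2ξ)) ξ` -/
noncomputable def hz (α z ξ : ℝ) : ℂ :=
  2 * ((α / (2 * ξ) : ℝ) + (z : ℂ) / cc ξ) * cc ξ ^ (-(1 / 2) : ℂ) *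
    Complex.exp (-(2 * Real.pi * (ξ : ℂ) * Complex.I * (z : ℂ) ^ 2 / cc ξ))

/-- the amplitudes -/
noncomputable def AA (α y1 y2 ξ : ℝ) : ℂ :=
  ∫ z in (y1 - α / (2 * ξ))..(y2 - α / (2 * ξ)), hz α z ξ

end T12
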