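import Pool.Agent.Lib.MP_39df77_nt.T12.Defs

set_option autoImplicit false

namespace T12

open Finset Complex MeasureTheory Set Pool.Agent.Lib.MP_4ae430_nt

/-- the derivatives of `X / x` -/
private noncomputable def dpG (X : ℝ) (i : ℕ) (x : ℝ) : ℝ :=
  ((-1) ^ i * (i.factorial : ℝ) * X) * (x ^ (i + 1))⁻¹

private theorem dp_deriv (X : ℝ) (i : ℕ) {x : ℝ} (hx : 0 < x) :
    HasDerivAt (dpG X i) (dpG X (i + 1) x) x := by
  have h1 : HasDerivAt (fun y : ℝ => y ^ (i + 1)) (((i + 1 : ℕ) : ℝ) * x ^ i) x := by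
    simpa using hasDerivAt_pow (i + 1) x
  have h2 := (h1.inv (pow_ne_zero _ hx.ne')).const_mul ((-1) ^ i * (i.factorial : ℝ) * X)
  refine h2.congr_deriv ?_
  have hx' : x ≠ 0 := hx.ne'
  unfold dpG
  rw [Nat.factorial_succ]
  push_cast
  field_simp
  ring

private theorem dp_PP (j : ℕ) (hj : 1 ≤ j) : PP j := by
  induction j, hj using Nat.le_induction with
  | base => exact PP_one
  | succ j hj ih => exact PP_step j hj ih

private theorem dp_triv (N : ℕ) (a : ℕ → ℝ) : ‖∑ n ∈ range N, ee (a n)‖ ≤ N := by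
  refine (norm_sum_le _ _).trans ?_
  simp [norm_ee]

private theorem dp_DD (q : ℕ) (hq : Even q) (M N : ℕ) (X : ℝ) (hM : 1 ≤ M) (hN : N ≤ 8 * M)
    (hX : 0 < X) :
    DD q N ((q.factorial : ℝ) * X * ((9 * (M : ℝ)) ^ (q + 1))⁻¹)
      ((q.factorial : ℝ) * X * ((M : ℝ) ^ (q + 1))⁻¹) (fun n : ℕ => X / ((M : ℝ) + n)) := by
  have hM0 : (0 : ℝ) < M := by exact_mod_cast hM
  have hfun : (fun n : ℕ => X / ((M : ℝ) + n)) = fun k : ℕ => dpG X 0 ((M : ℝ) + k) := by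
    funext k
    simp [dpG, div_eq_mul_inv]
  have hsig : (-1 : ℝ) ^ q = 1 := hq.neg_one_pow
  have hNr : (N : ℝ) ≤ 8 * M := by exact_mod_cast hN
  rw [hfun]
  refine ⟨fun n hn => ?_, Or.inr fun n hn => ?_⟩
  · have hnr : (n : ℝ) + q < N := by exact_mod_cast hn
    refine fd q (dpG X) (M : ℝ) (9 * M) (fun i _ x hx => dp_deriv X i (hM0.trans_le hx.1)) _ _ ?_
      (M : ℝ) n (by linarith [(Nat.cast_nonneg n : (0 : ℝ) ≤ n)]) (by linarith)
    intro x hx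
    have hx0 : 0 < x := hM0.trans_le hx.1
    have hc : 0 < (q.factorial : ℝ) * X := by positivity
    unfold dpG
    rw [hsig, one_mul]
    constructor
    · apply mul_le_mul_of_nonneg_left _ hc.le
      exact inv_anti₀ (by positivity) (pow_le_pow_left₀ hx0.le hx.2 _)
    · apply mul_le_mul_of_nonneg_left _ hc.le
      exact inv_anti₀ (by positivity) (pow_le_pow_left₀ hM0.le hx.1 _)
  · have hnr : (n : ℝ) + q + 1 < N := by exact_mod_cast hn
    have h := (fd (q + 1) (dpG X) (M : ℝ) (9 * M)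
      (fun i _ x hx => dp_deriv X i (hM0.trans_le hx.1))
      (-(((q + 1).factorial : ℝ) * X * ((M : ℝ) ^ (q + 1 + 1))⁻¹)) 0 ?_
      (M : ℝ) n (by linarith [(Nat.cast_nonneg n : (0 : ℝ) ≤ n)]) (by push_cast; linarith)).2
    · rw [Function.iterate_succ_apply'] at h
      have h' : (dl^[q] (fun k : ℕ => dpG X 0 ((M : ℝ) + k))) (n + 1) -
        (dl^[q] (fun k : ℕ => dpG X 0 ((M : ℝ) + k))) n ≤ 0 := h
      linarith
    · intro x hx
      have hx0 : 0 < x := hM0.trans_le hx.1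
      have hc : 0 < ((q + 1).factorial : ℝ) * X := by positivity
      have hsig' : (-1 : ℝ) ^ (q + 1) = -1 := by rw [pow_succ, hsig]; ring
      unfold dpG
      rw [hsig']
      have e : -1 * ((q + 1).factorial : ℝ) * X * (x ^ (q + 1 + 1))⁻¹ =
        -((((q + 1).factorial : ℝ) * X) * (x ^ (q + 1 + 1))⁻¹) := by ring
      rw [e]
      constructor
      · apply neg_le_neg
        apply mul_le_mul_of_nonneg_left _ hc.le
        exact inv_anti₀ (by positivity) (pow_le_pow_left₀ hM0.le hx.1 _)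
      · have : 0 ≤ ((q + 1).factorial : ℝ) * X * (x ^ (q + 1 + 1))⁻¹ := by positivity
        linarith

theorem dual_phase (B : ℝ) : ∃ σ C : ℝ, 0 < σ ∧ σ ≤ 1 / 4 ∧ 0 < C ∧ ∀ (M N : ℕ) (X : ℝ), 1 ≤ M →
    N ≤ 8 * M → (M : ℝ) ^ (3 / 2 : ℝ) ≤ X / M → X / M ≤ (M : ℝ) ^ B →
    ‖∑ n ∈ range N, ee (X / ((M : ℝ) + n))‖ ≤ C * (M : ℝ) ^ (1 - σ) := by
  obtain ⟨q, hqe, hq4, hqB⟩ : ∃ q : ℕ, Even q ∧ 4 ≤ q ∧ B + 2 ≤ (q : ℝ) := by
    refine ⟨2 * (⌈B + 2⌉₊ + 2), even_two_mul _, by omega, ?_⟩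
    have := Nat.le_ceil (B + 2)
    push_cast
    linarith [(Nat.cast_nonneg ⌈B + 2⌉₊ : (0 : ℝ) ≤ (⌈B + 2⌉₊ : ℝ))]
  have hq4r : (4 : ℝ) ≤ q := by exact_mod_cast hq4
  have hA : (1 : ℝ) ≤ 9 ^ (q + 1) := one_le_pow₀ (by norm_num)
  obtain ⟨σ₁, C₁, hσ₁, hC₁, hP⟩ := dp_PP q (by omega) (1 / 4) (by norm_num) (by norm_num)
    (9 ^ (q + 1)) hA
  have hqi : (0 : ℝ) < 1 / (2 * q) := by positivity
  have hqi8 : 1 / (2 * (q : ℝ)) ≤ 1 / 8 := by
    apply one_div_le_one_div_of_le (by norm_num); linarith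
  set s : ℝ := min σ₁ (1 / (2 * q)) with hs
  have hs0 : 0 < s := lt_min hσ₁ hqi
  have hs1 : s ≤ σ₁ := min_le_left _ _
  have hs2 : s ≤ 1 / (2 * q) := min_le_right _ _
  have hs4 : s ≤ 1 / 4 := by linarith
  set M₀ : ℝ := 8 * (q.factorial : ℝ) + 81 ^ (q + 1) with hM₀
  have hM₀0 : 0 < M₀ := by positivity
  refine ⟨s, 8 * M₀ + 1 + 8 * C₁, hs0, hs4, by positivity, ?_⟩
  intro M N X hM hN h1 h2
  have hMr : (1 : ℝ) ≤ M := by exact_mod_cast hM
  have hM0 : (0 : ℝ) < M := by linarith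
  have hNr : (N : ℝ) ≤ 8 * M := by exact_mod_cast hN
  have hone : (1 : ℝ) ≤ (M : ℝ) ^ (1 - s) := Real.one_le_rpow hMr (by linarith)
  have hpos : (0 : ℝ) < (M : ℝ) ^ (1 - s) := by linarith
  by_cases hsmall : (M : ℝ) < M₀
  · calc ‖∑ n ∈ range N, ee (X / ((M : ℝ) + n))‖ ≤ N := dp_triv N _
      _ ≤ (8 * M₀) * 1 := by linarith
      _ ≤ (8 * M₀ + 1 + 8 * C₁) * (M : ℝ) ^ (1 - s) := by
          apply mul_le_mul _ hone (by norm_num) (by positivity)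
          linarith
  push Not at hsmall
  by_cases hNs : (N : ℝ) < (M : ℝ) ^ (1 - 1 / (2 * (q : ℝ)))
  · calc ‖∑ n ∈ range N, ee (X / ((M : ℝ) + n))‖ ≤ N := dp_triv N _
      _ ≤ (M : ℝ) ^ (1 - 1 / (2 * (q : ℝ))) := hNs.le
      _ ≤ 1 * (M : ℝ) ^ (1 - s) := by
          rw [one_mul]
          exact Real.rpow_le_rpow_of_exponent_le hMr (by linarith)
      _ ≤ (8 * M₀ + 1 + 8 * C₁) * (M : ℝ) ^ (1 - s) := by
          apply mul_le_mul_of_nonneg_right _ hpos.le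
          have : 0 < 8 * M₀ := by positivity
          linarith
  push Not at hNs
  have hX : 0 < X := by
    have h3 : 0 < X / M := lt_of_lt_of_le (Real.rpow_pos_of_pos hM0 _) h1
    have h4 : X = X / M * M := by field_simp
    rw [h4]; positivity
  have hN1r : (1 : ℝ) ≤ N := le_trans (Real.one_le_rpow hMr (by linarith)) hNs
  have hN1 : 1 ≤ N := by exact_mod_cast hN1r
  have hN0 : (0 : ℝ) < N := by linarith
  have hfact : (1 : ℝ) ≤ (q.factorial : ℝ) := by exact_mod_cast Nat.one_le_iff_ne_zero.2 (Nat.factorial_ne_zero q)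
  have hD := dp_DD q hqe M N X hM hN hX
  have hXM : X * ((M : ℝ) ^ (q + 1))⁻¹ = X / M * (M : ℝ) ^ (-(q : ℝ)) := by
    rw [Real.rpow_neg hM0.le, Real.rpow_natCast]
    field_simp
    ring
  have h9 : ((9 * (M : ℝ)) ^ (q + 1))⁻¹ = (9 ^ (q + 1))⁻¹ * ((M : ℝ) ^ (q + 1))⁻¹ := by
    rw [mul_pow, mul_inv]
  have hb := hP N (fun n : ℕ => X / ((M : ℝ) + n)) _ _ hN1 hD (by positivity) ?_ ?_ ?_
  · refine hb.trans ?_
    calc C₁ * (N : ℝ) ^ (1 - σ₁) ≤ C₁ * (N : ℝ) ^ (1 - s) := by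
          apply mul_le_mul_of_nonneg_left _ hC₁.le
          exact Real.rpow_le_rpow_of_exponent_le hN1r (by linarith)
      _ ≤ C₁ * ((8 * M : ℝ) ^ (1 - s)) := by
          apply mul_le_mul_of_nonneg_left _ hC₁.le
          exact Real.rpow_le_rpow hN0.le hNr (by linarith)
      _ = C₁ * ((8 : ℝ) ^ (1 - s) * (M : ℝ) ^ (1 - s)) := by
          rw [Real.mul_rpow (by norm_num) hM0.le]
      _ ≤ C₁ * (8 * (M : ℝ) ^ (1 - s)) := by
          apply mul_le_mul_of_nonneg_left _ hC₁.le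
          apply mul_le_mul_of_nonneg_right _ hpos.le
          calc (8 : ℝ) ^ (1 - s) ≤ (8 : ℝ) ^ (1 : ℝ) :=
                Real.rpow_le_rpow_of_exponent_le (by norm_num) (by linarith)
            _ = 8 := Real.rpow_one 8
      _ = (8 * C₁) * (M : ℝ) ^ (1 - s) := by ring
      _ ≤ (8 * M₀ + 1 + 8 * C₁) * (M : ℝ) ^ (1 - s) := by
          apply mul_le_mul_of_nonneg_right _ hpos.le
          have : 0 < 8 * M₀ := by positivity
          linarith
  · -- hi ≤ A lo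
    rw [h9]
    apply le_of_eq
    field_simp
  · -- lower condition
    have hexp : (1 - 1 / (2 * (q : ℝ))) * (-(q : ℝ) + 1 / 4) ≤ -(q : ℝ) + 3 / 4 := by
      have e : (1 - 1 / (2 * (q : ℝ))) * (-(q : ℝ) + 1 / 4) =
          -(q : ℝ) + 3 / 4 - 1 / (8 * q) := by
        have : (q : ℝ) ≠ 0 := by positivity
        field_simp
        ring
      rw [e]
      have : 0 < 1 / (8 * (q : ℝ)) := by positivity
      linarith
    have hM34 : (9 : ℝ) ^ (q + 1) ≤ (M : ℝ) ^ (3 / 4 : ℝ) := by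
      calc (9 : ℝ) ^ (q + 1) = ((81 : ℝ) ^ (q + 1)) ^ (1 / 2 : ℝ) := by
            rw [← Real.sqrt_eq_rpow, show (81 : ℝ) ^ (q + 1) = ((9 : ℝ) ^ (q + 1)) ^ 2 by
              rw [← pow_mul, mul_comm (q + 1) 2, pow_mul]; norm_num]
            rw [Real.sqrt_sq (by positivity)]
        _ ≤ (M : ℝ) ^ (1 / 2 : ℝ) := by
            apply Real.rpow_le_rpow (by positivity) _ (by norm_num)
            have : (0 : ℝ) < 8 * (q.factorial : ℝ) := by positivity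
            linarith
        _ ≤ (M : ℝ) ^ (3 / 4 : ℝ) := Real.rpow_le_rpow_of_exponent_le hMr (by norm_num)
    calc (N : ℝ) ^ (-(q : ℝ) + 1 / 4)
        ≤ ((M : ℝ) ^ (1 - 1 / (2 * (q : ℝ)))) ^ (-(q : ℝ) + 1 / 4) :=
          Real.rpow_le_rpow_of_nonpos (by positivity) hNs (by linarith)
      _ = (M : ℝ) ^ ((1 - 1 / (2 * (q : ℝ))) * (-(q : ℝ) + 1 / 4)) := by
          rw [← Real.rpow_mul hM0.le]
      _ ≤ (M : ℝ) ^ (-(q : ℝ) + 3 / 4) := Real.rpow_le_rpow_of_exponent_le hMr hexp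
      _ = (9 ^ (q + 1))⁻¹ * (9 ^ (q + 1) * (M : ℝ) ^ (-(q : ℝ) + 3 / 4)) := by
          field_simp
      _ ≤ (9 ^ (q + 1))⁻¹ * ((M : ℝ) ^ (3 / 4 : ℝ) * (M : ℝ) ^ (-(q : ℝ) + 3 / 4)) := by
          apply mul_le_mul_of_nonneg_left _ (by positivity)
          exact mul_le_mul_of_nonneg_right hM34 (by positivity)
      _ = (9 ^ (q + 1))⁻¹ * ((M : ℝ) ^ (3 / 2 : ℝ) * (M : ℝ) ^ (-(q : ℝ))) := by
          rw [← Real.rpow_add hM0, ← Real.rpow_add hM0]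
          congr 2
          ring
      _ ≤ (9 ^ (q + 1))⁻¹ * (X / M * (M : ℝ) ^ (-(q : ℝ))) := by
          apply mul_le_mul_of_nonneg_left _ (by positivity)
          exact mul_le_mul_of_nonneg_right h1 (by positivity)
      _ = 1 * (X * ((9 * (M : ℝ)) ^ (q + 1))⁻¹) := by
          rw [h9, ← hXM]; ring
      _ ≤ (q.factorial : ℝ) * (X * ((9 * (M : ℝ)) ^ (q + 1))⁻¹) := by
          apply mul_le_mul_of_nonneg_right hfact (by positivity)
      _ = (q.factorial : ℝ) * X * ((9 * (M : ℝ)) ^ (q + 1))⁻¹ := by ring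
  · -- upper condition
    have hM2 : (q.factorial : ℝ) * (M : ℝ) ^ (-(2 : ℝ)) ≤ (8 : ℝ)⁻¹ * (M : ℝ) ^ (-(1 : ℝ)) := by
      have e : (M : ℝ) ^ (-(2 : ℝ)) = (M : ℝ) ^ (-(1 : ℝ)) * (M : ℝ)⁻¹ := by
        rw [← Real.rpow_neg_one (M : ℝ), ← Real.rpow_add hM0]; norm_num
      rw [e]
      have h5 : (q.factorial : ℝ) * (M : ℝ)⁻¹ ≤ 8⁻¹ := by
        rw [← div_eq_mul_inv, div_le_iff₀ hM0]
        have : (0 : ℝ) < 81 ^ (q + 1) := by positivity
        linarith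
      calc (q.factorial : ℝ) * ((M : ℝ) ^ (-(1 : ℝ)) * (M : ℝ)⁻¹)
          = ((q.factorial : ℝ) * (M : ℝ)⁻¹) * (M : ℝ) ^ (-(1 : ℝ)) := by ring
        _ ≤ _ := mul_le_mul_of_nonneg_right h5 (by positivity)
    calc (q.factorial : ℝ) * X * ((M : ℝ) ^ (q + 1))⁻¹
        = (q.factorial : ℝ) * (X / M * (M : ℝ) ^ (-(q : ℝ))) := by rw [← hXM]; ring
      _ ≤ (q.factorial : ℝ) * ((M : ℝ) ^ B * (M : ℝ) ^ (-(q : ℝ))) := by
          apply mul_le_mul_of_nonneg_left _ (by positivity)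
          exact mul_le_mul_of_nonneg_right h2 (by positivity)
      _ = (q.factorial : ℝ) * (M : ℝ) ^ (B - q) := by
          rw [← Real.rpow_add hM0]; rfl
      _ ≤ (q.factorial : ℝ) * (M : ℝ) ^ (-(2 : ℝ)) := by
          apply mul_le_mul_of_nonneg_left _ (by positivity)
          exact Real.rpow_le_rpow_of_exponent_le hMr (by linarith)
      _ ≤ (8 : ℝ)⁻¹ * (M : ℝ) ^ (-(1 : ℝ)) := hM2
      _ = (8 * (M : ℝ)) ^ (-(1 : ℝ)) := by
          rw [Real.mul_rpow (by norm_num) hM0.le, Real.rpow_neg_one 8]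
      _ ≤ (8 * (M : ℝ)) ^ (-(1 / 4 : ℝ)) :=
          Real.rpow_le_rpow_of_exponent_le (by linarith) (by norm_num)
      _ ≤ (N : ℝ) ^ (-(1 / 4 : ℝ)) := Real.rpow_le_rpow_of_nonpos hN0 hNr (by norm_num)

end T12
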