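import Pool.Agent.Lib.MP_39df77_nt.T12.Defs

set_option autoImplicit false

namespace T12

open Complex MeasureTheory Set Filter Topology Pool.Agent.Lib.MP_4ae430_nt

theorem cc_re (ξ : ℝ) : (cc ξ).re = 1 := by simp [cc]

theorem cc_ne (ξ : ℝ) : cc ξ ≠ 0 := by
  intro h
  have := cc_re ξ
  rw [h] at this
  simp at this

/-- the Gaussian with complex quadratic exponent -/
noncomputable def FF (α v ξ : ℝ) (y : ℝ) : ℂ :=
  cexp (-(Real.pi * cc ξ) * (y : ℂ) ^ 2 + (2 * Real.pi * ((v : ℂ) + α * I)) * y +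
    (-(Real.pi * (v : ℂ) ^ 2)))

theorem FF_eq (α v ξ y : ℝ) :
    ((Real.exp (-(Real.pi * (y - v) ^ 2)) : ℝ) : ℂ) * ee (α * y - ξ * y ^ 2) = FF α v ξ y := by
  rw [ee, FF, ofReal_exp, ← Complex.exp_add, cc]
  congr 1
  push_cast
  ring

theorem FF_norm (α v ξ y : ℝ) : ‖FF α v ξ y‖ = Real.exp (-(Real.pi * (y - v) ^ 2)) := by
  rw [← FF_eq, norm_mul, ee, Complex.norm_exp_ofReal_mul_I, mul_one, Complex.norm_real,
    Real.norm_of_nonneg (Real.exp_pos _).le]

theorem FF_cont (α v ξ : ℝ) : Continuous (FF α v ξ) := by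
  unfold FF
  fun_prop

theorem gauss_int (v : ℝ) : Integrable (fun y : ℝ => Real.exp (-(Real.pi * (y - v) ^ 2))) := by
  have h := (integrable_exp_neg_mul_sq Real.pi_pos).comp_sub_right v
  refine h.congr (Eventually.of_forall fun y => ?_)
  simp only [neg_mul]

theorem gauss_int1 (v : ℝ) :
    Integrable (fun y : ℝ => (y - v) * Real.exp (-(Real.pi * (y - v) ^ 2))) := by
  have h := (integrable_mul_exp_neg_mul_sq Real.pi_pos).comp_sub_right v
  refine h.congr (Eventually.of_forall fun y => ?_)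
  simp only [neg_mul]

theorem FF_int (α v ξ : ℝ) : Integrable (FF α v ξ) := by
  refine (gauss_int v).mono' (FF_cont α v ξ).aestronglyMeasurable
    (Eventually.of_forall fun y => ?_)
  rw [FF_norm]

theorem yFF_int (α v ξ : ℝ) : Integrable (fun y : ℝ => (y : ℂ) * FF α v ξ y) := by
  have h1 := (gauss_int1 v).norm
  have h2 := (gauss_int v).const_mul |v|
  refine (h1.add h2).mono' ((continuous_ofReal.mul (FF_cont α v ξ)).aestronglyMeasurable)
    (Eventually.of_forall fun y => ?_)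
  simp only [Pi.add_apply, norm_mul, FF_norm, Complex.norm_real, Real.norm_eq_abs,
    abs_of_pos (Real.exp_pos _)]
  have : |y| ≤ |y - v| + |v| := by
    have := abs_add_le (y - v) v
    simpa using this
  nlinarith [Real.exp_pos (-(Real.pi * (y - v) ^ 2))]

theorem FF_deriv (α v ξ y : ℝ) : HasDerivAt (FF α v ξ)
    (-(2 * Real.pi * cc ξ) * ((y : ℂ) * FF α v ξ y) +
      (2 * Real.pi * ((v : ℂ) + α * I)) * FF α v ξ y) y := by
  unfold FF
  have h0 : HasDerivAt (fun y : ℝ => (y : ℂ)) 1 y := Complex.ofRealCLM.hasDerivAt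
  have h1 := ((((h0.pow 2).const_mul (-(Real.pi * cc ξ))).add
    (h0.const_mul (2 * Real.pi * ((v : ℂ) + α * I)))).add_const
      (-(Real.pi * (v : ℂ) ^ 2))).cexp
  refine h1.congr_deriv ?_
  simp only [Pi.add_apply, Pi.pow_apply]
  push_cast
  ring

theorem FF_tendsto_top (α v ξ : ℝ) : Tendsto (FF α v ξ) atTop (𝓝 0) := by
  rw [tendsto_zero_iff_norm_tendsto_zero]
  simp only [FF_norm]
  refine Real.tendsto_exp_atBot.comp (tendsto_neg_atTop_atBot.comp ?_)
  refine Tendsto.const_mul_atTop Real.pi_pos ?_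
  have h : Tendsto (fun y : ℝ => y - v) atTop atTop := tendsto_atTop_add_const_right _ _ tendsto_id
  simpa [pow_two] using h.atTop_mul_atTop₀ h

theorem FF_tendsto_bot (α v ξ : ℝ) : Tendsto (FF α v ξ) atBot (𝓝 0) := by
  rw [tendsto_zero_iff_norm_tendsto_zero]
  simp only [FF_norm]
  refine Real.tendsto_exp_atBot.comp (tendsto_neg_atTop_atBot.comp ?_)
  refine Tendsto.const_mul_atTop Real.pi_pos ?_
  have h : Tendsto (fun y : ℝ => y - v) atBot atBot := tendsto_atBot_add_const_right _ _ tendsto_id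
  simpa [pow_two] using h.atBot_mul_atBot₀ h

theorem FF_integral (α v ξ : ℝ) : ∫ y : ℝ, FF α v ξ y =
    cc ξ ^ (-(1 / 2) : ℂ) *
      cexp (Real.pi * (((v : ℂ) + α * I) ^ 2 / cc ξ - (v : ℂ) ^ 2)) := by
  have hre : (-(Real.pi * cc ξ)).re < 0 := by
    simp only [neg_re, mul_re, ofReal_re, ofReal_im, zero_mul, sub_zero, cc_re, mul_one]
    linarith [Real.pi_pos]
  have h := integral_cexp_quadratic hre (2 * Real.pi * ((v : ℂ) + α * I))
    (-(Real.pi * (v : ℂ) ^ 2))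
  have hpi : (Real.pi : ℂ) ≠ 0 := ofReal_ne_zero.mpr Real.pi_ne_zero
  have hc := cc_ne ξ
  unfold FF
  rw [h]
  congr 1
  · rw [neg_neg, ← div_div, div_self hpi, one_div, inv_cpow, ← cpow_neg]
    rw [Ne, arg_eq_pi_iff, not_and_or, not_lt]
    left
    rw [cc_re]
    norm_num
  · congr 1
    field_simp
    ring

/-! ROW T12-B1 -/
theorem gauss (α v ξ : ℝ) :
    Integrable (fun y : ℝ => (2 * y : ℂ) * ((Real.exp (-(Real.pi * (y - v) ^ 2)) : ℝ) : ℂ) * ee (α * y - ξ * y ^ 2)) ∧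
    ∫ y : ℝ, (2 * y : ℂ) * ((Real.exp (-(Real.pi * (y - v) ^ 2)) : ℝ) : ℂ) * ee (α * y - ξ * y ^ 2) = gh α v ξ := by
  have hfun : (fun y : ℝ => (2 * y : ℂ) * ((Real.exp (-(Real.pi * (y - v) ^ 2)) : ℝ) : ℂ) *
      ee (α * y - ξ * y ^ 2)) = fun y : ℝ => 2 * ((y : ℂ) * FF α v ξ y) := by
    funext y
    rw [mul_assoc, FF_eq, mul_assoc]
  rw [hfun]
  have hpi : (Real.pi : ℂ) ≠ 0 := ofReal_ne_zero.mpr Real.pi_ne_zero
  have hc := cc_ne ξ
  refine ⟨(yFF_int α v ξ).const_mul 2, ?_⟩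
  have h0 : ∫ y : ℝ, (-(2 * Real.pi * cc ξ) * ((y : ℂ) * FF α v ξ y) +
      (2 * Real.pi * ((v : ℂ) + α * I)) * FF α v ξ y) = 0 := by
    have := integral_of_hasDerivAt_of_tendsto (FF_deriv α v ξ)
      (((yFF_int α v ξ).const_mul _).add ((FF_int α v ξ).const_mul _))
      (FF_tendsto_bot α v ξ) (FF_tendsto_top α v ξ)
    rw [this, sub_zero]
  rw [integral_add ((yFF_int α v ξ).const_mul _) ((FF_int α v ξ).const_mul _),
    integral_const_mul, integral_const_mul] at h0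
  rw [integral_const_mul]
  have h1 : ∫ y : ℝ, (y : ℂ) * FF α v ξ y =
      (((v : ℂ) + α * I) / cc ξ) * ∫ y : ℝ, FF α v ξ y := by
    field_simp
    have h2 : (2 * (Real.pi : ℂ)) * (cc ξ * ∫ y : ℝ, (y : ℂ) * FF α v ξ y) =
        (2 * (Real.pi : ℂ)) * (((v : ℂ) + α * I) * ∫ y : ℝ, FF α v ξ y) := by
      linear_combination -h0
    have h3 := mul_left_cancel₀ (mul_ne_zero two_ne_zero hpi) h2
    linear_combination h3
  rw [h1, FF_integral, gh]
  ring

end T12
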