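import Pool.Agent.Lib.MP_39df77_nt.T12.Defs

set_option autoImplicit false

namespace T12

open Finset Complex MeasureTheory Set Pool.Agent.Lib.MP_4ae430_nt

theorem B2_cc_ne (ξ : ℝ) : cc ξ ≠ 0 := by
  intro h
  have h1 := congrArg Complex.re h
  simp [cc] at h1

theorem B2_cc_norm (ξ : ℝ) : ‖cc ξ‖ = √(1 + 4 * ξ ^ 2) := by
  rw [Complex.norm_def, Complex.normSq_apply]
  congr 1
  simp [cc]
  ring

theorem B2_gh_expo (α v ξ : ℝ) :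
    ((Real.pi : ℂ) * (((v : ℂ) + α * Complex.I) ^ 2 / cc ξ - (v : ℂ) ^ 2)).re =
      -(Real.pi * (2 * ξ * v - α) ^ 2 / (1 + 4 * ξ ^ 2)) := by
  have hD : (1 + 4 * ξ ^ 2 : ℝ) ≠ 0 := by positivity
  have e1 : ((v : ℂ) + α * Complex.I) ^ 2 / cc ξ =
      (((v ^ 2 - α ^ 2 + 4 * α * v * ξ) / (1 + 4 * ξ ^ 2) : ℝ) : ℂ) +
        (((2 * α * v - 2 * ξ * (v ^ 2 - α ^ 2)) / (1 + 4 * ξ ^ 2) : ℝ) : ℂ) * Complex.I := by
    rw [div_eq_iff (B2_cc_ne ξ)]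
    have hD' : (1 + 4 * (ξ : ℂ) ^ 2) ≠ 0 := by exact_mod_cast hD
    push_cast
    unfold cc
    field_simp
    ring_nf
    simp only [Complex.I_sq]
    ring
  rw [e1, Complex.re_ofReal_mul, Complex.sub_re, Complex.add_re, Complex.ofReal_re,
    Complex.re_ofReal_mul, Complex.I_re, ← Complex.ofReal_pow, Complex.ofReal_re]
  field_simp
  ring

theorem gh_norm (α v ξ : ℝ) : ‖gh α v ξ‖ =
    2 * √(v ^ 2 + α ^ 2) * (1 + 4 * ξ ^ 2) ^ (-(3 / 4) : ℝ) *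
      Real.exp (-(Real.pi * (2 * ξ * v - α) ^ 2 / (1 + 4 * ξ ^ 2))) := by
  have hD : (0 : ℝ) < 1 + 4 * ξ ^ 2 := by positivity
  have h1 : ‖(v : ℂ) + α * Complex.I‖ = √(v ^ 2 + α ^ 2) := by
    rw [Complex.norm_def, Complex.normSq_apply]
    congr 1
    simp
    ring
  have h2 : ‖cc ξ ^ (-(1 / 2) : ℂ)‖ = (1 + 4 * ξ ^ 2) ^ (-(1 / 4) : ℝ) := by
    rw [Complex.norm_cpow_of_ne_zero (B2_cc_ne ξ), B2_cc_norm]
    have e1 : (-(1 / 2) : ℂ).re = -(1 / 2) := by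
      simp
    have e2 : (-(1 / 2) : ℂ).im = 0 := by
      simp
    rw [e1, e2, mul_zero, Real.exp_zero, div_one, Real.sqrt_eq_rpow, ← Real.rpow_mul hD.le]
    norm_num
  have h3 : ‖((v : ℂ) + α * Complex.I) / cc ξ‖ = √(v ^ 2 + α ^ 2) * (1 + 4 * ξ ^ 2) ^ (-(1 / 2) : ℝ) := by
    rw [norm_div, h1, B2_cc_norm, Real.sqrt_eq_rpow (1 + 4 * ξ ^ 2), Real.rpow_neg hD.le, div_eq_mul_inv]
  have h4 : (1 + 4 * ξ ^ 2 : ℝ) ^ (-(3 / 4) : ℝ) =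
      (1 + 4 * ξ ^ 2) ^ (-(1 / 2) : ℝ) * (1 + 4 * ξ ^ 2) ^ (-(1 / 4) : ℝ) := by
    rw [← Real.rpow_add hD]
    norm_num
  unfold gh
  rw [norm_mul, norm_mul, norm_mul, h2, h3, Complex.norm_exp, B2_gh_expo, h4]
  have h5 : ‖(2 : ℂ)‖ = 2 := by simp
  rw [h5]
  ring

theorem gh_eq (α v ξ : ℝ) (hξ : ξ ≠ 0) :
    gh α v ξ = ee (α ^ 2 / (4 * ξ)) * hz α (v - α / (2 * ξ)) ξ := by
  have hc := B2_cc_ne ξ
  have hξ' : (ξ : ℂ) ≠ 0 := by exact_mod_cast hξ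
  have h1 : ((v : ℂ) + α * Complex.I) / cc ξ =
      ((α / (2 * ξ) : ℝ) : ℂ) + ((v - α / (2 * ξ) : ℝ) : ℂ) / cc ξ := by
    rw [div_eq_iff hc, add_mul, div_mul_cancel₀ _ hc]
    push_cast
    unfold cc
    field_simp
    ring
  have h2 : (Real.pi : ℂ) * (((v : ℂ) + α * Complex.I) ^ 2 / cc ξ - (v : ℂ) ^ 2) =
      ((2 * Real.pi * (α ^ 2 / (4 * ξ)) : ℝ) : ℂ) * Complex.I +
        -(2 * Real.pi * (ξ : ℂ) * Complex.I * ((v - α / (2 * ξ) : ℝ) : ℂ) ^ 2 / cc ξ) := by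
    have e1 : ((v : ℂ) + α * Complex.I) ^ 2 - (v : ℂ) ^ 2 * cc ξ =
        (((α : ℂ) ^ 2 / (2 * ξ)) * Complex.I) * cc ξ -
          2 * (ξ : ℂ) * Complex.I * ((v : ℂ) - α / (2 * ξ)) ^ 2 := by
      unfold cc
      field_simp
      ring_nf
    have e2 : ((v : ℂ) + α * Complex.I) ^ 2 / cc ξ - (v : ℂ) ^ 2 =
        (((α : ℂ) ^ 2 / (2 * ξ)) * Complex.I) -
          2 * (ξ : ℂ) * Complex.I * ((v : ℂ) - α / (2 * ξ)) ^ 2 / cc ξ := by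
      rw [eq_sub_iff_add_eq, sub_add_eq_add_sub, ← add_div, sub_eq_iff_eq_add, div_eq_iff hc]
      linear_combination e1
    rw [e2]
    push_cast
    field_simp
    ring
  unfold gh hz ee
  rw [h1, h2, Complex.exp_add]
  ring

theorem int_gh (α y1 y2 ξ : ℝ) (hξ : ξ ≠ 0) :
    ∫ v in y1..y2, gh α v ξ = ee (α ^ 2 / (4 * ξ)) * AA α y1 y2 ξ := by
  have h1 : (fun v : ℝ => gh α v ξ) =
      fun v : ℝ => ee (α ^ 2 / (4 * ξ)) * hz α (v - α / (2 * ξ)) ξ :=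
    funext fun v => gh_eq α v ξ hξ
  rw [h1, intervalIntegral.integral_const_mul]
  unfold AA
  rw [intervalIntegral.integral_comp_sub_right (fun z => hz α z ξ) (α / (2 * ξ))]

end T12
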