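import Pool.Agent.Lib.MP_39df77_nt.T12.Defs
import Pool.Agent.Lib.MP_39df77_nt.U6.Defs

set_option autoImplicit false

namespace T12

open Finset Complex MeasureTheory Set Pool.Agent.Lib.MP_4ae430_nt

/-- falling factorial `p (p-1) ... (p-i+1)` -/
private noncomputable def ja (p : ℝ) : ℕ → ℝ
  | 0 => 1
  | i + 1 => ja p i * (p - i)

private theorem ja_deriv (p : ℝ) (i : ℕ) {x : ℝ} (hx : 0 < x) :
    HasDerivAt (fun x : ℝ => ja p i * x ^ (p - i)) (ja p (i + 1) * x ^ (p - (i + 1 : ℕ))) x := by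
  have h := (Real.hasDerivAt_rpow_const (x := x) (p := p - i) (Or.inl hx.ne')).const_mul (ja p i)
  refine h.congr_deriv ?_
  rw [ja]
  push_cast
  rw [show p - ((i : ℝ) + 1) = p - i - 1 by ring]
  ring

/-- linear part -/
private noncomputable def jl (m : ℝ) : ℕ → ℝ → ℝ
  | 0, x => m / 2 * x
  | 1, _ => m / 2
  | _ + 2, _ => 0

private theorem jl_deriv (m : ℝ) (i : ℕ) (x : ℝ) : HasDerivAt (jl m i) (jl m (i + 1) x) x := by
  match i with
  | 0 =>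
    have h := (hasDerivAt_id x).const_mul (m / 2)
    rw [mul_one] at h
    exact h
  | 1 => exact hasDerivAt_const x (m / 2)
  | _ + 2 => exact hasDerivAt_const x (0 : ℝ)

private noncomputable def jG (m P c : ℝ) (i : ℕ) (x : ℝ) : ℝ :=
  -(jl m i x) - P * (ja (1 / 2) i * x ^ ((1 / 2 : ℝ) - i)) -
    c * (ja (3 / 2) i * x ^ ((3 / 2 : ℝ) - i))

private theorem jG_deriv (m P c : ℝ) (i : ℕ) {x : ℝ} (hx : 0 < x) :
    HasDerivAt (jG m P c i) (jG m P c (i + 1) x) x :=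
  ((jl_deriv m i x).neg.sub ((ja_deriv (1 / 2) i hx).const_mul P)).sub
    ((ja_deriv (3 / 2) i hx).const_mul c)

private theorem jG_six (m P c : ℝ) {x : ℝ} (hx : 0 < x) :
    jG m P c 6 x = 315 / 64 * x ^ (-(11 / 2) : ℝ) * (3 * P - c * x) := by
  have e1 : x ^ ((3 / 2 : ℝ) - (6 : ℕ)) = x ^ (-(11 / 2) : ℝ) * x := by
    rw [show ((3 / 2 : ℝ) - (6 : ℕ)) = -(11 / 2) + 1 by push_cast; norm_num, Real.rpow_add hx,
      Real.rpow_one]
  have e2 : ((1 / 2 : ℝ) - (6 : ℕ)) = -(11 / 2) := by push_cast; norm_num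
  unfold jG
  rw [e1, e2]
  simp only [ja, jl]
  push_cast
  ring

private theorem jG_seven (m P c : ℝ) {x : ℝ} (hx : 0 < x) :
    jG m P c 7 x = -(945 / 128 * x ^ (-(13 / 2) : ℝ) * (11 * P - 3 * (c * x))) := by
  have e1 : x ^ ((3 / 2 : ℝ) - (7 : ℕ)) = x ^ (-(13 / 2) : ℝ) * x := by
    rw [show ((3 / 2 : ℝ) - (7 : ℕ)) = -(13 / 2) + 1 by push_cast; norm_num, Real.rpow_add hx,
      Real.rpow_one]
  have e2 : ((1 / 2 : ℝ) - (7 : ℕ)) = -(13 / 2) := by push_cast; norm_num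
  unfold jG
  rw [e1, e2]
  simp only [ja, jl]
  push_cast
  ring

private theorem in_DD (m P c : ℝ) (hP : 0 < P) (hc : 0 ≤ c) (N₁ N : ℕ) (hN₁ : 1 ≤ N₁)
    (hN : N ≤ 2 * N₁) (h : c * (3 * (N₁ : ℝ)) ≤ 2 * P) :
    DD 6 N (315 / 64 * P * (3 * (N₁ : ℝ)) ^ (-(11 / 2) : ℝ))
      (945 / 64 * P * (N₁ : ℝ) ^ (-(11 / 2) : ℝ)) (fun n : ℕ => jG m P c 0 ((N₁ : ℝ) + n)) := by
  have hM0 : (0 : ℝ) < N₁ := by exact_mod_cast hN₁
  have hNr : (N : ℝ) ≤ 2 * N₁ := by exact_mod_cast hN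
  refine ⟨fun n hn => ?_, Or.inr fun n hn => ?_⟩
  · have hnr : (n : ℝ) + 6 < N := by exact_mod_cast hn
    refine fd 6 (jG m P c) (N₁ : ℝ) (3 * N₁) (fun i _ x hx => jG_deriv m P c i (hM0.trans_le hx.1))
      _ _ ?_ (N₁ : ℝ) n (by linarith [(Nat.cast_nonneg n : (0 : ℝ) ≤ n)]) (by push_cast; linarith)
    intro x hx
    have hx0 : 0 < x := hM0.trans_le hx.1
    have hcx : c * x ≤ 2 * P := (mul_le_mul_of_nonneg_left hx.2 hc).trans h
    have hcx0 : 0 ≤ c * x := mul_nonneg hc hx0.le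
    have hp1 : (3 * (N₁ : ℝ)) ^ (-(11 / 2) : ℝ) ≤ x ^ (-(11 / 2) : ℝ) :=
      Real.rpow_le_rpow_of_nonpos hx0 hx.2 (by norm_num)
    have hp2 : x ^ (-(11 / 2) : ℝ) ≤ (N₁ : ℝ) ^ (-(11 / 2) : ℝ) :=
      Real.rpow_le_rpow_of_nonpos hM0 hx.1 (by norm_num)
    have hp0 : 0 < (3 * (N₁ : ℝ)) ^ (-(11 / 2) : ℝ) := Real.rpow_pos_of_pos (by positivity) _
    rw [jG_six m P c hx0]
    constructor
    · nlinarith
    · nlinarith
  · have hnr : (n : ℝ) + 6 + 1 < N := by exact_mod_cast hn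
    have h := (fd 7 (jG m P c) (N₁ : ℝ) (3 * N₁)
      (fun i _ x hx => jG_deriv m P c i (hM0.trans_le hx.1))
      (-(945 / 128 * (N₁ : ℝ) ^ (-(13 / 2) : ℝ) * (11 * P))) 0 ?_
      (N₁ : ℝ) n (by linarith [(Nat.cast_nonneg n : (0 : ℝ) ≤ n)]) (by push_cast; linarith)).2
    · rw [Function.iterate_succ_apply'] at h
      have h' : (dl^[6] (fun k : ℕ => jG m P c 0 ((N₁ : ℝ) + k))) (n + 1) -
        (dl^[6] (fun k : ℕ => jG m P c 0 ((N₁ : ℝ) + k))) n ≤ 0 := h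
      linarith
    · intro x hx
      have hx0 : 0 < x := hM0.trans_le hx.1
      have hcx : c * x ≤ 2 * P := (mul_le_mul_of_nonneg_left hx.2 hc).trans h
      have hcx0 : 0 ≤ c * x := mul_nonneg hc hx0.le
      have hp2 : x ^ (-(13 / 2) : ℝ) ≤ (N₁ : ℝ) ^ (-(13 / 2) : ℝ) :=
        Real.rpow_le_rpow_of_nonpos hM0 hx.1 (by norm_num)
      have hp0 : 0 < x ^ (-(13 / 2) : ℝ) := Real.rpow_pos_of_pos hx0 _
      rw [jG_seven m P c hx0]
      constructor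
      · nlinarith
      · have : 0 ≤ 945 / 128 * x ^ (-(13 / 2) : ℝ) * (11 * P - 3 * (c * x)) := by
          apply mul_nonneg (by positivity)
          linarith
        linarith

private theorem in_triv (N : ℕ) (a : ℕ → ℝ) : ‖∑ n ∈ range N, ee (a n)‖ ≤ N := by
  refine (norm_sum_le _ _).trans ?_
  simp [norm_ee]

private theorem PP_six : PP 6 := PP_step 5 (by norm_num) PP_five

/-- the sum is the conjugate of `∑ e(jG)` -/
private theorem in_conj (m N₁ N : ℕ) (t : ℝ) (ht : 0 < t) :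
    ‖∑ n ∈ range N, (-1 : ℂ) ^ (m * (N₁ + n)) *
      cexp (I * (U6.ph ((m * (N₁ + n) : ℕ) : ℝ) t : ℝ))‖ =
    ‖∑ n ∈ range N, ee (jG m (√(2 * Real.pi * m * t) / Real.pi)
      (√2 / (12 * Real.pi) * (Real.pi * m * √(Real.pi * m)) / √t) 0 ((N₁ : ℝ) + n))‖ := by
  rw [← RCLike.norm_conj, map_sum]
  congr 1
  refine Finset.sum_congr rfl fun n _ => ?_
  set x : ℝ := (N₁ : ℝ) + n with hx
  have hx0 : 0 ≤ x := by positivity
  have hk : ((m * (N₁ + n) : ℕ) : ℝ) = m * x := by push_cast; rw [hx]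
  have hs : ((-1 : ℂ) ^ (m * (N₁ + n))) = cexp (((Real.pi * (m * x) : ℝ) : ℂ) * I) := by
    rw [← Complex.exp_pi_mul_I, ← Complex.exp_nat_mul, ← hk]
    congr 1
    push_cast
    ring
  have hph : U6.ph (m * x) t = 2 * Real.pi * (√(2 * Real.pi * m * t) / Real.pi * x ^ (1 / 2 : ℝ) +
      (√2 / (12 * Real.pi) * (Real.pi * m * √(Real.pi * m)) / √t) * x ^ (3 / 2 : ℝ)) := by
    have e1 : x ^ (1 / 2 : ℝ) = √x := (Real.sqrt_eq_rpow x).symm
    have e2 : x ^ (3 / 2 : ℝ) = x * √x := by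
      rw [show (3 / 2 : ℝ) = 1 + 1 / 2 by norm_num, Real.rpow_add_of_nonneg hx0 (by norm_num)
        (by norm_num), Real.rpow_one, e1]
    have e3 : √(2 * Real.pi * (m * x) * t) = √(2 * Real.pi * m * t) * √x := by
      rw [← Real.sqrt_mul (by positivity)]; congr 1; ring
    have e4 : √(Real.pi * (m * x)) = √(Real.pi * m) * √x := by
      rw [← Real.sqrt_mul (by positivity)]; congr 1; ring
    have hpi : Real.pi ≠ 0 := Real.pi_ne_zero
    have hst : √t ≠ 0 := (Real.sqrt_pos.2 ht).ne'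
    unfold U6.ph
    rw [e1, e2, e3, e4]
    field_simp
    ring
  rw [hk, hs, ← Complex.exp_add, ← Complex.exp_conj, ee]
  congr 1
  rw [map_add, map_mul, map_mul, Complex.conj_I, Complex.conj_ofReal, Complex.conj_ofReal, hph]
  have e0 : ∀ P c : ℝ, jG m P c 0 x = -((m : ℝ) / 2 * x) - P * x ^ (1 / 2 : ℝ) -
      c * x ^ (3 / 2 : ℝ) := by
    intro P c
    unfold jG
    simp only [ja, jl]
    simp
  rw [e0]
  push_cast
  ring

theorem inner : ∃ σ C : ℝ, 0 < σ ∧ σ ≤ 1 / 10 ∧ 0 < C ∧ ∀ (A m N₁ N : ℕ) (t : ℝ), 1 ≤ m → 1 ≤ A →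
    m ^ 2 ≤ 2 * A → A ≤ m * N₁ → m * N₁ ≤ 2 * A → N ≤ 2 * N₁ → (A : ℝ) ^ (5 / 2 : ℝ) ≤ t → t ≤ 4 * (A : ℝ) ^ 4 →
    ‖∑ n ∈ range N, (-1 : ℂ) ^ (m * (N₁ + n)) * cexp (I * (U6.ph ((m * (N₁ + n) : ℕ) : ℝ) t : ℝ))‖ ≤
      C * (N₁ : ℝ) ^ (1 - σ) := by
  obtain ⟨σ₁, C₁, hσ₁, hC₁, hPP⟩ := PP_six (1 / 8) (by norm_num) (by norm_num) (3 ^ 7) (by norm_num)
  set s : ℝ := min σ₁ (1 / 10) with hs
  have hs0 : 0 < s := lt_min hσ₁ (by norm_num)
  have hs1 : s ≤ σ₁ := min_le_left _ _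
  have hs2 : s ≤ 1 / 10 := min_le_right _ _
  refine ⟨s, 20001 + 2 * C₁, hs0, hs2, by positivity, ?_⟩
  intro A m N₁ N t hm hA hmA hAN hNA hN ht1 ht2
  have hAr : (1 : ℝ) ≤ A := by exact_mod_cast hA
  have hA0 : (0 : ℝ) < A := by linarith
  have hmr : (1 : ℝ) ≤ m := by exact_mod_cast hm
  have hm0 : (0 : ℝ) < m := by linarith
  have hN₁ : 1 ≤ N₁ := by
    rcases Nat.eq_zero_or_pos N₁ with h0 | h0
    · rw [h0, mul_zero] at hAN; omega
    · exact h0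
  have hxr : (1 : ℝ) ≤ N₁ := by exact_mod_cast hN₁
  have hx0 : (0 : ℝ) < N₁ := by linarith
  have hNr : (N : ℝ) ≤ 2 * N₁ := by exact_mod_cast hN
  have h1 : (m : ℝ) ^ 2 ≤ 2 * A := by exact_mod_cast hmA
  have h2 : (A : ℝ) ≤ m * N₁ := by exact_mod_cast hAN
  have h3 : (m : ℝ) * N₁ ≤ 2 * A := by exact_mod_cast hNA
  have ht : 0 < t := lt_of_lt_of_le (Real.rpow_pos_of_pos hA0 _) ht1
  rw [in_conj m N₁ N t ht]
  set P : ℝ := √(2 * Real.pi * m * t) / Real.pi with hPdef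
  set c : ℝ := √2 / (12 * Real.pi) * (Real.pi * m * √(Real.pi * m)) / √t with hcdef
  have hone : (1 : ℝ) ≤ (N₁ : ℝ) ^ (1 - s) := Real.one_le_rpow hxr (by linarith)
  have hpos : (0 : ℝ) < (N₁ : ℝ) ^ (1 - s) := by linarith
  have htriv := in_triv N (fun n : ℕ => jG m P c 0 ((N₁ : ℝ) + n))
  by_cases hsmall : (N₁ : ℝ) < 10000
  · calc ‖∑ n ∈ range N, ee (jG m P c 0 ((N₁ : ℝ) + n))‖ ≤ N := htriv
      _ ≤ 20000 * 1 := by linarith
      _ ≤ (20001 + 2 * C₁) * (N₁ : ℝ) ^ (1 - s) := by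
          apply mul_le_mul _ hone (by norm_num) (by positivity)
          linarith
  push Not at hsmall
  by_cases hNs : (N : ℝ) < (N₁ : ℝ) ^ (9 / 10 : ℝ)
  · calc ‖∑ n ∈ range N, ee (jG m P c 0 ((N₁ : ℝ) + n))‖ ≤ N := htriv
      _ ≤ (N₁ : ℝ) ^ (9 / 10 : ℝ) := hNs.le
      _ ≤ 1 * (N₁ : ℝ) ^ (1 - s) := by
          rw [one_mul]
          exact Real.rpow_le_rpow_of_exponent_le hxr (by linarith)
      _ ≤ (20001 + 2 * C₁) * (N₁ : ℝ) ^ (1 - s) := by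
          apply mul_le_mul_of_nonneg_right _ hpos.le
          linarith
  push Not at hNs
  have hN1r : (1 : ℝ) ≤ N := le_trans (Real.one_le_rpow hxr (by norm_num)) hNs
  have hN1 : 1 ≤ N := by exact_mod_cast hN1r
  have hN0 : (0 : ℝ) < N := by linarith
  have hpi := Real.pi_pos
  have hP0 : 0 < P := by
    rw [hPdef]
    apply div_pos (Real.sqrt_pos.2 (by positivity)) hpi
  have hc0 : 0 ≤ c := by rw [hcdef]; positivity
  have hAt : (A : ℝ) ≤ t := by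
    refine le_trans ?_ ht1
    calc (A : ℝ) = (A : ℝ) ^ (1 : ℝ) := (Real.rpow_one _).symm
      _ ≤ _ := Real.rpow_le_rpow_of_exponent_le hAr (by norm_num)
  have hcP : c = Real.pi * m / (12 * t) * P := by
    have e1 : √(2 * Real.pi * m * t) = √2 * √(Real.pi * m) * √t := by
      rw [← Real.sqrt_mul (by norm_num), ← Real.sqrt_mul (by positivity)]; congr 1; ring
    have e2 : √t * √t = t := Real.mul_self_sqrt ht.le
    have hst : √t ≠ 0 := (Real.sqrt_pos.2 ht).ne'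
    rw [hcdef, hPdef, e1, div_eq_iff hst]
    calc √2 / (12 * Real.pi) * (Real.pi * m * √(Real.pi * m)) =
        √2 / 12 * m * √(Real.pi * m) := by field_simp
      _ = √2 / 12 * m * √(Real.pi * m) * (√t * √t / t) := by
          rw [e2, div_self ht.ne', mul_one]
      _ = _ := by field_simp
  have hcx : c * (3 * (N₁ : ℝ)) ≤ 2 * P := by
    rw [hcP]
    have h4 : Real.pi * m / (12 * t) * (3 * N₁) ≤ 2 := by
      rw [div_mul_eq_mul_div, div_le_iff₀ (by positivity)]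
      have h5 : Real.pi * (m * N₁) ≤ 4 * (2 * t) := by
        apply mul_le_mul Real.pi_le_four (by linarith) (by positivity) (by norm_num)
      nlinarith
    calc Real.pi * m / (12 * t) * P * (3 * N₁) = (Real.pi * m / (12 * t) * (3 * N₁)) * P := by ring
      _ ≤ 2 * P := mul_le_mul_of_nonneg_right h4 hP0.le
  have hD := in_DD m P c hP0 hc0 N₁ N hN₁ hN hcx
  have hPsq : P ^ 2 = 2 * m * t / Real.pi := by
    rw [hPdef, div_pow, Real.sq_sqrt (by positivity)]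
    field_simp
  have h3pow : (3 * (N₁ : ℝ)) ^ (-(11 / 2) : ℝ) = (3 : ℝ) ^ (-(11 / 2) : ℝ) * (N₁ : ℝ) ^ (-(11 / 2) : ℝ) :=
    Real.mul_rpow (by norm_num) hx0.le
  have h36 : (3 : ℝ) ^ (-6 : ℝ) ≤ (3 : ℝ) ^ (-(11 / 2) : ℝ) :=
    Real.rpow_le_rpow_of_exponent_le (by norm_num) (by norm_num)
  have h36' : (3 : ℝ) ^ (-6 : ℝ) = 1 / 729 := by
    rw [Real.rpow_neg (by norm_num), show (6 : ℝ) = ((6 : ℕ) : ℝ) by norm_num, Real.rpow_natCast]
    norm_num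
  have hxp : 0 < (N₁ : ℝ) ^ (-(11 / 2) : ℝ) := Real.rpow_pos_of_pos hx0 _
  have hb := hPP N (fun n : ℕ => jG m P c 0 ((N₁ : ℝ) + n)) _ _ hN1 hD ?_ ?_ ?_ ?_
  · refine hb.trans ?_
    calc C₁ * (N : ℝ) ^ (1 - σ₁) ≤ C₁ * (N : ℝ) ^ (1 - s) := by
          apply mul_le_mul_of_nonneg_left _ hC₁.le
          exact Real.rpow_le_rpow_of_exponent_le hN1r (by linarith)
      _ ≤ C₁ * ((2 * N₁ : ℝ) ^ (1 - s)) := by
          apply mul_le_mul_of_nonneg_left _ hC₁.le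
          exact Real.rpow_le_rpow hN0.le hNr (by linarith)
      _ = C₁ * ((2 : ℝ) ^ (1 - s) * (N₁ : ℝ) ^ (1 - s)) := by
          rw [Real.mul_rpow (by norm_num) hx0.le]
      _ ≤ C₁ * (2 * (N₁ : ℝ) ^ (1 - s)) := by
          apply mul_le_mul_of_nonneg_left _ hC₁.le
          apply mul_le_mul_of_nonneg_right _ hpos.le
          calc (2 : ℝ) ^ (1 - s) ≤ (2 : ℝ) ^ (1 : ℝ) :=
                Real.rpow_le_rpow_of_exponent_le (by norm_num) (by linarith)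
            _ = 2 := Real.rpow_one 2
      _ = (2 * C₁) * (N₁ : ℝ) ^ (1 - s) := by ring
      _ ≤ (20001 + 2 * C₁) * (N₁ : ℝ) ^ (1 - s) := by
          apply mul_le_mul_of_nonneg_right _ hpos.le
          linarith
  · rw [h3pow]; positivity
  · -- hi ≤ A lo
    rw [h3pow]
    have h37 : (3 : ℝ) ≤ 3 ^ 7 * (3 : ℝ) ^ (-(11 / 2) : ℝ) := by
      rw [h36'] at h36
      norm_num at h36 ⊢
      linarith
    have h5 : 0 < 315 / 64 * P * (N₁ : ℝ) ^ (-(11 / 2) : ℝ) := by positivity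
    nlinarith
  · -- lower condition
    -- P ≥ N₁^(5/4) / 8
    have hN2A : (N₁ : ℝ) ≤ 2 * A := by nlinarith
    have hPlow : (N₁ : ℝ) ^ (5 / 4 : ℝ) / 8 ≤ P := by
      have h5 : ((N₁ : ℝ) ^ (5 / 4 : ℝ) / 8) ^ 2 ≤ P ^ 2 := by
        rw [hPsq, div_pow, ← Real.rpow_natCast, ← Real.rpow_mul hx0.le]
        have e1 : (N₁ : ℝ) ^ ((5 / 4 : ℝ) * ((2 : ℕ) : ℝ)) = (N₁ : ℝ) ^ (5 / 2 : ℝ) := by
          congr 1; push_cast; norm_num
        rw [e1]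
        have e2 : (N₁ : ℝ) ^ (5 / 2 : ℝ) ≤ (2 * A : ℝ) ^ (5 / 2 : ℝ) :=
          Real.rpow_le_rpow hx0.le hN2A (by norm_num)
        have e3 : (2 * A : ℝ) ^ (5 / 2 : ℝ) = (2 : ℝ) ^ (5 / 2 : ℝ) * (A : ℝ) ^ (5 / 2 : ℝ) :=
          Real.mul_rpow (by norm_num) hA0.le
        have e4 : (2 : ℝ) ^ (5 / 2 : ℝ) ≤ 8 := by
          calc (2 : ℝ) ^ (5 / 2 : ℝ) ≤ (2 : ℝ) ^ (3 : ℝ) :=
                Real.rpow_le_rpow_of_exponent_le (by norm_num) (by norm_num)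
            _ = 8 := by
                rw [show (3 : ℝ) = ((3 : ℕ) : ℝ) by norm_num, Real.rpow_natCast]; norm_num
        have e5 : (N₁ : ℝ) ^ (5 / 2 : ℝ) ≤ 8 * t := by
          calc (N₁ : ℝ) ^ (5 / 2 : ℝ) ≤ (2 : ℝ) ^ (5 / 2 : ℝ) * (A : ℝ) ^ (5 / 2 : ℝ) := e2.trans_eq e3
            _ ≤ 8 * t := mul_le_mul e4 ht1 (Real.rpow_nonneg hA0.le _) (by norm_num)
        have e6 : t ≤ m * t := by nlinarith
        have e7 : (m : ℝ) * t / 2 ≤ 2 * m * t / Real.pi := by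
          rw [div_le_div_iff₀ (by norm_num) hpi]
          have : (m : ℝ) * t * Real.pi ≤ m * t * 4 :=
            mul_le_mul_of_nonneg_left Real.pi_le_four (by positivity)
          linarith
        norm_num
        linarith
      exact (abs_le_of_sq_le_sq' h5 hP0.le).2
    calc (N : ℝ) ^ (-((6 : ℕ) : ℝ) + 1 / 8)
        ≤ ((N₁ : ℝ) ^ (9 / 10 : ℝ)) ^ (-((6 : ℕ) : ℝ) + 1 / 8) :=
          Real.rpow_le_rpow_of_nonpos (by positivity) hNs (by push_cast; norm_num)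
      _ = (N₁ : ℝ) ^ ((9 / 10 : ℝ) * (-((6 : ℕ) : ℝ) + 1 / 8)) := by
          rw [← Real.rpow_mul hx0.le]
      _ ≤ (N₁ : ℝ) ^ (-(21 / 4) : ℝ) :=
          Real.rpow_le_rpow_of_exponent_le hxr (by push_cast; norm_num)
      _ = (N₁ : ℝ)⁻¹ * ((N₁ : ℝ) ^ (5 / 4 : ℝ) * (N₁ : ℝ) ^ (-(11 / 2) : ℝ)) := by
          rw [← Real.rpow_neg_one, ← Real.rpow_add hx0, ← Real.rpow_add hx0]; norm_num
      _ ≤ (1 / 10000) * ((N₁ : ℝ) ^ (5 / 4 : ℝ) * (N₁ : ℝ) ^ (-(11 / 2) : ℝ)) := by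
          apply mul_le_mul_of_nonneg_right _ (by positivity)
          rw [inv_eq_one_div]
          exact one_div_le_one_div_of_le (by norm_num) hsmall
      _ ≤ (1 / 10000) * ((8 * P) * (N₁ : ℝ) ^ (-(11 / 2) : ℝ)) := by
          apply mul_le_mul_of_nonneg_left _ (by norm_num)
          apply mul_le_mul_of_nonneg_right _ hxp.le
          linarith
      _ ≤ 315 / 64 * P * (1 / 729 * (N₁ : ℝ) ^ (-(11 / 2) : ℝ)) := by
          have : 0 < P * (N₁ : ℝ) ^ (-(11 / 2) : ℝ) := by positivity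
          nlinarith
      _ ≤ 315 / 64 * P * (3 * (N₁ : ℝ)) ^ (-(11 / 2) : ℝ) := by
          rw [h3pow]
          apply mul_le_mul_of_nonneg_left _ (by positivity)
          apply mul_le_mul_of_nonneg_right _ hxp.le
          rw [← h36']; exact h36
  · -- upper condition
    have hPup : P ≤ 16 * (N₁ : ℝ) ^ (9 / 2 : ℝ) := by
      have h5 : P ^ 2 ≤ (16 * (N₁ : ℝ) ^ (9 / 2 : ℝ)) ^ 2 := by
        rw [hPsq, mul_pow, ← Real.rpow_natCast ((N₁ : ℝ) ^ (9 / 2 : ℝ)), ← Real.rpow_mul hx0.le]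
        have e1 : (N₁ : ℝ) ^ ((9 / 2 : ℝ) * ((2 : ℕ) : ℝ)) = (N₁ : ℝ) ^ 9 := by
          rw [← Real.rpow_natCast]; congr 1; push_cast; norm_num
        rw [e1]
        -- A ≤ 2 N₁²
        have e2 : (A : ℝ) ≤ 2 * (N₁ : ℝ) ^ 2 := by
          have h6 : (A : ℝ) * A ≤ (m * N₁) * (m * N₁) := mul_le_mul h2 h2 hA0.le (by positivity)
          have h7 : (m * N₁ : ℝ) * (m * N₁) ≤ 2 * A * (N₁ : ℝ) ^ 2 := by
            calc (m * N₁ : ℝ) * (m * N₁) = (m : ℝ) ^ 2 * (N₁ : ℝ) ^ 2 := by ring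
              _ ≤ 2 * A * (N₁ : ℝ) ^ 2 := mul_le_mul_of_nonneg_right h1 (by positivity)
          have h8 : (A : ℝ) * A ≤ A * (2 * (N₁ : ℝ) ^ 2) := by linarith
          exact le_of_mul_le_mul_left h8 hA0
        have e3 : (A : ℝ) ^ 5 ≤ 32 * (N₁ : ℝ) ^ 10 := by
          calc (A : ℝ) ^ 5 ≤ (2 * (N₁ : ℝ) ^ 2) ^ 5 := pow_le_pow_left₀ hA0.le e2 5
            _ = 32 * (N₁ : ℝ) ^ 10 := by ring
        have e4 : (m : ℝ) * t * N₁ ≤ 8 * (A : ℝ) ^ 5 := by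
          calc (m : ℝ) * t * N₁ = (m * N₁) * t := by ring
            _ ≤ (2 * A) * (4 * (A : ℝ) ^ 4) := mul_le_mul h3 ht2 ht.le (by positivity)
            _ = 8 * (A : ℝ) ^ 5 := by ring
        have e5 : (m : ℝ) * t ≤ 256 * (N₁ : ℝ) ^ 9 := by
          have : (m : ℝ) * t * N₁ ≤ 256 * (N₁ : ℝ) ^ 9 * N₁ := by
            calc (m : ℝ) * t * N₁ ≤ 8 * (32 * (N₁ : ℝ) ^ 10) := by linarith
              _ = 256 * (N₁ : ℝ) ^ 9 * N₁ := by ring
          exact le_of_mul_le_mul_right this hx0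
        have e6 : 2 * (m : ℝ) * t / Real.pi ≤ m * t := by
          rw [div_le_iff₀ hpi]
          have : (m : ℝ) * t * 2 ≤ m * t * Real.pi :=
            mul_le_mul_of_nonneg_left Real.two_le_pi (by positivity)
          linarith
        norm_num
        linarith
      exact (abs_le_of_sq_le_sq' h5 (by positivity)).2
    have hx34 : (250 : ℝ) ≤ (N₁ : ℝ) ^ (3 / 4 : ℝ) := by
      have e1 : ((10 : ℝ) ^ (4 : ℝ)) ^ (3 / 4 : ℝ) = 1000 := by
        rw [← Real.rpow_mul (by norm_num), show (4 : ℝ) * (3 / 4) = ((3 : ℕ) : ℝ) by norm_num,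
          Real.rpow_natCast]
        norm_num
      have e2 : (10 : ℝ) ^ (4 : ℝ) = 10000 := by
        rw [show (4 : ℝ) = ((4 : ℕ) : ℝ) by norm_num, Real.rpow_natCast]; norm_num
      calc (250 : ℝ) ≤ 1000 := by norm_num
        _ = ((10 : ℝ) ^ (4 : ℝ)) ^ (3 / 4 : ℝ) := e1.symm
        _ ≤ (N₁ : ℝ) ^ (3 / 4 : ℝ) := by
            rw [e2]; exact Real.rpow_le_rpow (by norm_num) hsmall (by norm_num)
    calc 945 / 64 * P * (N₁ : ℝ) ^ (-(11 / 2) : ℝ)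
        ≤ 945 / 64 * (16 * (N₁ : ℝ) ^ (9 / 2 : ℝ)) * (N₁ : ℝ) ^ (-(11 / 2) : ℝ) := by
          apply mul_le_mul_of_nonneg_right _ hxp.le
          linarith
      _ = 945 / 4 * (N₁ : ℝ) ^ (-1 : ℝ) := by
          rw [show (-1 : ℝ) = 9 / 2 + -(11 / 2) by norm_num, Real.rpow_add hx0]; ring
      _ ≤ 250 * (N₁ : ℝ) ^ (-1 : ℝ) := by
          apply mul_le_mul_of_nonneg_right (by norm_num) (Real.rpow_nonneg hx0.le _)
      _ ≤ (N₁ : ℝ) ^ (3 / 4 : ℝ) * (N₁ : ℝ) ^ (-1 : ℝ) :=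
          mul_le_mul_of_nonneg_right hx34 (Real.rpow_nonneg hx0.le _)
      _ = ((N₁ : ℝ) ^ 2) ^ (-(1 / 8) : ℝ) := by
          rw [← Real.rpow_add hx0, ← Real.rpow_natCast, ← Real.rpow_mul hx0.le]
          congr 1; push_cast; norm_num
      _ ≤ (N : ℝ) ^ (-(1 / 8) : ℝ) := by
          apply Real.rpow_le_rpow_of_nonpos hN0 _ (by norm_num)
          nlinarith

end T12
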