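import Pool.Agent.Lib.MP_39df77_nt.T12.Win

/-!
# Row T12-F: the sharp sum from the smooth sum
-/

set_option autoImplicit false

namespace T12

open Finset Complex MeasureTheory Set Pool.Agent.Lib.MP_4ae430_nt

/-! ROW T12-F -/
theorem sharp_of_smooth : ∃ C : ℝ, 0 < C ∧ ∀ (α : ℝ) (K N : ℕ), 1 ≤ K → N ≤ 3 * K →
    ‖∑ n ∈ range N, ee (α * √((K : ℝ) + n))‖ ≤
      ‖∑' k : ℕ, (W (√(K : ℝ)) (√((K : ℝ) + N)) (√((k : ℝ) + 1)) : ℂ) * ee (α * √((k : ℝ) + 1))‖ +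
        C * √(K : ℝ) := by
  obtain ⟨C, hC, hG⟩ := sum_gauss
  refine ⟨5 * C, by positivity, fun α K N hK hN => ?_⟩
  have hK1 : (1 : ℝ) ≤ K := by exact_mod_cast hK
  have hN0 : (0 : ℝ) ≤ N := Nat.cast_nonneg N
  have hN3 : (N : ℝ) ≤ 3 * K := by exact_mod_cast hN
  obtain ⟨s1, b1⟩ := hG (√(K : ℝ)) (Real.sqrt_nonneg _)
  obtain ⟨s2, b2⟩ := hG (√((K : ℝ) + N)) (Real.sqrt_nonneg _)
  have h12 : √(K : ℝ) ≤ √((K : ℝ) + N) := Real.sqrt_le_sqrt (by linarith)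
  have hy1 : 1 ≤ √(K : ℝ) := by
    rw [Real.one_le_sqrt]
    exact hK1
  have hy2 : √((K : ℝ) + N) ≤ 2 * √(K : ℝ) := by
    rw [Real.sqrt_le_left (by positivity), mul_pow, Real.sq_sqrt (by positivity)]
    linarith
  set y1 := √(K : ℝ) with hy1d
  set y2 := √((K : ℝ) + N) with hy2d
  -- the indicator
  let i : ℕ → ℝ := fun k => if y1 ≤ √((k : ℝ) + 1) ∧ √((k : ℝ) + 1) < y2 then 1 else 0
  have hiff : ∀ k : ℕ, (y1 ≤ √((k : ℝ) + 1) ∧ √((k : ℝ) + 1) < y2) ↔ (K ≤ k + 1 ∧ k + 1 < K + N) := by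
    intro k
    rw [hy1d, hy2d, Real.sqrt_le_sqrt_iff (by positivity), Real.sqrt_lt_sqrt_iff (by positivity)]
    exact_mod_cast Iff.rfl
  have hd : ∀ k : ℕ, ‖((W y1 y2 (√((k : ℝ) + 1)) - i k : ℝ) : ℂ) * ee (α * √((k : ℝ) + 1))‖ ≤
      Real.exp (-(Real.pi * (√((k : ℝ) + 1) - y1) ^ 2)) +
        Real.exp (-(Real.pi * (√((k : ℝ) + 1) - y2) ^ 2)) := by
    intro k
    rw [norm_mul, norm_ee, mul_one, Complex.norm_real, Real.norm_eq_abs]
    exact W_err h12 _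
  have hds : Summable (fun k : ℕ => ((W y1 y2 (√((k : ℝ) + 1)) - i k : ℝ) : ℂ) *
      ee (α * √((k : ℝ) + 1))) := Summable.of_norm_bounded (s1.add s2) hd
  have hdb : ‖∑' k : ℕ, ((W y1 y2 (√((k : ℝ) + 1)) - i k : ℝ) : ℂ) * ee (α * √((k : ℝ) + 1))‖ ≤
      5 * C * y1 := by
    have h1 := tsum_of_norm_bounded (s1.add s2).hasSum hd
    rw [s1.tsum_add s2] at h1
    nlinarith
  have hi : HasSum (fun k : ℕ => (i k : ℂ) * ee (α * √((k : ℝ) + 1)))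
      (∑ n ∈ range N, ee (α * √((K : ℝ) + n))) := by
    have h1 : HasSum (fun k : ℕ => (i k : ℂ) * ee (α * √((k : ℝ) + 1)))
        (∑ k ∈ Finset.Ico (K - 1) (K - 1 + N), (i k : ℂ) * ee (α * √((k : ℝ) + 1))) := by
      apply hasSum_sum_of_ne_finset_zero
      intro k hk
      have h2 : ¬ (y1 ≤ √((k : ℝ) + 1) ∧ √((k : ℝ) + 1) < y2) := by
        rw [hiff]
        intro h
        apply hk
        rw [Finset.mem_Ico]
        omega
      simp only [i, if_neg h2, Complex.ofReal_zero, zero_mul]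
    convert h1 using 1
    rw [Finset.sum_Ico_eq_sum_range, Nat.add_sub_cancel_left]
    apply Finset.sum_congr rfl
    intro n hn
    have hn' : n < N := Finset.mem_range.1 hn
    have h2 : y1 ≤ √(((K - 1 + n : ℕ) : ℝ) + 1) ∧ √(((K - 1 + n : ℕ) : ℝ) + 1) < y2 := by
      rw [hiff]
      omega
    have h3 : ((K - 1 + n : ℕ) : ℝ) + 1 = (K : ℝ) + n := by
      have : K - 1 + n + 1 = K + n := by omega
      exact_mod_cast this
    simp only [i, if_pos h2, Complex.ofReal_one, one_mul]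
    rw [h3]
  have hw : ∑' k : ℕ, (W y1 y2 (√((k : ℝ) + 1)) : ℂ) * ee (α * √((k : ℝ) + 1)) =
      (∑' k : ℕ, ((W y1 y2 (√((k : ℝ) + 1)) - i k : ℝ) : ℂ) * ee (α * √((k : ℝ) + 1))) +
        ∑ n ∈ range N, ee (α * √((K : ℝ) + n)) := by
    rw [← hi.tsum_eq, ← hds.tsum_add hi.summable]
    apply tsum_congr
    intro k
    push_cast
    ring
  have hfin : ∑ n ∈ range N, ee (α * √((K : ℝ) + n)) =
      (∑' k : ℕ, (W y1 y2 (√((k : ℝ) + 1)) : ℂ) * ee (α * √((k : ℝ) + 1))) -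
      (∑' k : ℕ, ((W y1 y2 (√((k : ℝ) + 1)) - i k : ℝ) : ℂ) * ee (α * √((k : ℝ) + 1))) := by
    rw [hw]
    ring
  rw [hfin]
  exact (norm_sub_le _ _).trans (add_le_add le_rfl hdb)

end T12
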