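import Pool.Agent.Lib.MP_39df77_nt.T12.PoissonFn
import Pool.Agent.Lib.MP_39df77_nt.T12.Gauss
import Pool.Agent.Lib.MP_39df77_nt.T12.GaussNorm

/-! Row T12-C2: Poisson summation. -/

set_option autoImplicit false

namespace T12

open Finset Complex MeasureTheory Set Pool.Agent.Lib.MP_4ae430_nt
open scoped FourierTransform

private theorem C2_pow {ξ : ℝ} (h : ξ ≠ 0) :
    (1 + 4 * ξ ^ 2) ^ (-(3 / 4) : ℝ) ≤ |ξ| ^ (-(3 / 2) : ℝ) := by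
  have h0 : 0 < |ξ| := abs_pos.mpr h
  have h1 : |ξ| ^ (-(3 / 2) : ℝ) = (|ξ| ^ 2) ^ (-(3 / 4) : ℝ) := by
    rw [← Real.rpow_natCast, ← Real.rpow_mul h0.le]
    congr 1
    norm_num
  rw [h1, sq_abs]
  apply Real.rpow_le_rpow_of_nonpos
  · positivity
  · nlinarith [sq_nonneg ξ]
  · norm_num

private theorem C2_bound {α y1 y2 : ℝ} (h1 : 1 ≤ y1) (h2 : y1 ≤ y2) (ξ : ℝ) :
    ‖∫ v in y1..y2, gh α v ξ‖ ≤
      2 * √(y2 ^ 2 + α ^ 2) * (y2 - y1) * (1 + 4 * ξ ^ 2) ^ (-(3 / 4) : ℝ) := by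
  have key : ∀ v ∈ Set.uIoc y1 y2, ‖gh α v ξ‖ ≤
      2 * √(y2 ^ 2 + α ^ 2) * (1 + 4 * ξ ^ 2) ^ (-(3 / 4) : ℝ) := by
    intro v hv
    rw [Set.uIoc_of_le h2] at hv
    rw [gh_norm]
    have hp : (0 : ℝ) ≤ (1 + 4 * ξ ^ 2) ^ (-(3 / 4) : ℝ) := by positivity
    have he : Real.exp (-(Real.pi * (2 * ξ * v - α) ^ 2 / (1 + 4 * ξ ^ 2))) ≤ 1 := by
      apply Real.exp_le_one_iff.mpr
      have : 0 ≤ Real.pi * (2 * ξ * v - α) ^ 2 / (1 + 4 * ξ ^ 2) := by positivity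
      linarith
    have hs : √(v ^ 2 + α ^ 2) ≤ √(y2 ^ 2 + α ^ 2) := by
      apply Real.sqrt_le_sqrt
      have : v ^ 2 ≤ y2 ^ 2 := by
        apply pow_le_pow_left₀
        · linarith [hv.1]
        · exact hv.2
      linarith
    calc 2 * √(v ^ 2 + α ^ 2) * (1 + 4 * ξ ^ 2) ^ (-(3 / 4) : ℝ) *
          Real.exp (-(Real.pi * (2 * ξ * v - α) ^ 2 / (1 + 4 * ξ ^ 2)))
        ≤ 2 * √(v ^ 2 + α ^ 2) * (1 + 4 * ξ ^ 2) ^ (-(3 / 4) : ℝ) * 1 := by gcongr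
      _ ≤ 2 * √(y2 ^ 2 + α ^ 2) * (1 + 4 * ξ ^ 2) ^ (-(3 / 4) : ℝ) := by
        rw [mul_one]
        gcongr
  have := intervalIntegral.norm_integral_le_of_norm_le_const key
  rw [abs_of_nonneg (by linarith)] at this
  calc _ ≤ _ := this
    _ = _ := by ring

private theorem C2_bigO {α y1 y2 : ℝ} (h1 : 1 ≤ y1) (h2 : y1 ≤ y2) :
    (𝓕 (gp α y1 y2)) =O[Filter.cocompact ℝ] (fun x : ℝ => |x| ^ (-(3 / 2) : ℝ)) := by
  apply Asymptotics.IsBigO.of_bound (2 * √(y2 ^ 2 + α ^ 2) * (y2 - y1))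
  have h0 : ({0}ᶜ : Set ℝ) ∈ Filter.cocompact ℝ := (isCompact_singleton).compl_mem_cocompact
  filter_upwards [h0] with ξ hξ
  have hξ' : ξ ≠ 0 := hξ
  rw [gp_fourier (fun α v ξ => (gauss α v ξ).2) h2]
  have hn : ‖|ξ| ^ (-(3 / 2) : ℝ)‖ = |ξ| ^ (-(3 / 2) : ℝ) := by
    rw [Real.norm_of_nonneg]
    positivity
  rw [hn]
  refine (C2_bound h1 h2 ξ).trans ?_
  have hnn : 0 ≤ 2 * √(y2 ^ 2 + α ^ 2) * (y2 - y1) :=
    mul_nonneg (by positivity) (by linarith)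
  exact mul_le_mul_of_nonneg_left (C2_pow hξ') hnn

private theorem C2_nat {α y1 y2 : ℝ} :
    ∑' n : ℤ, gp α y1 y2 (n : ℝ) =
      ∑' k : ℕ, ((W y1 y2 (√((k : ℝ) + 1)) : ℂ) * ee (α * √((k : ℝ) + 1)) -
        (W y1 y2 (-√((k : ℝ) + 1)) : ℂ) * ee (-(α * √((k : ℝ) + 1)))) := by
  have hinj : Function.Injective (fun k : ℕ => (k : ℤ) + 1) := by
    intro a b h
    simpa using h
  have hsupp : Function.support (fun n : ℤ => gp α y1 y2 (n : ℝ)) ⊆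
      Set.range (fun k : ℕ => (k : ℤ) + 1) := by
    intro n hn
    rw [Function.mem_support] at hn
    by_contra hc
    apply hn
    have hn0 : n ≤ 0 := by
      by_contra h
      push Not at h
      apply hc
      refine ⟨(n - 1).toNat, ?_⟩
      simp only
      omega
    rcases hn0.lt_or_eq with h | h
    · have h' : ¬ (0 : ℝ) ≤ (n : ℝ) := by
        push Not
        exact_mod_cast h
      rw [gp, if_neg h']
    · subst h
      simp [gp]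
  rw [← hinj.tsum_eq hsupp]
  congr 1
  funext k
  have hk : (0 : ℝ) ≤ (((k : ℤ) + 1 : ℤ) : ℝ) := by
    push_cast
    positivity
  simp only [gp, if_pos hk]
  push_cast
  rfl

theorem poisson {α y1 y2 : ℝ} (hα : 0 < α) (h1 : 1 ≤ y1) (h2 : y1 ≤ y2) :
    HasSum (fun m : ℤ => ∫ v in y1..y2, gh α v m)
      (∑' k : ℕ, ((W y1 y2 (√((k : ℝ) + 1)) : ℂ) * ee (α * √((k : ℝ) + 1)) -
        (W y1 y2 (-√((k : ℝ) + 1)) : ℂ) * ee (-(α * √((k : ℝ) + 1))))) := by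
  have hF : ∀ ξ : ℝ, 𝓕 (gp α y1 y2) ξ = ∫ v in y1..y2, gh α v ξ :=
    fun ξ => gp_fourier (fun α v ξ => (gauss α v ξ).2) h2 α ξ
  have hb : (1 : ℝ) < 3 / 2 := by norm_num
  have hO := C2_bigO (α := α) h1 h2
  have hsum : Summable fun n : ℤ => 𝓕 (gp α y1 y2) (n : ℝ) :=
    summable_of_isBigO (Real.summable_abs_int_rpow hb)
      (hO.comp_tendsto Int.tendsto_coe_cofinite)
  have hP := Real.tsum_eq_tsum_fourier_of_rpow_decay (gp_cont α y1 y2) hb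
    (gp_decay α y1 y2 (3 / 2)) hO 0
  have hP' : ∑' n : ℤ, gp α y1 y2 (n : ℝ) = ∑' n : ℤ, 𝓕 (gp α y1 y2) (n : ℝ) := by
    simpa using hP
  rw [← C2_nat, hP']
  have := hsum.hasSum
  simpa only [hF] using this

end T12
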