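import Pool.Agent.Lib.MP_39df77_nt.T12.Defs
import Pool.Agent.Lib.MP_39df77_nt.T12.GaussNorm
import Pool.Agent.Lib.MP_39df77_nt.T12.Poisson
import Pool.Agent.Lib.MP_39df77_nt.T12.Amp

/-! # Row T12-E: the smoothed sum, after Poisson summation -/

set_option autoImplicit false

namespace T12

open Finset Complex MeasureTheory Set Pool.Agent.Lib.MP_4ae430_nt

private lemma e_abel (a w : ℕ → ℂ) (N : ℕ) (U : ℝ) (hU : ∀ n ≤ N, ‖∑ i ∈ range n, a i‖ ≤ U) :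
    ‖∑ n ∈ range N, a n * w n‖ ≤
      U * (‖w (N - 1)‖ + ∑ n ∈ range (N - 1), ‖w (n + 1) - w n‖) := by
  have h1 : ∑ n ∈ range N, a n * w n = ∑ n ∈ range N, w n • a n := by
    refine Finset.sum_congr rfl fun n _ => ?_
    rw [smul_eq_mul, mul_comm]
  rw [h1, Finset.sum_range_by_parts]
  refine (norm_sub_le _ _).trans ?_
  rw [mul_add]
  refine add_le_add ?_ ?_
  · rw [norm_smul, mul_comm]
    exact mul_le_mul_of_nonneg_right (hU N le_rfl) (norm_nonneg _)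
  · refine (norm_sum_le _ _).trans ?_
    rw [Finset.mul_sum]
    refine Finset.sum_le_sum fun n hn => ?_
    rw [norm_smul, mul_comm]
    refine mul_le_mul_of_nonneg_right (hU (n + 1) ?_) (norm_nonneg _)
    have := Finset.mem_range.mp hn
    omega

private lemma e_pow_exp (s c : ℝ) (hs : 0 < s) (hc : 0 < c) : ∃ C : ℝ, 0 < C ∧ ∀ y : ℝ, 1 ≤ y →
    y ^ s * Real.exp (-(c * y ^ 2)) ≤ C := by
  refine ⟨(s / c) ^ s, Real.rpow_pos_of_pos (by positivity) _, ?_⟩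
  intro y hy
  have hy0 : 0 < y := by linarith
  have h1 : y ≤ s / c * Real.exp (c * y / s) := by
    have h2 : c * y / s ≤ Real.exp (c * y / s) := by
      have := Real.add_one_le_exp (c * y / s)
      linarith
    calc y = s / c * (c * y / s) := by field_simp
      _ ≤ s / c * Real.exp (c * y / s) := by
          exact mul_le_mul_of_nonneg_left h2 (by positivity)
  have h3 : y ^ s ≤ (s / c) ^ s * Real.exp (c * y) := by
    calc y ^ s ≤ (s / c * Real.exp (c * y / s)) ^ s := by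
          exact Real.rpow_le_rpow hy0.le h1 hs.le
      _ = (s / c) ^ s * Real.exp (c * y) := by
          rw [Real.mul_rpow (by positivity) (Real.exp_pos _).le, ← Real.exp_mul]
          congr 2
          field_simp
  have h4 : Real.exp (-(c * y ^ 2)) ≤ Real.exp (-(c * y)) := by
    apply Real.exp_le_exp.mpr
    have : y ≤ y ^ 2 := by nlinarith
    nlinarith
  calc y ^ s * Real.exp (-(c * y ^ 2)) ≤ ((s / c) ^ s * Real.exp (c * y)) * Real.exp (-(c * y)) := by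
        exact mul_le_mul h3 h4 (Real.exp_pos _).le (by positivity)
    _ = (s / c) ^ s := by
        rw [mul_assoc, ← Real.exp_add]
        simp

private lemma e_summ : Summable (fun m : ℤ => (1 + 4 * (m : ℝ) ^ 2) ^ (-(3 / 4) : ℝ)) := by
  have hN : Summable (fun n : ℕ => (1 + 4 * ((n : ℕ) : ℝ) ^ 2) ^ (-(3 / 4) : ℝ)) := by
    have h1 : Summable (fun n : ℕ => (((n + 1 : ℕ) : ℝ)) ^ (-(3 / 2) : ℝ)) :=
      (summable_nat_add_iff 1).mpr (Real.summable_nat_rpow.mpr (by norm_num))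
    refine Summable.of_nonneg_of_le (fun n => by positivity) (fun n => ?_) h1
    have h2 : (((n + 1 : ℕ) : ℝ)) ^ 2 ≤ 1 + 4 * (n : ℝ) ^ 2 := by
      push_cast
      rcases Nat.eq_zero_or_pos n with hn | hn
      · subst hn
        norm_num
      · have : (1 : ℝ) ≤ n := by exact_mod_cast hn
        nlinarith
    have h3 : (((n + 1 : ℕ) : ℝ)) ^ (-(3 / 2) : ℝ) = ((((n + 1 : ℕ) : ℝ)) ^ 2) ^ (-(3 / 4) : ℝ) := by
      rw [← Real.rpow_natCast, ← Real.rpow_mul (by positivity)]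
      norm_num
    rw [h3]
    exact Real.rpow_le_rpow_of_nonpos (by positivity) h2 (by norm_num)
  refine Summable.of_nat_of_neg ?_ ?_
  · simpa using hN
  · simpa using hN

private lemma e_exp_geo (k : ℕ) : Real.exp (-((k : ℝ) + 1)) ≤ (1 / 2) ^ k * (1 / 2) := by
  have h1 : Real.exp (-1) ≤ 1 / 2 := by
    rw [Real.exp_neg]
    have := Real.add_one_le_exp (1 : ℝ)
    rw [inv_eq_one_div]
    exact one_div_le_one_div_of_le (by norm_num) (by linarith)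
  have h2 : Real.exp (-((k : ℝ) + 1)) = Real.exp (-1) ^ (k + 1) := by
    rw [← Real.exp_nat_mul]
    congr 1
    push_cast
    ring
  rw [h2, ← pow_succ]
  exact pow_le_pow_left₀ (Real.exp_pos _).le h1 _

private lemma e_W_neg {y1 y2 : ℝ} (h1 : 1 ≤ y1) (h2 : y1 ≤ y2) (h3 : y2 ≤ 2 * y1) (k : ℕ) :
    |W y1 y2 (-√((k : ℝ) + 1))| ≤ (1 / 2) ^ k * (1 / 2) := by
  have hk : (0 : ℝ) ≤ (k : ℝ) + 1 := by positivity
  set y := √((k : ℝ) + 1) with hy
  have hy0 : 0 ≤ y := Real.sqrt_nonneg _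
  have hy2 : y ^ 2 = (k : ℝ) + 1 := Real.sq_sqrt hk
  have hpi : 1 ≤ Real.pi := by linarith [Real.pi_gt_three]
  have hb : ‖∫ v in y1..y2, Real.exp (-(Real.pi * (-y - v) ^ 2))‖ ≤
      (Real.exp (-((k : ℝ) + 1)) * Real.exp (-(y1 ^ 2))) * |y2 - y1| := by
    refine intervalIntegral.norm_integral_le_of_norm_le_const fun v hv => ?_
    rw [Set.uIoc_of_le h2] at hv
    have hv1 : y1 ≤ v := hv.1.le
    rw [Real.norm_eq_abs, abs_of_pos (Real.exp_pos _), ← Real.exp_add]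
    apply Real.exp_le_exp.mpr
    have h5 : y ^ 2 + y1 ^ 2 ≤ (-y - v) ^ 2 := by nlinarith
    have h6 : (0 : ℝ) ≤ (-y - v) ^ 2 := sq_nonneg _
    nlinarith
  have hc : Real.exp (-(y1 ^ 2)) * |y2 - y1| ≤ 1 := by
    rw [abs_of_nonneg (by linarith)]
    have h7 : y1 ≤ Real.exp (y1 ^ 2) := by
      have h8 := Real.add_one_le_exp (y1 ^ 2)
      nlinarith
    calc Real.exp (-(y1 ^ 2)) * (y2 - y1) ≤ Real.exp (-(y1 ^ 2)) * Real.exp (y1 ^ 2) := by
          refine mul_le_mul_of_nonneg_left ?_ (Real.exp_pos _).le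
          linarith
      _ = 1 := by rw [← Real.exp_add]; simp
  calc |W y1 y2 (-y)| = ‖∫ v in y1..y2, Real.exp (-(Real.pi * (-y - v) ^ 2))‖ := by
        rw [W, Real.norm_eq_abs]
    _ ≤ (Real.exp (-((k : ℝ) + 1)) * Real.exp (-(y1 ^ 2))) * |y2 - y1| := hb
    _ = Real.exp (-((k : ℝ) + 1)) * (Real.exp (-(y1 ^ 2)) * |y2 - y1|) := by ring
    _ ≤ Real.exp (-((k : ℝ) + 1)) * 1 := mul_le_mul_of_nonneg_left hc (Real.exp_pos _).le
    _ = Real.exp (-((k : ℝ) + 1)) := mul_one _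
    _ ≤ (1 / 2) ^ k * (1 / 2) := e_exp_geo k

private lemma e_W_pos {y1 y2 : ℝ} (h1 : 1 ≤ y1) (h2 : y1 ≤ y2) (k : ℕ) :
    |W y1 y2 (√((k : ℝ) + 1))| ≤ (Real.exp (Real.pi * y2 ^ 2) * |y2 - y1|) * ((1 / 2) ^ k * (1 / 2)) := by
  have hk : (0 : ℝ) ≤ (k : ℝ) + 1 := by positivity
  set y := √((k : ℝ) + 1) with hy
  have hy0 : 0 ≤ y := Real.sqrt_nonneg _
  have hy2 : y ^ 2 = (k : ℝ) + 1 := Real.sq_sqrt hk
  have hpi : 2 ≤ Real.pi := by linarith [Real.pi_gt_three]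
  have hb : ‖∫ v in y1..y2, Real.exp (-(Real.pi * (y - v) ^ 2))‖ ≤
      (Real.exp (-((k : ℝ) + 1)) * Real.exp (Real.pi * y2 ^ 2)) * |y2 - y1| := by
    refine intervalIntegral.norm_integral_le_of_norm_le_const fun v hv => ?_
    rw [Set.uIoc_of_le h2] at hv
    have hv1 : y1 ≤ v := hv.1.le
    have hv2 : v ≤ y2 := hv.2
    rw [Real.norm_eq_abs, abs_of_pos (Real.exp_pos _), ← Real.exp_add]
    apply Real.exp_le_exp.mpr
    have h5 : y ^ 2 / 2 - v ^ 2 ≤ (y - v) ^ 2 := by nlinarith [sq_nonneg (y - 2 * v)]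
    have h6 : v ^ 2 ≤ y2 ^ 2 := by nlinarith
    nlinarith
  calc |W y1 y2 y| = ‖∫ v in y1..y2, Real.exp (-(Real.pi * (y - v) ^ 2))‖ := by
        rw [W, Real.norm_eq_abs]
    _ ≤ (Real.exp (-((k : ℝ) + 1)) * Real.exp (Real.pi * y2 ^ 2)) * |y2 - y1| := hb
    _ = (Real.exp (Real.pi * y2 ^ 2) * |y2 - y1|) * Real.exp (-((k : ℝ) + 1)) := by ring
    _ ≤ (Real.exp (Real.pi * y2 ^ 2) * |y2 - y1|) * ((1 / 2) ^ k * (1 / 2)) := by
        refine mul_le_mul_of_nonneg_left (e_exp_geo k) ?_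
        positivity

private lemma e_geo : HasSum (fun k : ℕ => ((1 : ℝ) / 2) ^ k * (1 / 2)) 1 := by
  have h := (hasSum_geometric_two).mul_right (1 / 2 : ℝ)
  simpa using h

/-- the terms away from the stationary range -/
private lemma e_far {α y1 y2 : ℝ} {M : ℕ} (h1 : 1 ≤ y1) (h2 : y1 ≤ y2) (h3 : y2 ≤ 2 * y1)
    (h4 : y1 ≤ α) (hM : M = ⌈α / (4 * y2)⌉₊) (m : ℤ) (hm : m < (M : ℤ) ∨ (9 * M : ℤ) ≤ m) :
    ‖∫ v in y1..y2, gh α v m‖ ≤ (2 * (2 * y1 + α) * y1 * Real.exp (-(3 / 4 * y1 ^ 2))) *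
      (1 + 4 * (m : ℝ) ^ 2) ^ (-(3 / 4) : ℝ) := by
  have hα : 0 < α := by linarith
  have hy1 : 0 < y1 := by linarith
  have hy2 : 0 < y2 := by linarith
  have hq : 0 < 1 + 4 * (m : ℝ) ^ 2 := by positivity
  have hpi : 3 < Real.pi := Real.pi_gt_three
  have hpi2 : (31 : ℝ) / 10 < Real.pi := by linarith [Real.pi_gt_d2]
  have key : ∀ v : ℝ, y1 ≤ v → v ≤ y2 →
      3 / 4 * y1 ^ 2 ≤ Real.pi * (2 * (m : ℝ) * v - α) ^ 2 / (1 + 4 * (m : ℝ) ^ 2) := by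
    intro v hv1 hv2
    rw [le_div_iff₀ hq]
    rcases lt_trichotomy m 0 with hm0 | hm0 | hm0
    · -- negative
      have hmr : (m : ℝ) ≤ -1 := by exact_mod_cast (by omega : m ≤ -1)
      have h5 : 2 * (m : ℝ) * v - α ≤ 2 * (m : ℝ) * y1 := by nlinarith
      have h6 : 4 * (m : ℝ) ^ 2 * y1 ^ 2 ≤ (2 * (m : ℝ) * v - α) ^ 2 := by
        have h7 : 2 * (m : ℝ) * y1 < 0 := by nlinarith
        nlinarith
      have h8 : (1 : ℝ) ≤ (m : ℝ) ^ 2 := by nlinarith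
      have h9 : 0 ≤ y1 ^ 2 := sq_nonneg _
      have h10 : 3 / 4 * y1 ^ 2 * (1 + 4 * (m : ℝ) ^ 2) ≤ 3 * (4 * (m : ℝ) ^ 2 * y1 ^ 2) := by
        nlinarith [mul_nonneg h9 (sub_nonneg.mpr h8)]
      have h11 : 3 * (4 * (m : ℝ) ^ 2 * y1 ^ 2) ≤ Real.pi * (2 * (m : ℝ) * v - α) ^ 2 :=
        mul_le_mul hpi.le h6 (by positivity) (by positivity)
      linarith
    · subst hm0
      have h5 : y1 ^ 2 ≤ α ^ 2 := by nlinarith
      have h6 : (3 : ℝ) * y1 ^ 2 ≤ Real.pi * α ^ 2 := mul_le_mul hpi.le h5 (by positivity) (by positivity)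
      simp only [Int.cast_zero, mul_zero, zero_mul, zero_sub, even_two, Even.neg_pow, ne_eq,
        OfNat.ofNat_ne_zero, not_false_eq_true, zero_pow, add_zero, mul_one]
      nlinarith [sq_nonneg y1]
    · have hmr : (1 : ℝ) ≤ (m : ℝ) := by exact_mod_cast (by omega : (1 : ℤ) ≤ m)
      rcases hm with hm | hm
      · -- `m < M`
        have h5 : (m : ℝ) < α / (4 * y2) := by
          have h6 : m.toNat < M := by omega
          rw [hM, Nat.lt_ceil] at h6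
          have h7 : ((m.toNat : ℕ) : ℝ) = (m : ℝ) := by
            have : ((m.toNat : ℕ) : ℤ) = m := Int.toNat_of_nonneg hm0.le
            exact_mod_cast congrArg (Int.cast : ℤ → ℝ) this
          rwa [h7] at h6
        have h6 : 4 * y2 * (m : ℝ) < α := by
          rw [lt_div_iff₀ (by positivity)] at h5
          linarith
        have h7 : 2 * (m : ℝ) * y1 ≤ α - 2 * (m : ℝ) * v := by nlinarith
        have h8 : 4 * (m : ℝ) ^ 2 * y1 ^ 2 ≤ (2 * (m : ℝ) * v - α) ^ 2 := by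
          have h9 : 0 ≤ 2 * (m : ℝ) * y1 := by positivity
          nlinarith
        have h9 : 0 ≤ y1 ^ 2 := sq_nonneg _
        have h8' : (1 : ℝ) ≤ (m : ℝ) ^ 2 := by nlinarith
        have h10 : 3 / 4 * y1 ^ 2 * (1 + 4 * (m : ℝ) ^ 2) ≤ 3 * (4 * (m : ℝ) ^ 2 * y1 ^ 2) := by
          nlinarith [mul_nonneg h9 (sub_nonneg.mpr h8')]
        have h11 : 3 * (4 * (m : ℝ) ^ 2 * y1 ^ 2) ≤ Real.pi * (2 * (m : ℝ) * v - α) ^ 2 :=
          mul_le_mul hpi.le h8 (by positivity) (by positivity)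
        linarith
      · -- `9 M ≤ m`
        have h5 : α / (4 * y2) ≤ (M : ℝ) := by
          rw [hM]
          exact Nat.le_ceil _
        have h6 : α ≤ 4 * y2 * (M : ℝ) := by
          rw [div_le_iff₀ (by positivity)] at h5
          linarith
        have h7 : 9 * (M : ℝ) ≤ (m : ℝ) := by exact_mod_cast hm
        have h8 : 9 * α ≤ 8 * (m : ℝ) * y1 := by
          have hMn : (0 : ℝ) ≤ (M : ℝ) := Nat.cast_nonneg _
          calc 9 * α ≤ 9 * (4 * y2 * (M : ℝ)) := by linarith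
            _ = 4 * y2 * (9 * (M : ℝ)) := by ring
            _ ≤ 4 * y2 * (m : ℝ) := mul_le_mul_of_nonneg_left h7 (by positivity)
            _ ≤ 8 * (m : ℝ) * y1 := by nlinarith
        have h9 : 10 * ((m : ℝ) * y1) ≤ 9 * (2 * (m : ℝ) * v - α) := by nlinarith
        have h10 : 100 * ((m : ℝ) ^ 2 * y1 ^ 2) ≤ 81 * (2 * (m : ℝ) * v - α) ^ 2 := by
          have h11 : 0 ≤ 10 * ((m : ℝ) * y1) := by positivity
          nlinarith
        have h8' : (1 : ℝ) ≤ (m : ℝ) ^ 2 := by nlinarith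
        have h12 : 3 / 4 * y1 ^ 2 * (1 + 4 * (m : ℝ) ^ 2) ≤ 15 / 4 * ((m : ℝ) ^ 2 * y1 ^ 2) := by
          nlinarith [mul_nonneg (sq_nonneg y1) (sub_nonneg.mpr h8')]
        have h13 : 31 / 10 * (100 / 81 * ((m : ℝ) ^ 2 * y1 ^ 2)) ≤
            Real.pi * (2 * (m : ℝ) * v - α) ^ 2 :=
          mul_le_mul hpi2.le (by linarith) (by positivity) (by positivity)
        have h14 : 0 ≤ (m : ℝ) ^ 2 * y1 ^ 2 := by positivity
        nlinarith
  have hb : ‖∫ v in y1..y2, gh α v m‖ ≤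
      (2 * (2 * y1 + α) * (1 + 4 * (m : ℝ) ^ 2) ^ (-(3 / 4) : ℝ) * Real.exp (-(3 / 4 * y1 ^ 2))) *
        |y2 - y1| := by
    refine intervalIntegral.norm_integral_le_of_norm_le_const fun v hv => ?_
    rw [Set.uIoc_of_le h2] at hv
    have hv1 : y1 ≤ v := hv.1.le
    have hv2 : v ≤ y2 := hv.2
    rw [gh_norm]
    have hs : √(v ^ 2 + α ^ 2) ≤ 2 * y1 + α := by
      rw [Real.sqrt_le_left (by positivity)]
      nlinarith
    have he : Real.exp (-(Real.pi * (2 * (m : ℝ) * v - α) ^ 2 / (1 + 4 * (m : ℝ) ^ 2))) ≤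
        Real.exp (-(3 / 4 * y1 ^ 2)) := by
      apply Real.exp_le_exp.mpr
      linarith [key v hv1 hv2]
    have hr : 0 ≤ (1 + 4 * (m : ℝ) ^ 2) ^ (-(3 / 4) : ℝ) := by positivity
    refine mul_le_mul ?_ he (Real.exp_pos _).le (by positivity)
    exact mul_le_mul_of_nonneg_right (by linarith) hr
  refine hb.trans ?_
  have hab : |y2 - y1| ≤ y1 := by
    rw [abs_of_nonneg (by linarith)]
    linarith
  calc (2 * (2 * y1 + α) * (1 + 4 * (m : ℝ) ^ 2) ^ (-(3 / 4) : ℝ) * Real.exp (-(3 / 4 * y1 ^ 2))) *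
        |y2 - y1|
      ≤ (2 * (2 * y1 + α) * (1 + 4 * (m : ℝ) ^ 2) ^ (-(3 / 4) : ℝ) * Real.exp (-(3 / 4 * y1 ^ 2))) *
        y1 := by
        refine mul_le_mul_of_nonneg_left hab ?_
        positivity
    _ = _ := by ring

theorem smooth_sum (B : ℝ) (hB : 1 ≤ B) : ∃ C : ℝ, 0 < C ∧ ∀ (α y1 y2 U : ℝ) (M : ℕ), 1 ≤ y1 →
    y1 ≤ y2 → y2 ≤ 2 * y1 → y1 ≤ α → α ≤ y1 ^ B → M = ⌈α / (4 * y2)⌉₊ →
    (∀ N : ℕ, N ≤ 8 * M → ‖∑ n ∈ range N, ee (α ^ 2 / 4 / ((M : ℝ) + n))‖ ≤ U) →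
    ‖∑' k : ℕ, (W y1 y2 (√((k : ℝ) + 1)) : ℂ) * ee (α * √((k : ℝ) + 1))‖ ≤
      C * (1 + y1 / √(M : ℝ) * U) := by
  obtain ⟨CA, hCA, hAA⟩ := AA_bd
  obtain ⟨CE, hCE, hE⟩ := e_pow_exp (B + 1) (3 / 4) (by linarith) (by norm_num)
  have hS := e_summ
  set Z : ℝ := ∑' m : ℤ, (1 + 4 * (m : ℝ) ^ 2) ^ (-(3 / 4) : ℝ) with hZ
  have hZ0 : 0 ≤ Z := tsum_nonneg fun m => by positivity
  refine ⟨1 + 6 * CE * Z + 2 * CA, by positivity, ?_⟩
  intro α y1 y2 U M h1 h2 h3 h4 h5 hM hU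
  have hα : 0 < α := by linarith
  have hy1 : 0 < y1 := by linarith
  have hy2 : 0 < y2 := by linarith
  have hM1 : 1 ≤ M := by
    rw [hM, Nat.one_le_ceil_iff]
    positivity
  have hαM : α ≤ 4 * y2 * M := by
    have h6 : α / (4 * y2) ≤ (M : ℝ) := by
      rw [hM]
      exact Nat.le_ceil _
    rw [div_le_iff₀ (by positivity)] at h6
    linarith
  have hU0 : 0 ≤ U := by
    have := hU 0 (Nat.zero_le _)
    simpa using this
  -- the four series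
  set f1 : ℕ → ℂ := fun k => (W y1 y2 (√((k : ℝ) + 1)) : ℂ) * ee (α * √((k : ℝ) + 1)) with hf1
  set f2 : ℕ → ℂ := fun k => (W y1 y2 (-√((k : ℝ) + 1)) : ℂ) * ee (-(α * √((k : ℝ) + 1))) with hf2
  have hn1 : ∀ k, ‖f1 k‖ ≤ (Real.exp (Real.pi * y2 ^ 2) * |y2 - y1|) * ((1 / 2) ^ k * (1 / 2)) := by
    intro k
    simp only [hf1]
    rw [norm_mul, norm_ee, mul_one, Complex.norm_real, Real.norm_eq_abs]
    exact e_W_pos h1 h2 k
  have hn2 : ∀ k, ‖f2 k‖ ≤ (1 / 2) ^ k * (1 / 2) := by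
    intro k
    simp only [hf2]
    rw [norm_mul, norm_ee, mul_one, Complex.norm_real, Real.norm_eq_abs]
    exact e_W_neg h1 h2 h3 k
  have hs1 : Summable f1 :=
    Summable.of_norm_bounded ((e_geo.summable).mul_left _) hn1
  have hs2 : Summable f2 := Summable.of_norm_bounded e_geo.summable hn2
  have hP := poisson hα h1 h2
  have hsub : (∑' k : ℕ, ((W y1 y2 (√((k : ℝ) + 1)) : ℂ) * ee (α * √((k : ℝ) + 1)) -
        (W y1 y2 (-√((k : ℝ) + 1)) : ℂ) * ee (-(α * √((k : ℝ) + 1))))) =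
      ∑' k, f1 k - ∑' k, f2 k := hs1.tsum_sub hs2
  rw [hsub] at hP
  have hb2 : ‖∑' k, f2 k‖ ≤ 1 := hs2.hasSum.norm_le_of_bounded e_geo hn2
  -- the main part
  set g : ℤ → ℂ := fun m => ∫ v in y1..y2, gh α v m with hg
  set S : Finset ℤ := (Finset.range (8 * M)).image (fun n : ℕ => ((M + n : ℕ) : ℤ)) with hSdef
  have hmem : ∀ m : ℤ, m ∉ S → m < (M : ℤ) ∨ (9 * M : ℤ) ≤ m := by
    intro m hm
    by_contra hcon
    push Not at hcon
    apply hm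
    rw [hSdef, Finset.mem_image]
    refine ⟨(m - M).toNat, ?_, ?_⟩
    · rw [Finset.mem_range]
      omega
    · push_cast
      rw [Int.toNat_of_nonneg (by omega)]
      ring
  have hfin : HasSum (fun m : ℤ => if m ∈ S then g m else 0) (∑ m ∈ S, g m) := by
    have h6 : HasSum (fun m : ℤ => if m ∈ S then g m else 0)
        (∑ m ∈ S, (if m ∈ S then g m else 0)) :=
      hasSum_sum_of_ne_finset_zero (fun m hm => by simp [hm])
    have h7 : ∑ m ∈ S, (if m ∈ S then g m else 0) = ∑ m ∈ S, g m :=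
      Finset.sum_congr rfl fun m hm => by simp [hm]
    rwa [h7] at h6
  have hdiff := hP.sub hfin
  set K : ℝ := 2 * (2 * y1 + α) * y1 * Real.exp (-(3 / 4 * y1 ^ 2)) with hK
  have hbd : ‖(∑' k, f1 k - ∑' k, f2 k) - ∑ m ∈ S, g m‖ ≤ K * Z := by
    refine hdiff.norm_le_of_bounded (hS.hasSum.mul_left K) fun m => ?_
    by_cases hm : m ∈ S
    · simp only [hm, if_true, hg, sub_self, norm_zero]
      positivity
    · simp only [hm, if_false, sub_zero]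
      exact e_far h1 h2 h3 h4 hM m (hmem m hm)
  have hK6 : K ≤ 6 * CE := by
    have h6 : 2 * y1 + α ≤ 3 * y1 ^ B := by linarith
    have h7 : y1 ^ B * y1 = y1 ^ (B + 1) := by
      rw [Real.rpow_add hy1, Real.rpow_one]
    have h8 := hE y1 h1
    calc K = 2 * ((2 * y1 + α) * (y1 * Real.exp (-(3 / 4 * y1 ^ 2)))) := by rw [hK]; ring
      _ ≤ 2 * ((3 * y1 ^ B) * (y1 * Real.exp (-(3 / 4 * y1 ^ 2)))) := by
          refine mul_le_mul_of_nonneg_left ?_ (by norm_num)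
          exact mul_le_mul_of_nonneg_right h6 (by positivity)
      _ = 6 * (y1 ^ (B + 1) * Real.exp (-(3 / 4 * y1 ^ 2))) := by rw [← h7]; ring
      _ ≤ 6 * CE := by linarith
  have hmain : ‖∑ m ∈ S, g m‖ ≤ 2 * CA * (y1 / √(M : ℝ) * U) := by
    have h6 : ∑ m ∈ S, g m = ∑ n ∈ Finset.range (8 * M),
        ee (α ^ 2 / 4 / ((M : ℝ) + n)) * AA α y1 y2 ((M + n : ℕ) : ℝ) := by
      rw [hSdef, Finset.sum_image (fun a _ b _ hab => by
        have : (M + a : ℕ) = (M + b : ℕ) := by exact_mod_cast hab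
        omega)]
      refine Finset.sum_congr rfl fun n _ => ?_
      have h7 : (((M + n : ℕ) : ℤ) : ℝ) = ((M + n : ℕ) : ℝ) := by push_cast; ring
      simp only [hg]
      rw [h7, int_gh α y1 y2 _ (by positivity)]
      congr 2
      push_cast
      rw [div_div]
    rw [h6]
    have h7 := e_abel (fun n => ee (α ^ 2 / 4 / ((M : ℝ) + n)))
      (fun n => AA α y1 y2 ((M + n : ℕ) : ℝ)) (8 * M) U (fun n hn => hU n hn)
    refine h7.trans ?_
    obtain ⟨hA1, hA2⟩ := hAA α y1 y2 M hα h1 h2 h3 hM1 hαM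
    have h8 : ‖AA α y1 y2 ((M + (8 * M - 1) : ℕ) : ℝ)‖ ≤ CA * (y1 / √(M : ℝ)) :=
      hA1 _ (Nat.le_add_right _ _)
    have h9 : ∑ n ∈ Finset.range (8 * M - 1),
        ‖AA α y1 y2 ((M + (n + 1) : ℕ) : ℝ) - AA α y1 y2 ((M + n : ℕ) : ℝ)‖ ≤
        CA * (y1 / √(M : ℝ)) := by
      refine le_trans ?_ hA2
      rw [Finset.sum_Ico_eq_sum_range, show 9 * M - M = 8 * M by omega]
      refine Finset.sum_le_sum_of_subset_of_nonneg ?_ (fun _ _ _ => norm_nonneg _)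
      intro n hn
      rw [Finset.mem_range] at hn ⊢
      omega
    calc U * (‖AA α y1 y2 ((M + (8 * M - 1) : ℕ) : ℝ)‖ + ∑ n ∈ Finset.range (8 * M - 1),
        ‖AA α y1 y2 ((M + (n + 1) : ℕ) : ℝ) - AA α y1 y2 ((M + n : ℕ) : ℝ)‖)
        ≤ U * (CA * (y1 / √(M : ℝ)) + CA * (y1 / √(M : ℝ))) :=
          mul_le_mul_of_nonneg_left (add_le_add h8 h9) hU0
      _ = 2 * CA * (y1 / √(M : ℝ) * U) := by ring
  have htri : ‖∑' k, f1 k‖ ≤ ‖(∑' k, f1 k - ∑' k, f2 k) - ∑ m ∈ S, g m‖ + ‖∑' k, f2 k‖ +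
      ‖∑ m ∈ S, g m‖ := by
    have h6 : ∑' k, f1 k = ((∑' k, f1 k - ∑' k, f2 k) - ∑ m ∈ S, g m) + ∑' k, f2 k +
        ∑ m ∈ S, g m := by ring
    calc ‖∑' k, f1 k‖ = ‖((∑' k, f1 k - ∑' k, f2 k) - ∑ m ∈ S, g m) + ∑' k, f2 k +
        ∑ m ∈ S, g m‖ := by rw [← h6]
      _ ≤ _ := (norm_add_le _ _).trans (add_le_add_left (norm_add_le _ _) _)
  have hR : 0 ≤ y1 / √(M : ℝ) * U := by positivity
  have hKZ : K * Z ≤ 6 * CE * Z := mul_le_mul_of_nonneg_right hK6 hZ0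
  have hpos : 0 ≤ 6 * CE * Z := by positivity
  calc ‖∑' k, f1 k‖ ≤ 6 * CE * Z + 1 + 2 * CA * (y1 / √(M : ℝ) * U) := by linarith
    _ ≤ (1 + 6 * CE * Z + 2 * CA) * (1 + y1 / √(M : ℝ) * U) := by nlinarith

end T12
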