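import Pool.Agent.Lib.MP_39df77_nt.T12.DualPhase
import Pool.Agent.Lib.MP_39df77_nt.T12.Sharp
import Pool.Agent.Lib.MP_39df77_nt.T12.Smooth

/-!
# Row T12-G: lemD (from `dual_phase`, `smooth_sum`, `sharp_of_smooth`)
-/

set_option autoImplicit false

namespace T12

open Finset Complex MeasureTheory Set Pool.Agent.Lib.MP_4ae430_nt

/-- trivial bound, `K < K₀` -/
private lemma lemD_triv {κ c : ℝ} (hκ : 0 < κ) (hc : c ≤ 1 / 4) {α : ℝ} {K N : ℕ} (hK : 1 ≤ K)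
    (hN : N ≤ K) (hα : (K : ℝ) ^ (1 / 2 + κ) ≤ α) :
    ‖∑ n ∈ range N, ee (α * √((K : ℝ) + n))‖ ≤ K * (√(α * √(K : ℝ)) * (K : ℝ) ^ (-c)) := by
  have hK1 : (1 : ℝ) ≤ K := by exact_mod_cast hK
  have hK0 : (0 : ℝ) < K := by linarith
  have h1 : ‖∑ n ∈ range N, ee (α * √((K : ℝ) + n))‖ ≤ N := by
    refine (norm_sum_le _ _).trans ?_
    simp [norm_ee]
  have h2 : (N : ℝ) ≤ K := by exact_mod_cast hN
  have h3 : (1 : ℝ) ≤ √(α * √(K : ℝ)) * (K : ℝ) ^ (-c) := by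
    have h4 : (K : ℝ) ^ ((1 : ℝ) / 2) ≤ α :=
      (Real.rpow_le_rpow_of_exponent_le hK1 (by linarith)).trans hα
    have h5 : (K : ℝ) ≤ α * √(K : ℝ) := by
      rw [Real.sqrt_eq_rpow]
      calc (K : ℝ) = (K : ℝ) ^ ((1 : ℝ) / 2) * (K : ℝ) ^ ((1 : ℝ) / 2) := by
            rw [← Real.rpow_add hK0]; norm_num
        _ ≤ _ := by gcongr
    have h6 : (K : ℝ) ^ ((1 : ℝ) / 2) ≤ √(α * √(K : ℝ)) := by
      rw [← Real.sqrt_eq_rpow]; exact Real.sqrt_le_sqrt h5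
    calc (1 : ℝ) ≤ (K : ℝ) ^ ((1 : ℝ) / 2 + (-c)) := Real.one_le_rpow hK1 (by linarith)
      _ = (K : ℝ) ^ ((1 : ℝ) / 2) * (K : ℝ) ^ (-c) := Real.rpow_add hK0 _ _
      _ ≤ _ := by gcongr
  calc _ ≤ (N : ℝ) := h1
    _ ≤ K := h2
    _ = K * 1 := (mul_one _).symm
    _ ≤ _ := by gcongr

/-- the parameters of the dual sum -/
private lemma lemD_par {κ : ℝ} (hκ : 0 < κ) {α y2 : ℝ} {K M : ℕ} (hK : 1 ≤ K)
    (h4 : (4 : ℝ) ≤ (K : ℝ) ^ κ) (h6 : (3 / 2) * (6 : ℝ) ^ (5 / κ) ≤ (K : ℝ) ^ (5 / 2 : ℝ))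
    (hα : (K : ℝ) ^ (1 / 2 + κ) ≤ α) (hα2 : α ≤ (K : ℝ) ^ 2)
    (hy : √(K : ℝ) ≤ y2) (hy2 : y2 ≤ 3 / 2 * √(K : ℝ)) (hM : M = ⌈α / (4 * y2)⌉₊) :
    1 ≤ M ∧ (M : ℝ) ≤ α / (2 * √(K : ℝ)) ∧ (K : ℝ) ^ κ / 6 ≤ M ∧
      (M : ℝ) ^ (3 / 2 : ℝ) ≤ α ^ 2 / 4 / M ∧ α ^ 2 / 4 / M ≤ (M : ℝ) ^ (5 / κ) := by
  have hK1 : (1 : ℝ) ≤ K := by exact_mod_cast hK
  have hK0 : (0 : ℝ) < K := by linarith
  have hs0 : 0 < √(K : ℝ) := Real.sqrt_pos.2 hK0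
  have hss : √(K : ℝ) * √(K : ℝ) = K := Real.mul_self_sqrt hK0.le
  have hs1 : 1 ≤ √(K : ℝ) := by
    rw [show (1 : ℝ) = √1 by simp]; exact Real.sqrt_le_sqrt hK1
  have hαs : √(K : ℝ) * (K : ℝ) ^ κ ≤ α := by
    rw [Real.sqrt_eq_rpow, ← Real.rpow_add hK0]; exact hα
  have hα0 : 0 < α := lt_of_lt_of_le (by positivity) hαs
  have hy0 : 0 < y2 := hs0.trans_le hy
  have hMl : α / (4 * y2) ≤ M := by rw [hM]; exact Nat.le_ceil _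
  have hMu : (M : ℝ) < α / (4 * y2) + 1 := by
    rw [hM]; exact Nat.ceil_lt_add_one (by positivity)
  have hM1 : 1 ≤ M := by
    have : 0 < α / (4 * y2) := by positivity
    have h' : (0 : ℝ) < M := this.trans_le hMl
    exact_mod_cast h'
  have hM0 : (0 : ℝ) < M := by exact_mod_cast hM1
  have hMlo : α / (6 * √(K : ℝ)) ≤ M := by
    refine le_trans ?_ hMl
    apply div_le_div_of_nonneg_left hα0.le (by positivity)
    linarith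
  have hMup : (M : ℝ) ≤ α / (2 * √(K : ℝ)) := by
    have h1 : α / (4 * y2) ≤ α / (4 * √(K : ℝ)) := by
      apply div_le_div_of_nonneg_left hα0.le (by positivity); linarith
    have h2 : 1 ≤ α / (4 * √(K : ℝ)) := by
      rw [le_div_iff₀ (by positivity)]
      nlinarith
    have h3 : α / (2 * √(K : ℝ)) = α / (4 * √(K : ℝ)) + α / (4 * √(K : ℝ)) := by
      field_simp; ring
    rw [h3]; linarith
  have hMk : (K : ℝ) ^ κ / 6 ≤ M := by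
    refine le_trans ?_ hMlo
    rw [div_le_div_iff₀ (by norm_num) (by positivity)]
    nlinarith
  refine ⟨hM1, hMup, hMk, ?_, ?_⟩
  · -- M^{3/2} ≤ X/M
    have h1 : α * √(K : ℝ) / 2 ≤ α ^ 2 / 4 / M := by
      rw [le_div_iff₀ hM0]
      calc α * √(K : ℝ) / 2 * M ≤ α * √(K : ℝ) / 2 * (α / (2 * √(K : ℝ))) := by gcongr
        _ = α ^ 2 / 4 := by field_simp; ring
    refine le_trans ?_ h1
    have h2 : (M : ℝ) ^ (3 / 2 : ℝ) = M * √(M : ℝ) := by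
      rw [Real.sqrt_eq_rpow]
      nth_rewrite 2 [← Real.rpow_one (M : ℝ)]
      rw [← Real.rpow_add hM0]; norm_num
    rw [h2]
    have h3 : √(M : ℝ) ≤ K := by
      rw [Real.sqrt_le_left hK0.le]
      calc (M : ℝ) ≤ α / (2 * √(K : ℝ)) := hMup
        _ ≤ α / 1 := by apply div_le_div_of_nonneg_left hα0.le (by norm_num); linarith
        _ = α := div_one _
        _ ≤ _ := hα2
    calc (M : ℝ) * √(M : ℝ) ≤ α / (2 * √(K : ℝ)) * K := by gcongr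
      _ = α * √(K : ℝ) / 2 := by
        rw [div_mul_eq_mul_div, div_eq_div_iff (by positivity) (by norm_num)]
        calc α * K * 2 = α * (√(K : ℝ) * √(K : ℝ)) * 2 := by rw [hss]
          _ = _ := by ring
  · have h1 : α ^ 2 / 4 / M ≤ 3 / 2 * (K : ℝ) ^ (5 / 2 : ℝ) := by
      have h5 : (K : ℝ) ^ (5 / 2 : ℝ) = (K : ℝ) ^ 2 * √(K : ℝ) := by
        rw [Real.sqrt_eq_rpow, ← Real.rpow_natCast (K : ℝ) 2, ← Real.rpow_add hK0]; norm_num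
      rw [h5, div_le_iff₀ hM0]
      calc α ^ 2 / 4 = 3 / 2 * (α * √(K : ℝ)) * (α / (6 * √(K : ℝ))) := by field_simp; ring
        _ ≤ 3 / 2 * ((K : ℝ) ^ 2 * √(K : ℝ)) * M := by gcongr
    refine h1.trans ?_
    have h2 : ((K : ℝ) ^ κ / 6) ^ (5 / κ) ≤ (M : ℝ) ^ (5 / κ) :=
      Real.rpow_le_rpow (by positivity) hMk (by positivity)
    refine le_trans ?_ h2
    rw [Real.div_rpow (by positivity) (by norm_num), ← Real.rpow_mul hK0.le,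
      show κ * (5 / κ) = 5 by field_simp, le_div_iff₀ (by positivity)]
    calc 3 / 2 * (K : ℝ) ^ (5 / 2 : ℝ) * 6 ^ (5 / κ) = (3 / 2 * 6 ^ (5 / κ)) * (K : ℝ) ^ (5 / 2 : ℝ) := by ring
      _ ≤ (K : ℝ) ^ (5 / 2 : ℝ) * (K : ℝ) ^ (5 / 2 : ℝ) := by gcongr
      _ = (K : ℝ) ^ (5 : ℝ) := by rw [← Real.rpow_add hK0]; norm_num

theorem lemD (κ : ℝ) (hκ : 0 < κ) (hκ1 : κ ≤ 1) : ∃ c C : ℝ, 0 < c ∧ c ≤ 1 / 4 ∧ 0 < C ∧
    ∀ (α : ℝ) (K N : ℕ), 1 ≤ K → N ≤ K → (K : ℝ) ^ (1 / 2 + κ) ≤ α → α ≤ (K : ℝ) ^ 2 →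
    ‖∑ n ∈ range N, ee (α * √((K : ℝ) + n))‖ ≤ C * (√(α * √(K : ℝ)) * (K : ℝ) ^ (-c)) := by
  obtain ⟨σ, C1, hσ, hσ4, hC1, hD⟩ := dual_phase (5 / κ)
  obtain ⟨C2, hC2, hS⟩ := smooth_sum 4 (by norm_num)
  obtain ⟨C3, hC3, hF⟩ := sharp_of_smooth
  set c : ℝ := min (κ * σ) (min (κ / 2) (1 / 4)) with hcdef
  have hc0 : 0 < c := lt_min (by positivity) (lt_min (by positivity) (by norm_num))
  have hc1 : c ≤ κ * σ := min_le_left _ _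
  have hc2 : c ≤ κ / 2 := (min_le_right _ _).trans (min_le_left _ _)
  have hc3 : c ≤ 1 / 4 := (min_le_right _ _).trans (min_le_right _ _)
  set K0 : ℝ := max ((4 : ℝ) ^ (1 / κ)) ((3 / 2) * (6 : ℝ) ^ (5 / κ)) with hK0def
  set C : ℝ := K0 + (C2 + C2 * C1 * 6 ^ σ + C3) with hCdef
  have hK0p : 0 < K0 := lt_of_lt_of_le (by positivity) (le_max_left _ _)
  have hCp : 0 < C := by positivity
  refine ⟨c, C, hc0, hc3, hCp, fun α K N hK hN hα hα2 => ?_⟩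
  have hK1 : (1 : ℝ) ≤ K := by exact_mod_cast hK
  have hKp : (0 : ℝ) < K := by linarith
  have hpos : 0 ≤ √(α * √(K : ℝ)) * (K : ℝ) ^ (-c) := by positivity
  rcases lt_or_ge (K : ℝ) K0 with hlt | hge
  · refine (lemD_triv hκ hc3 hK hN hα).trans ?_
    apply mul_le_mul_of_nonneg_right _ hpos
    have : 0 ≤ C2 + C2 * C1 * 6 ^ σ + C3 := by positivity
    rw [hCdef]; linarith
  have hs0 : 0 < √(K : ℝ) := Real.sqrt_pos.2 hKp
  have hs1 : 1 ≤ √(K : ℝ) := by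
    rw [show (1 : ℝ) = √1 by simp]; exact Real.sqrt_le_sqrt hK1
  have h4 : (4 : ℝ) ≤ (K : ℝ) ^ κ := by
    have h := Real.rpow_le_rpow (by positivity) ((le_max_left _ _).trans hge) hκ.le
    rwa [← Real.rpow_mul (by norm_num), show 1 / κ * κ = 1 by field_simp, Real.rpow_one] at h
  have h6 : (3 / 2) * (6 : ℝ) ^ (5 / κ) ≤ (K : ℝ) ^ (5 / 2 : ℝ) := by
    refine ((le_max_right _ _).trans hge).trans ?_
    nth_rewrite 1 [← Real.rpow_one (K : ℝ)]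
    exact Real.rpow_le_rpow_of_exponent_le hK1 (by norm_num)
  set y2 : ℝ := √((K : ℝ) + N) with hy2def
  have hN' : (N : ℝ) ≤ K := by exact_mod_cast hN
  have hy : √(K : ℝ) ≤ y2 := Real.sqrt_le_sqrt (by linarith [(Nat.cast_nonneg N : (0 : ℝ) ≤ N)])
  have hy2 : y2 ≤ 3 / 2 * √(K : ℝ) := by
    rw [hy2def]
    calc √((K : ℝ) + N) ≤ √((3 / 2) ^ 2 * (K : ℝ)) := Real.sqrt_le_sqrt (by linarith)
      _ = 3 / 2 * √(K : ℝ) := by rw [Real.sqrt_mul (by norm_num), Real.sqrt_sq (by norm_num)]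
  set M : ℕ := ⌈α / (4 * y2)⌉₊ with hM
  obtain ⟨hM1, hMup, hMk, hX1, hX2⟩ := lemD_par hκ hK h4 h6 hα hα2 hy hy2 hM
  have hM0 : (0 : ℝ) < M := by exact_mod_cast hM1
  have hαs : √(K : ℝ) * (K : ℝ) ^ κ ≤ α := by
    rw [Real.sqrt_eq_rpow, ← Real.rpow_add hKp]; exact hα
  have hα0 : 0 < α := lt_of_lt_of_le (by positivity) hαs
  have hy1α : √(K : ℝ) ≤ α := by nlinarith
  have hα4 : α ≤ √(K : ℝ) ^ (4 : ℝ) := by
    refine hα2.trans (le_of_eq ?_)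
    rw [Real.sqrt_eq_rpow, ← Real.rpow_mul hKp.le, ← Real.rpow_natCast (K : ℝ) 2]; norm_num
  have hsm := hS α (√(K : ℝ)) y2 (C1 * (M : ℝ) ^ (1 - σ)) M hs1 hy (hy2.trans (by linarith)) hy1α hα4 hM
    (fun n hn => hD M n (α ^ 2 / 4) hM1 hn hX1 hX2)
  have hsh := hF α K N hK (hN.trans (by omega))
  rw [← hy2def] at hsh
  -- bounds
  set R : ℝ := √(α * √(K : ℝ)) with hR
  have hR0 : 0 ≤ R := Real.sqrt_nonneg _
  have hRK : √(K : ℝ) ≤ R * (K : ℝ) ^ (-c) := by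
    have h1 : (K : ℝ) ^ (1 + κ) ≤ α * √(K : ℝ) := by
      calc (K : ℝ) ^ (1 + κ) = √(K : ℝ) * √(K : ℝ) * (K : ℝ) ^ κ := by
            rw [Real.mul_self_sqrt hKp.le, Real.rpow_add hKp, Real.rpow_one]
        _ = √(K : ℝ) * (K : ℝ) ^ κ * √(K : ℝ) := by ring
        _ ≤ _ := by gcongr
    have h2 : (K : ℝ) ^ ((1 + κ) / 2) ≤ R := by
      rw [hR, Real.sqrt_eq_rpow (α * _)]
      have := Real.rpow_le_rpow (by positivity) h1 (by norm_num : (0 : ℝ) ≤ 1 / 2)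
      rwa [← Real.rpow_mul hKp.le, show (1 + κ) * (1 / 2) = (1 + κ) / 2 by ring] at this
    calc √(K : ℝ) = (K : ℝ) ^ ((1 : ℝ) / 2) := Real.sqrt_eq_rpow _
      _ ≤ (K : ℝ) ^ ((1 + κ) / 2 + -c) := Real.rpow_le_rpow_of_exponent_le hK1 (by linarith)
      _ = (K : ℝ) ^ ((1 + κ) / 2) * (K : ℝ) ^ (-c) := Real.rpow_add hKp _ _
      _ ≤ _ := by gcongr
  have hmain : √(K : ℝ) / √(M : ℝ) * (C1 * (M : ℝ) ^ (1 - σ)) ≤ C1 * 6 ^ σ * (R * (K : ℝ) ^ (-c)) := by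
    have e1 : (M : ℝ) ^ (1 - σ) = √(M : ℝ) * √(M : ℝ) * (M : ℝ) ^ (-σ) := by
      rw [Real.mul_self_sqrt hM0.le]
      nth_rewrite 2 [← Real.rpow_one (M : ℝ)]
      rw [← Real.rpow_add hM0, sub_eq_add_neg]
    have hsM : 0 < √(M : ℝ) := Real.sqrt_pos.2 hM0
    have e2 : √(K : ℝ) / √(M : ℝ) * (C1 * (M : ℝ) ^ (1 - σ)) =
        C1 * ((√(K : ℝ) * √(M : ℝ)) * (M : ℝ) ^ (-σ)) := by
      rw [e1]; field_simp
    have e3 : √(K : ℝ) * √(M : ℝ) ≤ R := by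
      rw [hR, ← Real.sqrt_mul hKp.le]
      apply Real.sqrt_le_sqrt
      calc (K : ℝ) * M ≤ K * (α / (2 * √(K : ℝ))) := by gcongr
        _ = α * √(K : ℝ) / 2 := by
          rw [mul_div_assoc', div_eq_div_iff (by positivity) (by norm_num)]
          calc (K : ℝ) * α * 2 = (√(K : ℝ) * √(K : ℝ)) * α * 2 := by rw [Real.mul_self_sqrt hKp.le]
            _ = _ := by ring
        _ ≤ _ := by linarith [mul_pos hα0 hs0]
    have e4 : (M : ℝ) ^ (-σ) ≤ 6 ^ σ * (K : ℝ) ^ (-c) := by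
      calc (M : ℝ) ^ (-σ) ≤ ((K : ℝ) ^ κ / 6) ^ (-σ) :=
            Real.rpow_le_rpow_of_nonpos (by positivity) hMk (by linarith)
        _ = 6 ^ σ * (K : ℝ) ^ (-(κ * σ)) := by
          rw [Real.div_rpow (by positivity) (by norm_num), ← Real.rpow_mul hKp.le,
            Real.rpow_neg (by norm_num : (0 : ℝ) ≤ 6), div_inv_eq_mul, mul_comm, mul_neg]
        _ ≤ 6 ^ σ * (K : ℝ) ^ (-c) := by
          exact mul_le_mul_of_nonneg_left (Real.rpow_le_rpow_of_exponent_le hK1 (by linarith))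
            (by positivity)
    rw [e2]
    calc C1 * ((√(K : ℝ) * √(M : ℝ)) * (M : ℝ) ^ (-σ)) ≤ C1 * (R * (6 ^ σ * (K : ℝ) ^ (-c))) := by gcongr
      _ = _ := by ring
  calc ‖∑ n ∈ range N, ee (α * √((K : ℝ) + n))‖ ≤ _ := hsh
    _ ≤ C2 * (1 + √(K : ℝ) / √(M : ℝ) * (C1 * (M : ℝ) ^ (1 - σ))) + C3 * √(K : ℝ) := by gcongr
    _ ≤ C2 * (R * (K : ℝ) ^ (-c) + C1 * 6 ^ σ * (R * (K : ℝ) ^ (-c))) + C3 * (R * (K : ℝ) ^ (-c)) := by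
      have h1 : 1 ≤ R * (K : ℝ) ^ (-c) := hs1.trans hRK
      gcongr
    _ = (C2 + C2 * C1 * 6 ^ σ + C3) * (R * (K : ℝ) ^ (-c)) := by ring
    _ ≤ C * (R * (K : ℝ) ^ (-c)) := by
      apply mul_le_mul_of_nonneg_right _ hpos
      rw [hCdef]; linarith

end T12
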