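import Pool.Agent.Lib.MP_39df77_nt.T12.LemD

/-!
# Row T12-H1: `lemDb` from `lemD` (Abel summation with the weights `e(-β x^{3/2})`)
-/

set_option autoImplicit false

namespace T12

open Finset Complex MeasureTheory Set Pool.Agent.Lib.MP_4ae430_nt

theorem H1_ee_sub (a b : ℝ) : ‖ee a - ee b‖ ≤ 2 * Real.pi * |a - b| := by
  have e1 : ee a - ee b = ee b * (ee (a - b) - 1) := by
    rw [mul_sub, ← ee_add, mul_one]
    congr 2
    ring
  rw [e1, norm_mul, norm_ee, one_mul]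
  have h := Real.norm_exp_I_mul_ofReal_sub_one_le (x := 2 * Real.pi * (a - b))
  have e2 : ee (a - b) = cexp (I * ((2 * Real.pi * (a - b) : ℝ) : ℂ)) := by
    rw [ee, mul_comm I]
  rw [e2]
  refine h.trans ?_
  rw [Real.norm_eq_abs, abs_mul, abs_of_pos (by positivity : (0 : ℝ) < 2 * Real.pi)]

/-- Abel summation, weights of bounded variation and modulus one -/
theorem H1_abel (z w : ℕ → ℂ) (hw : ∀ n, ‖w n‖ ≤ 1) (B : ℝ) (N : ℕ)
    (hB : ∀ n ≤ N, ‖∑ i ∈ range n, z i‖ ≤ B) :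
    ‖∑ i ∈ range N, w i * z i‖ ≤ (1 + ∑ i ∈ range N, ‖w (i + 1) - w i‖) * B := by
  have key : ∀ n ≤ N, ‖(∑ i ∈ range n, w i * z i) - w n * ∑ i ∈ range n, z i‖ ≤
      (∑ i ∈ range n, ‖w (i + 1) - w i‖) * B := by
    intro n
    induction n with
    | zero => intro _; simp
    | succ n ih =>
      intro hn
      have h1 := ih (by omega)
      have h2 := hB (n + 1) hn
      have e1 : (∑ i ∈ range (n + 1), w i * z i) - w (n + 1) * ∑ i ∈ range (n + 1), z i =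
          ((∑ i ∈ range n, w i * z i) - w n * ∑ i ∈ range n, z i) +
            (w n - w (n + 1)) * ∑ i ∈ range (n + 1), z i := by
        rw [sum_range_succ, sum_range_succ]
        ring
      rw [e1, Finset.sum_range_succ (fun i => ‖w (i + 1) - w i‖), add_mul]
      refine (norm_add_le _ _).trans (add_le_add h1 ?_)
      rw [norm_mul, norm_sub_rev]
      exact mul_le_mul_of_nonneg_left h2 (norm_nonneg _)
  have h1 := key N le_rfl
  have h2 := hB N le_rfl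
  have e1 : ∑ i ∈ range N, w i * z i =
      ((∑ i ∈ range N, w i * z i) - w N * ∑ i ∈ range N, z i) + w N * ∑ i ∈ range N, z i := by ring
  rw [e1]
  refine (norm_add_le _ _).trans ?_
  have h3 : ‖w N * ∑ i ∈ range N, z i‖ ≤ B := by
    rw [norm_mul]
    exact (mul_le_of_le_one_left (norm_nonneg _) (hw N)).trans h2
  linarith

theorem H1_var (β : ℝ) (hβ : 0 ≤ β) (K N : ℕ) (hN : N ≤ K) :
    ∑ n ∈ range N, ‖ee (-(β * (((K : ℝ) + (n + 1 : ℕ)) * √((K : ℝ) + (n + 1 : ℕ))))) -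
      ee (-(β * (((K : ℝ) + n) * √((K : ℝ) + n))))‖ ≤ 18 * (β * (K * √(K : ℝ))) := by
  set f : ℕ → ℝ := fun n => ((K : ℝ) + n) * √((K : ℝ) + n) with hf
  have hmono : ∀ n, f n ≤ f (n + 1) := by
    intro n
    have h1 : (K : ℝ) + n ≤ (K : ℝ) + (n + 1 : ℕ) := by push_cast; linarith
    exact mul_le_mul h1 (Real.sqrt_le_sqrt h1) (Real.sqrt_nonneg _) (by positivity)
  have h1 : ∀ n ∈ range N, ‖ee (-(β * (((K : ℝ) + (n + 1 : ℕ)) * √((K : ℝ) + (n + 1 : ℕ))))) -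
      ee (-(β * (((K : ℝ) + n) * √((K : ℝ) + n))))‖ ≤ 2 * Real.pi * β * (f (n + 1) - f n) := by
    intro n _
    refine (H1_ee_sub _ _).trans ?_
    have e : -(β * (((K : ℝ) + (n + 1 : ℕ)) * √((K : ℝ) + (n + 1 : ℕ)))) -
        -(β * (((K : ℝ) + n) * √((K : ℝ) + n))) = -(β * (f (n + 1) - f n)) := by
      simp only [hf]; ring
    rw [e, abs_neg, abs_of_nonneg (mul_nonneg hβ (by linarith [hmono n]))]
    apply le_of_eq
    ring
  refine (Finset.sum_le_sum h1).trans ?_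
  rw [← Finset.mul_sum, Finset.sum_range_sub]
  have hf0 : 0 ≤ f 0 := by simp only [hf]; positivity
  have hfN : f N ≤ 2 * √2 * (K * √(K : ℝ)) := by
    have h2 : (K : ℝ) + N ≤ 2 * K := by
      have : (N : ℝ) ≤ K := by exact_mod_cast hN
      linarith
    have h3 : √((K : ℝ) + N) ≤ √2 * √(K : ℝ) := by
      rw [← Real.sqrt_mul (by norm_num)]
      exact Real.sqrt_le_sqrt h2
    calc f N ≤ (2 * K) * (√2 * √(K : ℝ)) :=
          mul_le_mul h2 h3 (Real.sqrt_nonneg _) (by positivity)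
      _ = _ := by ring
  have hpi : Real.pi ≤ 3.15 := by
    have := Real.pi_lt_d2
    linarith
  have hs2 : √(2 : ℝ) ≤ 1.42 := by
    rw [Real.sqrt_le_left (by norm_num)]
    norm_num
  have hs0 : 0 ≤ √(2 : ℝ) := Real.sqrt_nonneg 2
  have hK : 0 ≤ (K : ℝ) * √(K : ℝ) := by positivity
  have h4 : 2 * Real.pi * β * (f N - f 0) ≤ 2 * Real.pi * β * (2 * √2 * (K * √(K : ℝ))) :=
    mul_le_mul_of_nonneg_left (by linarith) (by positivity)
  refine h4.trans ?_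
  have h5 : 2 * Real.pi * (2 * √2) ≤ 18 := by
    have : Real.pi * √2 ≤ 3.15 * 1.42 := mul_le_mul hpi hs2 hs0 (by norm_num)
    nlinarith
  calc 2 * Real.pi * β * (2 * √2 * (K * √(K : ℝ)))
      = (2 * Real.pi * (2 * √2)) * (β * (K * √(K : ℝ))) := by ring
    _ ≤ 18 * (β * (K * √(K : ℝ))) := mul_le_mul_of_nonneg_right h5 (mul_nonneg hβ hK)

theorem lemDb_of (κ : ℝ)
    (hD : ∃ c C : ℝ, 0 < c ∧ c ≤ 1 / 4 ∧ 0 < C ∧
      ∀ (α : ℝ) (K N : ℕ), 1 ≤ K → N ≤ K → (K : ℝ) ^ (1 / 2 + κ) ≤ α → α ≤ (K : ℝ) ^ 2 →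
      ‖∑ n ∈ range N, ee (α * √((K : ℝ) + n))‖ ≤ C * (√(α * √(K : ℝ)) * (K : ℝ) ^ (-c))) :
    ∃ c C : ℝ, 0 < c ∧ c ≤ 1 / 4 ∧ 0 < C ∧
    ∀ (α β : ℝ) (K N : ℕ), 1 ≤ K → N ≤ K → 0 ≤ β → (K : ℝ) ^ (1 / 2 + κ) ≤ α → α ≤ (K : ℝ) ^ 2 →
    ‖∑ n ∈ range N, ee (α * √((K : ℝ) + n) - β * (((K : ℝ) + n) * √((K : ℝ) + n)))‖ ≤
      C * ((1 + β * (K * √(K : ℝ))) * (√(α * √(K : ℝ)) * (K : ℝ) ^ (-c))) := by
  obtain ⟨c, C, hc, hc4, hC, h⟩ := hD
  refine ⟨c, 18 * C, hc, hc4, by positivity, ?_⟩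
  intro α β K N hK hN hβ hα hα2
  set B : ℝ := C * (√(α * √(K : ℝ)) * (K : ℝ) ^ (-c)) with hBd
  have hB0 : 0 ≤ B := by positivity
  have h1 := H1_abel (fun n => ee (α * √((K : ℝ) + n)))
    (fun n => ee (-(β * (((K : ℝ) + n) * √((K : ℝ) + n))))) (fun n => (norm_ee _).le) B N
    (fun n hn => h α K n hK (hn.trans hN) hα hα2)
  have h2 := H1_var β hβ K N hN
  have e1 : ∑ n ∈ range N, ee (α * √((K : ℝ) + n) - β * (((K : ℝ) + n) * √((K : ℝ) + n))) =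
      ∑ n ∈ range N, ee (-(β * (((K : ℝ) + n) * √((K : ℝ) + n)))) * ee (α * √((K : ℝ) + n)) := by
    refine Finset.sum_congr rfl fun n _ => ?_
    rw [← ee_add]
    congr 1
    ring
  rw [e1]
  refine h1.trans ?_
  have hX : 0 ≤ β * (K * √(K : ℝ)) := by positivity
  calc (1 + ∑ n ∈ range N, ‖ee (-(β * (((K : ℝ) + (n + 1 : ℕ)) * √((K : ℝ) + (n + 1 : ℕ))))) -
      ee (-(β * (((K : ℝ) + n) * √((K : ℝ) + n))))‖) * B
      ≤ (1 + 18 * (β * (K * √(K : ℝ)))) * B :=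
        mul_le_mul_of_nonneg_right (by linarith) hB0
    _ ≤ (18 * (1 + β * (K * √(K : ℝ)))) * B :=
        mul_le_mul_of_nonneg_right (by linarith) hB0
    _ = 18 * C * ((1 + β * (K * √(K : ℝ))) * (√(α * √(K : ℝ)) * (K : ℝ) ^ (-c))) := by
        rw [hBd]; ring

theorem lemDb (κ : ℝ) (hκ : 0 < κ) (hκ1 : κ ≤ 1) : ∃ c C : ℝ, 0 < c ∧ c ≤ 1 / 4 ∧ 0 < C ∧
    ∀ (α β : ℝ) (K N : ℕ), 1 ≤ K → N ≤ K → 0 ≤ β → (K : ℝ) ^ (1 / 2 + κ) ≤ α → α ≤ (K : ℝ) ^ 2 →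
    ‖∑ n ∈ range N, ee (α * √((K : ℝ) + n) - β * (((K : ℝ) + n) * √((K : ℝ) + n)))‖ ≤
      C * ((1 + β * (K * √(K : ℝ))) * (√(α * √(K : ℝ)) * (K : ℝ) ^ (-c))) :=
  lemDb_of κ (lemD κ hκ hκ1)

end T12
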