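import Pool.Agent.Lib.MP_39df77_nt.T12.Defs

/-!
# The function of the Poisson summation: continuity, decay, Fourier transform
-/

set_option autoImplicit false

namespace T12

open MeasureTheory Set Filter Asymptotics Pool.Agent.Lib.MP_4ae430_nt
open scoped FourierTransform Topology

/-- the function of the Poisson summation -/
noncomputable def gp (α y1 y2 x : ℝ) : ℂ :=
  if 0 ≤ x then (W y1 y2 (√x) : ℂ) * ee (α * √x) - (W y1 y2 (-√x) : ℂ) * ee (-(α * √x)) else 0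

theorem PF_W_cont (y1 y2 : ℝ) : Continuous (W y1 y2) := by
  unfold W
  exact intervalIntegral.continuous_parametric_intervalIntegral_of_continuous' (by fun_prop) y1 y2

theorem PF_ee_cont : Continuous ee := by
  unfold ee
  fun_prop

theorem PF_norm_ee (x : ℝ) : ‖ee x‖ = 1 := norm_ee x

theorem gp_cont (α y1 y2 : ℝ) : Continuous (gp α y1 y2) := by
  have h0 : gp α y1 y2 = fun x =>
      (W y1 y2 (√x) : ℂ) * ee (α * √x) - (W y1 y2 (-√x) : ℂ) * ee (-(α * √x)) := by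
    funext x
    unfold gp
    split_ifs with h
    · rfl
    · rw [Real.sqrt_eq_zero_of_nonpos (le_of_lt (not_le.mp h))]
      simp
  rw [h0]
  have h1 := PF_W_cont y1 y2
  have h2 := PF_ee_cont
  fun_prop

theorem gp_nonpos (α y1 y2 : ℝ) {x : ℝ} (hx : x ≤ 0) : gp α y1 y2 x = 0 := by
  unfold gp
  rw [Real.sqrt_eq_zero_of_nonpos hx]
  simp

theorem PF_W_bd (y1 y2 y : ℝ) (hy : 2 * max |y1| |y2| ≤ |y|) :
    |W y1 y2 y| ≤ Real.exp (-(Real.pi / 4 * y ^ 2)) * |y2 - y1| := by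
  unfold W
  rw [← Real.norm_eq_abs]
  apply intervalIntegral.norm_integral_le_of_norm_le_const
  intro v hv
  rw [Real.norm_eq_abs, Real.abs_exp]
  apply Real.exp_le_exp.mpr
  have hv' : |v| ≤ max |y1| |y2| := by
    rcases le_total y1 y2 with h | h
    · rw [uIoc_of_le h] at hv
      exact abs_le_max_abs_abs hv.1.le hv.2
    · rw [uIoc_of_ge h] at hv
      rw [max_comm]
      exact abs_le_max_abs_abs hv.1.le hv.2
  have h1 : |y| / 2 ≤ |y - v| := by
    have := abs_sub_abs_le_abs_sub y v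
    linarith
  have h2 : (|y| / 2) ^ 2 ≤ |y - v| ^ 2 := pow_le_pow_left₀ (by positivity) h1 2
  rw [sq_abs, div_pow, sq_abs] at h2
  have h3 := Real.pi_pos
  nlinarith

theorem gp_bd (α y1 y2 x : ℝ) (hx : (2 * max |y1| |y2|) ^ 2 ≤ x) :
    ‖gp α y1 y2 x‖ ≤ 2 * |y2 - y1| * Real.exp (-(Real.pi / 4) * x) := by
  have hx0 : 0 ≤ x := (sq_nonneg _).trans hx
  have hY : 0 ≤ 2 * max |y1| |y2| := by positivity
  have h1 : 2 * max |y1| |y2| ≤ √x := Real.le_sqrt_of_sq_le hx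
  have h2 : 2 * max |y1| |y2| ≤ |√x| := by rwa [abs_of_nonneg (Real.sqrt_nonneg x)]
  have h3 : 2 * max |y1| |y2| ≤ |(-√x)| := by rwa [abs_neg]
  have h4 := PF_W_bd y1 y2 _ h2
  have h5 := PF_W_bd y1 y2 _ h3
  rw [Real.sq_sqrt hx0] at h4
  rw [neg_sq, Real.sq_sqrt hx0] at h5
  unfold gp
  rw [if_pos hx0]
  refine (norm_sub_le _ _).trans ?_
  rw [norm_mul, norm_mul, PF_norm_ee, PF_norm_ee, Complex.norm_real, Complex.norm_real,
    Real.norm_eq_abs, Real.norm_eq_abs, mul_one, mul_one, neg_mul]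
  linarith

theorem gp_decay (α y1 y2 b : ℝ) :
    gp α y1 y2 =O[Filter.cocompact ℝ] (fun x : ℝ => |x| ^ (-b)) := by
  rw [cocompact_eq_atBot_atTop, isBigO_sup]
  constructor
  · refine IsBigO.of_bound 1 ?_
    filter_upwards [eventually_le_atBot 0] with x hx
    rw [gp_nonpos α y1 y2 hx, norm_zero]
    positivity
  · have h1 : gp α y1 y2 =O[atTop] (fun x : ℝ => Real.exp (-(Real.pi / 4) * x)) := by
      refine IsBigO.of_bound (2 * |y2 - y1|) ?_
      filter_upwards [eventually_ge_atTop ((2 * max |y1| |y2|) ^ 2)] with x hx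
      rw [Real.norm_eq_abs, Real.abs_exp]
      exact gp_bd α y1 y2 x hx
    have h2 := (isLittleO_exp_neg_mul_rpow_atTop (a := Real.pi / 4) (by positivity) (-b)).isBigO
    refine (h1.trans h2).congr' (EventuallyEq.refl _ _) ?_
    filter_upwards [eventually_ge_atTop 0] with x hx
    rw [abs_of_nonneg hx]

/-- the integrand -/
noncomputable def fF (α ξ v y : ℝ) : ℂ :=
  (2 * y : ℂ) * ((Real.exp (-(Real.pi * (y - v) ^ 2)) : ℝ) : ℂ) * ee (α * y - ξ * y ^ 2)

theorem fF_norm (α ξ v y : ℝ) :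
    ‖fF α ξ v y‖ ≤ Real.exp (Real.pi * v ^ 2) * ‖2 * (y * Real.exp (-(Real.pi / 2) * y ^ 2))‖ := by
  unfold fF
  rw [norm_mul, norm_mul, PF_norm_ee, mul_one, norm_mul, Complex.norm_real, Complex.norm_real,
    Real.norm_eq_abs, Real.norm_eq_abs, Real.abs_exp, norm_mul, norm_mul, Real.norm_eq_abs,
    Real.norm_eq_abs, Real.norm_eq_abs, Real.abs_exp]
  have h1 : Real.exp (-(Real.pi * (y - v) ^ 2)) ≤
      Real.exp (Real.pi * v ^ 2) * Real.exp (-(Real.pi / 2) * y ^ 2) := by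
    rw [← Real.exp_add]
    apply Real.exp_le_exp.mpr
    have := mul_nonneg Real.pi_pos.le (sq_nonneg (y - 2 * v))
    nlinarith
  have h2 : ‖(2 : ℂ)‖ = |(2 : ℝ)| := by norm_num
  rw [h2]
  calc |(2 : ℝ)| * |y| * Real.exp (-(Real.pi * (y - v) ^ 2))
      ≤ |(2 : ℝ)| * |y| * (Real.exp (Real.pi * v ^ 2) * Real.exp (-(Real.pi / 2) * y ^ 2)) :=
        mul_le_mul_of_nonneg_left h1 (by positivity)
    _ = _ := by ring

theorem fF_cont (α ξ : ℝ) : Continuous (Function.uncurry (fF α ξ)) := by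
  have h2 := PF_ee_cont
  unfold fF Function.uncurry
  fun_prop

theorem fF_int (α ξ y1 y2 : ℝ) : Integrable (Function.uncurry (fF α ξ))
    ((volume.restrict (Ioc y1 y2)).prod volume) := by
  have h1 : Integrable (fun v : ℝ => Real.exp (Real.pi * v ^ 2)) (volume.restrict (Ioc y1 y2)) := by
    have : Continuous (fun v : ℝ => Real.exp (Real.pi * v ^ 2)) := by fun_prop
    exact this.integrableOn_Ioc
  have h2 : Integrable (fun y : ℝ => ‖2 * (y * Real.exp (-(Real.pi / 2) * y ^ 2))‖) volume :=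
    ((integrable_mul_exp_neg_mul_sq (b := Real.pi / 2) (by positivity)).const_mul 2).norm
  refine (h1.mul_prod h2).mono' (fF_cont α ξ).aestronglyMeasurable ?_
  exact Filter.Eventually.of_forall fun z => fF_norm α ξ z.1 z.2

/-- the smoothed integrand -/
noncomputable def PFF (α ξ y1 y2 y : ℝ) : ℂ :=
  (2 * y : ℂ) * (W y1 y2 y : ℂ) * ee (α * y - ξ * y ^ 2)

theorem PFF_eq (α ξ : ℝ) {y1 y2 : ℝ} (h : y1 ≤ y2) (y : ℝ) :
    PFF α ξ y1 y2 y = ∫ v in Ioc y1 y2, fF α ξ v y := by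
  rw [← intervalIntegral.integral_of_le h]
  unfold PFF fF W
  rw [intervalIntegral.integral_mul_const, intervalIntegral.integral_const_mul,
    intervalIntegral.integral_ofReal]

theorem PFF_int (α ξ : ℝ) {y1 y2 : ℝ} (h : y1 ≤ y2) : Integrable (PFF α ξ y1 y2) := by
  have h1 := (fF_int α ξ y1 y2).integral_prod_right
  refine h1.congr ?_
  exact Filter.Eventually.of_forall fun y => (PFF_eq α ξ h y).symm

theorem PFF_integral (hG : ∀ α v ξ : ℝ, ∫ y : ℝ, (2 * y : ℂ) *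
      ((Real.exp (-(Real.pi * (y - v) ^ 2)) : ℝ) : ℂ) * ee (α * y - ξ * y ^ 2) = gh α v ξ)
    (α ξ : ℝ) {y1 y2 : ℝ} (h : y1 ≤ y2) : ∫ y, PFF α ξ y1 y2 y = ∫ v in y1..y2, gh α v ξ := by
  rw [intervalIntegral.integral_of_le h]
  calc ∫ y, PFF α ξ y1 y2 y = ∫ y, ∫ v in Ioc y1 y2, fF α ξ v y := by
        congr 1
        funext y
        exact PFF_eq α ξ h y
    _ = ∫ v in Ioc y1 y2, ∫ y, fF α ξ v y := (integral_integral_swap (fF_int α ξ y1 y2)).symm
    _ = ∫ v in Ioc y1 y2, gh α v ξ := by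
        congr 1
        funext v
        exact hG α v ξ

theorem gp_fourier (hG : ∀ α v ξ : ℝ, ∫ y : ℝ, (2 * y : ℂ) *
      ((Real.exp (-(Real.pi * (y - v) ^ 2)) : ℝ) : ℂ) * ee (α * y - ξ * y ^ 2) = gh α v ξ)
    {y1 y2 : ℝ} (h : y1 ≤ y2) (α ξ : ℝ) :
    𝓕 (gp α y1 y2) ξ = ∫ v in y1..y2, gh α v ξ := by
  rw [← PFF_integral hG α ξ h, Real.fourier_real_eq_integral_exp_smul]
  have h1 : ∫ x : ℝ, Complex.exp (((-2 * Real.pi * x * ξ : ℝ) : ℂ) * Complex.I) • gp α y1 y2 x =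
      ∫ x in Ioi (0 : ℝ), Complex.exp (((-2 * Real.pi * x * ξ : ℝ) : ℂ) * Complex.I) • gp α y1 y2 x := by
    symm
    apply setIntegral_eq_integral_of_forall_compl_eq_zero
    intro x hx
    rw [gp_nonpos α y1 y2 (not_lt.mp hx), smul_zero]
  rw [h1, ← integral_comp_rpow_Ioi_of_pos (p := 2) (by norm_num)]
  have h2 : ∀ x ∈ Ioi (0 : ℝ), ((2 : ℝ) * x ^ ((2 : ℝ) - 1)) •
      (Complex.exp (((-2 * Real.pi * (x ^ (2 : ℝ)) * ξ : ℝ) : ℂ) * Complex.I) •
        gp α y1 y2 (x ^ (2 : ℝ))) = PFF α ξ y1 y2 x + PFF α ξ y1 y2 (-x) := by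
    intro x hx
    have hx0 : (0 : ℝ) < x := hx
    have h3 : x ^ ((2 : ℝ) - 1) = x := by
      rw [show (2 : ℝ) - 1 = 1 by norm_num, Real.rpow_one]
    have h4 : x ^ (2 : ℝ) = x ^ 2 := by norm_cast
    have h5 : Complex.exp (((-2 * Real.pi * (x ^ 2) * ξ : ℝ) : ℂ) * Complex.I) = ee (-(ξ * x ^ 2)) := by
      unfold ee
      congr 2
      push_cast
      ring
    rw [h3, h4, h5]
    unfold gp PFF
    rw [if_pos (sq_nonneg x), Real.sqrt_sq hx0.le, sub_eq_add_neg (α * x), ee_add,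
      show α * -x - ξ * (-x) ^ 2 = -(α * x) + -(ξ * x ^ 2) by ring, ee_add, smul_eq_mul,
      Complex.real_smul]
    push_cast
    ring
  rw [setIntegral_congr_fun measurableSet_Ioi h2]
  have hi := PFF_int α ξ h
  rw [integral_add hi.integrableOn hi.comp_neg.integrableOn, integral_comp_neg_Ioi, neg_zero,
    add_comm, intervalIntegral.integral_Iic_add_Ioi hi.integrableOn hi.integrableOn]

end T12
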