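import Pool.Agent.Lib.MP_39df77_nt.T12.Defs

set_option autoImplicit false

namespace T12

open Finset Complex MeasureTheory Set Pool.Agent.Lib.MP_4ae430_nt

theorem Wn_int : Integrable (fun u : ℝ => Real.exp (-(Real.pi * u ^ 2))) := by
  have h := integrable_exp_neg_mul_sq Real.pi_pos
  simpa [neg_mul] using h

theorem Wn_one : ∫ u : ℝ, Real.exp (-(Real.pi * u ^ 2)) = 1 := by
  have h := integral_gaussian Real.pi
  rw [div_self Real.pi_pos.ne', Real.sqrt_one] at h
  simpa [neg_mul] using h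

theorem Wn_tail {z : ℝ} (hz : 0 ≤ z) :
    ∫ u in Ioi z, Real.exp (-(Real.pi * u ^ 2)) ≤ Real.exp (-(Real.pi * z ^ 2)) := by
  have hsh : Integrable (fun u : ℝ => Real.exp (-(Real.pi * (u - z) ^ 2))) :=
    Wn_int.comp_sub_right z
  have h1 : ∫ u in Ioi z, Real.exp (-(Real.pi * u ^ 2)) ≤
      ∫ u in Ioi z, Real.exp (-(Real.pi * z ^ 2)) * Real.exp (-(Real.pi * (u - z) ^ 2)) := by
    apply setIntegral_mono_on Wn_int.integrableOn (hsh.const_mul _).integrableOn measurableSet_Ioi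
    intro u hu
    rw [← Real.exp_add]
    apply Real.exp_le_exp.mpr
    have hu' : z < u := hu
    have : 0 ≤ Real.pi * (2 * z * (u - z)) := by
      have := Real.pi_pos
      have h2 : 0 ≤ u - z := by linarith
      positivity
    nlinarith
  have h2 : ∫ u in Ioi z, Real.exp (-(Real.pi * z ^ 2)) * Real.exp (-(Real.pi * (u - z) ^ 2)) ≤
      ∫ u, Real.exp (-(Real.pi * z ^ 2)) * Real.exp (-(Real.pi * (u - z) ^ 2)) := by
    apply setIntegral_le_integral (hsh.const_mul _)
    exact Filter.Eventually.of_forall fun u => by positivity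
  have h3 : ∫ u, Real.exp (-(Real.pi * z ^ 2)) * Real.exp (-(Real.pi * (u - z) ^ 2)) =
      Real.exp (-(Real.pi * z ^ 2)) := by
    rw [integral_const_mul,
      integral_sub_right_eq_self (fun u : ℝ => Real.exp (-(Real.pi * u ^ 2))) z, Wn_one, mul_one]
  linarith

theorem Wn_tail' {z : ℝ} (hz : z ≤ 0) :
    ∫ u in Iic z, Real.exp (-(Real.pi * u ^ 2)) ≤ Real.exp (-(Real.pi * z ^ 2)) := by
  have h := integral_comp_neg_Ioi (-z) (fun u : ℝ => Real.exp (-(Real.pi * u ^ 2)))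
  rw [neg_neg] at h
  rw [← h]
  have h2 := Wn_tail (z := -z) (by linarith)
  simpa using h2

theorem Wn_eq (y1 y2 y : ℝ) :
    W y1 y2 y = ∫ u in (y - y2)..(y - y1), Real.exp (-(Real.pi * u ^ 2)) := by
  unfold W
  exact intervalIntegral.integral_comp_sub_left (fun u : ℝ => Real.exp (-(Real.pi * u ^ 2))) y

theorem W_nonneg {y1 y2 : ℝ} (h : y1 ≤ y2) (y : ℝ) : 0 ≤ W y1 y2 y := by
  unfold W
  exact intervalIntegral.integral_nonneg h fun u _ => (Real.exp_pos _).le

theorem W_cont (y1 y2 : ℝ) : Continuous (W y1 y2) := by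
  unfold W
  apply intervalIntegral.continuous_parametric_intervalIntegral_of_continuous'
  fun_prop

/-- distance to the indicator -/
theorem W_err {y1 y2 : ℝ} (h : y1 ≤ y2) (y : ℝ) :
    |W y1 y2 y - (if y1 ≤ y ∧ y < y2 then 1 else 0)| ≤
      Real.exp (-(Real.pi * (y - y1) ^ 2)) + Real.exp (-(Real.pi * (y - y2) ^ 2)) := by
  have hle : y - y2 ≤ y - y1 := by linarith
  have h0 := W_nonneg h y
  have e1 := Real.exp_pos (-(Real.pi * (y - y1) ^ 2))
  have e2 := Real.exp_pos (-(Real.pi * (y - y2) ^ 2))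
  have hW := Wn_eq y1 y2 y
  rw [intervalIntegral.integral_of_le hle] at hW
  split_ifs with hy
  · -- inside
    have hA : ∫ u in Iic (y - y1), Real.exp (-(Real.pi * u ^ 2)) =
        (∫ u in Iic (y - y2), Real.exp (-(Real.pi * u ^ 2))) +
          ∫ u in Ioc (y - y2) (y - y1), Real.exp (-(Real.pi * u ^ 2)) := by
      rw [← setIntegral_union (Iic_disjoint_Ioc le_rfl) measurableSet_Ioc Wn_int.integrableOn
        Wn_int.integrableOn, Iic_union_Ioc_eq_Iic hle]
    have hB : (∫ u in Iic (y - y1), Real.exp (-(Real.pi * u ^ 2))) +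
        ∫ u in Ioi (y - y1), Real.exp (-(Real.pi * u ^ 2)) = 1 := by
      rw [← Wn_one, ← setIntegral_union (Iic_disjoint_Ioi le_rfl) measurableSet_Ioi
        Wn_int.integrableOn Wn_int.integrableOn, Iic_union_Ioi, Measure.restrict_univ]
    have t1 := Wn_tail (z := y - y1) (by linarith [hy.1])
    have t2 := Wn_tail' (z := y - y2) (by linarith [hy.2])
    have t3 : 0 ≤ ∫ u in Iic (y - y2), Real.exp (-(Real.pi * u ^ 2)) :=
      setIntegral_nonneg measurableSet_Iic fun u _ => (Real.exp_pos _).le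
    have t4 : 0 ≤ ∫ u in Ioi (y - y1), Real.exp (-(Real.pi * u ^ 2)) :=
      setIntegral_nonneg measurableSet_Ioi fun u _ => (Real.exp_pos _).le
    rw [abs_le]
    constructor <;> linarith
  · rw [sub_zero, abs_of_nonneg h0]
    by_cases hy1 : y1 ≤ y
    · have hy2 : y2 ≤ y := by
        by_contra hc
        exact hy ⟨hy1, not_le.mp hc⟩
      have t1 := Wn_tail (z := y - y2) (by linarith)
      have t2 : ∫ u in Ioc (y - y2) (y - y1), Real.exp (-(Real.pi * u ^ 2)) ≤
          ∫ u in Ioi (y - y2), Real.exp (-(Real.pi * u ^ 2)) := by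
        apply setIntegral_mono_set Wn_int.integrableOn
        · exact Filter.Eventually.of_forall fun u => (Real.exp_pos _).le
        · exact Ioc_subset_Ioi_self.eventuallyLE
      linarith
    · have t1 := Wn_tail' (z := y - y1) (by linarith [not_le.mp hy1])
      have t2 : ∫ u in Ioc (y - y2) (y - y1), Real.exp (-(Real.pi * u ^ 2)) ≤
          ∫ u in Iic (y - y1), Real.exp (-(Real.pi * u ^ 2)) := by
        apply setIntegral_mono_set Wn_int.integrableOn
        · exact Filter.Eventually.of_forall fun u => (Real.exp_pos _).le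
        · exact Ioc_subset_Iic_self.eventuallyLE
      linarith

theorem Wn_exp (z : ℝ) : (1 + |z|) * (1 + z ^ 2) * Real.exp (-(Real.pi * z ^ 2)) ≤ 3 / 2 := by
  have h1 : 1 + Real.pi * z ^ 2 + (Real.pi * z ^ 2) ^ 2 / 2 ≤ Real.exp (Real.pi * z ^ 2) :=
    Real.quadratic_le_exp_of_nonneg (by positivity)
  have h2 : |z| ≤ (1 + z ^ 2) / 2 := by
    nlinarith [sq_nonneg (|z| - 1), sq_abs z]
  have hpi := Real.pi_gt_three
  have h3 : (1 + |z|) * (1 + z ^ 2) ≤ 3 / 2 * Real.exp (Real.pi * z ^ 2) := by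
    have h4 : (1 + |z|) * (1 + z ^ 2) ≤ (1 + (1 + z ^ 2) / 2) * (1 + z ^ 2) := by
      apply mul_le_mul_of_nonneg_right _ (by positivity)
      linarith
    have h5 : 3 * z ^ 2 ≤ Real.pi * z ^ 2 := mul_le_mul_of_nonneg_right hpi.le (by positivity)
    have h6 : (3 * z ^ 2) ^ 2 ≤ (Real.pi * z ^ 2) ^ 2 := by
      apply pow_le_pow_left₀ (by positivity) h5
    nlinarith [sq_nonneg z, sq_nonneg (z ^ 2)]
  rw [Real.exp_neg]
  rw [← div_eq_mul_inv, div_le_iff₀ (Real.exp_pos _)]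
  exact h3

theorem Wn_step {a : ℝ} (ha : 0 ≤ a) (k : ℕ) :
    Real.exp (-(Real.pi * (√((k : ℝ) + 1) - a) ^ 2)) ≤
      9 * (1 + a) * (Real.arctan (√((k : ℝ) + 1 + 1) - a) - Real.arctan (√((k : ℝ) + 1) - a)) := by
  have hk : (0 : ℝ) < (k : ℝ) + 1 := by positivity
  have hlt : (k : ℝ) + 1 < (k : ℝ) + 1 + 1 := by linarith
  obtain ⟨x, hx, hx2⟩ := exists_hasDerivAt_eq_slope (fun x : ℝ => Real.arctan (√x - a))
    (fun x : ℝ => 1 / (1 + (√x - a) ^ 2) * (1 / (2 * √x))) hlt
    (by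
      apply Continuous.continuousOn
      fun_prop)
    (by
      intro x hx
      have hx0 : x ≠ 0 := (hk.trans hx.1).ne'
      have h1 : HasDerivAt (fun x : ℝ => √x - a) (1 / (2 * √x)) x :=
        (Real.hasDerivAt_sqrt hx0).sub_const a
      exact h1.arctan)
  have hx0 : 0 < x := hk.trans hx.1
  have hsx : 0 < √x := Real.sqrt_pos.mpr hx0
  rw [add_sub_cancel_left, div_one] at hx2
  rw [← hx2]
  set z : ℝ := √((k : ℝ) + 1) - a with hz
  have hs1 : √((k : ℝ) + 1) ≤ √x := Real.sqrt_le_sqrt hx.1.le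
  have hs2 : √x ≤ √((k : ℝ) + 1) + 1 := by
    rw [Real.sqrt_le_left (by positivity)]
    have := Real.sq_sqrt hk.le
    nlinarith [hx.2, Real.sqrt_nonneg ((k : ℝ) + 1)]
  have hz1 : √x - a ≤ |z| + 1 := by
    have := le_abs_self z
    linarith
  have hz2 : -(|z| + 1) ≤ √x - a := by
    have := neg_abs_le z
    linarith
  have hzs : (√x - a) ^ 2 ≤ (|z| + 1) ^ 2 := by
    apply sq_le_sq'
    · linarith
    · linarith
  have hb1 : 1 + (√x - a) ^ 2 ≤ 3 * (1 + z ^ 2) := by
    nlinarith [sq_abs z, sq_nonneg (|z| - 1)]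
  have hb2 : √x ≤ (1 + a) * (1 + |z|) := by
    have h1 : √((k : ℝ) + 1) ≤ |z| + a := by
      have := le_abs_self z
      linarith
    nlinarith [abs_nonneg z, mul_nonneg ha (abs_nonneg z)]
  have hb3 : (1 + (√x - a) ^ 2) * √x ≤ 3 * (1 + a) * ((1 + |z|) * (1 + z ^ 2)) := by
    have := mul_le_mul hb1 hb2 hsx.le (by positivity)
    linarith
  have hb4 := Wn_exp z
  have hpos : 0 < (1 + (√x - a) ^ 2) * √x := by positivity
  have hkey : Real.exp (-(Real.pi * z ^ 2)) * ((1 + (√x - a) ^ 2) * √x) ≤ 9 / 2 * (1 + a) := by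
    calc Real.exp (-(Real.pi * z ^ 2)) * ((1 + (√x - a) ^ 2) * √x)
        ≤ Real.exp (-(Real.pi * z ^ 2)) * (3 * (1 + a) * ((1 + |z|) * (1 + z ^ 2))) :=
          mul_le_mul_of_nonneg_left hb3 (Real.exp_pos _).le
      _ = 3 * (1 + a) * ((1 + |z|) * (1 + z ^ 2) * Real.exp (-(Real.pi * z ^ 2))) := by ring
      _ ≤ 3 * (1 + a) * (3 / 2) := by
          apply mul_le_mul_of_nonneg_left hb4 (by positivity)
      _ = 9 / 2 * (1 + a) := by ring
  rw [← le_div_iff₀ hpos] at hkey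
  refine hkey.trans (le_of_eq ?_)
  field_simp

theorem sum_gauss : ∃ C : ℝ, 0 < C ∧ ∀ a : ℝ, 0 ≤ a →
    Summable (fun k : ℕ => Real.exp (-(Real.pi * (√((k : ℝ) + 1) - a) ^ 2))) ∧
    ∑' k : ℕ, Real.exp (-(Real.pi * (√((k : ℝ) + 1) - a) ^ 2)) ≤ C * (1 + a) := by
  refine ⟨9 * Real.pi, by positivity, ?_⟩
  intro a ha
  have hb : ∀ n : ℕ, ∑ k ∈ Finset.range n, Real.exp (-(Real.pi * (√((k : ℝ) + 1) - a) ^ 2)) ≤
      9 * Real.pi * (1 + a) := by
    intro n
    have h1 : ∑ k ∈ Finset.range n, Real.exp (-(Real.pi * (√((k : ℝ) + 1) - a) ^ 2)) ≤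
        ∑ k ∈ Finset.range n, 9 * (1 + a) *
          (Real.arctan (√(((k + 1 : ℕ) : ℝ) + 1) - a) - Real.arctan (√((k : ℝ) + 1) - a)) := by
      apply Finset.sum_le_sum
      intro k _
      have := Wn_step ha k
      push_cast
      exact this
    rw [← Finset.mul_sum, Finset.sum_range_sub
      (fun k : ℕ => Real.arctan (√((k : ℝ) + 1) - a))] at h1
    have h2 : ∀ p q : ℝ, Real.arctan p - Real.arctan q ≤ Real.pi := by
      intro p q
      have h3 := Real.arctan_lt_pi_div_two p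
      have h4 := Real.neg_pi_div_two_lt_arctan q
      linarith
    refine h1.trans ((mul_le_mul_of_nonneg_left (h2 _ _) (by positivity)).trans (le_of_eq ?_))
    ring
  constructor
  · exact summable_of_sum_range_le (fun k => (Real.exp_pos _).le) hb
  · exact Real.tsum_le_of_sum_range_le (fun k => (Real.exp_pos _).le) hb

end T12
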